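import Pool.Agent.Lib.MP_38cb75_co.Defs

/-! JOB BASIC: elementary facts on `Solves`. -/

set_option autoImplicit false

namespace Pool.MP_38cb75_co.GT

variable {α : Type*} [DecidableEq α]

/-- A subfamily of a solvable family is solvable. Induction on `t`. -/
theorem Solves.mono_set {t : ℕ} {F G : Set (Finset α)} (h : F ⊆ G) (hG : Solves t G) :
    Solves t F := by
  induction t generalizing F G with
  | zero => exact Set.Subsingleton.anti hG h
  | succ t ih =>
    obtain ⟨S, h1, h2⟩ := hG
    refine ⟨S, ih ?_ h1, ih ?_ h2⟩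
    · intro D hD
      exact ⟨h hD.1, hD.2⟩
    · intro D hD
      exact ⟨h hD.1, hD.2⟩

/-- Every subsingleton family is solved with any number of tests. Induction on `t`. -/
theorem Solves.of_subsingleton {F : Set (Finset α)} (h : F.Subsingleton) (t : ℕ) : Solves t F := by
  induction t generalizing F with
  | zero => exact h
  | succ t ih =>
    exact ⟨∅, ih (h.anti fun D hD => hD.1), ih (h.anti fun D hD => hD.1)⟩

theorem Solves.succ {t : ℕ} {F : Set (Finset α)} (h : Solves t F) : Solves (t + 1) F :=
  ⟨∅, Solves.mono_set (fun _ hD => hD.1) h, Solves.mono_set (fun _ hD => hD.1) h⟩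

theorem Solves.mono {t t' : ℕ} {F : Set (Finset α)} (h : Solves t F) (ht : t ≤ t') :
    Solves t' F := by
  induction ht with
  | refl => exact h
  | step _ ih => exact ih.succ

/-- Revealing that all items of `R` are defective.  Induction on `t`: if the test `S` meets `R`,
all members are positive, use `Solves.succ`; otherwise the answer to `S` on `D ∪ R` is the answer
on `D`. -/
theorem Solves.reveal {t : ℕ} {F : Set (Finset α)} (R : Finset α) (h : Solves t F) :
    Solves t {D | Disjoint D R ∧ D ∪ R ∈ F} := by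
  induction t generalizing F with
  | zero =>
    intro D hD D' hD'
    have h1 : D ∪ R = D' ∪ R := h hD.2 hD'.2
    have h2 : (D ∪ R) \ R = D := by
      rw [Finset.union_sdiff_right]; exact Finset.sdiff_eq_self_of_disjoint hD.1
    have h3 : (D' ∪ R) \ R = D' := by
      rw [Finset.union_sdiff_right]; exact Finset.sdiff_eq_self_of_disjoint hD'.1
    rw [← h2, ← h3, h1]
  | succ t ih =>
    obtain ⟨S, h1, h2⟩ := h
    by_cases hSR : (S ∩ R).Nonempty
    · apply Solves.succ
      refine Solves.mono_set ?_ (ih h1)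
      intro D hD
      refine ⟨hD.1, hD.2, ?_⟩
      exact hSR.mono (Finset.inter_subset_inter_left Finset.subset_union_right)
    · have key : ∀ D : Finset α, (S ∩ (D ∪ R)).Nonempty ↔ (S ∩ D).Nonempty := by
        intro D
        rw [Finset.not_nonempty_iff_eq_empty] at hSR
        rw [Finset.inter_union_distrib_left, hSR, Finset.union_empty]
      refine ⟨S, ?_, ?_⟩
      · refine Solves.mono_set ?_ (ih h1)
        intro D hD
        exact ⟨hD.1.1, hD.1.2, (key D).2 hD.2⟩
      · refine Solves.mono_set ?_ (ih h2)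
        intro D hD
        exact ⟨hD.1.1, hD.1.2, fun h => hD.2 ((key D).1 h)⟩

/-- Information bound. -/
theorem Solves.card_le {t : ℕ} {F : Finset (Finset α)} (h : Solves t (F : Set (Finset α))) :
    F.card ≤ 2 ^ t := by
  induction t generalizing F with
  | zero =>
    rw [pow_zero, Finset.card_le_one]
    intro D hD D' hD'
    exact h hD hD'
  | succ t ih =>
    obtain ⟨S, h1, h2⟩ := h
    have e1 : (F.filter (fun D => (S ∩ D).Nonempty)).card ≤ 2 ^ t := by
      apply ih
      refine Solves.mono_set ?_ h1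
      intro D hD
      rw [Finset.mem_coe, Finset.mem_filter] at hD
      exact ⟨hD.1, hD.2⟩
    have e2 : (F.filter (fun D => ¬ (S ∩ D).Nonempty)).card ≤ 2 ^ t := by
      apply ih
      refine Solves.mono_set ?_ h2
      intro D hD
      rw [Finset.mem_coe, Finset.mem_filter] at hD
      exact ⟨hD.1, hD.2⟩
    have e3 := Finset.card_filter_add_card_filter_not (s := F) (fun D => (S ∩ D).Nonempty)
    rw [pow_succ]
    omega

/-- Relabelling of the items: test `S` is replaced by `(S ∩ V).image f`. -/
theorem Solves.image {γ : Type*} [DecidableEq γ] {t : ℕ} {F : Set (Finset α)} (f : α → γ)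
    (V : Finset α) (hf : Set.InjOn f (V : Set α)) (hV : ∀ D ∈ F, D ⊆ V) (h : Solves t F) :
    Solves t ((fun D : Finset α => D.image f) '' F) := by
  induction t generalizing F with
  | zero =>
    rintro _ ⟨D, hD, rfl⟩ _ ⟨D', hD', rfl⟩
    have : D = D' := h hD hD'
    rw [this]
  | succ t ih =>
    obtain ⟨S, h1, h2⟩ := h
    have key : ∀ D ⊆ V, ((S ∩ V).image f ∩ D.image f).Nonempty ↔ (S ∩ D).Nonempty := by
      intro D hD
      constructor
      · rintro ⟨y, hy⟩
        rw [Finset.mem_inter, Finset.mem_image, Finset.mem_image] at hy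
        obtain ⟨⟨x, hx, rfl⟩, ⟨x', hx', hxx⟩⟩ := hy
        rw [Finset.mem_inter] at hx
        have : x' = x := hf (hD hx') hx.2 hxx
        exact ⟨x, Finset.mem_inter.2 ⟨hx.1, this ▸ hx'⟩⟩
      · rintro ⟨x, hx⟩
        rw [Finset.mem_inter] at hx
        exact ⟨f x, Finset.mem_inter.2 ⟨Finset.mem_image_of_mem f
          (Finset.mem_inter.2 ⟨hx.1, hD hx.2⟩), Finset.mem_image_of_mem f hx.2⟩⟩
    refine ⟨(S ∩ V).image f, ?_, ?_⟩
    · refine Solves.mono_set ?_ (ih (fun D hD => hV D hD.1) h1)
      rintro _ ⟨⟨D, hD, rfl⟩, hne⟩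
      exact ⟨D, ⟨hD, (key D (hV D hD)).1 hne⟩, rfl⟩
    · refine Solves.mono_set ?_ (ih (fun D hD => hV D hD.1) h2)
      rintro _ ⟨⟨D, hD, rfl⟩, hne⟩
      exact ⟨D, ⟨hD, fun h => hne ((key D (hV D hD)).2 h)⟩, rfl⟩

end Pool.MP_38cb75_co.GT
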