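import Pool.Agent.Lib.MP_38cb75_co.Basic

/-! JOB FAM: elementary facts on the families `fam V K b`. -/

set_option autoImplicit false

namespace Pool.MP_38cb75_co.GT

variable {α : Type*} [DecidableEq α]

theorem fam_mono {V : Finset α} {K K' : Finset (Finset α)} {b : ℕ}
    (h : ∀ D ⊆ V, Hits K' D → Hits K D) : fam V K' b ⊆ fam V K b :=
  fun D hD => ⟨hD.1, hD.2.1, h D hD.1 hD.2.2⟩

/-- Without loss of generality the test is a subset of `V`; the positive family is
`fam V (insert S K) b`, the negative one is `fam (V \ S) K b`. -/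
theorem solves_succ_fam {t : ℕ} {V : Finset α} {K : Finset (Finset α)} {b : ℕ}
    (h : Solves (t + 1) (fam V K b)) :
    ∃ S ⊆ V, Solves t (fam V (insert S K) b) ∧ Solves t (fam (V \ S) K b) := by
  obtain ⟨S, h1, h2⟩ := h
  refine ⟨S ∩ V, Finset.inter_subset_right, ?_, ?_⟩
  · refine Solves.mono_set ?_ h1
    intro D hD
    refine ⟨⟨hD.1, hD.2.1, fun e he => hD.2.2 e (Finset.mem_insert_of_mem he)⟩, ?_⟩
    have := hD.2.2 (S ∩ V) (Finset.mem_insert_self _ _)
    exact this.mono (Finset.inter_subset_inter_right Finset.inter_subset_left)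
  · refine Solves.mono_set ?_ h2
    intro D hD
    refine ⟨⟨hD.1.trans Finset.sdiff_subset, hD.2.1, hD.2.2⟩, ?_⟩
    rintro ⟨x, hx⟩
    rw [Finset.mem_inter] at hx
    have h3 := hD.1 hx.2
    rw [Finset.mem_sdiff] at h3
    exact h3.2 (Finset.mem_inter.2 ⟨hx.1, h3.1⟩)

/-- Revealing that `v` is defective (`Solves.reveal` with `R = {v}` and `Solves.mono_set`). -/
theorem solves_bad {t : ℕ} {V : Finset α} {K : Finset (Finset α)} {b : ℕ} {v : α} (hv : v ∈ V)
    (h : Solves t (fam V K (b + 1))) : Solves t (fam (V.erase v) (del K v) b) := by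
  refine Solves.mono_set ?_ (h.reveal {v})
  intro D hD
  have hvD : v ∉ D := fun h => Finset.notMem_erase v V (hD.1 h)
  refine ⟨by simpa using hvD, ?_, ?_, ?_⟩
  · intro x hx
    rw [Finset.mem_union, Finset.mem_singleton] at hx
    rcases hx with hx | rfl
    · exact Finset.mem_of_mem_erase (hD.1 hx)
    · exact hv
  · rw [Finset.card_union_of_disjoint (by simpa using hvD), hD.2.1, Finset.card_singleton]
  · intro e he
    by_cases hve : v ∈ e
    · exact ⟨v, by simp [hve]⟩
    · have h1 : e ∈ del K v := by simp [del, he, hve]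
      exact (hD.2.2 e h1).mono (Finset.inter_subset_inter_left Finset.subset_union_left)

theorem fam_nonempty {V : Finset α} {K : Finset (Finset α)} {b : ℕ} {D : Finset α} (hD : D ⊆ V)
    (hK : Hits K D) (h1 : D.card ≤ b) (h2 : b ≤ V.card) : (fam V K b).Nonempty := by
  obtain ⟨E, hDE, hEV, hE⟩ := Finset.exists_subsuperset_card_eq hD h1 h2
  exact ⟨E, hEV, hE, fun e he => (hK e he).mono (Finset.inter_subset_inter_left hDE)⟩

theorem fam_not_subsingleton {V : Finset α} {K : Finset (Finset α)} {b : ℕ} {D : Finset α}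
    (hD : D ⊆ V) (hK : Hits K D) (h1 : D.card < b) (h2 : b < V.card) :
    ¬ (fam V K b).Subsingleton := by
  intro hsub
  obtain ⟨E, hDE, hEV, hE⟩ := Finset.exists_subsuperset_card_eq hD h1.le h2.le
  obtain ⟨x, hx⟩ : (E \ D).Nonempty := by
    rw [← Finset.card_pos, Finset.card_sdiff_of_subset hDE]; omega
  obtain ⟨y, hy⟩ : (V \ E).Nonempty := by
    rw [← Finset.card_pos, Finset.card_sdiff_of_subset hEV]; omega
  rw [Finset.mem_sdiff] at hx hy
  have hyE : y ∉ E.erase x := fun h => hy.2 (Finset.mem_of_mem_erase h)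
  have hE1 : E ∈ fam V K b :=
    ⟨hEV, hE, fun e he => (hK e he).mono (Finset.inter_subset_inter_left hDE)⟩
  have hE2 : insert y (E.erase x) ∈ fam V K b := by
    refine ⟨?_, ?_, ?_⟩
    · intro z hz
      rw [Finset.mem_insert] at hz
      rcases hz with rfl | hz
      · exact hy.1
      · exact hEV (Finset.mem_of_mem_erase hz)
    · rw [Finset.card_insert_of_notMem hyE, Finset.card_erase_of_mem hx.1]
      omega
    · intro e he
      refine (hK e he).mono (Finset.inter_subset_inter_left ?_)
      intro z hz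
      rw [Finset.mem_insert, Finset.mem_erase]
      right
      exact ⟨fun h => hx.2 (h ▸ hz), hDE hz⟩
  have h3 := hsub hE1 hE2
  have h4 : y ∈ E := by rw [h3]; exact Finset.mem_insert_self _ _
  exact hy.2 h4

end Pool.MP_38cb75_co.GT
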