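import Pool.Agent.Lib.MP_38cb75_co.SumA

/-! JOB SUMB: levels and the Markov inequality. -/

set_option autoImplicit false

namespace Pool.MP_38cb75_co.GT

variable {α : Type*} [DecidableEq α]

/-- Number of sets with `j` elements hitting `K`. -/
theorem lev_eq {p : ℝ} {V : Finset α} {K : Finset (Finset α)} {j : ℕ} :
    lev p V K j = ((V.powersetCard j).filter (Hits K)).card * (p ^ j * (1 - p) ^ (V.card - j)) := by
  unfold lev wsum
  have h1 : ((V.powersetCard j).filter (Hits K)) =
      (V.powerset.filter (Hits K)).filter (fun D => D.card = j) := by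
    ext D
    simp only [Finset.mem_filter, Finset.mem_powersetCard, Finset.mem_powerset]
    tauto
  rw [h1, Finset.card_filter, Nat.cast_sum, Finset.sum_mul]
  apply Finset.sum_congr rfl
  intro D _
  by_cases h : D.card = j
  · simp [h]
  · simp [h]

theorem sum_lev {p : ℝ} {V : Finset α} {K : Finset (Finset α)} {φ : ℕ → ℝ} :
    wsum p V K φ = ∑ j ∈ Finset.range (V.card + 1), φ j * lev p V K j := by
  unfold lev wsum
  simp_rw [Finset.mul_sum]
  rw [Finset.sum_comm]
  apply Finset.sum_congr rfl
  intro D hD
  rw [Finset.mem_filter, Finset.mem_powerset] at hD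
  have hc : D.card ∈ Finset.range (V.card + 1) := by
    rw [Finset.mem_range]
    have := Finset.card_le_card hD.1
    omega
  rw [Finset.sum_eq_single_of_mem _ hc]
  · rw [if_pos rfl]
    ring
  · intro j _ hj
    rw [if_neg (Ne.symm hj)]
    ring

private theorem sumB_mean {p : ℝ} (V : Finset α) :
    wsum p V (∅ : Finset (Finset α)) (fun j => (j : ℝ)) = p * V.card := by
  induction V using Finset.induction_on with
  | empty =>
    rw [sum_lev]
    simp
  | insert a V ha ih =>
    rw [wsum_split (a := a) (Finset.mem_insert_self a V), Finset.erase_insert ha]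
    have hdel : del (∅ : Finset (Finset α)) a = ∅ := by
      unfold del
      simp
    rw [hdel]
    have h1 : wsum p V (∅ : Finset (Finset α)) (fun j => ((j + 1 : ℕ) : ℝ)) =
        wsum p V (∅ : Finset (Finset α)) (fun j => (j : ℝ)) +
          wsum p V (∅ : Finset (Finset α)) (fun _ => 1) := by
      rw [← wsum_add]
      congr 1
      ext j
      push_cast
      ring
    have h2 : wsum p V (∅ : Finset (Finset α)) (fun _ => 1) = 1 := Z_empty V
    rw [h1, h2, ih, Finset.card_insert_of_notMem ha]
    push_cast
    ring

/-- Markov inequality for the number of defectives in a random set: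
`(b+1) * up p V ∅ b ≤ p * |V|`. -/
theorem up_empty_le {p : ℝ} (hp0 : 0 ≤ p) (hp1 : p ≤ 1) {V : Finset α} {b : ℕ} :
    ((b : ℝ) + 1) * up p V (∅ : Finset (Finset α)) b ≤ p * V.card := by
  unfold up
  rw [← sumB_mean V, ← wsum_smul]
  apply wsum_mono hp0 hp1
  · intro D _ h
    exact h
  · intro j
    split_ifs <;> positivity
  · intro j
    split_ifs with h
    · have : (b : ℝ) + 1 ≤ (j : ℝ) := by exact_mod_cast h
      linarith
    · simp

end Pool.MP_38cb75_co.GT
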