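import Pool.Agent.Lib.MP_38cb75_co.SumA
import Pool.Agent.Lib.MP_38cb75_co.SumB
import Pool.Agent.Lib.MP_38cb75_co.Fam

/-! JOB COUNTA: growth of the levels. -/

set_option autoImplicit false

namespace Pool.MP_38cb75_co.GT

variable {α : Type*} [DecidableEq α]

/-- Every member of level `j < |V|` has a superset in level `j + 1`; every member of level `j+1` has
at most `j + 1 ≤ |V|` subsets in level `j`. -/
theorem level_succ {V : Finset α} {K : Finset (Finset α)} {j : ℕ} (hj : j < V.card) :
    ((V.powersetCard j).filter (Hits K)).card ≤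
      V.card * ((V.powersetCard (j + 1)).filter (Hits K)).card := by
  have h1 : (V.powersetCard j).filter (Hits K) ⊆
      ((V.powersetCard (j + 1)).filter (Hits K)).biUnion (fun E => E.image (fun x => E.erase x)) := by
    intro D hD
    rw [Finset.mem_filter, Finset.mem_powersetCard] at hD
    obtain ⟨⟨hDV, hDc⟩, hDK⟩ := hD
    obtain ⟨x, hxV, hxD⟩ : ∃ x ∈ V, x ∉ D := by
      by_contra hc
      push Not at hc
      have := Finset.card_le_card (show V ⊆ D from hc)
      omega
    rw [Finset.mem_biUnion]
    refine ⟨insert x D, ?_, ?_⟩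
    · rw [Finset.mem_filter, Finset.mem_powersetCard]
      refine ⟨⟨Finset.insert_subset hxV hDV, by rw [Finset.card_insert_of_notMem hxD, hDc]⟩, ?_⟩
      intro e he
      exact (hDK e he).mono (Finset.inter_subset_inter_left (Finset.subset_insert x D))
    · rw [Finset.mem_image]
      exact ⟨x, Finset.mem_insert_self _ _, Finset.erase_insert hxD⟩
  refine (Finset.card_le_card h1).trans ?_
  rw [mul_comm]
  refine Finset.card_biUnion_le_card_mul _ _ _ fun E hE => ?_
  rw [Finset.mem_filter, Finset.mem_powersetCard] at hE
  refine Finset.card_image_le.trans ?_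
  exact Finset.card_le_card hE.1.1

theorem level_le {V : Finset α} {K : Finset (Finset α)} {j b : ℕ} (hj : j ≤ b)
    (hb : b ≤ V.card) :
    ((V.powersetCard j).filter (Hits K)).card ≤
      V.card ^ (b - j) * ((V.powersetCard b).filter (Hits K)).card := by
  induction b, hj using Nat.le_induction with
  | base => simp
  | succ b hjb ih =>
    refine (ih (by omega)).trans ?_
    rw [show b + 1 - j = (b - j) + 1 by omega, pow_succ, mul_assoc]
    exact Nat.mul_le_mul_left _ (level_succ (by omega))

end Pool.MP_38cb75_co.GT
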