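import Pool.Agent.Lib.MP_38cb75_co.ZBound
import Pool.Agent.Lib.MP_38cb75_co.CountA

/-! JOB COUNTB: the counting bound at the end of the game. -/

set_option autoImplicit false

namespace Pool.MP_38cb75_co.GT

variable {α : Type*} [DecidableEq α]

/-- `2^t ≥ N_b ≥ N_j / |V|^(b-j)`, `N_j p₀^j (1-p₀)^(|V|-j) = lev ≥ Z/(12 (n₀+1))`,
`Z ≥ 2^(-U)` (`Z_lower`), `p₀ = 2^(-β₀)`, `1 - p₀ = 2^(-1/3)`, and
`β₀ j + (|V| - j)/3 ≥ β₀ b + (|V| - b)/3 - 2 (b - j)` as `β₀ ≤ 7/3`. -/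
theorem count {t n₀ J : ℕ} (hn : 0 < n₀) {V : Finset α} {K : Finset (Finset α)} {b j : ℕ}
    (hG : Good V K) (hV : V.card ≤ n₀) (hb : b ≤ V.card) (hj : j ≤ b) (hJ : b ≤ j + J)
    (hlev : Z p₀ V K ≤ 12 * ((n₀ : ℝ) + 1) * lev p₀ V K j) (h : Solves t (fam V K b)) :
    Phi β₀ V K b ≤ t + Err n₀ J := by
  have hn' : (1 : ℝ) ≤ n₀ := by exact_mod_cast hn
  -- the number of sets in level `b`
  have hset : (((V.powersetCard b).filter (Hits K) : Finset (Finset α)) : Set (Finset α)) =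
      fam V K b := by
    ext D
    simp [fam, Finset.mem_powersetCard, and_assoc]
  have hNb : ((V.powersetCard b).filter (Hits K)).card ≤ 2 ^ t := by
    apply Solves.card_le
    rw [hset]
    exact h
  have hNj : ((V.powersetCard j).filter (Hits K)).card ≤ n₀ ^ J * 2 ^ t := by
    refine (level_le hj hb).trans (Nat.mul_le_mul ?_ hNb)
    exact (Nat.pow_le_pow_left hV _).trans (Nat.pow_le_pow_right hn (by omega))
  have hp₀ := p₀_lower
  have hp₁ := p₀_upper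
  have hW : (0 : ℝ) < p₀ ^ j * (1 - p₀) ^ (V.card - j) := by
    have : 0 < p₀ := by linarith
    have : 0 < 1 - p₀ := by linarith
    positivity
  have hNj' : (((V.powersetCard j).filter (Hits K)).card : ℝ) ≤ (n₀ : ℝ) ^ J * 2 ^ t := by
    exact_mod_cast hNj
  have hZ := Z_lower hG
  have hmain : (2 : ℝ) ^ (-((K.card : ℝ) + (2 / 9) * (leaves K).card)) ≤
      12 * ((n₀ : ℝ) + 1) * ((n₀ : ℝ) ^ J * 2 ^ t * (p₀ ^ j * (1 - p₀) ^ (V.card - j))) := by
    refine hZ.trans (hlev.trans ?_)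
    rw [lev_eq]
    apply mul_le_mul_of_nonneg_left _ (by positivity)
    exact mul_le_mul_of_nonneg_right hNj' hW.le
  -- rewrite the right hand side as a power of two
  have h12 : (12 : ℝ) * ((n₀ : ℝ) + 1) = (2 : ℝ) ^ (Real.logb 2 (12 * ((n₀ : ℝ) + 1))) := by
    rw [Real.rpow_logb (by norm_num) (by norm_num) (by positivity)]
  have hnJ : (n₀ : ℝ) ^ J = (2 : ℝ) ^ ((J : ℝ) * Real.logb 2 n₀) := by
    rw [mul_comm, Real.rpow_mul (by norm_num), Real.rpow_logb (by norm_num) (by norm_num)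
      (by linarith), Real.rpow_natCast]
  have ht : (2 : ℝ) ^ t = (2 : ℝ) ^ (t : ℝ) := by rw [Real.rpow_natCast]
  have hpj : p₀ ^ j = (2 : ℝ) ^ (-(β₀ * j)) := by
    rw [← Real.rpow_natCast, ← two_rpow_neg_β₀, ← Real.rpow_mul (by norm_num)]
    congr 1
    ring
  have hqj : (1 - p₀) ^ (V.card - j) = (2 : ℝ) ^ (-(((V.card : ℝ) - j) / 3)) := by
    rw [← Real.rpow_natCast, ← two_rpow_third, ← Real.rpow_mul (by norm_num)]
    congr 1
    rw [Nat.cast_sub (hj.trans hb)]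
    ring
  rw [h12, hnJ, ht, hpj, hqj, ← Real.rpow_add (by norm_num), ← Real.rpow_add (by norm_num),
    ← Real.rpow_add (by norm_num), ← Real.rpow_add (by norm_num)] at hmain
  have hexp := (Real.rpow_le_rpow_left_iff (by norm_num : (1 : ℝ) < 2)).mp hmain
  have hβ := β₀_upper
  have hβ' := β₀_lower
  have hbj : (j : ℝ) ≤ b := by exact_mod_cast hj
  have hbJ : (b : ℝ) ≤ j + J := by exact_mod_cast hJ
  unfold Phi Err
  nlinarith [mul_nonneg (sub_nonneg.mpr hbj) (by linarith : (0 : ℝ) ≤ 7 / 3 - β₀)]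

end Pool.MP_38cb75_co.GT
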