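import Mathlib

/-!
# Adaptive group testing: definitions (MP_38cb75_co)

Items are elements of a type `α`; a state of the game is `(V, K, b)`:
`V` the finite set of open items, `K` a finite hypergraph on `V` (the positive tests we kept),
`b` the number of defective items in `V`.  The family `fam V K b` consists of the `b`-subsets of
`V` which hit every edge of `K`.
-/

set_option autoImplicit false

namespace Pool.MP_38cb75_co.GT

variable {α : Type*} [DecidableEq α]

/-- `Solves t F`: some adaptive strategy of at most `t` pooled tests identifies an unknown member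
of the family `F`. -/
def Solves : ℕ → Set (Finset α) → Prop
  | 0, F => F.Subsingleton
  | (t + 1), F => ∃ S : Finset α,
      Solves t {D | D ∈ F ∧ (S ∩ D).Nonempty} ∧ Solves t {D | D ∈ F ∧ ¬ (S ∩ D).Nonempty}

/-- `D` hits every edge of `K`. -/
def Hits (K : Finset (Finset α)) (D : Finset α) : Prop := ∀ e ∈ K, (e ∩ D).Nonempty

instance instDecHits (K : Finset (Finset α)) : DecidablePred (Hits K) := fun D =>
  inferInstanceAs (Decidable (∀ e ∈ K, (e ∩ D).Nonempty))

/-- The family of the state `(V, K, b)`. -/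
def fam (V : Finset α) (K : Finset (Finset α)) (b : ℕ) : Set (Finset α) :=
  {D | D ⊆ V ∧ D.card = b ∧ Hits K D}

/-- Degree of a vertex. -/
def deg (K : Finset (Finset α)) (v : α) : ℕ := (K.filter (fun e => v ∈ e)).card

/-- The hypergraph after the vertex `v` has been revealed to be defective. -/
def del (K : Finset (Finset α)) (v : α) : Finset (Finset α) := K.filter (fun e => v ∉ e)

/-- Vertices of degree one lying in an edge of size two. -/
def leaves (K : Finset (Finset α)) : Finset α :=
  (K.biUnion id).filter (fun v => deg K v = 1 ∧ ∃ e ∈ K, e.card = 2 ∧ v ∈ e)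

/-- The class of hypergraphs used by the adversary: edges of size 2 or 3, degrees at most 2, every
3-edge has at most one vertex of degree 2, and no triangle of 2-edges. -/
structure Good (V : Finset α) (K : Finset (Finset α)) : Prop where
  sub : ∀ e ∈ K, e ⊆ V
  card : ∀ e ∈ K, e.card = 2 ∨ e.card = 3
  deg_le : ∀ v, deg K v ≤ 2
  three : ∀ e ∈ K, e.card = 3 → ∀ u ∈ e, ∀ v ∈ e, u ≠ v → deg K u = 1 ∨ deg K v = 1
  tri : ∀ a b c : α, a ≠ b → b ≠ c → a ≠ c → {a, b} ∈ K → {b, c} ∈ K → {a, c} ∉ K

/-- No isolated pair: every edge of size two has a vertex of degree two. -/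
def NoPair (K : Finset (Finset α)) : Prop := ∀ e ∈ K, e.card = 2 → ∃ v ∈ e, deg K v = 2

/-- The potential `L₂`. -/
noncomputable def L2 (a : ℝ) (V : Finset α) (K : Finset (Finset α)) (b : ℕ) : ℝ :=
  a * ((V.card : ℝ) - b) + 2 * b - K.card

/-- The potential `Φ`. -/
noncomputable def Phi (β : ℝ) (V : Finset α) (K : Finset (Finset α)) (b : ℕ) : ℝ :=
  (1 / 3) * ((V.card : ℝ) - b) + β * b - K.card - (2 / 9) * (leaves K).card

/-- Weighted sum over the sets hitting `K`; the item is defective with probability `p`. -/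
noncomputable def wsum (p : ℝ) (V : Finset α) (K : Finset (Finset α)) (φ : ℕ → ℝ) : ℝ :=
  ∑ D ∈ V.powerset with Hits K D, p ^ D.card * (1 - p) ^ (V.card - D.card) * φ D.card

/-- Probability that a random set hits `K`. -/
noncomputable def Z (p : ℝ) (V : Finset α) (K : Finset (Finset α)) : ℝ :=
  wsum p V K (fun _ => 1)

/-- Probability that a random set hits `K` and has more than `b` elements. -/
noncomputable def up (p : ℝ) (V : Finset α) (K : Finset (Finset α)) (b : ℕ) : ℝ :=
  wsum p V K (fun j => if b < j then 1 else 0)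

/-- Probability that a random set hits `K` and has exactly `j` elements. -/
noncomputable def lev (p : ℝ) (V : Finset α) (K : Finset (Finset α)) (j : ℕ) : ℝ :=
  wsum p V K (fun i => if i = j then 1 else 0)

/-- The two probability estimates which are kept by every move of the adversary. -/
def MoveOK (p : ℝ) (V : Finset α) (K : Finset (Finset α)) (b : ℕ)
    (V' : Finset α) (K' : Finset (Finset α)) (b' : ℕ) : Prop :=
  p ^ 2 * (1 - p) ^ 2 * up p V' K' b' ≤ up p V K b ∧ p ^ 2 * Z p V K ≤ Z p V' K'

/-- `Next p t V K b V' K' b' k`: from the state `(V,K,b)`, in which `t` tests are left, the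
adversary moves to the state `(V',K',b')` and `k` tests are used up. -/
def Next (p : ℝ) (t : ℕ) (V : Finset α) (K : Finset (Finset α)) (b : ℕ)
    (V' : Finset α) (K' : Finset (Finset α)) (b' : ℕ) (k : ℕ) : Prop :=
  1 ≤ k ∧ Good V' K' ∧ V' ⊆ V ∧ V.card ≤ V'.card + 3 ∧ b' + 1 ≤ V'.card ∧
    MoveOK p V K b V' K' b' ∧ (fam V' K' b' = ∅ ∨ ∃ s, s + k = t ∧ Solves s (fam V' K' b'))

/-- Outcome of a rule in the regime where `L₁ = |V| - 1` and `L₂` are (almost) tight. -/
def Ok1 (p a β : ℝ) (t : ℕ) (V : Finset α) (K : Finset (Finset α)) (b : ℕ) : Prop :=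
  ∃ (V' : Finset α) (K' : Finset (Finset α)) (b' k : ℕ), Next p t V K b V' K' b' k ∧
    V.card ≤ V'.card + k ∧ L2 a V K b ≤ L2 a V' K' b' + k ∧ Phi β V K b ≤ Phi β V' K' b' + 3

/-- Outcome of a rule in the regime where `L₂` and `Φ` are (almost) tight. -/
def Ok2 (p a β : ℝ) (t : ℕ) (V : Finset α) (K : Finset (Finset α)) (b : ℕ) : Prop :=
  ∃ (V' : Finset α) (K' : Finset (Finset α)) (b' k : ℕ), Next p t V K b V' K' b' k ∧
    L2 a V K b ≤ L2 a V' K' b' + k ∧ Phi β V K b ≤ Phi β V' K' b' + k

/-- The constant `p₀ = 1 - 2^(-1/3)`. -/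
noncomputable def p₀ : ℝ := 1 - (2 : ℝ) ^ (-(1 : ℝ) / 3)

/-- `β₀ = -log₂ p₀`. -/
noncomputable def β₀ : ℝ := - Real.logb 2 p₀

/-- The error term of the counting argument. -/
noncomputable def Err (n₀ J : ℕ) : ℝ :=
  2 * (J : ℝ) + Real.logb 2 (12 * ((n₀ : ℝ) + 1)) + J * Real.logb 2 n₀

/-- The limit ratio `r₀ = (3 β₀ - 1)/2 = 2.91578...` -/
noncomputable def r₀ : ℝ := (3 * β₀ - 1) / 2

end Pool.MP_38cb75_co.GT
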