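import Pool.Agent.Lib.MP_38cb75_co.Defs

/-! JOB DEGA: degrees. -/

set_option autoImplicit false

namespace Pool.MP_38cb75_co.GT

variable {α : Type*} [DecidableEq α]

theorem mem_del {K : Finset (Finset α)} {v : α} {e : Finset α} : e ∈ del K v ↔ e ∈ K ∧ v ∉ e := by
  simp [del]

theorem mem_leaves {K : Finset (Finset α)} {v : α} :
    v ∈ leaves K ↔ deg K v = 1 ∧ ∃ e ∈ K, e.card = 2 ∧ v ∈ e := by
  unfold leaves
  rw [Finset.mem_filter, Finset.mem_biUnion]
  constructor
  · exact fun h => h.2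
  · rintro ⟨h1, e, he, h2, hv⟩
    exact ⟨⟨e, he, hv⟩, h1, e, he, h2, hv⟩

theorem deg_insert {K : Finset (Finset α)} {e : Finset α} (he : e ∉ K) (v : α) :
    deg (insert e K) v = deg K v + if v ∈ e then 1 else 0 := by
  unfold deg
  rw [Finset.filter_insert]
  by_cases hv : v ∈ e
  · rw [if_pos hv, if_pos hv, Finset.card_insert_of_notMem]
    exact fun h => he (Finset.mem_filter.1 h).1
  · rw [if_neg hv, if_neg hv, Nat.add_zero]

theorem deg_erase {K : Finset (Finset α)} {e : Finset α} (he : e ∈ K) (v : α) :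
    deg (K.erase e) v + (if v ∈ e then 1 else 0) = deg K v := by
  rw [← deg_insert (Finset.notMem_erase e K) v, Finset.insert_erase he]

theorem deg_mono {K K' : Finset (Finset α)} (h : K' ⊆ K) (v : α) : deg K' v ≤ deg K v :=
  Finset.card_le_card (Finset.filter_subset_filter _ h)

theorem deg_eq_zero {K : Finset (Finset α)} {v : α} : deg K v = 0 ↔ ∀ e ∈ K, v ∉ e := by
  unfold deg
  rw [Finset.card_eq_zero, Finset.filter_eq_empty_iff]

theorem deg_pos {K : Finset (Finset α)} {v : α} {e : Finset α} (he : e ∈ K) (hv : v ∈ e) :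
    1 ≤ deg K v := by
  rw [Nat.one_le_iff_ne_zero, Ne, deg_eq_zero]
  exact fun h => h e he hv

theorem exists_of_deg_pos {K : Finset (Finset α)} {v : α} (h : 1 ≤ deg K v) :
    ∃ e ∈ K, v ∈ e := by
  by_contra hc
  push Not at hc
  have := deg_eq_zero.2 hc
  omega

/-- A vertex of degree one lies in one edge only. -/
theorem eq_of_deg_one {K : Finset (Finset α)} {v : α} (h : deg K v = 1) {e f : Finset α}
    (he : e ∈ K) (hf : f ∈ K) (hve : v ∈ e) (hvf : v ∈ f) : e = f := by
  unfold deg at h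
  obtain ⟨g, hg⟩ := Finset.card_eq_one.1 h
  have h1 : e ∈ K.filter fun e => v ∈ e := Finset.mem_filter.2 ⟨he, hve⟩
  have h2 : f ∈ K.filter fun e => v ∈ e := Finset.mem_filter.2 ⟨hf, hvf⟩
  rw [hg, Finset.mem_singleton] at h1 h2
  rw [h1, h2]

/-- A vertex of degree two lies in exactly one further edge. -/
theorem exists_other {K : Finset (Finset α)} {v : α} (h : deg K v = 2) {e : Finset α}
    (he : e ∈ K) (hve : v ∈ e) :
    ∃ f ∈ K, f ≠ e ∧ v ∈ f ∧ ∀ g ∈ K, v ∈ g → g = e ∨ g = f := by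
  have h1 := deg_erase he v
  rw [if_pos hve, h] at h1
  have h2 : deg (K.erase e) v = 1 := by omega
  obtain ⟨f, hf, hvf⟩ := exists_of_deg_pos h2.ge
  have hf' := Finset.mem_erase.1 hf
  refine ⟨f, hf'.2, hf'.1, hvf, fun g hg hvg => ?_⟩
  by_cases hge : g = e
  · exact Or.inl hge
  · exact Or.inr (eq_of_deg_one h2 (Finset.mem_erase.2 ⟨hge, hg⟩) hf hvg hvf)

/-- Three different edges at `v` are impossible if `deg K v ≤ 2`. -/
theorem deg_two_unique {K : Finset (Finset α)} {v : α} (h : deg K v ≤ 2) {e f g : Finset α}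
    (he : e ∈ K) (hf : f ∈ K) (hg : g ∈ K) (hve : v ∈ e) (hvf : v ∈ f) (hvg : v ∈ g)
    (hef : e ≠ f) : g = e ∨ g = f := by
  have h1 := deg_erase he v
  rw [if_pos hve] at h1
  have hf' : f ∈ K.erase e := Finset.mem_erase.2 ⟨hef.symm, hf⟩
  have h2 := deg_pos hf' hvf
  have h3 : deg (K.erase e) v = 1 := by omega
  by_cases hge : g = e
  · exact Or.inl hge
  · exact Or.inr (eq_of_deg_one h3 (Finset.mem_erase.2 ⟨hge, hg⟩) hf' hvg hvf)

theorem card_del {K : Finset (Finset α)} (v : α) : (del K v).card + deg K v = K.card := by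
  unfold del deg
  rw [add_comm]
  exact Finset.card_filter_add_card_filter_not _

theorem del_of_deg_zero {K : Finset (Finset α)} {v : α} (h : deg K v = 0) : del K v = K := by
  unfold del
  rw [Finset.filter_true_of_mem (deg_eq_zero.1 h)]

theorem del_of_deg_one {K : Finset (Finset α)} {v : α} (h : deg K v = 1) {e : Finset α}
    (he : e ∈ K) (hv : v ∈ e) : del K v = K.erase e := by
  ext f
  rw [mem_del, Finset.mem_erase]
  constructor
  · rintro ⟨h1, h2⟩
    exact ⟨fun h3 => h2 (h3 ▸ hv), h1⟩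
  · rintro ⟨h1, h2⟩
    exact ⟨h2, fun h3 => h1 (eq_of_deg_one h h2 he h3 hv)⟩

theorem del_of_deg_two {K : Finset (Finset α)} {v : α} (h : deg K v = 2) {e f : Finset α}
    (he : e ∈ K) (hf : f ∈ K) (hef : e ≠ f) (hve : v ∈ e) (hvf : v ∈ f) :
    del K v = (K.erase e).erase f := by
  ext g
  rw [mem_del, Finset.mem_erase, Finset.mem_erase]
  constructor
  · rintro ⟨h1, h2⟩
    exact ⟨fun h3 => h2 (h3 ▸ hvf), fun h3 => h2 (h3 ▸ hve), h1⟩
  · rintro ⟨h1, h2, h3⟩
    refine ⟨h3, fun h4 => ?_⟩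
    rcases deg_two_unique h.le he hf h3 hve hvf h4 hef with h5 | h5
    · exact h2 h5
    · exact h1 h5

theorem deg_del {K : Finset (Finset α)} (v u : α) : deg (del K v) u ≤ deg K u :=
  deg_mono (Finset.filter_subset _ _) u

end Pool.MP_38cb75_co.GT
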