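import Pool.Agent.Lib.MP_38cb75_co.DegA

/-! JOB DEGB: handshake, number of leaves. -/

set_option autoImplicit false

namespace Pool.MP_38cb75_co.GT

variable {α : Type*} [DecidableEq α]

/-- Handshake: `2 |K| + |leaves K| ≤ 2 |V|`, from `∑_v deg v = ∑_e |e|`. -/
theorem handshake {V : Finset α} {K : Finset (Finset α)} (hG : Good V K) :
    2 * K.card + (leaves K).card ≤ 2 * V.card := by
  have h1 : ∑ v ∈ V, deg K v = ∑ e ∈ K, e.card := by
    have h2 : ∀ v ∈ V, deg K v = ∑ e ∈ K, if v ∈ e then 1 else 0 := by
      intro v _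
      unfold deg
      rw [Finset.card_filter]
    rw [Finset.sum_congr rfl h2, Finset.sum_comm]
    refine Finset.sum_congr rfl fun e he => ?_
    rw [← Finset.card_filter]
    congr 1
    ext v
    rw [Finset.mem_filter]
    exact ⟨fun h => h.2, fun h => ⟨hG.sub e he h, h⟩⟩
  have h2 : 2 * K.card ≤ ∑ e ∈ K, e.card := by
    rw [mul_comm, ← smul_eq_mul, ← Finset.sum_const]
    refine Finset.sum_le_sum fun e he => ?_
    rcases hG.card e he with h | h <;> omega
  have hLV : leaves K ⊆ V := by
    intro v hv
    rw [mem_leaves] at hv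
    obtain ⟨_, e, he, _, hve⟩ := hv
    exact hG.sub e he hve
  have h3 : ∑ v ∈ V, deg K v + (leaves K).card ≤ 2 * V.card := by
    have h4 : (leaves K).card = ∑ v ∈ V, if v ∈ leaves K then 1 else 0 := by
      rw [← Finset.card_filter]
      congr 1
      ext v
      rw [Finset.mem_filter]
      exact ⟨fun h => ⟨hLV h, h⟩, fun h => h.2⟩
    rw [h4, ← Finset.sum_add_distrib, mul_comm, ← smul_eq_mul, ← Finset.sum_const]
    refine Finset.sum_le_sum fun v _ => ?_
    have h5 := hG.deg_le v
    split_ifs with h
    · rw [mem_leaves] at h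
      omega
    · omega
  omega

/-- Every leaf lies in its own 2-edge. -/
theorem leaves_le {V : Finset α} {K : Finset (Finset α)} (hG : Good V K) (hN : NoPair K) :
    (leaves K).card ≤ K.card := by
  have h1 : leaves K ⊆ K.biUnion (fun e => e.filter (fun v => deg K v = 1 ∧ e.card = 2)) := by
    intro v hv
    rw [mem_leaves] at hv
    obtain ⟨hv1, e, he, he2, hve⟩ := hv
    rw [Finset.mem_biUnion]
    exact ⟨e, he, Finset.mem_filter.mpr ⟨hve, hv1, he2⟩⟩
  refine (Finset.card_le_card h1).trans ?_
  refine (Finset.card_biUnion_le_card_mul _ _ 1 fun e he => ?_).trans (by rw [mul_one])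
  rw [Finset.card_le_one]
  intro x hx y hy
  rw [Finset.mem_filter] at hx hy
  by_contra hxy
  obtain ⟨v, hve, hv2⟩ := hN e he hx.2.2
  have hxye : ({x, y} : Finset α) = e := by
    apply Finset.eq_of_subset_of_card_le
    · intro z hz
      simp only [Finset.mem_insert, Finset.mem_singleton] at hz
      rcases hz with rfl | rfl
      · exact hx.1
      · exact hy.1
    · rw [hx.2.2, Finset.card_pair hxy]
  rw [← hxye] at hve
  simp only [Finset.mem_insert, Finset.mem_singleton] at hve
  rcases hve with rfl | rfl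
  · have := hx.2.1
    omega
  · have := hy.2.1
    omega

end Pool.MP_38cb75_co.GT
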