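import Pool.Agent.Lib.MP_38cb75_co.DeltaA

/-! JOB DELTA: the mean number of defectives changes by at most one. -/

set_option autoImplicit false

namespace Pool.MP_38cb75_co.GT

variable {α : Type*} [DecidableEq α]

private theorem delta_m1 {p : ℝ} {V : Finset α} {K : Finset (Finset α)} :
    wsum p V K (fun j => ((j + 1 : ℕ) : ℝ)) = wsum p V K (fun j => (j : ℝ)) + Z p V K := by
  have h : (fun j : ℕ => ((j + 1 : ℕ) : ℝ)) = fun j : ℕ => (j : ℝ) + 1 := by
    funext j
    push_cast
    ring
  rw [h, wsum_add]
  rfl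

/-- `0 ≤ 1 + μ(V - a, del K a) - μ(V, K) ≤ 1` for a vertex `a` of degree at most one.
Strong induction on `|V|`; write `δ(V,K,a)` for the middle term.
(0) `deg K a = 0`: `step_free`, `δ = 1 - p`.
(1) `a` in the 2-edge `{a,c}`: `step_leaf`; here `μ(V₁,K₁) - μ(V₂,K₂) = 1 - δ(V₁,K₁,c)`, where
`K₁ = K.erase {a,c}`, `K₂ = del K c = del K₁ c` and `deg K₁ c ≤ 1`.
(2) `a` in the 3-edge `{a,c,d}`; one of `c`, `d` has degree one (`Good.three`), say `d`.  By
`peel_T`, `μ(V,K) = π (1 + μ(V₁,K₁)) + (1-π) μ(V₁,K₂)`, so
`δ(V,K,a) = (1-π) (1 + μ(V₁,K₁) - μ(V₁,K₂))`, use `step_T` (its hypotheses are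
`1 - δ(V₁-d,K₁,c) ∈ [0,1]`). -/
theorem delta {p : ℝ} (hp0 : 0 < p) (hp1 : p < 1) {V : Finset α} {K : Finset (Finset α)}
    (hG : Good V K) {a : α} (ha : a ∈ V) (hd : deg K a ≤ 1) :
    0 ≤ 1 + mean p (V.erase a) (del K a) - mean p V K ∧
      1 + mean p (V.erase a) (del K a) - mean p V K ≤ 1 := by
  obtain ⟨n, hn⟩ : ∃ n, V.card ≤ n := ⟨_, le_rfl⟩
  induction n generalizing V K a with
  | zero =>
    have hV : V = ∅ := Finset.card_eq_zero.1 (Nat.le_zero.1 hn)
    subst hV
    exact absurd ha (Finset.notMem_empty a)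
  | succ n ih =>
    have hp : 0 < 1 - p := by linarith
    have hcV : (V.erase a).card + 1 = V.card := Finset.card_erase_add_one ha
    by_cases hda0 : deg K a = 0
    · rw [del_of_deg_zero hda0, step_free hp0 hp1 hG ha hda0]
      constructor <;> linarith
    have hda : deg K a = 1 := by omega
    obtain ⟨e, he, hae⟩ := exists_of_deg_pos hda.ge
    have hu : ∀ f ∈ K, a ∈ f → f = e := fun f hf haf => eq_of_deg_one hda hf he haf hae
    have hdel : del K a = K.erase e := del_of_deg_one hda he hae
    rcases hG.card e he with h2 | h3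
    · obtain ⟨c, hac, rfl⟩ : ∃ c, a ≠ c ∧ e = {a, c} := by
        obtain ⟨x, y, hxy, rfl⟩ := Finset.card_eq_two.1 h2
        rw [Finset.mem_insert, Finset.mem_singleton] at hae
        rcases hae with rfl | rfl
        · exact ⟨y, hxy, rfl⟩
        · exact ⟨x, hxy.symm, Finset.pair_comm _ _⟩
      have hcV' : c ∈ V := hG.sub _ he (by simp)
      have hG1 : Good (V.erase a) (K.erase {a, c}) := by rw [← hdel]; exact hG.del a
      have hcV1 : c ∈ V.erase a := Finset.mem_erase.2 ⟨hac.symm, hcV'⟩
      have hdc : deg (K.erase {a, c}) c ≤ 1 := by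
        have h4 := deg_erase he c
        have h5 := hG.deg_le c
        rw [if_pos (by simp)] at h4
        omega
      have hK2 : del (K.erase {a, c}) c = del K c := by
        ext f
        rw [mem_del, mem_del, Finset.mem_erase]
        constructor
        · rintro ⟨⟨_, h6⟩, h7⟩
          exact ⟨h6, h7⟩
        · rintro ⟨h6, h7⟩
          refine ⟨⟨?_, h6⟩, h7⟩
          rintro rfl
          exact h7 (by simp)
      have hdelta := ih hG1 hcV1 hdc (by omega)
      rw [hK2] at hdelta
      have hs := step_leaf hp0 hp1 hG hac he hda (by linarith [hdelta.2]) (by linarith [hdelta.1])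
      rw [hdel]
      exact ⟨hs.1, by linarith [hs.2]⟩
    · -- the 3-edge
      obtain ⟨c, d, hac, had, hcd, rfl, hdd⟩ : ∃ c d, a ≠ c ∧ a ≠ d ∧ c ≠ d ∧ e = {a, c, d} ∧
          deg K d = 1 := by
        have h5 : ∃ c d, a ≠ c ∧ a ≠ d ∧ c ≠ d ∧ e = {a, c, d} := by
          have h6 : (e.erase a).card = 2 := by
            rw [Finset.card_erase_of_mem hae, h3]
          obtain ⟨x, y, hxy, hxy'⟩ := Finset.card_eq_two.1 h6
          have hx : x ∈ e.erase a := by rw [hxy']; simp
          have hy : y ∈ e.erase a := by rw [hxy']; simp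
          refine ⟨x, y, (Finset.mem_erase.1 hx).1.symm, (Finset.mem_erase.1 hy).1.symm, hxy, ?_⟩
          rw [← hxy', Finset.insert_erase hae]
        obtain ⟨c, d, hac, had, hcd, rfl⟩ := h5
        rcases hG.three _ he h3 c (by simp) d (by simp) hcd with h6 | h6
        · refine ⟨d, c, had, hac, hcd.symm, ?_, h6⟩
          rw [Finset.pair_comm c d]
        · exact ⟨c, d, hac, had, hcd, rfl, h6⟩
      have hud : ∀ f ∈ K, d ∈ f → f = {a, c, d} :=
        fun f hf hdf => eq_of_deg_one hdd hf he hdf (by simp)
      have hcV' : c ∈ V := hG.sub _ he (by simp)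
      have hdV' : d ∈ V := hG.sub _ he (by simp)
      have hG1 : Good (V.erase a) (K.erase {a, c, d}) := by rw [← hdel]; exact hG.del a
      have hG1' : Good ((V.erase a).erase d) (K.erase {a, c, d}) := by
        refine hG1.mono (Finset.Subset.refl _) fun f hf x hx => ?_
        rw [Finset.mem_erase]
        refine ⟨?_, hG1.sub f hf hx⟩
        rintro rfl
        rw [Finset.mem_erase] at hf
        exact hf.1 (hud f hf.2 hx)
      have hG2 : Good (V.erase a) (insert {c, d} (K.erase {a, c, d})) := by
        have h7 := (hG.shrink he h3 (a := d) (v := c) hcd.symm (by simp) (by simp) hdd).1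
        rw [Finset.pair_comm d c] at h7
        refine h7.mono (Finset.Subset.refl _) fun f hf x hx => ?_
        rw [Finset.mem_erase]
        refine ⟨?_, h7.sub f hf hx⟩
        rintro rfl
        rcases Finset.mem_insert.1 hf with rfl | hf
        · rw [Finset.mem_insert, Finset.mem_singleton] at hx
          exact hx.elim hac had
        · rw [Finset.mem_erase] at hf
          exact hf.1 (hu f hf.2 hx)
      have hcV1 : c ∈ (V.erase a).erase d :=
        Finset.mem_erase.2 ⟨hcd, Finset.mem_erase.2 ⟨hac.symm, hcV'⟩⟩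
      have hdV1 : d ∈ V.erase a := Finset.mem_erase.2 ⟨had.symm, hdV'⟩
      have hcVd : ((V.erase a).erase d).card + 1 = (V.erase a).card :=
        Finset.card_erase_add_one hdV1
      have hdc : deg (K.erase {a, c, d}) c ≤ 1 := by
        have h4 := deg_erase he c
        have h5 := hG.deg_le c
        rw [if_pos (by simp)] at h4
        omega
      have hK2 : del (K.erase {a, c, d}) c = del K c := by
        ext f
        rw [mem_del, mem_del, Finset.mem_erase]
        constructor
        · rintro ⟨⟨_, h6⟩, h7⟩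
          exact ⟨h6, h7⟩
        · rintro ⟨h6, h7⟩
          refine ⟨⟨?_, h6⟩, h7⟩
          rintro rfl
          exact h7 (by simp)
      have hdelta := ih hG1' hcV1 hdc (by omega)
      rw [hK2] at hdelta
      have hst := step_T hp0 hp1 hG hac had hcd he hda hdd (by linarith [hdelta.2])
        (by linarith [hdelta.1])
      rw [hdel]
      have hz := hG.Z_pos hp0 hp1
      have hz1 := hG1.Z_pos hp0 hp1
      have hz2 := hG2.Z_pos hp0 hp1
      have eZ : Z p V K = p * Z p (V.erase a) (K.erase {a, c, d}) +
          (1 - p) * Z p (V.erase a) (insert {c, d} (K.erase {a, c, d})) :=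
        peel_T hG hac had hcd he hda
      have eM := peel_T (p := p) (φ := fun j => (j : ℝ)) hG hac had hcd he hda
      rw [delta_m1] at eM
      unfold mean at hst ⊢
      rw [eM]
      generalize wsum p (V.erase a) (K.erase {a, c, d}) (fun j => (j : ℝ)) = m1 at *
      generalize wsum p (V.erase a) (insert {c, d} (K.erase {a, c, d}))
        (fun j => (j : ℝ)) = m2 at *
      generalize Z p (V.erase a) (K.erase {a, c, d}) = z1 at *
      generalize Z p (V.erase a) (insert {c, d} (K.erase {a, c, d})) = z2 at *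
      generalize Z p V K = z at *
      have key : 1 + m1 / z1 - (p * (m1 + z1) + (1 - p) * m2) / z =
          ((1 - p) * z2 / z) * (1 + m1 / z1 - m2 / z2) := by
        have e1 : m1 = (m1 / z1) * z1 := by field_simp
        have e2 : m2 = (m2 / z2) * z2 := by field_simp
        generalize m1 / z1 = u1 at *
        generalize m2 / z2 = u2 at *
        rw [e1, e2]
        field_simp
        rw [eZ]
        ring
      have hπ : (1 - p) * z2 / z ≤ 1 := by
        rw [div_le_iff₀ hz, eZ]
        nlinarith
      have hπ0 : 0 ≤ (1 - p) * z2 / z := by positivity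
      rw [key]
      refine ⟨mul_nonneg hπ0 hst.1, ?_⟩
      have := mul_le_mul hπ hst.2 hst.1 zero_le_one
      linarith

end Pool.MP_38cb75_co.GT
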