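import Pool.Agent.Lib.MP_38cb75_co.DegA

/-! JOB GOODDEL: closure of the class `Good` under removal and shrinking. -/

set_option autoImplicit false

namespace Pool.MP_38cb75_co.GT

variable {α : Type*} [DecidableEq α]

theorem good_empty (V : Finset α) : Good V (∅ : Finset (Finset α)) where
  sub := fun e he => absurd he (Finset.notMem_empty e)
  card := fun e he => absurd he (Finset.notMem_empty e)
  deg_le := fun v => by simp [deg]
  three := fun e he => absurd he (Finset.notMem_empty e)
  tri := fun a b c _ _ _ h => absurd h (Finset.notMem_empty _)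

theorem Good.mono {V V' : Finset α} {K K' : Finset (Finset α)} (hG : Good V K) (h : K' ⊆ K)
    (hV : ∀ e ∈ K', e ⊆ V') : Good V' K' where
  sub := hV
  card := fun e he => hG.card e (h he)
  deg_le := fun v => (deg_mono h v).trans (hG.deg_le v)
  three := fun e he h3 u hu v hv huv => by
    have h1 := deg_mono h u
    have h2 := deg_mono h v
    have h3 := deg_pos he hu
    have h4 := deg_pos he hv
    rcases hG.three e (h he) ‹_› u hu v hv huv with h5 | h5
    · left; omega
    · right; omega
  tri := fun a b c hab hbc hac h1 h2 h3 => hG.tri a b c hab hbc hac (h h1) (h h2) (h h3)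

theorem Good.del {V : Finset α} {K : Finset (Finset α)} (hG : Good V K) (v : α) :
    Good (V.erase v) (GT.del K v) := by
  refine hG.mono (Finset.filter_subset _ _) fun e he x hx => ?_
  rw [mem_del] at he
  rw [Finset.mem_erase]
  exact ⟨fun h => he.2 (h ▸ hx), hG.sub e he.1 hx⟩

/-- Replacing a 3-edge `T` by a pair `{v, a} ⊆ T`. -/
theorem Good.shrink {V : Finset α} {K : Finset (Finset α)} (hG : Good V K) {T : Finset α}
    (hT : T ∈ K) (hT3 : T.card = 3) {a v : α} (hav : a ≠ v) (ha : a ∈ T) (hv : v ∈ T)
    (hda : deg K a = 1) :
    Good V (insert {a, v} (K.erase T)) ∧ {a, v} ∉ K.erase T := by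
  have hnot : ({a, v} : Finset α) ∉ K.erase T := by
    intro h
    rw [Finset.mem_erase] at h
    exact h.1 (eq_of_deg_one hda h.2 hT (by simp) ha)
  have hsub : ({a, v} : Finset α) ⊆ T := by
    intro x hx
    rw [Finset.mem_insert, Finset.mem_singleton] at hx
    rcases hx with rfl | rfl <;> assumption
  have hdeg : ∀ x, deg (insert {a, v} (K.erase T)) x ≤ deg K x := by
    intro x
    rw [deg_insert hnot]
    have h1 := deg_erase hT x
    by_cases hx : x ∈ ({a, v} : Finset α)
    · rw [if_pos hx]
      rw [if_pos (hsub hx)] at h1
      omega
    · rw [if_neg hx]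
      omega
  have hda0 : deg (K.erase T) a = 0 := by
    have h1 := deg_erase hT a
    rw [if_pos ha, hda] at h1
    omega
  refine ⟨⟨?_, ?_, ?_, ?_, ?_⟩, hnot⟩
  · intro e he
    rcases Finset.mem_insert.1 he with rfl | he
    · exact hsub.trans (hG.sub T hT)
    · exact hG.sub e (Finset.mem_of_mem_erase he)
  · intro e he
    rcases Finset.mem_insert.1 he with rfl | he
    · left
      exact Finset.card_pair hav
    · exact hG.card e (Finset.mem_of_mem_erase he)
  · exact fun x => (hdeg x).trans (hG.deg_le x)
  · intro e he h3 x hx y hy hxy
    have h1 := hdeg x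
    have h2 := hdeg y
    have h4 := deg_pos he hx
    have h5 := deg_pos he hy
    rcases Finset.mem_insert.1 he with rfl | he
    · rw [Finset.card_pair hav] at h3
      omega
    · rcases hG.three e (Finset.mem_of_mem_erase he) h3 x hx y hy hxy with h6 | h6
      · left; omega
      · right; omega
  · -- a triangle would use the new edge, but `a` has degree one
    intro x y z hxy hyz hxz h1 h2 h3
    have hda1 : deg (insert {a, v} (K.erase T)) a = 1 := by
      rw [deg_insert hnot, hda0, if_pos (by simp)]
    have key : ∀ e ∈ insert ({a, v} : Finset α) (K.erase T), a ∈ e → e = {a, v} :=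
      fun e he hae => eq_of_deg_one hda1 he (Finset.mem_insert_self _ _) hae (by simp)
    have hin : ∀ e ∈ insert ({a, v} : Finset α) (K.erase T), a ∉ e → e ∈ K := by
      intro e he hae
      rcases Finset.mem_insert.1 he with rfl | he
      · exact absurd (by simp) hae
      · exact Finset.mem_of_mem_erase he
    by_cases hx : a = x
    · subst hx
      have e1 := key _ h1 (by simp)
      have e2 := key _ h3 (by simp)
      have : y ∈ ({a, z} : Finset α) := by
        rw [e2, ← e1]; simp
      rw [Finset.mem_insert, Finset.mem_singleton] at this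
      rcases this with h | h
      · exact hxy h.symm
      · exact hyz h
    by_cases hy : a = y
    · subst hy
      have e1 := key _ h1 (by simp)
      have e2 := key _ h2 (by simp)
      have : x ∈ ({a, z} : Finset α) := by
        rw [e2, ← e1]; simp
      rw [Finset.mem_insert, Finset.mem_singleton] at this
      rcases this with h | h
      · exact hxy h
      · exact hxz h
    by_cases hz : a = z
    · subst hz
      have e1 := key _ h2 (by simp)
      have e2 := key _ h3 (by simp)
      have : y ∈ ({x, a} : Finset α) := by
        rw [e2, ← e1]; simp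
      rw [Finset.mem_insert, Finset.mem_singleton] at this
      rcases this with h | h
      · exact hxy h.symm
      · exact hyz h
    refine hG.tri x y z hxy hyz hxz (hin _ h1 ?_) (hin _ h2 ?_) (hin _ h3 ?_) <;>
      rw [Finset.mem_insert, Finset.mem_singleton] <;> tauto

end Pool.MP_38cb75_co.GT
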