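import Pool.Agent.Lib.MP_38cb75_co.DegA

/-! JOB GOODINS: closure of the class `Good` under insertion of edges. -/

set_option autoImplicit false

namespace Pool.MP_38cb75_co.GT

variable {α : Type*} [DecidableEq α]

private theorem ins_deg_one {K : Finset (Finset α)} {e : Finset α} {u : α} (he : e ∈ K)
    (hu : u ∈ e) (h : deg K u ≤ 1) : deg K u = 1 :=
  le_antisymm h (deg_pos he hu)

/-- Linking two vertices of degree at most one by a 2-edge; the edges at `a` and at `c` are
disjoint (in particular different), so no triangle arises. -/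
theorem Good.insert2 {V : Finset α} {K : Finset (Finset α)} (hG : Good V K) {a c : α}
    (hac : a ≠ c) (ha : a ∈ V) (hc : c ∈ V) (hda : deg K a ≤ 1) (hdc : deg K c ≤ 1)
    (hTa : ∀ T ∈ K, T.card = 3 → a ∈ T → ∀ u ∈ T, deg K u ≤ 1)
    (hTc : ∀ T ∈ K, T.card = 3 → c ∈ T → ∀ u ∈ T, deg K u ≤ 1)
    (hd : ∀ e ∈ K, ∀ f ∈ K, a ∈ e → c ∈ f → Disjoint e f) :
    Good V (insert {a, c} K) := by
  by_cases hmem : ({a, c} : Finset α) ∈ K
  · rw [Finset.insert_eq_of_mem hmem]
    exact hG
  have hcard2 : ({a, c} : Finset α).card = 2 := Finset.card_pair hac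
  have hdeg : ∀ v, deg (insert {a, c} K) v = deg K v + if v ∈ ({a, c} : Finset α) then 1 else 0 :=
    fun v => deg_insert hmem v
  -- no triangle through the new edge
  have htri : ∀ p q r : α, p ≠ r → q ≠ r → ({p, q} : Finset α) = {a, c} →
      ({p, r} : Finset α) ∈ insert ({a, c} : Finset α) K →
      ({q, r} : Finset α) ∈ insert ({a, c} : Finset α) K → False := by
    intro p q r hpr hqr hpq h1 h2
    have hr : r ∉ ({a, c} : Finset α) := by
      rw [← hpq, Finset.mem_insert, Finset.mem_singleton]
      rintro (h | h)
      · exact hpr h.symm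
      · exact hqr h.symm
    have h1' : ({p, r} : Finset α) ∈ K := by
      rcases Finset.mem_insert.1 h1 with h | h
      · exact absurd (h ▸ (by simp : r ∈ ({p, r} : Finset α))) hr
      · exact h
    have h2' : ({q, r} : Finset α) ∈ K := by
      rcases Finset.mem_insert.1 h2 with h | h
      · exact absurd (h ▸ (by simp : r ∈ ({q, r} : Finset α))) hr
      · exact h
    have hp : p = a ∨ p = c := by
      have : p ∈ ({a, c} : Finset α) := hpq ▸ (by simp)
      simpa using this
    have ha' : a = p ∨ a = q := by
      have : a ∈ ({p, q} : Finset α) := hpq ▸ (by simp)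
      simpa using this
    have hc' : c = p ∨ c = q := by
      have : c ∈ ({p, q} : Finset α) := hpq ▸ (by simp)
      simpa using this
    rcases hp with hp | hp
    · have hq : c = q := by
        rcases hc' with h | h
        · exact absurd (h.trans hp).symm hac
        · exact h
      have := hd _ h1' _ h2' (by simp [hp]) (by simp [hq])
      exact Finset.disjoint_left.1 this (by simp : r ∈ ({p, r} : Finset α)) (by simp)
    · have hq : a = q := by
        rcases ha' with h | h
        · exact absurd (h.trans hp) hac
        · exact h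
      have := hd _ h2' _ h1' (by simp [hq]) (by simp [hp])
      exact Finset.disjoint_left.1 this (by simp : r ∈ ({q, r} : Finset α)) (by simp)
  refine ⟨?_, ?_, ?_, ?_, ?_⟩
  · intro e he
    rcases Finset.mem_insert.1 he with rfl | he
    · intro x hx
      rw [Finset.mem_insert, Finset.mem_singleton] at hx
      rcases hx with rfl | rfl
      · exact ha
      · exact hc
    · exact hG.sub e he
  · intro e he
    rcases Finset.mem_insert.1 he with rfl | he
    · exact Or.inl hcard2
    · exact hG.card e he
  · intro v
    rw [hdeg]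
    by_cases hv : v ∈ ({a, c} : Finset α)
    · rw [if_pos hv]
      rw [Finset.mem_insert, Finset.mem_singleton] at hv
      rcases hv with rfl | rfl <;> omega
    · rw [if_neg hv]
      exact hG.deg_le v
  · intro e he he3 u hu v hv huv
    have heK : e ∈ K := by
      rcases Finset.mem_insert.1 he with rfl | he
      · omega
      · exact he
    have hnot : ¬ (a ∈ e ∧ c ∈ e) := by
      rintro ⟨h1, h2⟩
      have := hd e heK e heK h1 h2
      exact Finset.disjoint_left.1 this h1 h1
    rw [hdeg, hdeg]
    by_cases hae : a ∈ e
    · have hce : c ∉ e := fun h => hnot ⟨hae, h⟩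
      have h1 := ins_deg_one heK hu (hTa e heK he3 hae u hu)
      have h2 := ins_deg_one heK hv (hTa e heK he3 hae v hv)
      have huc : u ≠ c := fun h => hce (h ▸ hu)
      have hvc : v ≠ c := fun h => hce (h ▸ hv)
      by_cases hua : u = a
      · right
        have hva : v ≠ a := fun h => huv (hua.trans h.symm)
        rw [if_neg (by simp [hva, hvc]), h2]
      · left
        rw [if_neg (by simp [hua, huc]), h1]
    · by_cases hce : c ∈ e
      · have h1 := ins_deg_one heK hu (hTc e heK he3 hce u hu)
        have h2 := ins_deg_one heK hv (hTc e heK he3 hce v hv)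
        have hua : u ≠ a := fun h => hae (h ▸ hu)
        have hva : v ≠ a := fun h => hae (h ▸ hv)
        by_cases huc : u = c
        · right
          have hvc : v ≠ c := fun h => huv (huc.trans h.symm)
          rw [if_neg (by simp [hva, hvc]), h2]
        · left
          rw [if_neg (by simp [hua, huc]), h1]
      · have hua : u ≠ a := fun h => hae (h ▸ hu)
        have hva : v ≠ a := fun h => hae (h ▸ hv)
        have huc : u ≠ c := fun h => hce (h ▸ hu)
        have hvc : v ≠ c := fun h => hce (h ▸ hv)
        rw [if_neg (by simp [hua, huc]), if_neg (by simp [hva, hvc])]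
        exact hG.three e heK he3 u hu v hv huv
  · intro x y z hxy hyz hxz h1 h2 h3
    by_cases e1 : ({x, y} : Finset α) = {a, c}
    · exact htri x y z hxz hyz e1 h3 h2
    by_cases e2 : ({y, z} : Finset α) = {a, c}
    · refine htri y z x hxy.symm hxz.symm e2 ?_ ?_
      · rwa [Finset.pair_comm y x]
      · rwa [Finset.pair_comm z x]
    by_cases e3 : ({x, z} : Finset α) = {a, c}
    · refine htri x z y hxy hyz.symm e3 h1 ?_
      rwa [Finset.pair_comm z y]
    have h1' := (Finset.mem_insert.1 h1).resolve_left e1
    have h2' := (Finset.mem_insert.1 h2).resolve_left e2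
    have h3' := (Finset.mem_insert.1 h3).resolve_left e3
    exact hG.tri x y z hxy hyz hxz h1' h2' h3'

/-- A new 3-edge `{a, x, z}` with `x`, `z` free and `a` of degree at most one (if `a` lies in a
3-edge, this 3-edge has no vertex of degree two). -/
theorem Good.insert3 {V : Finset α} {K : Finset (Finset α)} (hG : Good V K) {a x z : α}
    (hax : a ≠ x) (haz : a ≠ z) (hxz : x ≠ z) (ha : a ∈ V) (hx : x ∈ V) (hz : z ∈ V)
    (hdx : deg K x = 0) (hdz : deg K z = 0) (hda : deg K a ≤ 1)
    (hTa : ∀ T ∈ K, T.card = 3 → a ∈ T → ∀ u ∈ T, deg K u ≤ 1) :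
    Good V (insert {a, x, z} K) := by
  have hxe : ∀ e ∈ K, x ∉ e := deg_eq_zero.1 hdx
  have hze : ∀ e ∈ K, z ∉ e := deg_eq_zero.1 hdz
  have hmem : ({a, x, z} : Finset α) ∉ K := fun h => hxe _ h (by simp)
  have hcard3 : ({a, x, z} : Finset α).card = 3 := Finset.card_eq_three.2 ⟨a, x, z, hax, haz, hxz, rfl⟩
  have hdeg : ∀ v, deg (insert {a, x, z} K) v =
      deg K v + if v ∈ ({a, x, z} : Finset α) then 1 else 0 :=
    fun v => deg_insert hmem v
  refine ⟨?_, ?_, ?_, ?_, ?_⟩
  · intro e he
    rcases Finset.mem_insert.1 he with rfl | he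
    · intro y hy
      simp only [Finset.mem_insert, Finset.mem_singleton] at hy
      rcases hy with rfl | rfl | rfl
      · exact ha
      · exact hx
      · exact hz
    · exact hG.sub e he
  · intro e he
    rcases Finset.mem_insert.1 he with rfl | he
    · exact Or.inr hcard3
    · exact hG.card e he
  · intro v
    rw [hdeg]
    by_cases hv : v ∈ ({a, x, z} : Finset α)
    · rw [if_pos hv]
      simp only [Finset.mem_insert, Finset.mem_singleton] at hv
      rcases hv with rfl | rfl | rfl <;> omega
    · rw [if_neg hv]
      exact hG.deg_le v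
  · intro e he he3 u hu v hv huv
    rcases Finset.mem_insert.1 he with rfl | heK
    · -- the new edge
      have hx1 : deg (insert {a, x, z} K) x = 1 := by
        rw [hdeg, hdx]; simp
      have hz1 : deg (insert {a, x, z} K) z = 1 := by
        rw [hdeg, hdz]; simp
      simp only [Finset.mem_insert, Finset.mem_singleton] at hu hv
      rcases hu with rfl | rfl | rfl
      · rcases hv with rfl | rfl | rfl
        · exact absurd rfl huv
        · exact Or.inr hx1
        · exact Or.inr hz1
      · exact Or.inl hx1
      · exact Or.inl hz1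
    · have hux : u ≠ x := fun h => hxe e heK (h ▸ hu)
      have huz : u ≠ z := fun h => hze e heK (h ▸ hu)
      have hvx : v ≠ x := fun h => hxe e heK (h ▸ hv)
      have hvz : v ≠ z := fun h => hze e heK (h ▸ hv)
      rw [hdeg, hdeg]
      by_cases hae : a ∈ e
      · have h1 := ins_deg_one heK hu (hTa e heK he3 hae u hu)
        have h2 := ins_deg_one heK hv (hTa e heK he3 hae v hv)
        by_cases hua : u = a
        · right
          have hva : v ≠ a := fun h => huv (hua.trans h.symm)
          rw [if_neg (by simp [hva, hvx, hvz]), h2]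
        · left
          rw [if_neg (by simp [hua, hux, huz]), h1]
      · have hua : u ≠ a := fun h => hae (h ▸ hu)
        have hva : v ≠ a := fun h => hae (h ▸ hv)
        rw [if_neg (by simp [hua, hux, huz]), if_neg (by simp [hva, hvx, hvz])]
        exact hG.three e heK he3 u hu v hv huv
  · intro p q r hpq hqr hpr h1 h2 h3
    have key : ∀ s t : α, ({s, t} : Finset α) ∈ insert ({a, x, z} : Finset α) K →
        ({s, t} : Finset α) ∈ K := by
      intro s t h
      rcases Finset.mem_insert.1 h with h | h
      · exfalso
        have h4 : ({s, t} : Finset α).card ≤ 2 := Finset.card_le_two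
        rw [h] at h4
        omega
      · exact h
    exact hG.tri p q r hpq hqr hpr (key _ _ h1) (key _ _ h2) (key _ _ h3)

end Pool.MP_38cb75_co.GT
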