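import Pool.Agent.Lib.MP_38cb75_co.Peel
import Pool.Agent.Lib.MP_38cb75_co.GoodA

/-! JOB DELTAA: how the mean number of defectives changes, one step. -/

set_option autoImplicit false

namespace Pool.MP_38cb75_co.GT

variable {α : Type*} [DecidableEq α]

/-- Mean number of defectives of a random set hitting `K`. -/
noncomputable def mean (p : ℝ) (V : Finset α) (K : Finset (Finset α)) : ℝ :=
  wsum p V K (fun j => (j : ℝ)) / Z p V K

theorem Good.Z_pos {p : ℝ} (hp0 : 0 < p) (hp1 : p < 1) {V : Finset α} {K : Finset (Finset α)}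
    (hG : Good V K) : 0 < Z p V K := by
  refine GT.Z_pos hp0 hp1 fun e he => ⟨hG.sub e he, ?_⟩
  rw [← Finset.card_pos]
  rcases hG.card e he with h | h <;> omega

private theorem deltaA_m1 {p : ℝ} {V : Finset α} {K : Finset (Finset α)} :
    wsum p V K (fun j => ((j + 1 : ℕ) : ℝ)) = wsum p V K (fun j => (j : ℝ)) + Z p V K := by
  have h : (fun j : ℕ => ((j + 1 : ℕ) : ℝ)) = fun j : ℕ => (j : ℝ) + 1 := by
    funext j
    push_cast
    ring
  rw [h, wsum_add]
  rfl

/-- A free item: `μ(V,K) = p + μ(V-a,K)`. -/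
theorem step_free {p : ℝ} (hp0 : 0 < p) (hp1 : p < 1) {V : Finset α} {K : Finset (Finset α)}
    (hG : Good V K) {a : α} (ha : a ∈ V) (hd : deg K a = 0) :
    mean p V K = p + mean p (V.erase a) K := by
  have hK := deg_eq_zero.1 hd
  have hG' : Good (V.erase a) K := by
    refine hG.mono (Finset.Subset.refl _) fun e he x hx => ?_
    rw [Finset.mem_erase]
    exact ⟨fun h => hK e he (h ▸ hx), hG.sub e he hx⟩
  have hz := hG'.Z_pos hp0 hp1
  unfold mean
  rw [Z_free ha hK, wsum_free ha hK, deltaA_m1]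
  field_simp
  ring

/-- `a` in the 2-edge `{a,c}`, `deg K a = 1`.  Put `V₁ = V - a`, `K₁ = K - {a,c}`, `V₂ = V₁ - c`,
`K₂ = del K c`.  By `peel_leaf`,
`μ(V,K) = π (1 + μ(V₁,K₁)) + (1-π) (1 + μ(V₂,K₂))` with `π = p Z(V₁,K₁)/Z(V,K) ≥ p` (because
`Z(V,K) ≤ Z(V,K₁) = Z(V₁,K₁)`).  So `1 + μ(V₁,K₁) - μ(V,K) = (1-π) (μ(V₁,K₁) - μ(V₂,K₂))`. -/
theorem step_leaf {p : ℝ} (hp0 : 0 < p) (hp1 : p < 1) {V : Finset α} {K : Finset (Finset α)}
    (hG : Good V K) {a c : α} (hac : a ≠ c) (he : {a, c} ∈ K) (hda : deg K a = 1)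
    (h0 : 0 ≤ mean p (V.erase a) (K.erase {a, c}) - mean p ((V.erase a).erase c) (del K c))
    (h1 : mean p (V.erase a) (K.erase {a, c}) - mean p ((V.erase a).erase c) (del K c) ≤ 1) :
    0 ≤ 1 + mean p (V.erase a) (K.erase {a, c}) - mean p V K ∧
      1 + mean p (V.erase a) (K.erase {a, c}) - mean p V K ≤ 1 - p := by
  have hae : a ∈ ({a, c} : Finset α) := by simp
  have haV : a ∈ V := hG.sub _ he hae
  have hu : ∀ f ∈ K, a ∈ f → f = {a, c} := fun f hf haf => eq_of_deg_one hda hf he haf hae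
  have hK1 : K.erase {a, c} = del K a := (del_of_deg_one hda he hae).symm
  have hG1 : Good (V.erase a) (K.erase {a, c}) := by rw [hK1]; exact hG.del a
  have hG2 : Good ((V.erase a).erase c) (del K c) := by
    refine hG.mono (fun e he => (mem_del.1 he).1) fun e he' x hx => ?_
    have h := mem_del.1 he'
    rw [Finset.mem_erase, Finset.mem_erase]
    refine ⟨fun h4 => h.2 (h4 ▸ hx), fun h4 => h.2 ?_, hG.sub e h.1 hx⟩
    rw [hu e h.1 (h4 ▸ hx)]
    simp
  have hz := hG.Z_pos hp0 hp1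
  have hz1 := hG1.Z_pos hp0 hp1
  have hz2 := hG2.Z_pos hp0 hp1
  have eZ : Z p V K = p * Z p (V.erase a) (K.erase {a, c}) +
      (1 - p) * p * Z p ((V.erase a).erase c) (del K c) := peel_leaf hG hac he hda
  have eM := peel_leaf (p := p) (φ := fun j => (j : ℝ)) hG hac he hda
  rw [deltaA_m1, deltaA_m1] at eM
  have hle : Z p V K ≤ Z p (V.erase a) (K.erase {a, c}) := by
    rw [← Z_free (K := K.erase {a, c}) haV (fun e he => ?_)]
    · exact wsum_mono hp0.le hp1.le (fun D _ hD e he => hD e (Finset.mem_of_mem_erase he))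
        (fun _ => zero_le_one) (fun _ => le_rfl)
    · rw [hK1, mem_del] at he
      exact he.2
  unfold mean at h0 h1 ⊢
  rw [eM]
  generalize wsum p (V.erase a) (K.erase {a, c}) (fun j => (j : ℝ)) = m1 at *
  generalize wsum p ((V.erase a).erase c) (del K c) (fun j => (j : ℝ)) = m2 at *
  generalize Z p (V.erase a) (K.erase {a, c}) = z1 at *
  generalize Z p ((V.erase a).erase c) (del K c) = z2 at *
  generalize Z p V K = z at *
  have hp : 0 < 1 - p := by linarith
  have key : 1 + m1 / z1 - (p * (m1 + z1) + (1 - p) * p * (m2 + z2)) / z =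
      ((1 - p) * p * z2 / z) * (m1 / z1 - m2 / z2) := by
    have e1 : m1 = (m1 / z1) * z1 := by field_simp
    have e2 : m2 = (m2 / z2) * z2 := by field_simp
    generalize m1 / z1 = u1 at *
    generalize m2 / z2 = u2 at *
    rw [e1, e2]
    field_simp
    rw [eZ]
    ring
  have hπ : (1 - p) * p * z2 / z ≤ 1 - p := by
    rw [div_le_iff₀ hz]
    nlinarith
  have hπ0 : 0 ≤ (1 - p) * p * z2 / z := by positivity
  rw [key]
  refine ⟨mul_nonneg hπ0 h0, ?_⟩
  have := mul_le_mul hπ h1 h0 hp.le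
  linarith

/-- `T = {a,c,d}`, `a` and `d` of degree one, `V₁ = V - a`, `K₁ = K - T`, `K₂ = K₁ + {c,d}`.
`d` is free in `K₁`: `μ(V₁,K₁) = p + μ(V₁-d,K₁)` (`step_free`); `d` is a leaf of `K₂`:
`0 ≤ 1 + μ(V₁-d,K₁) - μ(V₁,K₂) ≤ 1 - p` (`step_leaf` for `(V₁, K₂)`, `Good.shrink`). -/
theorem step_T {p : ℝ} (hp0 : 0 < p) (hp1 : p < 1) {V : Finset α} {K : Finset (Finset α)}
    (hG : Good V K) {a c d : α} (hac : a ≠ c) (had : a ≠ d) (hcd : c ≠ d) (he : {a, c, d} ∈ K)
    (hda : deg K a = 1) (hdd : deg K d = 1)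
    (h0 : 0 ≤ mean p ((V.erase a).erase d) (K.erase {a, c, d}) -
      mean p (((V.erase a).erase d).erase c) (del K c))
    (h1 : mean p ((V.erase a).erase d) (K.erase {a, c, d}) -
      mean p (((V.erase a).erase d).erase c) (del K c) ≤ 1) :
    0 ≤ 1 + mean p (V.erase a) (K.erase {a, c, d}) -
        mean p (V.erase a) (insert {c, d} (K.erase {a, c, d})) ∧
      1 + mean p (V.erase a) (K.erase {a, c, d}) -
        mean p (V.erase a) (insert {c, d} (K.erase {a, c, d})) ≤ 1 := by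
  have hae : a ∈ ({a, c, d} : Finset α) := by simp
  have hde : d ∈ ({a, c, d} : Finset α) := by simp
  have h3 : ({a, c, d} : Finset α).card = 3 := Finset.card_eq_three.2 ⟨a, c, d, hac, had, hcd, rfl⟩
  have hu : ∀ f ∈ K, a ∈ f → f = {a, c, d} := fun f hf haf => eq_of_deg_one hda hf he haf hae
  have hdV : d ∈ V := hG.sub _ he hde
  have hdV1 : d ∈ V.erase a := Finset.mem_erase.2 ⟨had.symm, hdV⟩
  have hK1 : K.erase {a, c, d} = del K a := (del_of_deg_one hda he hae).symm
  have hG1 : Good (V.erase a) (K.erase {a, c, d}) := by rw [hK1]; exact hG.del a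
  have hsh := hG.shrink he h3 (a := d) (v := c) hcd.symm (by simp) (by simp) hdd
  rw [Finset.pair_comm d c] at hsh
  have hG2 : Good (V.erase a) (insert {c, d} (K.erase {a, c, d})) := by
    refine hsh.1.mono (Finset.Subset.refl _) fun f hf x hx => ?_
    rw [Finset.mem_erase]
    refine ⟨?_, hsh.1.sub f hf hx⟩
    rintro rfl
    rcases Finset.mem_insert.1 hf with rfl | hf
    · rw [Finset.mem_insert, Finset.mem_singleton] at hx
      exact hx.elim hac had
    · rw [Finset.mem_erase] at hf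
      exact hf.1 (hu f hf.2 hx)
  have hd1 : deg (K.erase {a, c, d}) d = 0 := by
    have h4 := deg_erase he d
    rw [if_pos hde] at h4
    omega
  have hd2 : deg (insert {c, d} (K.erase {a, c, d})) d = 1 := by
    rw [deg_insert hsh.2, hd1, if_pos (by simp)]
  have hK2 : (insert {c, d} (K.erase {a, c, d})).erase {d, c} = K.erase {a, c, d} := by
    rw [Finset.pair_comm d c, Finset.erase_insert hsh.2]
  have hK3 : del (insert {c, d} (K.erase {a, c, d})) c = del K c := by
    ext f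
    rw [mem_del, mem_del, Finset.mem_insert, Finset.mem_erase]
    constructor
    · rintro ⟨rfl | ⟨_, h6⟩, h7⟩
      · exact absurd (by simp) h7
      · exact ⟨h6, h7⟩
    · rintro ⟨h6, h7⟩
      refine ⟨Or.inr ⟨?_, h6⟩, h7⟩
      rintro rfl
      exact h7 (by simp)
  have hs := step_leaf hp0 hp1 hG2 (a := d) (c := c) hcd.symm
    (by rw [Finset.pair_comm d c]; exact Finset.mem_insert_self _ _) hd2
    (by rw [hK2, hK3]; exact h0) (by rw [hK2, hK3]; exact h1)
  rw [hK2] at hs
  have hf := step_free hp0 hp1 hG1 hdV1 hd1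
  rw [hf]
  constructor
  · linarith [hs.1]
  · linarith [hs.2]

end Pool.MP_38cb75_co.GT
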