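import Pool.Agent.Lib.MP_38cb75_co.Fam

/-! JOB ELIMA: elimination of a clique, no tests or one test left. -/

set_option autoImplicit false

namespace Pool.MP_38cb75_co.GT

variable {α : Type*} [DecidableEq α]

/-- Members of `fam V K b` containing all but at most one of the items of `Q`. -/
def famQ (V : Finset α) (K : Finset (Finset α)) (Q : Finset α) (b : ℕ) : Set (Finset α) :=
  {D | D ∈ fam V K b ∧ (Q \ D).card ≤ 1}

/-- insert `q` -/
private theorem famQ_insert {V : Finset α} {K : Finset (Finset α)} {Q : Finset α} {b : ℕ} {q : α}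
    (hq : q ∈ Q) (hQV : Q ⊆ V) {D : Finset α} (hD : D ∈ famQ (V.erase q) K (Q.erase q) b) :
    q ∉ D ∧ insert q D ∈ famQ V K Q (b + 1) := by
  have hqD : q ∉ D := fun h => Finset.notMem_erase q V (hD.1.1 h)
  refine ⟨hqD, ⟨?_, ?_, ?_⟩, ?_⟩
  · intro x hx
    rw [Finset.mem_insert] at hx
    rcases hx with rfl | hx
    · exact hQV hq
    · exact Finset.mem_of_mem_erase (hD.1.1 hx)
  · rw [Finset.card_insert_of_notMem hqD, hD.1.2.1]
  · intro e he
    exact (hD.1.2.2 e he).mono (Finset.inter_subset_inter_left (Finset.subset_insert _ _))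
  · have : Q \ insert q D = (Q.erase q) \ D := by
      ext x
      simp only [Finset.mem_sdiff, Finset.mem_insert, Finset.mem_erase, not_or]
      tauto
    rw [this]; exact hD.2

/-- exchange: `D` contains `q`, `x ∉ D`, and either `x ∈ Q`, or `Q ⊆ D` -/
private theorem famQ_swap {V : Finset α} {K : Finset (Finset α)} {Q : Finset α} {b : ℕ} {q x : α}
    (hq : q ∈ Q) (hK : ∀ e ∈ K, Disjoint e Q) {D : Finset α}
    (hD : D ∈ famQ V K Q b) (hqD : q ∈ D) (hxD : x ∉ D) (hxV : x ∈ V) (h : x ∈ Q ∨ Q ⊆ D) :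
    insert x (D.erase q) ∈ famQ V K Q b := by
  have hxq : x ≠ q := fun h => hxD (h ▸ hqD)
  have hx' : x ∉ D.erase q := fun h => hxD (Finset.mem_of_mem_erase h)
  refine ⟨⟨?_, ?_, ?_⟩, ?_⟩
  · intro z hz
    rw [Finset.mem_insert] at hz
    rcases hz with rfl | hz
    · exact hxV
    · exact hD.1.1 (Finset.mem_of_mem_erase hz)
  · rw [Finset.card_insert_of_notMem hx', Finset.card_erase_of_mem hqD, hD.1.2.1]
    have : 1 ≤ D.card := Finset.card_pos.2 ⟨q, hqD⟩
    rw [hD.1.2.1] at this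
    omega
  · intro e he
    obtain ⟨z, hz⟩ := hD.1.2.2 e he
    rw [Finset.mem_inter] at hz
    refine ⟨z, Finset.mem_inter.2 ⟨hz.1, ?_⟩⟩
    rw [Finset.mem_insert, Finset.mem_erase]
    right
    exact ⟨fun h => Finset.disjoint_left.1 (hK e he) hz.1 (h ▸ hq), hz.2⟩
  · rw [Finset.card_le_one]
    intro y hy z hz
    simp only [Finset.mem_sdiff, Finset.mem_insert, Finset.mem_erase, not_or, not_and] at hy hz
    rcases h with h | h
    · -- Q \ D = {x}
      have h1 : ∀ w ∈ Q, w ∉ D → w = x := by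
        intro w hw hwD
        exact Finset.card_le_one.1 hD.2 w (Finset.mem_sdiff.2 ⟨hw, hwD⟩) x
          (Finset.mem_sdiff.2 ⟨h, hxD⟩)
      have h2 : ∀ w ∈ Q, w ≠ x → (¬ w = q → w ∉ D) → w = q := by
        intro w hw hwx hwq
        by_contra hne
        exact hwx (h1 w hw (hwq hne))
      rw [h2 y hy.1 hy.2.1 hy.2.2, h2 z hz.1 hz.2.1 hz.2.2]
    · have h2 : ∀ w ∈ Q, (¬ w = q → w ∉ D) → w = q := by
        intro w hw hwq
        by_contra hne
        exact hwq hne (h hw)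
      rw [h2 y hy.1 hy.2.2, h2 z hz.1 hz.2.2]

/-- Let `D'` be in the right hand family and `D = insert q D'`, a member of
`famQ V K Q (b+1)`.  If some `q' ∈ Q` is not in `D`, exchange `q` and `q'`.  Otherwise `Q ⊆ D` and,
as `b + 1 < V.card`, there is `x ∈ V \ D`, `x ∉ Q`; take `insert x (D.erase q)`.  In both cases we
get a second member of `famQ V K Q (b+1)` (edges of `K` avoid `Q`). -/
theorem elim_zero {V : Finset α} {K : Finset (Finset α)} {Q : Finset α} {b : ℕ} {q : α}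
    (hQ : 2 ≤ Q.card) (hq : q ∈ Q) (hQV : Q ⊆ V) (hK : ∀ e ∈ K, Disjoint e Q)
    (hb : b + 1 < V.card) (h : (famQ V K Q (b + 1)).Subsingleton) :
    famQ (V.erase q) K (Q.erase q) b = ∅ := by
  rw [Set.eq_empty_iff_forall_notMem]
  intro D' hD'
  obtain ⟨hqD, hD⟩ := famQ_insert hq hQV hD'
  set D := insert q D' with hDdef
  have hqD2 : q ∈ D := Finset.mem_insert_self _ _
  have hcon : ∀ x, x ∉ D → x ∈ V → (x ∈ Q ∨ Q ⊆ D) → False := by
    intro x hxD hxV hx
    have h1 := h (famQ_swap hq hK hD hqD2 hxD hxV hx) hD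
    have h2 : x ∈ D := by rw [← h1]; exact Finset.mem_insert_self _ _
    exact hxD h2
  by_cases hsub : Q ⊆ D
  · obtain ⟨x, hx⟩ : (V \ D).Nonempty := by
      rw [← Finset.card_pos, Finset.card_sdiff_of_subset hD.1.1, hD.1.2.1]; omega
    rw [Finset.mem_sdiff] at hx
    exact hcon x hx.2 hx.1 (Or.inr hsub)
  · obtain ⟨x, hxQ, hxD⟩ := Finset.not_subset.1 hsub
    exact hcon x hxD (hQV hxQ) (Or.inl hxQ)

/-- Case of one test `S` with `Disjoint S Q`.  Let `D₁' ≠ D₂'` be in the right hand family,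
`Dᵢ = insert q Dᵢ'`.  If `Q ⊄ Dᵢ`, exchange as before: a second member with the same answer to `S`,
contradiction.  So `Q ⊆ D₁`, `Q ⊆ D₂`; take `x ∈ D₂ \ D₁` (same cardinality), `x ∉ Q`, and
`D₃ = insert x (D₁.erase q)`: a third member of `famQ V K Q (b+1)`, different from `D₁` and `D₂`
(they contain `q`); two of the three have the same answer to `S`, contradiction. -/
theorem elim_one {V : Finset α} {K : Finset (Finset α)} {Q : Finset α} {b : ℕ} {q : α}
    (hQ : 2 ≤ Q.card) (hq : q ∈ Q) (hQV : Q ⊆ V) (hK : ∀ e ∈ K, Disjoint e Q)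
    (S : Finset α) (hS : Disjoint S Q)
    (h1 : {D | D ∈ famQ V K Q (b + 1) ∧ (S ∩ D).Nonempty}.Subsingleton)
    (h2 : {D | D ∈ famQ V K Q (b + 1) ∧ ¬ (S ∩ D).Nonempty}.Subsingleton) :
    (famQ (V.erase q) K (Q.erase q) b).Subsingleton := by
  -- two members with the same answer are equal
  have heq : ∀ D ∈ famQ V K Q (b + 1), ∀ E ∈ famQ V K Q (b + 1),
      ((S ∩ D).Nonempty ↔ (S ∩ E).Nonempty) → D = E := by
    intro D hD E hE hiff
    by_cases hne : (S ∩ D).Nonempty
    · exact h1 ⟨hD, hne⟩ ⟨hE, hiff.1 hne⟩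
    · exact h2 ⟨hD, hne⟩ ⟨hE, fun h => hne (hiff.2 h)⟩
  have hqS : q ∉ S := fun h => Finset.disjoint_left.1 hS h hq
  -- all of `Q` is defective
  have hall : ∀ D ∈ famQ V K Q (b + 1), q ∈ D → Q ⊆ D := by
    intro D hD hqD
    by_contra hsub
    obtain ⟨x, hxQ, hxD⟩ := Finset.not_subset.1 hsub
    have hsw := famQ_swap hq hK hD hqD hxD (hQV hxQ) (Or.inl hxQ)
    have hxS : x ∉ S := fun h => Finset.disjoint_left.1 hS h hxQ
    have : D = insert x (D.erase q) := by
      apply heq D hD _ hsw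
      have : S ∩ insert x (D.erase q) = S ∩ D := by
        ext z
        simp only [Finset.mem_inter, Finset.mem_insert, Finset.mem_erase]
        constructor
        · rintro ⟨hz, rfl | hz2⟩
          · exact absurd hz hxS
          · exact ⟨hz, hz2.2⟩
        · rintro ⟨hz, hz2⟩
          exact ⟨hz, Or.inr ⟨fun h => hqS (h ▸ hz), hz2⟩⟩
      rw [this]
    apply hxD
    rw [this]
    exact Finset.mem_insert_self _ _
  intro E1 hE1 E2 hE2
  by_contra hne
  obtain ⟨hq1, hD1⟩ := famQ_insert hq hQV hE1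
  obtain ⟨hq2, hD2⟩ := famQ_insert hq hQV hE2
  set D1 := insert q E1 with hD1def
  set D2 := insert q E2 with hD2def
  have hqD1 : q ∈ D1 := Finset.mem_insert_self _ _
  have hqD2 : q ∈ D2 := Finset.mem_insert_self _ _
  have hD12 : D1 ≠ D2 := by
    intro h
    apply hne
    rw [← Finset.erase_insert hq1, ← Finset.erase_insert hq2, ← hD1def, ← hD2def, h]
  have hQ1 := hall D1 hD1 hqD1
  obtain ⟨x, hx⟩ : (D2 \ D1).Nonempty := by
    rw [Finset.sdiff_nonempty]
    intro hsub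
    apply hD12
    symm
    apply Finset.eq_of_subset_of_card_le hsub
    rw [hD1.1.2.1, hD2.1.2.1]
  rw [Finset.mem_sdiff] at hx
  have hD3 := famQ_swap hq hK hD1 hqD1 hx.2 (hD2.1.1 hx.1) (Or.inr hQ1)
  set D3 := insert x (D1.erase q) with hD3def
  have hqD3 : q ∉ D3 := by
    rw [hD3def, Finset.mem_insert, not_or]
    exact ⟨fun h => hx.2 (h ▸ hqD1), Finset.notMem_erase _ _⟩
  have h31 : D3 ≠ D1 := fun h => hqD3 (h ▸ hqD1)
  have h32 : D3 ≠ D2 := fun h => hqD3 (h ▸ hqD2)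
  by_cases ha : (S ∩ D1).Nonempty <;> by_cases hb' : (S ∩ D2).Nonempty <;>
    by_cases hc : (S ∩ D3).Nonempty
  · exact hD12 (heq _ hD1 _ hD2 (by tauto))
  · exact hD12 (heq _ hD1 _ hD2 (by tauto))
  · exact h31 (heq _ hD3 _ hD1 (by tauto))
  · exact h32 (heq _ hD3 _ hD2 (by tauto))
  · exact h32 (heq _ hD3 _ hD2 (by tauto))
  · exact h31 (heq _ hD3 _ hD1 (by tauto))
  · exact hD12 (heq _ hD1 _ hD2 (by tauto))
  · exact hD12 (heq _ hD1 _ hD2 (by tauto))

end Pool.MP_38cb75_co.GT
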