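import Pool.Agent.Lib.MP_38cb75_co.ElimA

/-! JOB ELIMB: elimination of a clique, general step. -/

set_option autoImplicit false

namespace Pool.MP_38cb75_co.GT

variable {α : Type*} [DecidableEq α]

/-- If the test `S` meets `Q` at `q₁`: the positive family contains all members with `q₁ ∈ D`;
apply `Solves.image` with the transposition `Equiv.swap q₁ q` (the family `famQ V K Q (b+1)` is
invariant, edges of `K` avoid `Q`) and `Solves.reveal` with `R = {q}`. -/
theorem elim_meet {t : ℕ} {V : Finset α} {K : Finset (Finset α)} {Q : Finset α} {b : ℕ} {q q₁ : α}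
    (hq : q ∈ Q) (hq₁ : q₁ ∈ Q) (hQV : Q ⊆ V) (hK : ∀ e ∈ K, Disjoint e Q)
    (h : Solves t {D | D ∈ famQ V K Q (b + 1) ∧ q₁ ∈ D}) :
    Solves t (famQ (V.erase q) K (Q.erase q) b) := by
  have h1 := Solves.image (Equiv.swap q₁ q) V ((Equiv.swap q₁ q).injective.injOn)
    (fun D hD => hD.1.1.1) h
  refine Solves.mono_set ?_ (h1.reveal {q})
  intro D hD
  have hqD : q ∉ D := fun h => Finset.notMem_erase q V (hD.1.1 h)
  refine ⟨by simpa using hqD, ?_⟩
  -- the preimage
  have hswapV : ∀ x ∈ V, Equiv.swap q₁ q x ∈ V := by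
    intro x hx
    by_cases h1 : x = q₁
    · rw [h1, Equiv.swap_apply_left]; exact hQV hq
    · by_cases h2 : x = q
      · rw [h2, Equiv.swap_apply_right]; exact hQV hq₁
      · rw [Equiv.swap_apply_of_ne_of_ne h1 h2]; exact hx
  have hinv : ∀ A : Finset α, (A.image (Equiv.swap q₁ q)).image (Equiv.swap q₁ q) = A := by
    intro A
    rw [Finset.image_image]
    have : (Equiv.swap q₁ q : α → α) ∘ (Equiv.swap q₁ q : α → α) = id := by
      funext x; simp
    rw [this, Finset.image_id]
  have hDq : D ∪ {q} ∈ famQ V K Q (b + 1) := by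
    refine ⟨⟨?_, ?_, ?_⟩, ?_⟩
    · intro x hx
      rw [Finset.mem_union, Finset.mem_singleton] at hx
      rcases hx with hx | rfl
      · exact Finset.mem_of_mem_erase (hD.1.1 hx)
      · exact hQV hq
    · rw [Finset.card_union_of_disjoint (by simpa using hqD), hD.1.2.1, Finset.card_singleton]
    · intro e he
      exact (hD.1.2.2 e he).mono (Finset.inter_subset_inter_left Finset.subset_union_left)
    · have : Q \ (D ∪ {q}) = (Q.erase q) \ D := by
        ext x
        simp only [Finset.mem_sdiff, Finset.mem_union, Finset.mem_singleton, Finset.mem_erase,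
          not_or]
        tauto
      rw [this]; exact hD.2
  refine ⟨(D ∪ {q}).image (Equiv.swap q₁ q), ⟨⟨⟨?_, ?_, ?_⟩, ?_⟩, ?_⟩, hinv _⟩
  · intro x hx
    rw [Finset.mem_image] at hx
    obtain ⟨y, hy, rfl⟩ := hx
    exact hswapV y (hDq.1.1 hy)
  · rw [Finset.card_image_of_injective _ (Equiv.swap q₁ q).injective]
    exact hDq.1.2.1
  · intro e he
    obtain ⟨z, hz⟩ := hDq.1.2.2 e he
    rw [Finset.mem_inter] at hz
    refine ⟨z, Finset.mem_inter.2 ⟨hz.1, Finset.mem_image.2 ⟨z, hz.2, ?_⟩⟩⟩
    apply Equiv.swap_apply_of_ne_of_ne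
    · exact fun h => Finset.disjoint_left.1 (hK e he) hz.1 (h ▸ hq₁)
    · exact fun h => Finset.disjoint_left.1 (hK e he) hz.1 (h ▸ hq)
  · have hsQ : Q.image (Equiv.swap q₁ q) = Q := by
      apply Finset.eq_of_subset_of_card_le
      · intro x hx
        rw [Finset.mem_image] at hx
        obtain ⟨y, hy, rfl⟩ := hx
        by_cases h1 : y = q₁
        · rw [h1, Equiv.swap_apply_left]; exact hq
        · by_cases h2 : y = q
          · rw [h2, Equiv.swap_apply_right]; exact hq₁
          · rw [Equiv.swap_apply_of_ne_of_ne h1 h2]; exact hy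
      · rw [Finset.card_image_of_injective _ (Equiv.swap q₁ q).injective]
    have : Q \ (D ∪ {q}).image (Equiv.swap q₁ q) = (Q \ (D ∪ {q})).image (Equiv.swap q₁ q) := by
      conv_lhs => rw [← hsQ]
      rw [← Finset.image_sdiff _ _ (Equiv.swap q₁ q).injective]
    rw [this, Finset.card_image_of_injective _ (Equiv.swap q₁ q).injective]
    exact hDq.2
  · rw [Finset.mem_image]
    exact ⟨q, by simp, Equiv.swap_apply_right _ _⟩

/-- Elimination of the vertex `q` of a clique.  Induction on `t` generalising `V`, `K`.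
Let `S` be the first test.  If `S` meets `Q` use `elim_meet` (and `Solves.mono_set`).  Otherwise,
if `t = 0` use `elim_one`.  If `t = t' + 1`, the positive family is `famQ V (insert S K) Q (b+1)`
(use the induction hypothesis with `insert S K`), the negative one is
`famQ (V \ S) K Q (b+1)`: if `b + 1 < (V \ S).card` use the induction hypothesis, otherwise
`famQ ((V \ S).erase q) K (Q.erase q) b` is a subsingleton.  Then test `S`. -/
theorem elim {t : ℕ} {V : Finset α} {K : Finset (Finset α)} {Q : Finset α} {b : ℕ} {q : α}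
    (hQ : 2 ≤ Q.card) (hq : q ∈ Q) (hQV : Q ⊆ V) (hK : ∀ e ∈ K, Disjoint e Q)
    (hb : b + 1 < V.card) (h : Solves (t + 1) (famQ V K Q (b + 1))) :
    Solves t (famQ (V.erase q) K (Q.erase q) b) := by
  induction t generalizing V K with
  | zero =>
    obtain ⟨S, h1, h2⟩ := h
    by_cases hS : Disjoint S Q
    · exact elim_one hQ hq hQV hK S hS h1 h2
    · rw [Finset.not_disjoint_iff] at hS
      obtain ⟨q₁, hq₁S, hq₁Q⟩ := hS
      refine elim_meet hq hq₁Q hQV hK (Solves.mono_set ?_ h1)
      intro D hD
      exact ⟨hD.1, ⟨q₁, Finset.mem_inter.2 ⟨hq₁S, hD.2⟩⟩⟩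
  | succ t ih =>
    obtain ⟨S, h1, h2⟩ := h
    by_cases hS : Disjoint S Q
    · have hqS : q ∉ S := fun h => Finset.disjoint_left.1 hS h hq
      refine ⟨S, ?_, ?_⟩
      · have h3 : Solves (t + 1) (famQ V (insert S K) Q (b + 1)) := by
          refine Solves.mono_set ?_ h1
          intro D hD
          exact ⟨⟨⟨hD.1.1, hD.1.2.1, fun e he => hD.1.2.2 e (Finset.mem_insert_of_mem he)⟩, hD.2⟩,
            hD.1.2.2 S (Finset.mem_insert_self _ _)⟩
        have h4 := ih hQV (by
          intro e he
          rw [Finset.mem_insert] at he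
          rcases he with rfl | he
          · exact hS
          · exact hK e he) hb h3
        refine Solves.mono_set ?_ h4
        intro D hD
        refine ⟨⟨hD.1.1.1, hD.1.1.2.1, ?_⟩, hD.1.2⟩
        intro e he
        rw [Finset.mem_insert] at he
        rcases he with rfl | he
        · exact hD.2
        · exact hD.1.1.2.2 e he
      · by_cases hb' : b + 1 < (V \ S).card
        · have hQVS : Q ⊆ V \ S := by
            intro x hx
            exact Finset.mem_sdiff.2 ⟨hQV hx, fun h => Finset.disjoint_left.1 hS h hx⟩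
          have h3 : Solves (t + 1) (famQ (V \ S) K Q (b + 1)) := by
            refine Solves.mono_set ?_ h2
            intro D hD
            refine ⟨⟨⟨hD.1.1.trans Finset.sdiff_subset, hD.1.2.1, hD.1.2.2⟩, hD.2⟩, ?_⟩
            rintro ⟨x, hx⟩
            rw [Finset.mem_inter] at hx
            exact (Finset.mem_sdiff.1 (hD.1.1 hx.2)).2 hx.1
          have h4 := ih hQVS hK hb' h3
          refine Solves.mono_set ?_ h4
          intro D hD
          refine ⟨⟨?_, hD.1.1.2.1, hD.1.1.2.2⟩, hD.1.2⟩
          intro x hx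
          rw [Finset.mem_erase, Finset.mem_sdiff]
          have h5 := hD.1.1.1 hx
          rw [Finset.mem_erase] at h5
          exact ⟨h5.1, h5.2, fun h => hD.2 ⟨x, Finset.mem_inter.2 ⟨h, hx⟩⟩⟩
        · apply Solves.of_subsingleton
          have hall : ∀ D ∈ {D | D ∈ famQ (V.erase q) K (Q.erase q) b ∧ ¬ (S ∩ D).Nonempty},
              D = (V \ S).erase q := by
            intro D hD
            apply Finset.eq_of_subset_of_card_le
            · intro x hx
              rw [Finset.mem_erase, Finset.mem_sdiff]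
              have h5 := hD.1.1.1 hx
              rw [Finset.mem_erase] at h5
              exact ⟨h5.1, h5.2, fun h => hD.2 ⟨x, Finset.mem_inter.2 ⟨h, hx⟩⟩⟩
            · rw [Finset.card_erase_of_mem (Finset.mem_sdiff.2 ⟨hQV hq, hqS⟩), hD.1.1.2.1]
              omega
          intro D hD D' hD'
          rw [hall D hD, hall D' hD']
    · rw [Finset.not_disjoint_iff] at hS
      obtain ⟨q₁, hq₁S, hq₁Q⟩ := hS
      refine elim_meet hq hq₁Q hQV hK (Solves.mono_set ?_ h1)
      intro D hD
      exact ⟨hD.1, ⟨q₁, Finset.mem_inter.2 ⟨hq₁S, hD.2⟩⟩⟩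

end Pool.MP_38cb75_co.GT
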