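import Pool.Agent.Lib.MP_38cb75_co.ElimB

/-! JOB ELIMC: elimination of isolated pairs and triangles (corollaries of `elim_zero`, `elim`). -/

set_option autoImplicit false

namespace Pool.MP_38cb75_co.GT

variable {α : Type*} [DecidableEq α]

/-- combination of `elim_zero` and `elim` -/
private theorem elim_or {t : ℕ} {V : Finset α} {K : Finset (Finset α)} {Q : Finset α} {b : ℕ}
    {q : α} (hQ : 2 ≤ Q.card) (hq : q ∈ Q) (hQV : Q ⊆ V) (hK : ∀ e ∈ K, Disjoint e Q)
    (hb : b + 1 < V.card) (h : Solves t (famQ V K Q (b + 1))) :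
    famQ (V.erase q) K (Q.erase q) b = ∅ ∨
      ∃ s, s + 1 = t ∧ Solves s (famQ (V.erase q) K (Q.erase q) b) := by
  rcases t with _ | t
  · exact Or.inl (elim_zero hQ hq hQV hK hb h)
  · exact Or.inr ⟨t, rfl, elim hQ hq hQV hK hb h⟩

private theorem famQ_single {V : Finset α} {K : Finset (Finset α)} {c : α} {b : ℕ} :
    famQ V K {c} b = fam V K b := by
  ext D
  constructor
  · exact fun h => h.1
  · intro h
    exact ⟨h, (Finset.card_le_card Finset.sdiff_subset).trans (by simp)⟩

private theorem famQ_pair {V : Finset α} {K : Finset (Finset α)} {a c : α} (hac : a ≠ c) {b : ℕ} :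
    famQ V K {a, c} b = fam V (insert {a, c} K) b := by
  have key : ∀ D : Finset α, (({a, c} : Finset α) \ D).card ≤ 1 ↔
      (({a, c} : Finset α) ∩ D).Nonempty := by
    intro D
    have h1 := Finset.card_sdiff_add_card_inter ({a, c} : Finset α) D
    rw [Finset.card_pair hac] at h1
    rw [← Finset.card_pos]
    omega
  ext D
  constructor
  · rintro ⟨⟨h1, h2, h3⟩, h4⟩
    refine ⟨h1, h2, ?_⟩
    intro e he
    rw [Finset.mem_insert] at he
    rcases he with rfl | he
    · exact (key D).1 h4
    · exact h3 e he
  · rintro ⟨h1, h2, h3⟩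
    exact ⟨⟨h1, h2, fun e he => h3 e (Finset.mem_insert_of_mem he)⟩,
      (key D).2 (h3 _ (Finset.mem_insert_self _ _))⟩

/-- `fam V (insert {a,c} K) (b+1) = famQ V K {a,c} (b+1)` and
`fam (V.erase a) K b = famQ (V.erase a) K {c} b`. -/
theorem pair_elim {t : ℕ} {V : Finset α} {K : Finset (Finset α)} {b : ℕ} {a c : α} (hac : a ≠ c)
    (ha : a ∈ V) (hc : c ∈ V) (hK : ∀ e ∈ K, a ∉ e ∧ c ∉ e) (hb : b + 1 < V.card)
    (h : Solves t (fam V (insert {a, c} K) (b + 1))) :
    fam (V.erase a) K b = ∅ ∨ ∃ s, s + 1 = t ∧ Solves s (fam (V.erase a) K b) := by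
  rw [← famQ_pair hac] at h
  have h1 := elim_or (Q := {a, c}) (q := a) (by rw [Finset.card_pair hac]) (by simp)
    (by
      intro x hx
      rw [Finset.mem_insert, Finset.mem_singleton] at hx
      rcases hx with rfl | rfl
      · exact ha
      · exact hc)
    (by
      intro e he
      rw [Finset.disjoint_right]
      intro x hx
      rw [Finset.mem_insert, Finset.mem_singleton] at hx
      rcases hx with rfl | rfl
      · exact (hK e he).1
      · exact (hK e he).2) hb h
  have h2 : ({a, c} : Finset α).erase a = {c} := by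
    rw [Finset.erase_insert]
    simpa using hac
  rw [h2, famQ_single] at h1
  exact h1

/-- `fam V (insert {a,c} (insert {a,v} (insert {c,v} K))) (b+2) = famQ V K {a,c,v} (b+2)`; apply
`elim` with `q = a`, then with `Q = {c,v}`, `q = c`. -/
theorem triangle_elim {t : ℕ} {V : Finset α} {K : Finset (Finset α)} {b : ℕ} {a c v : α}
    (hac : a ≠ c) (hav : a ≠ v) (hcv : c ≠ v) (ha : a ∈ V) (hc : c ∈ V) (hv : v ∈ V)
    (hK : ∀ e ∈ K, a ∉ e ∧ c ∉ e ∧ v ∉ e) (hb : b + 2 < V.card)
    (h : Solves t (fam V (insert {a, c} (insert {a, v} (insert {c, v} K))) (b + 2))) :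
    fam ((V.erase a).erase c) K b = ∅ ∨
      ∃ s, s + 2 = t ∧ Solves s (fam ((V.erase a).erase c) K b) := by
  have hsub : famQ V K {a, c, v} (b + 1 + 1) ⊆
      fam V (insert {a, c} (insert {a, v} (insert {c, v} K))) (b + 2) := by
    rintro D ⟨⟨h1, h2, h3⟩, h4⟩
    refine ⟨h1, h2, ?_⟩
    have key : ∀ x ∈ ({a, c, v} : Finset α), ∀ y ∈ ({a, c, v} : Finset α), x ≠ y →
        (({x, y} : Finset α) ∩ D).Nonempty := by
      intro x hx y hy hxy
      by_contra hne
      rw [Finset.not_nonempty_iff_eq_empty] at hne
      have hxD : x ∉ D := by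
        intro hxD
        have : x ∈ ({x, y} : Finset α) ∩ D := Finset.mem_inter.2 ⟨by simp, hxD⟩
        rw [hne] at this
        exact Finset.notMem_empty _ this
      have hyD : y ∉ D := by
        intro hyD
        have : y ∈ ({x, y} : Finset α) ∩ D := Finset.mem_inter.2 ⟨by simp, hyD⟩
        rw [hne] at this
        exact Finset.notMem_empty _ this
      exact hxy (Finset.card_le_one.1 h4 x (Finset.mem_sdiff.2 ⟨hx, hxD⟩) y
        (Finset.mem_sdiff.2 ⟨hy, hyD⟩))
    intro e he
    simp only [Finset.mem_insert] at he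
    rcases he with rfl | rfl | rfl | he
    · exact key a (by simp) c (by simp) hac
    · exact key a (by simp) v (by simp) hav
    · exact key c (by simp) v (by simp) hcv
    · exact h3 e he
  have hcard : ({a, c, v} : Finset α).card = 3 := by
    rw [Finset.card_insert_of_notMem, Finset.card_pair hcv]
    simp [hac, hav]
  have hera : ({a, c, v} : Finset α).erase a = {c, v} := by
    rw [Finset.erase_insert]
    simp [hac, hav]
  have herc : ({c, v} : Finset α).erase c = {v} := by
    rw [Finset.erase_insert]
    simpa using hcv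
  have hcVa : c ∈ V.erase a := Finset.mem_erase.2 ⟨Ne.symm hac, hc⟩
  have h1 := elim_or (Q := {a, c, v}) (q := a) (b := b + 1) (by omega) (by simp)
    (by
      intro x hx
      simp only [Finset.mem_insert, Finset.mem_singleton] at hx
      rcases hx with rfl | rfl | rfl
      · exact ha
      · exact hc
      · exact hv)
    (by
      intro e he
      rw [Finset.disjoint_right]
      intro x hx
      simp only [Finset.mem_insert, Finset.mem_singleton] at hx
      rcases hx with rfl | rfl | rfl
      · exact (hK e he).1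
      · exact (hK e he).2.1
      · exact (hK e he).2.2) (by omega) (Solves.mono_set hsub h)
  rw [hera] at h1
  have hcardV : (V.erase a).card = V.card - 1 := Finset.card_erase_of_mem ha
  have hnext : ∀ s, Solves s (famQ (V.erase a) K {c, v} (b + 1)) →
      fam ((V.erase a).erase c) K b = ∅ ∨
        ∃ s', s' + 1 = s ∧ Solves s' (fam ((V.erase a).erase c) K b) := by
    intro s hs
    have h2 := elim_or (Q := {c, v}) (q := c) (V := V.erase a) (b := b)
      (by rw [Finset.card_pair hcv]) (by simp)
      (by
        intro x hx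
        simp only [Finset.mem_insert, Finset.mem_singleton] at hx
        rcases hx with rfl | rfl
        · exact hcVa
        · exact Finset.mem_erase.2 ⟨Ne.symm hav, hv⟩)
      (by
        intro e he
        rw [Finset.disjoint_right]
        intro x hx
        simp only [Finset.mem_insert, Finset.mem_singleton] at hx
        rcases hx with rfl | rfl
        · exact (hK e he).2.1
        · exact (hK e he).2.2) (by omega) hs
    rw [herc, famQ_single] at h2
    exact h2
  rcases h1 with h1 | ⟨s, hs, hsol⟩
  · left
    rcases hnext 0 (by rw [h1]; exact Set.subsingleton_empty) with h2 | ⟨s', hs', -⟩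
    · exact h2
    · omega
  · rcases hnext s hsol with h2 | ⟨s', hs', hsol'⟩
    · exact Or.inl h2
    · exact Or.inr ⟨s', by omega, hsol'⟩

end Pool.MP_38cb75_co.GT
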