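import Pool.Agent.Lib.MP_38cb75_co.DegA

/-! JOB LEAVESB: how the set of leaves changes, removal of a 3-edge. -/

set_option autoImplicit false

namespace Pool.MP_38cb75_co.GT

variable {α : Type*} [DecidableEq α]

/-- A new leaf after removing edges has degree two, lies in a removed edge. -/
private theorem lvB_new {V : Finset α} {K K' : Finset (Finset α)} (hG : Good V K) (h : K' ⊆ K)
    {u : α} (hu : u ∈ leaves K' \ leaves K) :
    deg K u = 2 ∧ ∃ f ∈ K \ K', u ∈ f := by
  rw [Finset.mem_sdiff, mem_leaves, mem_leaves] at hu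
  obtain ⟨⟨h1, e, he, hec, hue⟩, h2⟩ := hu
  have h3 : deg K u ≠ 1 := fun h4 => h2 ⟨h4, e, h he, hec, hue⟩
  have h4 := hG.deg_le u
  have h5 := deg_mono h u
  have h6 : deg K u = 2 := by omega
  refine ⟨h6, ?_⟩
  obtain ⟨f, hf, hfe, huf, _⟩ := exists_other h6 (h he) hue
  refine ⟨f, ?_, huf⟩
  rw [Finset.mem_sdiff]
  refine ⟨hf, fun hf' => hfe ?_⟩
  exact eq_of_deg_one h1 hf' he huf hue

private theorem lvB_erase {K : Finset (Finset α)} {T f : Finset α} (hf : f ∈ K \ K.erase T) :
    f = T := by
  rw [Finset.mem_sdiff] at hf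
  by_contra h
  exact hf.2 (Finset.mem_erase.2 ⟨h, hf.1⟩)

/-- Removing a 3-edge. -/
theorem leaves_T {V : Finset α} {K : Finset (Finset α)} (hG : Good V K) {T : Finset α}
    (hT : T ∈ K) (hT3 : T.card = 3) :
    (leaves (K.erase T)).card ≤ (leaves K).card + 1 := by
  have h1 : (leaves (K.erase T) \ leaves K).card ≤ 1 := by
    rw [Finset.card_le_one]
    intro u hu u' hu'
    by_contra hne
    obtain ⟨hd, f, hf, huf⟩ := lvB_new hG (Finset.erase_subset _ _) hu
    obtain ⟨hd', f', hf', huf'⟩ := lvB_new hG (Finset.erase_subset _ _) hu'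
    rw [lvB_erase hf] at huf
    rw [lvB_erase hf'] at huf'
    rcases hG.three T hT hT3 u huf u' huf' hne with h6 | h6 <;> omega
  have h2 := Finset.card_le_card_sdiff_add_card (s := leaves (K.erase T)) (t := leaves K)
  omega

/-- Removing an isolated 3-edge. -/
theorem leaves_T_iso {V : Finset α} {K : Finset (Finset α)} (hG : Good V K) {T : Finset α}
    (hT : T ∈ K) (hT3 : T.card = 3) (hd : ∀ u ∈ T, deg K u = 1) :
    (leaves (K.erase T)).card ≤ (leaves K).card := by
  refine Finset.card_le_card fun u hu => ?_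
  by_contra hn
  obtain ⟨hd', f, hf, huf⟩ := lvB_new hG (Finset.erase_subset _ _) (Finset.mem_sdiff.2 ⟨hu, hn⟩)
  rw [lvB_erase hf] at huf
  have := hd u huf
  omega

/-- Removing a 3-edge together with the other edge at its vertex of degree two. -/
theorem leaves_T_del {V : Finset α} {K : Finset (Finset α)} (hG : Good V K) {T : Finset α} {v : α}
    (hT : T ∈ K) (hT3 : T.card = 3) (hv : v ∈ T) (hdv : deg K v = 2) :
    (leaves (del K v)).card ≤ (leaves K).card + 1 := by
  obtain ⟨g, hg, hgT, hvg, hall⟩ := exists_other hdv hT hv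
  have hd0 : deg (del K v) v = 0 := by
    rw [deg_eq_zero]
    intro e he
    exact (mem_del.1 he).2
  have hin : ∀ u ∈ leaves (del K v) \ leaves K, u ∈ g ∧ deg K u = 2 ∧ u ≠ v := by
    intro u hu
    have huv : u ≠ v := by
      rintro rfl
      rw [Finset.mem_sdiff, mem_leaves] at hu
      omega
    obtain ⟨hd, f, hf, huf⟩ := lvB_new hG (Finset.filter_subset _ _) hu
    rw [Finset.mem_sdiff] at hf
    have hvf : v ∈ f := by
      by_contra hvf
      exact hf.2 (mem_del.2 ⟨hf.1, hvf⟩)
    rcases hall f hf.1 hvf with rfl | rfl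
    · exfalso
      rcases hG.three f hf.1 hT3 u huf v hvf huv with h6 | h6 <;> omega
    · exact ⟨huf, hd, huv⟩
  have h1 : (leaves (del K v) \ leaves K).card ≤ 1 := by
    rw [Finset.card_le_one]
    intro u hu u' hu'
    by_contra hne
    obtain ⟨hug, hd, huv⟩ := hin u hu
    obtain ⟨hug', hd', huv'⟩ := hin u' hu'
    rcases hG.card g hg with hc | hc
    · have h3 : ({u, u', v} : Finset α) ⊆ g := by
        intro w hw
        simp only [Finset.mem_insert, Finset.mem_singleton] at hw
        rcases hw with rfl | rfl | rfl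
        · exact hug
        · exact hug'
        · exact hvg
      have h4 := Finset.card_le_card h3
      have h5 : ({u, u', v} : Finset α).card = 3 :=
        Finset.card_eq_three.2 ⟨u, u', v, hne, huv, huv', rfl⟩
      omega
    · rcases hG.three g hg hc u hug u' hug' hne with h6 | h6 <;> omega
  have h2 := Finset.card_le_card_sdiff_add_card (s := leaves (del K v)) (t := leaves K)
  omega

end Pool.MP_38cb75_co.GT
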