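import Pool.Agent.Lib.MP_38cb75_co.DegA

/-! JOB LEAVESC: how the set of leaves changes, insertion of an edge. -/

set_option autoImplicit false

namespace Pool.MP_38cb75_co.GT

variable {α : Type*} [DecidableEq α]

theorem leaves_insert2 {V : Finset α} {K : Finset (Finset α)} (hG : Good V K) {a c : α}
    (hac : a ≠ c) (he : {a, c} ∉ K) :
    leaves (insert {a, c} K) ⊆
      (leaves K \ {a, c}) ∪ ({a, c} : Finset α).filter (fun z => deg K z = 0) := by
  intro u hu
  rw [mem_leaves] at hu
  obtain ⟨h1, e, he', hec, hue⟩ := hu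
  rw [deg_insert he] at h1
  rw [Finset.mem_union, Finset.mem_sdiff, Finset.mem_filter, mem_leaves]
  by_cases hu' : u ∈ ({a, c} : Finset α)
  · right
    rw [if_pos hu'] at h1
    exact ⟨hu', by omega⟩
  · left
    rw [if_neg hu'] at h1
    refine ⟨⟨by omega, e, ?_, hec, hue⟩, hu'⟩
    rcases Finset.mem_insert.1 he' with rfl | h2
    · exact absurd hue hu'
    · exact h2

theorem leaves_insert3 {V : Finset α} {K : Finset (Finset α)} (hG : Good V K) {a x z : α}
    (he : {a, x, z} ∉ K) (hax : a ≠ x) (haz : a ≠ z) (hxz : x ≠ z) (hdx : deg K x = 0)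
    (hdz : deg K z = 0) : leaves (insert {a, x, z} K) ⊆ (leaves K).erase a := by
  intro u hu
  rw [mem_leaves] at hu
  obtain ⟨h1, e, he', hec, hue⟩ := hu
  rw [deg_insert he] at h1
  have h3 : ({a, x, z} : Finset α).card = 3 :=
    Finset.card_eq_three.2 ⟨a, x, z, hax, haz, hxz, rfl⟩
  have heK : e ∈ K := by
    rcases Finset.mem_insert.1 he' with rfl | h2
    · omega
    · exact h2
  have h4 := deg_pos heK hue
  have hu' : u ∉ ({a, x, z} : Finset α) := by
    intro h5
    rw [if_pos h5] at h1
    omega
  rw [if_neg hu'] at h1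
  rw [Finset.mem_erase, mem_leaves]
  refine ⟨?_, by omega, e, heK, hec, hue⟩
  rintro rfl
  exact hu' (by simp)

/-- Replacing a 3-edge `T` with a vertex `v` of degree two by the pair `{a, v}`. -/
theorem leaves_shrink {V : Finset α} {K : Finset (Finset α)} (hG : Good V K) {T : Finset α}
    (hT : T ∈ K) (hT3 : T.card = 3) {a v : α} (hav : a ≠ v) (ha : a ∈ T) (hv : v ∈ T)
    (hda : deg K a = 1) (hdv : deg K v = 2) :
    leaves (insert {a, v} (K.erase T)) ⊆ insert a (leaves K) := by
  have hc2 : ({a, v} : Finset α).card = 2 := Finset.card_pair hav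
  have hnK : ({a, v} : Finset α) ∉ K.erase T := by
    intro h
    have h1 := Finset.mem_of_mem_erase h
    have h2 := eq_of_deg_one hda hT h1 ha (by simp)
    rw [← h2] at hc2
    omega
  intro u hu
  rw [mem_leaves] at hu
  obtain ⟨h1, e, he', hec, hue⟩ := hu
  rw [deg_insert hnK] at h1
  have h2 := deg_erase hT u
  rw [Finset.mem_insert, mem_leaves]
  by_cases hua : u = a
  · exact Or.inl hua
  · right
    by_cases huv : u = v
    · subst huv
      rw [if_pos hv] at h2
      rw [if_pos (by simp)] at h1
      omega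
    · have hn : u ∉ ({a, v} : Finset α) := by simp [hua, huv]
      rw [if_neg hn] at h1
      have heK : e ∈ K := by
        rcases Finset.mem_insert.1 he' with rfl | h3
        · exact absurd hue hn
        · exact Finset.mem_of_mem_erase h3
      have huT : u ∉ T := by
        intro huT
        rw [if_pos huT] at h2
        rcases hG.three T hT hT3 u huT v hv huv with h6 | h6 <;> omega
      rw [if_neg huT] at h2
      exact ⟨by omega, e, heK, hec, hue⟩

end Pool.MP_38cb75_co.GT
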