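import Pool.Agent.Lib.MP_38cb75_co.DegA

/-! JOB LEAVESA: how the set of leaves changes, removal at a vertex. -/

set_option autoImplicit false

namespace Pool.MP_38cb75_co.GT

variable {α : Type*} [DecidableEq α]

/-- A new leaf after removing edges has degree two, lies in a removed edge. -/
private theorem lvA_new {V : Finset α} {K K' : Finset (Finset α)} (hG : Good V K) (h : K' ⊆ K)
    {u : α} (hu : u ∈ leaves K' \ leaves K) :
    deg K u = 2 ∧ ∃ f ∈ K \ K', u ∈ f := by
  rw [Finset.mem_sdiff, mem_leaves, mem_leaves] at hu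
  obtain ⟨⟨h1, e, he, hec, hue⟩, h2⟩ := hu
  have h3 : deg K u ≠ 1 := fun h4 => h2 ⟨h4, e, h he, hec, hue⟩
  have h4 := hG.deg_le u
  have h5 := deg_mono h u
  have h6 : deg K u = 2 := by omega
  refine ⟨h6, ?_⟩
  obtain ⟨f, hf, hfe, huf, _⟩ := exists_other h6 (h he) hue
  refine ⟨f, ?_, huf⟩
  rw [Finset.mem_sdiff]
  refine ⟨hf, fun hf' => hfe ?_⟩
  exact eq_of_deg_one h1 hf' he huf hue

/-- The number of new leaves. -/
private theorem lvA_card {V : Finset α} {K : Finset (Finset α)} (hG : Good V K) (v : α)
    (R : Finset (Finset α)) (hR : ∀ f ∈ R, f ∈ K ∧ v ∈ f)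
    (h : ∀ u ∈ leaves (del K v) \ leaves K, ∃ f ∈ R, u ∈ f) :
    (leaves (del K v) \ leaves K).card ≤ R.card := by
  refine Finset.card_le_card_of_forall_subsingleton (fun u f => u ∈ f) h ?_
  intro f hf u hu u' hu'
  obtain ⟨hfK, hvf⟩ := hR f hf
  obtain ⟨hu1, hu2⟩ := hu
  obtain ⟨hu'1, hu'2⟩ := hu'
  by_contra hne
  have hsub : del K v ⊆ K := Finset.filter_subset _ _
  obtain ⟨hd, _⟩ := lvA_new hG hsub hu1
  obtain ⟨hd', _⟩ := lvA_new hG hsub hu'1
  have hv0 : deg (del K v) v = 0 := by
    rw [deg_eq_zero]
    intro e he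
    exact (mem_del.1 he).2
  have hnv : ∀ w ∈ leaves (del K v) \ leaves K, w ≠ v := by
    intro w hw hwv
    subst hwv
    rw [Finset.mem_sdiff, mem_leaves] at hw
    omega
  rcases hG.card f hfK with hc | hc
  · have h3 : ({u, u', v} : Finset α) ⊆ f := by
      intro w hw
      simp only [Finset.mem_insert, Finset.mem_singleton] at hw
      rcases hw with rfl | rfl | rfl
      · exact hu2
      · exact hu'2
      · exact hvf
    have h4 := Finset.card_le_card h3
    have h5 : ({u, u', v} : Finset α).card = 3 :=
      Finset.card_eq_three.2 ⟨u, u', v, hne, hnv u hu1, hnv u' hu'1, rfl⟩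
    omega
  · rcases hG.three f hfK hc u hu2 u' hu'2 hne with h6 | h6 <;> omega

private theorem lvA_deg0 {K : Finset (Finset α)} (v : α) : deg (del K v) v = 0 := by
  rw [deg_eq_zero]
  intro e he
  exact (mem_del.1 he).2

/-- Every removed edge creates at most one new leaf. -/
theorem leaves_del {V : Finset α} {K : Finset (Finset α)} (hG : Good V K) (v : α) :
    (leaves (del K v)).card ≤ (leaves K).card + deg K v := by
  have h1 : (leaves (del K v) \ leaves K).card ≤ deg K v := by
    refine lvA_card hG v _ (fun f hf => Finset.mem_filter.1 hf) ?_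
    intro u hu
    obtain ⟨_, f, hf, huf⟩ := lvA_new hG (Finset.filter_subset _ _) hu
    rw [Finset.mem_sdiff] at hf
    refine ⟨f, Finset.mem_filter.2 ⟨hf.1, ?_⟩, huf⟩
    by_contra hvf
    exact hf.2 (mem_del.2 ⟨hf.1, hvf⟩)
  have h2 := Finset.card_le_card_sdiff_add_card (s := leaves (del K v)) (t := leaves K)
  omega

/-- Removing the edge of an isolated pair. -/
theorem leaves_pair {V : Finset α} {K : Finset (Finset α)} (hG : Good V K) {a c : α} (hac : a ≠ c)
    (he : {a, c} ∈ K) (hda : deg K a = 1) (hdc : deg K c = 1) :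
    (leaves (K.erase {a, c})).card + 2 = (leaves K).card := by
  have hcard : ({a, c} : Finset α).card = 2 := Finset.card_pair hac
  have haL : a ∈ leaves K := mem_leaves.2 ⟨hda, _, he, hcard, by simp⟩
  have hcL : c ∈ leaves K := mem_leaves.2 ⟨hdc, _, he, hcard, by simp⟩
  have h1 : leaves (K.erase {a, c}) = ((leaves K).erase a).erase c := by
    ext u
    rw [Finset.mem_erase, Finset.mem_erase, mem_leaves, mem_leaves]
    have hd := deg_erase he u
    constructor
    · rintro ⟨h1, e, he', hec, hue⟩
      have hua : u ≠ a := by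
        rintro rfl
        simp only [Finset.mem_insert, Finset.mem_singleton, true_or, if_true] at hd
        omega
      have huc : u ≠ c := by
        rintro rfl
        simp only [Finset.mem_insert, Finset.mem_singleton, or_true, if_true] at hd
        omega
      have hn : u ∉ ({a, c} : Finset α) := by simp [hua, huc]
      rw [if_neg hn] at hd
      exact ⟨huc, hua, by omega, e, Finset.mem_of_mem_erase he', hec, hue⟩
    · rintro ⟨huc, hua, h1, e, he', hec, hue⟩
      have hn : u ∉ ({a, c} : Finset α) := by simp [hua, huc]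
      rw [if_neg hn] at hd
      refine ⟨by omega, e, Finset.mem_erase.2 ⟨?_, he'⟩, hec, hue⟩
      rintro rfl
      exact hn hue
  rw [h1, Finset.card_erase_of_mem (Finset.mem_erase.2 ⟨hac.symm, hcL⟩),
    Finset.card_erase_of_mem haL]
  have h2 : 1 < (leaves K).card := Finset.one_lt_card.2 ⟨a, haL, c, hcL, hac⟩
  omega

/-- `a` is a leaf with neighbour `c` of degree two: after removing the edge, `c` may be a leaf
instead of `a`. -/
theorem leaves_leaf {V : Finset α} {K : Finset (Finset α)} (hG : Good V K) {a c : α} (hac : a ≠ c)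
    (he : {a, c} ∈ K) (hda : deg K a = 1) :
    (leaves (K.erase {a, c})).card ≤ (leaves K).card := by
  have hcard : ({a, c} : Finset α).card = 2 := Finset.card_pair hac
  have haL : a ∈ leaves K := mem_leaves.2 ⟨hda, _, he, hcard, by simp⟩
  have h1 : leaves (K.erase {a, c}) ⊆ insert c ((leaves K).erase a) := by
    intro u hu
    rw [mem_leaves] at hu
    rw [Finset.mem_insert, Finset.mem_erase, mem_leaves]
    have hd := deg_erase he u
    obtain ⟨h1, e, he', hec, hue⟩ := hu
    by_cases huc : u = c
    · exact Or.inl huc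
    · right
      have hua : u ≠ a := by
        rintro rfl
        simp only [Finset.mem_insert, Finset.mem_singleton, true_or, if_true] at hd
        omega
      have hn : u ∉ ({a, c} : Finset α) := by simp [hua, huc]
      rw [if_neg hn] at hd
      exact ⟨hua, by omega, e, Finset.mem_of_mem_erase he', hec, hue⟩
  have h2 := Finset.card_le_card h1
  have h3 := Finset.card_insert_le c ((leaves K).erase a)
  rw [Finset.card_erase_of_mem haL] at h3
  have h4 : 0 < (leaves K).card := Finset.card_pos.2 ⟨a, haL⟩
  omega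

/-- `a` is a leaf with neighbour `c` of degree two: after removing both edges at `c`, there is at
most one new leaf, and `a` is no leaf any more. -/
theorem leaves_leaf_del {V : Finset α} {K : Finset (Finset α)} (hG : Good V K) {a c : α}
    (hac : a ≠ c) (he : {a, c} ∈ K) (hda : deg K a = 1) (hdc : deg K c = 2) :
    (leaves (del K c)).card ≤ (leaves K).card := by
  have hcard : ({a, c} : Finset α).card = 2 := Finset.card_pair hac
  have haL : a ∈ leaves K := mem_leaves.2 ⟨hda, _, he, hcard, by simp⟩
  have hd0 : deg (del K c) c = 0 := lvA_deg0 c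
  have ha0 : deg (del K c) a = 0 := by
    rw [deg_eq_zero]
    intro f hf haf
    rw [mem_del] at hf
    have := eq_of_deg_one hda he hf.1 (by simp) haf
    apply hf.2
    rw [← this]
    simp
  have haL' : a ∉ leaves (del K c) := by
    rw [mem_leaves]
    omega
  have hcL' : c ∉ leaves (del K c) := by
    rw [mem_leaves]
    omega
  have h1 : (leaves (del K c) \ leaves K).card ≤
      ((K.filter (fun e => c ∈ e)).erase {a, c}).card := by
    refine lvA_card hG c _ (fun f hf => Finset.mem_filter.1 (Finset.mem_of_mem_erase hf)) ?_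
    intro u hu
    obtain ⟨_, f, hf, huf⟩ := lvA_new hG (Finset.filter_subset _ _) hu
    rw [Finset.mem_sdiff] at hf
    refine ⟨f, Finset.mem_erase.2 ⟨?_, Finset.mem_filter.2 ⟨hf.1, ?_⟩⟩, huf⟩
    · rintro rfl
      rw [Finset.mem_sdiff] at hu
      simp only [Finset.mem_insert, Finset.mem_singleton] at huf
      rcases huf with rfl | rfl
      · exact haL' hu.1
      · exact hcL' hu.1
    · by_contra hvf
      exact hf.2 (mem_del.2 ⟨hf.1, hvf⟩)
  rw [Finset.card_erase_of_mem (Finset.mem_filter.2 ⟨he, by simp⟩)] at h1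
  have h2 : (K.filter (fun e => c ∈ e)).card = 2 := hdc
  have h3 : leaves (del K c) ⊆ (leaves (del K c) \ leaves K) ∪ (leaves K).erase a := by
    intro u hu
    rw [Finset.mem_union, Finset.mem_sdiff, Finset.mem_erase]
    by_cases huK : u ∈ leaves K
    · right
      refine ⟨?_, huK⟩
      rintro rfl
      exact haL' hu
    · exact Or.inl ⟨hu, huK⟩
  have h4 := Finset.card_le_card h3
  have h5 := Finset.card_union_le (leaves (del K c) \ leaves K) ((leaves K).erase a)
  rw [Finset.card_erase_of_mem haL] at h5
  have h6 : 0 < (leaves K).card := Finset.card_pos.2 ⟨a, haL⟩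
  omega

end Pool.MP_38cb75_co.GT
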