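import Pool.Agent.Lib.MP_38cb75_co.RuleBase

/-! JOB LIFT: make a vertex of degree one linkable. -/

set_option autoImplicit false

namespace Pool.MP_38cb75_co.GT

variable {α : Type*} [DecidableEq α]

/-- Let `u` have degree one, `u ∈ e ∈ K`.  If `|e| = 2`, or `|e| = 3` and all vertices of `e` have
degree one, take `e₁ = e`.  Otherwise `|e| = 3` and some `v ∈ e` has degree two, `v ≠ u`; take
`e₁ = {u, v}` (`Good.shrink`, `leaves_shrink`).  The hypergraph `K₁ = insert e₁ (K.erase e)` is
stronger than `K`. -/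
theorem lift {V : Finset α} {K : Finset (Finset α)} (hG : Good V K) {u : α} {e : Finset α}
    (he : e ∈ K) (hu : u ∈ e) (hdu : deg K u = 1) :
    ∃ e₁ : Finset α, u ∈ e₁ ∧ e₁ ⊆ e ∧ e₁ ∉ K.erase e ∧
      Good V (insert e₁ (K.erase e)) ∧
      leaves (insert e₁ (K.erase e)) ⊆ insert u (leaves K) ∧
      (∀ T ∈ insert e₁ (K.erase e), T.card = 3 → u ∈ T →
        ∀ w ∈ T, deg (insert e₁ (K.erase e)) w ≤ 1) := by
  have hins : insert e (K.erase e) = K := Finset.insert_erase he
  by_cases hcase : e.card = 3 ∧ ∃ v ∈ e, ¬ deg K v ≤ 1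
  · obtain ⟨h3, v, hv, hdv⟩ := hcase
    have hdv2 : deg K v = 2 := by
      have := hG.deg_le v
      omega
    have huv : u ≠ v := by
      intro h
      rw [h] at hdu
      omega
    obtain ⟨hG1, hn⟩ := hG.shrink he h3 huv hu hv hdu
    refine ⟨{u, v}, by simp, ?_, hn, hG1, leaves_shrink hG he h3 huv hu hv hdu hdv2, ?_⟩
    · intro x hx
      rcases Finset.mem_insert.1 hx with h | h
      · rw [h]; exact hu
      · rw [Finset.mem_singleton.1 h]; exact hv
    · intro T hT hT3 huT
      exfalso
      rcases Finset.mem_insert.1 hT with h | h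
      · rw [h, Finset.card_pair huv] at hT3
        omega
      · have h1 := Finset.mem_erase.1 h
        exact h1.1 (eq_of_deg_one hdu h1.2 he huT hu)
  · refine ⟨e, hu, Finset.Subset.refl e, by simp, ?_, ?_, ?_⟩
    · rw [hins]; exact hG
    · rw [hins]; exact Finset.subset_insert _ _
    · rw [hins]
      intro T hT hT3 huT w hw
      have hTe : T = e := eq_of_deg_one hdu hT he huT hu
      subst hTe
      by_contra hcon
      exact hcase ⟨hT3, w, hw, hcon⟩

/-- Degrees and cardinality after `lift`. -/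
theorem lift_deg {K : Finset (Finset α)} {e e₁ : Finset α} (he : e ∈ K) (he₁ : e₁ ⊆ e)
    (hn : e₁ ∉ K.erase e) :
    (insert e₁ (K.erase e)).card = K.card ∧
      (∀ w, w ∉ e → deg (insert e₁ (K.erase e)) w = deg K w) ∧
      (∀ w, deg (insert e₁ (K.erase e)) w ≤ deg K w) ∧
      (∀ w ∈ e₁, deg (insert e₁ (K.erase e)) w = deg K w) := by
  refine ⟨?_, ?_, ?_, ?_⟩
  · rw [Finset.card_insert_of_notMem hn, Finset.card_erase_of_mem he]
    have : 1 ≤ K.card := Finset.card_pos.2 ⟨e, he⟩
    omega
  · intro w hw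
    have hw1 : w ∉ e₁ := fun h => hw (he₁ h)
    have h1 := deg_insert hn w
    have h2 := deg_erase he w
    rw [if_neg hw1] at h1
    rw [if_neg hw] at h2
    omega
  · intro w
    have h1 := deg_insert hn w
    have h2 := deg_erase he w
    by_cases hw : w ∈ e
    · rw [if_pos hw] at h2
      by_cases hw1 : w ∈ e₁
      · rw [if_pos hw1] at h1; omega
      · rw [if_neg hw1] at h1; omega
    · have hw1 : w ∉ e₁ := fun h => hw (he₁ h)
      rw [if_neg hw] at h2
      rw [if_neg hw1] at h1
      omega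
  · intro w hw1
    have hw : w ∈ e := he₁ hw1
    have h1 := deg_insert hn w
    have h2 := deg_erase he w
    rw [if_pos hw1] at h1
    rw [if_pos hw] at h2
    omega

end Pool.MP_38cb75_co.GT
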