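import Pool.Agent.Lib.MP_38cb75_co.Fam

/-! JOB ONEGOOD: exactly one non-defective item. -/

set_option autoImplicit false

namespace Pool.MP_38cb75_co.GT

variable {α : Type*} [DecidableEq α]

/-- Induction on `t` generalising `W`: a test with at least two items of `V` is always positive, a
test with exactly one item `x` of `V` is negative only on `V.erase x`, a test with no item of `V`
is always negative. -/
theorem one_good_aux {t : ℕ} {V W : Finset α} (hW : W ⊆ V)
    (h : Solves t {D | ∃ x ∈ W, D = V.erase x}) : W.card ≤ t + 1 := by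
  induction t generalizing W with
  | zero =>
    rw [zero_add, Finset.card_le_one]
    intro x hx y hy
    have h1 : V.erase x = V.erase y := h ⟨x, hx, rfl⟩ ⟨y, hy, rfl⟩
    by_contra hne
    have h2 : y ∈ V.erase x := Finset.mem_erase.2 ⟨Ne.symm hne, hW hy⟩
    rw [h1] at h2
    exact Finset.notMem_erase y V h2
  | succ t ih =>
    obtain ⟨S, h1, h2⟩ := h
    by_cases hx : ∃ x ∈ W, S ∩ V ⊆ {x}
    · obtain ⟨x, hxW, hxS⟩ := hx
      have h3 : (W.erase x).card ≤ t + 1 := by
        by_cases hxS' : x ∈ S
        · -- all other sets are positive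
          apply ih ((Finset.erase_subset _ _).trans hW)
          refine Solves.mono_set ?_ h1
          rintro D ⟨y, hy, rfl⟩
          rw [Finset.mem_erase] at hy
          exact ⟨⟨y, hy.2, rfl⟩, ⟨x, Finset.mem_inter.2 ⟨hxS', Finset.mem_erase.2
            ⟨Ne.symm hy.1, hW hxW⟩⟩⟩⟩
        · -- all sets are negative
          apply ih ((Finset.erase_subset _ _).trans hW)
          refine Solves.mono_set ?_ h2
          rintro D ⟨y, hy, rfl⟩
          rw [Finset.mem_erase] at hy
          refine ⟨⟨y, hy.2, rfl⟩, ?_⟩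
          rintro ⟨z, hz⟩
          rw [Finset.mem_inter, Finset.mem_erase] at hz
          have h4 := hxS (Finset.mem_inter.2 ⟨hz.1, hz.2.2⟩)
          rw [Finset.mem_singleton] at h4
          exact hxS' (h4 ▸ hz.1)
      have h4 := Finset.card_erase_of_mem hxW
      omega
    · push Not at hx
      -- every set is positive
      have h3 : W.card ≤ t + 1 := by
        apply ih hW
        refine Solves.mono_set ?_ h1
        rintro D ⟨y, hy, rfl⟩
        refine ⟨⟨y, hy, rfl⟩, ?_⟩
        obtain ⟨z, hz, hzy⟩ := Finset.not_subset.1 (hx y hy)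
        rw [Finset.mem_inter] at hz
        rw [Finset.mem_singleton] at hzy
        exact ⟨z, Finset.mem_inter.2 ⟨hz.1, Finset.mem_erase.2 ⟨hzy, hz.2⟩⟩⟩
      omega

/-- If `b + 1 = |V|` the family consists of all sets `V.erase x`, `x ∈ V`. -/
theorem one_good {t : ℕ} {V : Finset α} {K : Finset (Finset α)} {b : ℕ}
    (hK : ∀ e ∈ K, e ⊆ V ∧ 2 ≤ e.card) (hb : b + 1 = V.card) (h : Solves t (fam V K b)) :
    V.card ≤ t + 1 := by
  apply one_good_aux (Finset.Subset.refl V)
  refine Solves.mono_set ?_ h
  rintro D ⟨x, hx, rfl⟩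
  refine ⟨Finset.erase_subset _ _, ?_, ?_⟩
  · rw [Finset.card_erase_of_mem hx]; omega
  · intro e he
    obtain ⟨h1, h2⟩ := hK e he
    obtain ⟨y, hy, hyx⟩ : ∃ y ∈ e, y ≠ x := by
      by_contra hcon
      push Not at hcon
      have : e ⊆ {x} := fun y hy => Finset.mem_singleton.2 (hcon y hy)
      have := Finset.card_le_card this
      rw [Finset.card_singleton] at this
      omega
    exact ⟨y, Finset.mem_inter.2 ⟨hy, Finset.mem_erase.2 ⟨hyx, h1 hy⟩⟩⟩

end Pool.MP_38cb75_co.GT
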