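import Pool.Agent.Lib.MP_38cb75_co.RuleBase

/-! JOB RULE2FREE: regime `L₂, Φ`; only free items are tested. -/

set_option autoImplicit false

namespace Pool.MP_38cb75_co.GT

variable {α : Type*} [DecidableEq α]

/-- At most two free items: answer no. `V' = V \ S`, `K' = K`, `b' = b`, `k = 1`, `G = S`. -/
theorem rule2_free_neg {p a β : ℝ} (hc : Consts p a β) {t : ℕ} {V : Finset α}
    {K : Finset (Finset α)} {b : ℕ} (hG : Good V K) (hg : b + 3 ≤ V.card)
    {S : Finset α} (hS : S ⊆ V) (hfree : ∀ x ∈ S, deg K x = 0) (hcard : S.card ≤ 2)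
    (hneg : Solves t (fam (V \ S) K b)) : Ok2 p a β (t + 1) V K b := by
  have hfreeK : ∀ f ∈ K, ∀ x ∈ f, x ∉ S := fun f hf x hx hxS =>
    deg_eq_zero.1 (hfree x hxS) f hf hx
  have hVc : (V \ S).card + S.card = V.card := by
    rw [Finset.card_sdiff_of_subset hS]
    have := Finset.card_le_card hS
    omega
  have hVc' : (V.card : ℝ) = (V \ S).card + S.card := by exact_mod_cast hVc.symm
  have hSc : (S.card : ℝ) ≤ 2 := by exact_mod_cast hcard
  refine ⟨V \ S, K, b, 1, ?_, ?_, ?_⟩
  · refine next_of hc.p0 hc.p1 ∅ S ∅ (by simp) (by simp) hS (by simp) (by simp) hcard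
      (by simp only [Finset.card_empty]; omega) (by simp) ?_ (by simp) (by simp) ?_ le_rfl ?_
      (by omega) (Or.inr ⟨t, rfl, hneg⟩)
    · intro D _ hD
      simpa using hD
    · intro D hD hK f hf
      obtain ⟨y, hy⟩ := hK f hf
      rw [Finset.mem_inter] at hy
      exact ⟨y, by
        simp only [Finset.union_empty, Finset.mem_inter, Finset.mem_sdiff]
        exact ⟨hy.1, hy.2, hD hy.2, hfreeK f hf y hy.1⟩⟩
    · refine hG.mono (Finset.Subset.refl _) fun f hf y hy => ?_
      exact Finset.mem_sdiff.2 ⟨hG.sub f hf hy, hfreeK f hf y hy⟩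
  · unfold L2
    rw [hVc']
    push_cast
    have h1 := hc.a0
    have h2 := hc.a1
    nlinarith
  · unfold Phi
    rw [hVc']
    push_cast
    linarith

/-- `S` contains three free items: answer yes, `K' = insert {x, y, z} K` (`Good.insert3`,
`leaves_insert3`, `next_same` with `A = {x}`), `k = 1`. -/
theorem rule2_free_new {p a β : ℝ} (hc : Consts p a β) {t : ℕ} {V : Finset α}
    {K : Finset (Finset α)} {b : ℕ} (hG : Good V K) (hg : b + 1 ≤ V.card)
    {S : Finset α} (hS : S ⊆ V) {x y z : α} (hxy : x ≠ y) (hxz : x ≠ z) (hyz : y ≠ z)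
    (hx : x ∈ S) (hy : y ∈ S) (hz : z ∈ S)
    (hdx : deg K x = 0) (hdy : deg K y = 0) (hdz : deg K z = 0)
    (hpos : Solves t (fam V (insert S K) b)) : Ok2 p a β (t + 1) V K b := by
  have hG' : Good V (insert {x, y, z} K) := by
    refine hG.insert3 hxy hxz hyz (hS hx) (hS hy) (hS hz) hdy hdz (by omega) ?_
    intro T hT _ hxT
    exact absurd hxT (deg_eq_zero.1 hdx T hT)
  have hn : ({x, y, z} : Finset α) ∉ K := fun h => deg_eq_zero.1 hdx _ h (by simp)
  have hKc : (insert {x, y, z} K).card = K.card + 1 := Finset.card_insert_of_notMem hn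
  have hlv : (leaves (insert {x, y, z} K)).card ≤ (leaves K).card :=
    Finset.card_le_card ((leaves_insert3 hG hn hxy hxz hyz hdy hdz).trans
      (Finset.erase_subset _ _))
  have hsub : fam V (insert {x, y, z} K) b ⊆ fam V (insert S K) b := by
    refine fam_mono fun D _ hD => ?_
    intro f hf
    rcases Finset.mem_insert.1 hf with rfl | hfK
    · refine (hD _ (Finset.mem_insert_self _ _)).mono (Finset.inter_subset_inter_right ?_)
      intro w hw
      simp only [Finset.mem_insert, Finset.mem_singleton] at hw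
      rcases hw with rfl | rfl | rfl
      · exact hx
      · exact hy
      · exact hz
    · exact hD f (Finset.mem_insert_of_mem hfK)
  have hKc' : ((insert {x, y, z} K).card : ℝ) = K.card + 1 := by exact_mod_cast hKc
  have hlv' : ((leaves (insert {x, y, z} K)).card : ℝ) ≤ (leaves K).card := by
    exact_mod_cast hlv
  refine ⟨V, insert {x, y, z} K, b, 1, ?_, ?_, ?_⟩
  · refine next_same hc.p0 hc.p1 {x} (by simpa using hS hx) (by simp) ?_ ?_ le_rfl hG' hg ?_
    · intro D _ hD f hfK
      exact hD f (Finset.mem_insert_of_mem hfK)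
    · intro D _ hxD hD f hf
      have hxD' : x ∈ D := hxD (by simp)
      rcases Finset.mem_insert.1 hf with rfl | hf
      · exact ⟨x, by simp [hxD']⟩
      · exact hD f hf
    · exact Or.inr ⟨t, rfl, hpos.mono_set hsub⟩
  · unfold L2
    rw [hKc']
    push_cast
    linarith
  · unfold Phi
    rw [hKc']
    push_cast
    linarith

end Pool.MP_38cb75_co.GT
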