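import Pool.Agent.Lib.MP_38cb75_co.RuleBase

/-! JOB RULE2LEAF: regime `L₂, Φ`; a leaf is tested. -/

set_option autoImplicit false

namespace Pool.MP_38cb75_co.GT

variable {α : Type*} [DecidableEq α]

/-- `S = {u}`, `u` a leaf with neighbour `c` of degree two: answer no; then `c` is defective.
`V' = (V.erase u).erase c`, `K' = del K c`, `b' = b - 1`, `k = 1`, `R = {c}`, `G = {u}`, `A = ∅`
(`fam (V \ {u}) K b`: every member contains `c`; `solves_bad`); `|K'| = |K| - 2`,
`|leaves K'| ≤ |leaves K|` (`leaves_leaf_del`). -/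
theorem rule2_leaf_neg {p a β : ℝ} (hc : Consts p a β) {t : ℕ} {V : Finset α}
    {K : Finset (Finset α)} {b : ℕ} (hG : Good V K) (hb : 1 ≤ b) (hg : b + 3 ≤ V.card)
    {u c : α} (huc : u ≠ c) (he : {u, c} ∈ K) (hdu : deg K u = 1) (hdc : deg K c = 2)
    (hneg : Solves t (fam (V \ {u}) K b)) : Ok2 p a β (t + 1) V K b := by
  obtain ⟨b, rfl⟩ : ∃ b', b = b' + 1 := ⟨b - 1, by omega⟩
  have huV : u ∈ V := hG.sub _ he (by simp)
  have hcV : c ∈ V := hG.sub _ he (by simp)
  have hcVu : c ∈ V \ {u} := by simp [hcV, huc.symm]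
  have hsol := solves_bad hcVu hneg
  have hV' : (V \ {u}).erase c = (V \ {c}) \ {u} := by
    ext x
    simp only [Finset.mem_erase, Finset.mem_sdiff, Finset.mem_singleton]
    tauto
  rw [hV'] at hsol
  have hcard : ((V \ {c}) \ {u}).card + 2 = V.card := by
    rw [← hV', Finset.card_erase_of_mem hcVu, Finset.card_sdiff_of_subset (by simpa using huV),
      Finset.card_singleton]
    omega
  have hsub : ∀ e ∈ del K c, e ⊆ (V \ {c}) \ {u} := by
    intro e he' x hx
    rw [mem_del] at he'
    simp only [Finset.mem_sdiff, Finset.mem_singleton]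
    refine ⟨⟨hG.sub e he'.1 hx, ?_⟩, ?_⟩
    · rintro rfl; exact he'.2 hx
    · rintro rfl
      have := eq_of_deg_one hdu he'.1 he hx (by simp)
      rw [this] at he'
      exact he'.2 (by simp)
  have hKc := card_del (K := K) c
  rw [hdc] at hKc
  have e1 : (((V \ {c}) \ {u}).card : ℝ) = V.card - 2 := by
    rw [← hcard]; push_cast; ring
  have e2 : ((del K c).card : ℝ) = K.card - 2 := by
    rw [← hKc]; push_cast; ring
  refine ⟨(V \ {c}) \ {u}, del K c, b, 1, ?_, ?_, ?_⟩
  · refine next_of hc.p0 hc.p1 {c} {u} ∅ rfl (by simpa using hcV) (by simpa using huV)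
      (by simpa using huc.symm) (by simp) (by simp) (by simp) (by simp) ?_ (by simp) (by simp) ?_
      le_rfl (hG.mono (Finset.filter_subset _ _) hsub) (by simp; omega)
      (Or.inr ⟨t, rfl, hsol⟩)
    · intro D hD hh e he
      by_cases hve : c ∈ e
      · exact ⟨c, by simp [hve]⟩
      · obtain ⟨x, hx⟩ := hh e (mem_del.2 ⟨he, hve⟩)
        rw [Finset.mem_inter] at hx
        exact ⟨x, by simp [hx.1, hx.2]⟩
    · intro D hD hh e he
      obtain ⟨x, hx⟩ := hh e (mem_del.1 he).1
      rw [Finset.mem_inter] at hx
      exact ⟨x, by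
        rw [Finset.mem_inter, Finset.mem_union, Finset.mem_inter]
        exact ⟨hx.1, Or.inl ⟨hx.2, hsub e he hx.1⟩⟩⟩
  · have a1 := hc.a1
    unfold L2
    rw [e1, e2]
    push_cast
    nlinarith
  · have e4 : ((leaves (del K c)).card : ℝ) ≤ (leaves K).card := by
      exact_mod_cast leaves_leaf_del hG huc he hdu hdc
    have b1 := hc.β1
    unfold Phi
    rw [e1, e2]
    push_cast
    nlinarith

/-- `S` contains a leaf `u` and a free item `x`: answer yes, `K' = insert {u, x} K`
(`Good.insert2`, `leaves_insert2`, `next_same` with `A = {u}`), `k = 1`. -/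
theorem rule2_leaf_link {p a β : ℝ} (hc : Consts p a β) {t : ℕ} {V : Finset α}
    {K : Finset (Finset α)} {b : ℕ} (hG : Good V K) (hg : b + 1 ≤ V.card)
    {S : Finset α} (hS : S ⊆ V) {u x : α} (huS : u ∈ S) (hxS : x ∈ S) {e : Finset α} (he : e ∈ K)
    (he2 : e.card = 2) (hue : u ∈ e) (hdu : deg K u = 1) (hdx : deg K x = 0)
    (hpos : Solves t (fam V (insert S K) b)) : Ok2 p a β (t + 1) V K b := by
  have fx := deg_eq_zero.1 hdx
  have hux : u ≠ x := by rintro rfl; omega
  have hnot : ({u, x} : Finset α) ∉ K := fun h => fx _ h (by simp)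
  have hKc : (insert {u, x} K).card = K.card + 1 := Finset.card_insert_of_notMem hnot
  have hGood : Good V (insert {u, x} K) := by
    refine hG.insert2 hux (hS huS) (hS hxS) (by omega) (by omega) ?_ ?_ ?_
    · intro T hT hT3 huT
      have := eq_of_deg_one hdu hT he huT hue
      rw [this, he2] at hT3
      omega
    · intro T hT _ hxT
      exact absurd hxT (fx T hT)
    · intro e _ f hf _ hxf
      exact absurd hxf (fx f hf)
  refine ⟨V, insert {u, x} K, b, 1, ?_, ?_, ?_⟩
  · refine next_same hc.p0 hc.p1 {u} (by simpa using hS huS) (by simp) ?_ ?_ le_rfl hGood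
      hg (Or.inr ⟨t, rfl, hpos.mono_set (fam_mono ?_)⟩)
    · intro D _ hh e he
      exact hh e (Finset.mem_insert_of_mem he)
    · intro D _ hA hh e he
      rcases Finset.mem_insert.1 he with rfl | he
      · exact ⟨u, Finset.mem_inter.2 ⟨by simp, hA (by simp)⟩⟩
      · exact hh e he
    · intro D _ hh e he
      rcases Finset.mem_insert.1 he with rfl | he
      · obtain ⟨w, hw⟩ := hh {u, x} (Finset.mem_insert_self _ _)
        rw [Finset.mem_inter] at hw
        refine ⟨w, Finset.mem_inter.2 ⟨?_, hw.2⟩⟩
        have := hw.1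
        simp only [Finset.mem_insert, Finset.mem_singleton] at this
        rcases this with rfl | rfl
        · exact huS
        · exact hxS
      · exact hh e (Finset.mem_insert_of_mem he)
  · unfold L2
    rw [hKc]
    push_cast
    linarith
  · have e4 : ((leaves (insert {u, x} K)).card : ℝ) ≤ (leaves K).card := by
      have h1 := Finset.card_le_card (leaves_insert2 hG hux hnot)
      have hul : u ∈ leaves K := mem_leaves.2 ⟨hdu, e, he, he2, hue⟩
      have h2 : (leaves K \ {u, x}).card + 1 ≤ (leaves K).card := by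
        rw [← Finset.card_erase_add_one hul]
        have : leaves K \ {u, x} ⊆ (leaves K).erase u := by
          intro y hy
          simp only [Finset.mem_sdiff, Finset.mem_insert, Finset.mem_singleton, not_or] at hy
          exact Finset.mem_erase.2 ⟨hy.2.1, hy.1⟩
        have := Finset.card_le_card this
        omega
      have h3 : (({u, x} : Finset α).filter (fun z => deg K z = 0)).card ≤ 1 := by
        have : ({u, x} : Finset α).filter (fun z => deg K z = 0) ⊆ {x} := by
          intro y hy
          simp only [Finset.mem_filter, Finset.mem_insert, Finset.mem_singleton] at hy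
          rcases hy with ⟨rfl | rfl, h⟩
          · omega
          · simp
        simpa using Finset.card_le_card this
      have h4 := Finset.card_union_le (leaves K \ {u, x})
        (({u, x} : Finset α).filter (fun z => deg K z = 0))
      exact_mod_cast (by omega : (leaves (insert {u, x} K)).card ≤ (leaves K).card)
    unfold Phi
    rw [hKc]
    push_cast
    linarith

end Pool.MP_38cb75_co.GT
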