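import Pool.Agent.Lib.MP_38cb75_co.Lift

/-! JOB RULE2LINK: regime `L₂, Φ`; two vertices of degree one of disjoint edges are tested. -/

set_option autoImplicit false

namespace Pool.MP_38cb75_co.GT

variable {α : Type*} [DecidableEq α]

/-- Answer yes; apply `lift` to `u` and then to `c`, add the edge `{u, c}` (`Good.insert2`,
`leaves_insert2`).  The new hypergraph has `|K| + 1` edges and
`leaves K' ⊆ insert u (insert c (leaves K)) \ {u, c}`; it is stronger than `insert S K`; every
`D ⊇ {u, c}` hitting `K` hits it (`next_same` with `A = {u, c}`), `k = 1`. -/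
theorem rule2_link {p a β : ℝ} (hc : Consts p a β) {t : ℕ} {V : Finset α}
    {K : Finset (Finset α)} {b : ℕ} (hG : Good V K) (hg : b + 1 ≤ V.card)
    {S : Finset α} (hS : S ⊆ V) {u c : α} (huS : u ∈ S) (hcS : c ∈ S) (huc : u ≠ c)
    {e f : Finset α} (he : e ∈ K) (hf : f ∈ K) (hue : u ∈ e) (hcf : c ∈ f)
    (hdu : deg K u = 1) (hdc : deg K c = 1) (hef : Disjoint e f)
    (hpos : Solves t (fam V (insert S K) b)) : Ok2 p a β (t + 1) V K b := by
  have huV : u ∈ V := hS huS
  have hcV : c ∈ V := hS hcS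
  have huf : u ∉ f := fun h => Finset.disjoint_left.1 hef hue h
  have hce : c ∉ e := fun h => Finset.disjoint_left.1 hef h hcf
  have hfe : f ≠ e := fun h => hce (h ▸ hcf)
  obtain ⟨e₁, hue₁, he₁e, he₁n, hG₁, hl₁, hT₁⟩ := lift hG he hue hdu
  obtain ⟨hcard₁, hout₁, hle₁, hin₁⟩ := lift_deg he he₁e he₁n
  set K₁ := insert e₁ (K.erase e) with hK₁
  have hfK₁ : f ∈ K₁ := Finset.mem_insert_of_mem (Finset.mem_erase.2 ⟨hfe, hf⟩)
  have hdc₁ : deg K₁ c = 1 := by rw [hout₁ c hce, hdc]
  have hdu₁ : deg K₁ u = 1 := by rw [hin₁ u hue₁, hdu]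
  obtain ⟨f₁, hcf₁, hf₁f, hf₁n, hG₂, hl₂, hT₂⟩ := lift hG₁ hfK₁ hcf hdc₁
  obtain ⟨hcard₂, hout₂, hle₂, hin₂⟩ := lift_deg hfK₁ hf₁f hf₁n
  set K₂ := insert f₁ (K₁.erase f) with hK₂
  have hdc₂ : deg K₂ c = 1 := by rw [hin₂ c hcf₁, hdc₁]
  have hdu₂ : deg K₂ u = 1 := by rw [hout₂ u huf, hdu₁]
  have he₁f : e₁ ≠ f := fun h => huf (h ▸ hue₁)
  have he₁K₁ : e₁ ∈ K₁ := Finset.mem_insert_self _ _
  have he₁K₂ : e₁ ∈ K₂ := Finset.mem_insert_of_mem (Finset.mem_erase.2 ⟨he₁f, he₁K₁⟩)
  have hf₁K₂ : f₁ ∈ K₂ := Finset.mem_insert_self _ _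
  have hG' : Good V (insert {u, c} K₂) := by
    refine hG₂.insert2 huc huV hcV (by omega) (by omega) ?_ hT₂ ?_
    · intro T hT hT3 huT w hw
      rcases Finset.mem_insert.1 hT with h | h
      · exact absurd (hf₁f (h ▸ huT)) huf
      · exact (hle₂ w).trans (hT₁ T (Finset.mem_of_mem_erase h) hT3 huT w hw)
    · intro g hg' h hh hug hch
      have h1 : g = e₁ := eq_of_deg_one hdu₂ hg' he₁K₂ hug hue₁
      have h2 : h = f₁ := eq_of_deg_one hdc₂ hh hf₁K₂ hch hcf₁
      rw [h1, h2]
      exact Finset.disjoint_of_subset_left he₁e (Finset.disjoint_of_subset_right hf₁f hef)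
  have hn : ({u, c} : Finset α) ∉ K₂ := by
    intro h
    have h1 : ({u, c} : Finset α) = e₁ := eq_of_deg_one hdu₂ h he₁K₂ (by simp) hue₁
    exact hce (he₁e (h1 ▸ (by simp)))
  have hKc : (insert {u, c} K₂).card = K.card + 1 := by
    rw [Finset.card_insert_of_notMem hn, hcard₂, hcard₁]
  have hlv : (leaves (insert {u, c} K₂)).card ≤ (leaves K).card := by
    refine Finset.card_le_card ((leaves_insert2 hG₂ huc hn).trans ?_)
    intro y hy
    rcases Finset.mem_union.1 hy with hy | hy
    · rw [Finset.mem_sdiff] at hy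
      obtain ⟨hy1, hy2⟩ := hy
      simp only [Finset.mem_insert, Finset.mem_singleton, not_or] at hy2
      rcases Finset.mem_insert.1 (hl₂ hy1) with h | h
      · exact absurd h hy2.2
      · rcases Finset.mem_insert.1 (hl₁ h) with h' | h'
        · exact absurd h' hy2.1
        · exact h'
    · rw [Finset.mem_filter] at hy
      obtain ⟨hy1, hy2⟩ := hy
      simp only [Finset.mem_insert, Finset.mem_singleton] at hy1
      rcases hy1 with h | h
      · rw [h, hdu₂] at hy2; omega
      · rw [h, hdc₂] at hy2; omega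
  have hback : ∀ D : Finset α, Hits (insert {u, c} K₂) D → Hits K D := by
    intro D hD g hgK
    by_cases hge : g = e
    · rw [hge]
      exact (hD e₁ (Finset.mem_insert_of_mem he₁K₂)).mono
        (Finset.inter_subset_inter_right he₁e)
    by_cases hgf : g = f
    · rw [hgf]
      exact (hD f₁ (Finset.mem_insert_of_mem hf₁K₂)).mono
        (Finset.inter_subset_inter_right hf₁f)
    · refine hD g (Finset.mem_insert_of_mem (Finset.mem_insert_of_mem ?_))
      exact Finset.mem_erase.2 ⟨hgf, Finset.mem_insert_of_mem (Finset.mem_erase.2 ⟨hge, hgK⟩)⟩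
  have hsub : fam V (insert {u, c} K₂) b ⊆ fam V (insert S K) b := by
    refine fam_mono fun D _ hD => ?_
    intro g hg'
    rcases Finset.mem_insert.1 hg' with rfl | hgK
    · refine (hD _ (Finset.mem_insert_self _ _)).mono (Finset.inter_subset_inter_right ?_)
      intro w hw
      simp only [Finset.mem_insert, Finset.mem_singleton] at hw
      rcases hw with rfl | rfl
      · exact huS
      · exact hcS
    · exact hback D hD g hgK
  have hKc' : ((insert {u, c} K₂).card : ℝ) = K.card + 1 := by exact_mod_cast hKc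
  have hlv' : ((leaves (insert {u, c} K₂)).card : ℝ) ≤ (leaves K).card := by
    exact_mod_cast hlv
  refine ⟨V, insert {u, c} K₂, b, 1, ?_, ?_, ?_⟩
  · refine next_same hc.p0 hc.p1 {u, c} ?_ (by rw [Finset.card_pair huc]) ?_ ?_ le_rfl hG' hg ?_
    · intro y hy
      simp only [Finset.mem_insert, Finset.mem_singleton] at hy
      rcases hy with rfl | rfl
      · exact huV
      · exact hcV
    · exact fun D _ hD => hback D hD
    · intro D _ hucD hD g hg'
      have huD : u ∈ D := hucD (by simp)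
      have hcD : c ∈ D := hucD (by simp)
      rcases Finset.mem_insert.1 hg' with rfl | hg'
      · exact ⟨u, by simp [huD]⟩
      · rcases Finset.mem_insert.1 hg' with rfl | hg'
        · exact ⟨c, by simp [hcD, hcf₁]⟩
        · rcases Finset.mem_insert.1 (Finset.mem_of_mem_erase hg') with rfl | hg'
          · exact ⟨u, by simp [huD, hue₁]⟩
          · exact hD g (Finset.mem_of_mem_erase hg')
    · exact Or.inr ⟨t, rfl, hpos.mono_set hsub⟩
  · unfold L2
    rw [hKc']
    push_cast
    linarith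
  · unfold Phi
    rw [hKc']
    push_cast
    linarith

end Pool.MP_38cb75_co.GT
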