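import Pool.Agent.Lib.MP_38cb75_co.Lift

/-! JOB RULE2TA: regime `L₂, Φ`; vertices of a 3-edge are tested, first part. -/

set_option autoImplicit false

namespace Pool.MP_38cb75_co.GT

variable {α : Type*} [DecidableEq α]

/-- `S` contains two vertices `u`, `w` of degree one of the 3-edge `T`: answer yes, restrict to the
sets hitting `{u, w}` and eliminate this pair (`pair_elim` for `K.erase T`): `V' = V.erase u`,
`K' = K.erase T`, `b' = b - 1`, `k = 2`, `R = {u}`, `G = A = ∅` (`leaves_T`). -/
theorem rule2_T_two {p a β : ℝ} (hc : Consts p a β) {t : ℕ} {V : Finset α}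
    {K : Finset (Finset α)} {b : ℕ} (hG : Good V K) (hb : 1 ≤ b) (hg : b + 2 ≤ V.card)
    {S : Finset α} (hS : S ⊆ V) {T : Finset α} (hT : T ∈ K) (hT3 : T.card = 3) {u w : α}
    (huw : u ≠ w) (huS : u ∈ S) (hwS : w ∈ S) (huT : u ∈ T) (hwT : w ∈ T)
    (hdu : deg K u = 1) (hdw : deg K w = 1)
    (hpos : Solves t (fam V (insert S K) b)) : Ok2 p a β (t + 1) V K b := by
  obtain ⟨b', rfl⟩ : ∃ b', b = b' + 1 := ⟨b - 1, by omega⟩
  have huV : u ∈ V := hS huS
  have hwV : w ∈ V := hS hwS
  have hfree : ∀ f ∈ K.erase T, u ∉ f ∧ w ∉ f := by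
    intro f hf
    rw [Finset.mem_erase] at hf
    exact ⟨fun h => hf.1 (eq_of_deg_one hdu hf.2 hT h huT),
      fun h => hf.1 (eq_of_deg_one hdw hf.2 hT h hwT)⟩
  have hsub : fam V (insert {u, w} (K.erase T)) (b' + 1) ⊆ fam V (insert S K) (b' + 1) := by
    refine fam_mono fun D _ hD => ?_
    have h0 : (({u, w} : Finset α) ∩ D).Nonempty := hD _ (Finset.mem_insert_self _ _)
    intro f hf
    rcases Finset.mem_insert.1 hf with rfl | hfK
    · exact h0.mono (Finset.inter_subset_inter_right
        (by intro y hy; rcases Finset.mem_insert.1 hy with rfl | hy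
            · exact huS
            · rw [Finset.mem_singleton] at hy; rw [hy]; exact hwS))
    · by_cases hfT : f = T
      · rw [hfT]
        exact h0.mono (Finset.inter_subset_inter_right
          (by intro y hy; rcases Finset.mem_insert.1 hy with rfl | hy
              · exact huT
              · rw [Finset.mem_singleton] at hy; rw [hy]; exact hwT))
      · exact hD _ (Finset.mem_insert_of_mem (Finset.mem_erase.2 ⟨hfT, hfK⟩))
  have hel := pair_elim huw huV hwV hfree (by omega) (hpos.mono_set hsub)
  have hKc : (K.erase T).card + 1 = K.card := Finset.card_erase_add_one hT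
  have hVc : (V.erase u).card + 1 = V.card := Finset.card_erase_add_one huV
  have hlv := leaves_T hG hT hT3
  have hKc' : (K.card : ℝ) = (K.erase T).card + 1 := by exact_mod_cast hKc.symm
  have hVc' : (V.card : ℝ) = (V.erase u).card + 1 := by exact_mod_cast hVc.symm
  have hlv' : ((leaves (K.erase T)).card : ℝ) ≤ (leaves K).card + 1 := by exact_mod_cast hlv
  refine ⟨V.erase u, K.erase T, b', 2, ?_, ?_, ?_⟩
  · refine next_of hc.p0 hc.p1 {u} ∅ ∅ ?_ (by simpa using huV) (by simp) (by simp) (by simp)
      (by simp) (by simp) (by simp) ?_ (by simp) (by simp) ?_ (by norm_num) ?_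
      (by simp only [Finset.card_empty]; omega) ?_
    · rw [Finset.sdiff_empty, Finset.sdiff_singleton_eq_erase]
    · intro D _ hD f hf
      by_cases hfT : f = T
      · exact ⟨u, by rw [hfT]; simp [huT]⟩
      · exact (hD f (Finset.mem_erase.2 ⟨hfT, hf⟩)).mono
          (Finset.inter_subset_inter_left Finset.subset_union_left)
    · intro D hD hK f hf
      obtain ⟨y, hy⟩ := hK f (Finset.mem_of_mem_erase hf)
      rw [Finset.mem_inter] at hy
      have hyu : y ≠ u := fun h => (hfree f hf).1 (h ▸ hy.1)
      exact ⟨y, by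
        simp only [Finset.union_empty, Finset.mem_inter, Finset.mem_erase]
        exact ⟨hy.1, hy.2, hyu, hD hy.2⟩⟩
    · refine hG.mono (Finset.erase_subset _ _) fun f hf y hy => ?_
      exact Finset.mem_erase.2 ⟨fun h => (hfree f hf).1 (h ▸ hy),
        hG.sub f (Finset.mem_of_mem_erase hf) hy⟩
    · rcases hel with h | ⟨s, hs, h⟩
      · exact Or.inl h
      · exact Or.inr ⟨s, by omega, h⟩
  · unfold L2
    rw [hKc', hVc']
    push_cast
    nlinarith [hc.a0]
  · unfold Phi
    rw [hKc', hVc']
    push_cast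
    have := hc.β1
    nlinarith

/-- `S` contains a vertex `u` of degree one and two free items `x`, `z`: answer yes, `lift` at `u`,
add the 3-edge `{u, x, z}` (`Good.insert3`, `leaves_insert3`, `next_same` with `A = {u}`),
`k = 1`. -/
theorem rule2_T_new {p a β : ℝ} (hc : Consts p a β) {t : ℕ} {V : Finset α}
    {K : Finset (Finset α)} {b : ℕ} (hG : Good V K) (hg : b + 1 ≤ V.card)
    {S : Finset α} (hS : S ⊆ V) {u x z : α} (huS : u ∈ S) (hxS : x ∈ S) (hzS : z ∈ S)
    (hxz : x ≠ z) {e : Finset α} (he : e ∈ K) (hue : u ∈ e) (hdu : deg K u = 1)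
    (hdx : deg K x = 0) (hdz : deg K z = 0)
    (hpos : Solves t (fam V (insert S K) b)) : Ok2 p a β (t + 1) V K b := by
  obtain ⟨e₁, hue₁, he₁e, he₁n, hG₁, hl₁, hT₁⟩ := lift hG he hue hdu
  obtain ⟨hcard, -, hdeg, -⟩ := lift_deg he he₁e he₁n
  set K₁ := insert e₁ (K.erase e) with hK₁
  have huV : u ∈ V := hS huS
  have hux : u ≠ x := fun h => by rw [h, hdx] at hdu; omega
  have huz : u ≠ z := fun h => by rw [h, hdz] at hdu; omega
  have hdx₁ : deg K₁ x = 0 := by have := hdeg x; omega
  have hdz₁ : deg K₁ z = 0 := by have := hdeg z; omega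
  have hdu₁ : deg K₁ u ≤ 1 := by have := hdeg u; omega
  have hG' : Good V (insert {u, x, z} K₁) :=
    hG₁.insert3 hux huz hxz huV (hS hxS) (hS hzS) hdx₁ hdz₁ hdu₁ hT₁
  have hn : ({u, x, z} : Finset α) ∉ K₁ := fun h =>
    deg_eq_zero.1 hdx₁ _ h (by simp)
  have hKc : (insert {u, x, z} K₁).card = K.card + 1 := by
    rw [Finset.card_insert_of_notMem hn, hcard]
  have hlv : (leaves (insert {u, x, z} K₁)).card ≤ (leaves K).card := by
    refine Finset.card_le_card ((leaves_insert3 hG₁ hn hux huz hxz hdx₁ hdz₁).trans ?_)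
    intro y hy
    rw [Finset.mem_erase] at hy
    rcases Finset.mem_insert.1 (hl₁ hy.2) with h | h
    · exact absurd h hy.1
    · exact h
  have hsub : fam V (insert {u, x, z} K₁) b ⊆ fam V (insert S K) b := by
    refine fam_mono fun D _ hD => ?_
    intro f hf
    rcases Finset.mem_insert.1 hf with rfl | hfK
    · refine (hD _ (Finset.mem_insert_self _ _)).mono (Finset.inter_subset_inter_right ?_)
      intro y hy
      simp only [Finset.mem_insert, Finset.mem_singleton] at hy
      rcases hy with rfl | rfl | rfl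
      · exact huS
      · exact hxS
      · exact hzS
    · by_cases hfe : f = e
      · rw [hfe]
        exact (hD e₁ (Finset.mem_insert_of_mem (Finset.mem_insert_self _ _))).mono
          (Finset.inter_subset_inter_right he₁e)
      · exact hD f (Finset.mem_insert_of_mem (Finset.mem_insert_of_mem
          (Finset.mem_erase.2 ⟨hfe, hfK⟩)))
  have hKc' : ((insert {u, x, z} K₁).card : ℝ) = K.card + 1 := by exact_mod_cast hKc
  have hlv' : ((leaves (insert {u, x, z} K₁)).card : ℝ) ≤ (leaves K).card := by
    exact_mod_cast hlv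
  refine ⟨V, insert {u, x, z} K₁, b, 1, ?_, ?_, ?_⟩
  · refine next_same hc.p0 hc.p1 {u} (by simpa using huV) (by simp) ?_ ?_ le_rfl hG' hg ?_
    · intro D _ hD f hfK
      by_cases hfe : f = e
      · rw [hfe]
        exact (hD e₁ (Finset.mem_insert_of_mem (Finset.mem_insert_self _ _))).mono
          (Finset.inter_subset_inter_right he₁e)
      · exact hD f (Finset.mem_insert_of_mem (Finset.mem_insert_of_mem
          (Finset.mem_erase.2 ⟨hfe, hfK⟩)))
    · intro D _ huD hD f hf
      have huD' : u ∈ D := huD (by simp)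
      rcases Finset.mem_insert.1 hf with rfl | hf
      · exact ⟨u, by simp [huD']⟩
      · rcases Finset.mem_insert.1 hf with rfl | hf
        · exact ⟨u, by simp [huD', hue₁]⟩
        · exact hD f (Finset.mem_of_mem_erase hf)
    · exact Or.inr ⟨t, rfl, hpos.mono_set hsub⟩
  · unfold L2
    rw [hKc']
    push_cast
    linarith
  · unfold Phi
    rw [hKc']
    push_cast
    linarith

end Pool.MP_38cb75_co.GT
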