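import Pool.Agent.Lib.MP_38cb75_co.RuleBase

/-! JOB RULE2TB: regime `L₂, Φ`; one vertex of a 3-edge and at most one free item are tested. -/

set_option autoImplicit false

namespace Pool.MP_38cb75_co.GT

variable {α : Type*} [DecidableEq α]

private theorem tb_card_insert_le {X : Finset α} (hXc : X.card ≤ 1) (u : α) :
    (insert u X).card ≤ 2 := by
  have := Finset.card_insert_le u X
  omega

private theorem tb_vertices {T : Finset α} (hT3 : T.card = 3) {u : α} (hu : u ∈ T) :
    ∃ v w, v ≠ u ∧ w ≠ u ∧ v ≠ w ∧ T = {u, v, w} := by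
  have h2 : (T.erase u).card = 2 := by rw [Finset.card_erase_of_mem hu, hT3]
  obtain ⟨v, w, hvw, h⟩ := Finset.card_eq_two.1 h2
  have hv : v ∈ T.erase u := by rw [h]; simp
  have hw : w ∈ T.erase u := by rw [h]; simp
  refine ⟨v, w, (Finset.mem_erase.1 hv).1, (Finset.mem_erase.1 hw).1, hvw, ?_⟩
  rw [← Finset.insert_erase hu, h]

/-- `S = insert u X`, `X` at most one free item, `u` in the isolated 3-edge `T = {u, v, w}`:
answer no; the rest `{v, w}` is an isolated pair, eliminate it (`pair_elim` for `K.erase T` on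
`V \ S`): `V' = (V \ S).erase v`, `K' = K.erase T`, `b' = b - 1`, `k = 2`, `R = {v}`, `G = S`,
`A = ∅` (`leaves_T_iso`). -/
theorem rule2_T_iso {p a β : ℝ} (hc : Consts p a β) {t : ℕ} {V : Finset α}
    {K : Finset (Finset α)} {b : ℕ} (hG : Good V K) (hb : 1 ≤ b) (hg : b + 3 ≤ V.card)
    {X : Finset α} (hX : X ⊆ V) (hXc : X.card ≤ 1) (hXf : ∀ x ∈ X, deg K x = 0)
    {T : Finset α} (hT : T ∈ K) (hT3 : T.card = 3) (hTd : ∀ v ∈ T, deg K v = 1) {u : α}
    (huT : u ∈ T) (hneg : Solves t (fam (V \ insert u X) K b)) : Ok2 p a β (t + 1) V K b := by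
  obtain ⟨b, rfl⟩ : ∃ b', b = b' + 1 := ⟨b - 1, by omega⟩
  obtain ⟨v, w, hvu, hwu, hvw, hTe⟩ := tb_vertices hT3 huT
  have hvT : v ∈ T := by rw [hTe]; simp
  have hwT : w ∈ T := by rw [hTe]; simp
  have hTV : T ⊆ V := hG.sub T hT
  have hfree : ∀ x ∈ X, ∀ e ∈ K, x ∉ e := fun x hx => deg_eq_zero.1 (hXf x hx)
  have hnotX : ∀ x ∈ T, x ∉ X := fun x hx hxX => hfree x hxX T hT hx
  have hone : ∀ e ∈ K.erase T, ∀ x ∈ T, x ∉ e := by
    intro e he x hx hxe
    rw [Finset.mem_erase] at he
    exact he.1 (eq_of_deg_one (hTd x hx) he.2 hT hxe hx)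
  set S : Finset α := insert u X with hS
  have hSV : S ⊆ V := Finset.insert_subset (hTV huT) hX
  have hSc : S.card ≤ 2 := tb_card_insert_le hXc u
  have hvS : v ∉ S := by
    rw [hS, Finset.mem_insert, not_or]; exact ⟨hvu, hnotX v hvT⟩
  have hwS : w ∉ S := by
    rw [hS, Finset.mem_insert, not_or]; exact ⟨hwu, hnotX w hwT⟩
  have hcSV : (V \ S).card + S.card = V.card := by
    rw [Finset.card_sdiff_of_subset hSV]
    have := Finset.card_le_card hSV
    omega
  have hpos : Solves t (fam (V \ S) (insert {v, w} (K.erase T)) (b + 1)) := by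
    refine hneg.mono_set (fam_mono ?_)
    intro D hD hh e he
    by_cases heT : e = T
    · subst heT
      obtain ⟨x, hx⟩ := hh {v, w} (Finset.mem_insert_self _ _)
      rw [Finset.mem_inter] at hx
      refine ⟨x, Finset.mem_inter.2 ⟨?_, hx.2⟩⟩
      have := hx.1
      simp only [Finset.mem_insert, Finset.mem_singleton] at this
      rcases this with rfl | rfl
      · exact hvT
      · exact hwT
    · exact hh e (Finset.mem_insert_of_mem (Finset.mem_erase.2 ⟨heT, he⟩))
  have helim := pair_elim hvw (Finset.mem_sdiff.2 ⟨hTV hvT, hvS⟩)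
    (Finset.mem_sdiff.2 ⟨hTV hwT, hwS⟩) (K := K.erase T)
    (fun e he => ⟨hone e he v hvT, hone e he w hwT⟩) (by omega) hpos
  have hV' : (V \ S).erase v = (V \ {v}) \ S := by
    ext x
    simp only [Finset.mem_erase, Finset.mem_sdiff, Finset.mem_singleton]
    tauto
  have hsub' : ∀ e ∈ K.erase T, e ⊆ (V \ {v}) \ S := by
    intro e he x hx
    have he' := (Finset.mem_erase.1 he).2
    simp only [Finset.mem_sdiff, Finset.mem_singleton, hS, Finset.mem_insert, not_or]
    refine ⟨⟨hG.sub e he' hx, ?_⟩, ?_, ?_⟩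
    · rintro rfl; exact hone e he _ hvT hx
    · rintro rfl; exact hone e he _ huT hx
    · intro hxX; exact hfree x hxX e he' hx
  rw [hV'] at helim
  have hcard : ((V \ {v}) \ S).card + S.card + 1 = V.card := by
    rw [← hV', Finset.card_erase_of_mem (Finset.mem_sdiff.2 ⟨hTV hvT, hvS⟩)]
    omega
  refine ⟨(V \ {v}) \ S, K.erase T, b, 2, ?_, ?_, ?_⟩
  · refine next_of hc.p0 hc.p1 {v} S ∅ rfl (by simpa using hTV hvT) hSV (by simpa using hvS)
      (by simp) hSc (by simp; omega) (by simp) ?_ (by simp) (by simp) ?_ (by norm_num) ?_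
      (by omega) ?_
    · intro D hD hh e he
      by_cases heT : e = T
      · subst heT
        exact ⟨v, by simp [hvT]⟩
      · obtain ⟨x, hx⟩ := hh e (Finset.mem_erase.2 ⟨heT, he⟩)
        rw [Finset.mem_inter] at hx
        exact ⟨x, by simp [hx.1, hx.2]⟩
    · intro D hD hh e he
      obtain ⟨x, hx⟩ := hh e (Finset.mem_erase.1 he).2
      rw [Finset.mem_inter] at hx
      exact ⟨x, by
        rw [Finset.mem_inter, Finset.mem_union, Finset.mem_inter]
        exact ⟨hx.1, Or.inl ⟨hx.2, hsub' e he hx.1⟩⟩⟩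
    · exact hG.mono (Finset.erase_subset _ _) hsub'
    · rcases helim with h | ⟨s, hs, h⟩
      · exact Or.inl h
      · exact Or.inr ⟨s, by omega, h⟩
  · have hKc : (K.erase T).card + 1 = K.card := by
      rw [Finset.card_erase_of_mem hT]
      have : 1 ≤ K.card := Finset.card_pos.2 ⟨T, hT⟩
      omega
    have e1 : (((V \ {v}) \ S).card : ℝ) = V.card - S.card - 1 := by
      rw [← hcard]; push_cast; ring
    have e2 : ((K.erase T).card : ℝ) = K.card - 1 := by
      rw [← hKc]; push_cast; ring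
    have e3 : (S.card : ℝ) ≤ 2 := by exact_mod_cast hSc
    have a0 := hc.a0
    have a1 := hc.a1
    unfold L2
    rw [e1, e2]
    push_cast
    nlinarith
  · have hKc : (K.erase T).card + 1 = K.card := by
      rw [Finset.card_erase_of_mem hT]
      have : 1 ≤ K.card := Finset.card_pos.2 ⟨T, hT⟩
      omega
    have e1 : (((V \ {v}) \ S).card : ℝ) = V.card - S.card - 1 := by
      rw [← hcard]; push_cast; ring
    have e2 : ((K.erase T).card : ℝ) = K.card - 1 := by
      rw [← hKc]; push_cast; ring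
    have e3 : (S.card : ℝ) ≤ 2 := by exact_mod_cast hSc
    have e4 : ((leaves (K.erase T)).card : ℝ) ≤ (leaves K).card := by
      exact_mod_cast leaves_T_iso hG hT hT3 hTd
    have b1 := hc.β1
    unfold Phi
    rw [e1, e2]
    push_cast
    nlinarith

/-- `S = insert u X`, `X` at most one free item, `u` of degree one in the 3-edge `T = {u, v, w}`
with `deg v = 2` (then `deg w = 1`): answer no; `V' = V \ S`, `K' = insert {w, v} (K.erase T)`,
`b' = b`, `k = 1`, `R = ∅`, `G = S`, `A = {w}` (`Good.shrink`, `leaves_shrink`). -/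
theorem rule2_T_att {p a β : ℝ} (hc : Consts p a β) {t : ℕ} {V : Finset α}
    {K : Finset (Finset α)} {b : ℕ} (hG : Good V K) (hg : b + 3 ≤ V.card)
    {X : Finset α} (hX : X ⊆ V) (hXc : X.card ≤ 1) (hXf : ∀ x ∈ X, deg K x = 0)
    {T : Finset α} (hT : T ∈ K) (hT3 : T.card = 3) {u v : α} (huT : u ∈ T) (hvT : v ∈ T)
    (hdu : deg K u = 1) (hdv : deg K v = 2)
    (hneg : Solves t (fam (V \ insert u X) K b)) : Ok2 p a β (t + 1) V K b := by
  have huv : v ≠ u := by rintro rfl; omega
  obtain ⟨w, hwu, hwv, hTe⟩ : ∃ w, w ≠ u ∧ w ≠ v ∧ T = {u, v, w} := by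
    obtain ⟨v', w', h1, h2, h3, h4⟩ := tb_vertices hT3 huT
    have : v ∈ ({u, v', w'} : Finset α) := by rw [← h4]; exact hvT
    simp only [Finset.mem_insert, Finset.mem_singleton] at this
    rcases this with h | h | h
    · exact absurd h huv
    · subst h; exact ⟨w', h2, h3.symm, h4⟩
    · subst h
      exact ⟨v', h1, h3, by rw [h4, Finset.pair_comm v' v]⟩
  have hwT : w ∈ T := by rw [hTe]; simp
  have hTV : T ⊆ V := hG.sub T hT
  have hdw : deg K w = 1 := by
    rcases hG.three T hT hT3 w hwT v hvT hwv with h | h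
    · exact h
    · omega
  have hfree : ∀ x ∈ X, ∀ e ∈ K, x ∉ e := fun x hx => deg_eq_zero.1 (hXf x hx)
  have hnotX : ∀ x ∈ T, x ∉ X := fun x hx hxX => hfree x hxX T hT hx
  have hone : ∀ e ∈ K.erase T, u ∉ e := by
    intro e he hxe
    rw [Finset.mem_erase] at he
    exact he.1 (eq_of_deg_one hdu he.2 hT hxe huT)
  set S : Finset α := insert u X with hS
  have hSV : S ⊆ V := Finset.insert_subset (hTV huT) hX
  have hSc : S.card ≤ 2 := tb_card_insert_le hXc u
  have hvS : v ∉ S := by
    rw [hS, Finset.mem_insert, not_or]; exact ⟨huv, hnotX v hvT⟩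
  have hwS : w ∉ S := by
    rw [hS, Finset.mem_insert, not_or]; exact ⟨hwu, hnotX w hwT⟩
  have hcard : (V \ S).card + S.card = V.card := by
    rw [Finset.card_sdiff_of_subset hSV]
    have := Finset.card_le_card hSV
    omega
  obtain ⟨hGood, hnot⟩ := hG.shrink hT hT3 hwv hwT hvT hdw
  have hhit : ∀ D, Hits (insert {w, v} (K.erase T)) D → Hits K D := by
    intro D hh e he
    by_cases heT : e = T
    · subst heT
      obtain ⟨x, hx⟩ := hh {w, v} (Finset.mem_insert_self _ _)
      rw [Finset.mem_inter] at hx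
      refine ⟨x, Finset.mem_inter.2 ⟨?_, hx.2⟩⟩
      have := hx.1
      simp only [Finset.mem_insert, Finset.mem_singleton] at this
      rcases this with rfl | rfl
      · exact hwT
      · exact hvT
    · exact hh e (Finset.mem_insert_of_mem (Finset.mem_erase.2 ⟨heT, he⟩))
  have hsub1 : ∀ e ∈ K.erase T, e ⊆ V \ S := by
    intro e he x hx
    have he' := (Finset.mem_erase.1 he).2
    simp only [Finset.mem_sdiff, hS, Finset.mem_insert, not_or]
    refine ⟨hG.sub e he' hx, ?_, ?_⟩
    · rintro rfl; exact hone e he hx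
    · intro hxX; exact hfree x hxX e he' hx
  have hsub' : ∀ e ∈ insert {w, v} (K.erase T), e ⊆ V \ S := by
    intro e he
    rcases Finset.mem_insert.1 he with rfl | he
    · intro x hx
      simp only [Finset.mem_insert, Finset.mem_singleton] at hx
      rcases hx with rfl | rfl
      · exact Finset.mem_sdiff.2 ⟨hTV hwT, hwS⟩
      · exact Finset.mem_sdiff.2 ⟨hTV hvT, hvS⟩
    · exact hsub1 e he
  have hKc : (insert {w, v} (K.erase T)).card = K.card := by
    rw [Finset.card_insert_of_notMem hnot, Finset.card_erase_of_mem hT]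
    have : 1 ≤ K.card := Finset.card_pos.2 ⟨T, hT⟩
    omega
  have e1 : ((V \ S).card : ℝ) = V.card - S.card := by
    rw [← hcard]; push_cast; ring
  have e3 : (S.card : ℝ) ≤ 2 := by exact_mod_cast hSc
  refine ⟨V \ S, insert {w, v} (K.erase T), b, 1, ?_, ?_, ?_⟩
  · refine next_of hc.p0 hc.p1 ∅ S {w} (by simp) (by simp) hSV (by simp)
      (by simp) hSc (by simp; omega) (by simp) ?_ ?_ (by simp) ?_ le_rfl ?_
      (by omega) ?_
    · intro D hD hh
      rw [Finset.union_empty]
      exact hhit D hh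
    · rw [Finset.singleton_subset_iff]
      exact Finset.mem_sdiff.2 ⟨hTV hwT, hwS⟩
    · intro D hD hh e he
      rcases Finset.mem_insert.1 he with rfl | he
      · exact ⟨w, by simp⟩
      · obtain ⟨x, hx⟩ := hh e (Finset.mem_erase.1 he).2
        rw [Finset.mem_inter] at hx
        exact ⟨x, by
          rw [Finset.mem_inter, Finset.mem_union, Finset.mem_inter]
          exact ⟨hx.1, Or.inl ⟨hx.2, hsub1 e he hx.1⟩⟩⟩
    · exact hGood.mono (Finset.Subset.refl _) hsub'
    · exact Or.inr ⟨t, rfl, hneg.mono_set (fam_mono fun D _ hh => hhit D hh)⟩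
  · have a0 := hc.a0
    have a1 := hc.a1
    unfold L2
    rw [e1, hKc]
    push_cast
    nlinarith
  · have e4 : ((leaves (insert {w, v} (K.erase T))).card : ℝ) ≤ (leaves K).card + 1 := by
      have h1 := Finset.card_le_card (leaves_shrink hG hT hT3 hwv hwT hvT hdw hdv)
      have h2 := Finset.card_insert_le w (leaves K)
      exact_mod_cast h1.trans h2
    unfold Phi
    rw [e1, hKc]
    push_cast
    nlinarith

end Pool.MP_38cb75_co.GT
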