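import Pool.Agent.Lib.MP_38cb75_co.Lift

/-! JOB RULE2TRI: regime `L₂, Φ`; two vertices of degree one of edges with a common vertex are
tested. -/

set_option autoImplicit false

namespace Pool.MP_38cb75_co.GT

variable {α : Type*} [DecidableEq α]

/-- Let `v` be the common vertex of `e` and `f` (degree two), `K₀ = (K.erase e).erase f = del K v`.
Answer yes, restrict to the sets hitting `{u,c}`, `{u,v} ⊆ e`, `{c,v} ⊆ f` and `K₀`, and
eliminate the triangle (`triangle_elim`): `V' = (V.erase u).erase c`, `K' = K₀`, `b' = b - 2`,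
`k = 3`, `R = {u, c}`, `G = A = ∅`.  All vertices of `e ∪ f` except `v` have degree one, so
`leaves K₀ ⊆ leaves K`. -/
theorem rule2_tri {p a β : ℝ} (hc : Consts p a β) {t : ℕ} {V : Finset α}
    {K : Finset (Finset α)} {b : ℕ} (hG : Good V K) (hb : 2 ≤ b) (hg : b + 1 ≤ V.card)
    {S : Finset α} (hS : S ⊆ V) {u c : α} (huS : u ∈ S) (hcS : c ∈ S) (huc : u ≠ c)
    {e f : Finset α} (he : e ∈ K) (hf : f ∈ K) (hef : e ≠ f) (hue : u ∈ e) (hcf : c ∈ f)
    (hdu : deg K u = 1) (hdc : deg K c = 1) (hd : ¬ Disjoint e f)
    (hpos : Solves t (fam V (insert S K) b)) : Ok2 p a β (t + 1) V K b := by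
  obtain ⟨b', rfl⟩ : ∃ b', b = b' + 2 := ⟨b - 2, by omega⟩
  obtain ⟨v, hve, hvf⟩ := Finset.not_disjoint_iff.1 hd
  have hdv : deg K v = 2 := by
    have h1 := hG.deg_le v
    have h2 : ({e, f} : Finset (Finset α)).card ≤ deg K v := by
      refine Finset.card_le_card ?_
      intro g hg'
      rcases Finset.mem_insert.1 hg' with rfl | hg'
      · exact Finset.mem_filter.2 ⟨he, hve⟩
      · rw [Finset.mem_singleton] at hg'
        rw [hg']
        exact Finset.mem_filter.2 ⟨hf, hvf⟩
    rw [Finset.card_pair hef] at h2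
    omega
  have huv : u ≠ v := fun h => by rw [h, hdv] at hdu; omega
  have hcv : c ≠ v := fun h => by rw [h, hdv] at hdc; omega
  have huV : u ∈ V := hS huS
  have hcV : c ∈ V := hS hcS
  have hvV : v ∈ V := hG.sub e he hve
  have hdel := del_of_deg_two hdv he hf hef hve hvf
  have hfree : ∀ g ∈ del K v, u ∉ g ∧ c ∉ g ∧ v ∉ g := by
    intro g hg'
    have hvg := (mem_del.1 hg').2
    have hgK := (mem_del.1 hg').1
    refine ⟨fun h => ?_, fun h => ?_, hvg⟩
    · exact hvg ((eq_of_deg_one hdu hgK he h hue) ▸ hve)
    · exact hvg ((eq_of_deg_one hdc hgK hf h hcf) ▸ hvf)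
  have hcase : ∀ g ∈ K, g = e ∨ g = f ∨ g ∈ del K v := by
    intro g hgK
    by_cases h1 : g = e
    · exact Or.inl h1
    by_cases h2 : g = f
    · exact Or.inr (Or.inl h2)
    refine Or.inr (Or.inr ?_)
    rw [hdel]
    exact Finset.mem_erase.2 ⟨h2, Finset.mem_erase.2 ⟨h1, hgK⟩⟩
  have hsub : fam V (insert {u, c} (insert {u, v} (insert {c, v} (del K v)))) (b' + 2) ⊆
      fam V (insert S K) (b' + 2) := by
    refine fam_mono fun D _ hD => ?_
    have h1 : (({u, c} : Finset α) ∩ D).Nonempty := hD _ (by simp)
    have h2 : (({u, v} : Finset α) ∩ D).Nonempty := hD _ (by simp)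
    have h3 : (({c, v} : Finset α) ∩ D).Nonempty := hD _ (by simp)
    intro g hg'
    rcases Finset.mem_insert.1 hg' with rfl | hgK
    · refine h1.mono (Finset.inter_subset_inter_right ?_)
      intro y hy
      simp only [Finset.mem_insert, Finset.mem_singleton] at hy
      rcases hy with rfl | rfl
      · exact huS
      · exact hcS
    · rcases hcase g hgK with h | h | h
      · refine h2.mono (Finset.inter_subset_inter_right ?_)
        intro y hy
        simp only [Finset.mem_insert, Finset.mem_singleton] at hy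
        rcases hy with rfl | rfl
        · rw [h]; exact hue
        · rw [h]; exact hve
      · refine h3.mono (Finset.inter_subset_inter_right ?_)
        intro y hy
        simp only [Finset.mem_insert, Finset.mem_singleton] at hy
        rcases hy with rfl | rfl
        · rw [h]; exact hcf
        · rw [h]; exact hvf
      · exact hD g (by simp [h])
  have hel := triangle_elim huc huv hcv huV hcV hvV hfree (by omega) (hpos.mono_set hsub)
  have hKc : (del K v).card + 2 = K.card := by
    have := card_del (K := K) v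
    rw [hdv] at this
    exact this
  have hcV' : c ∈ V.erase u := Finset.mem_erase.2 ⟨huc.symm, hcV⟩
  have hVc : ((V.erase u).erase c).card + 2 = V.card := by
    have h1 := Finset.card_erase_add_one hcV'
    have h2 := Finset.card_erase_add_one huV
    omega
  have hone : ∀ g ∈ K, v ∈ g → ∀ y ∈ g, y ≠ v → (g = e ∨ g = f) → deg K y = 1 := by
    intro g hgK hvg y hy hyv hgef
    rcases hG.card g hgK with h2 | h3
    · have hw : ∃ w, w ∈ g ∧ w ≠ v ∧ deg K w = 1 := by
        rcases hgef with h | h
        · exact ⟨u, h ▸ hue, huv, hdu⟩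
        · exact ⟨c, h ▸ hcf, hcv, hdc⟩
      obtain ⟨w, hwg, hwv, hdw⟩ := hw
      have hgw : ({v, w} : Finset α) = g := by
        refine Finset.eq_of_subset_of_card_le ?_ (by rw [h2, Finset.card_pair hwv.symm])
        intro z hz
        simp only [Finset.mem_insert, Finset.mem_singleton] at hz
        rcases hz with rfl | rfl
        · exact hvg
        · exact hwg
      rw [← hgw] at hy
      simp only [Finset.mem_insert, Finset.mem_singleton] at hy
      rcases hy with h | h
      · exact absurd h hyv
      · rw [h]; exact hdw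
    · rcases hG.three g hgK h3 y hy v hvg hyv with h | h
      · exact h
      · omega
  have hlsub : leaves (del K v) ⊆ leaves K := by
    intro y hy
    rw [mem_leaves] at hy ⊢
    obtain ⟨hy1, g, hg1, hg2, hyg⟩ := hy
    have hgK := (mem_del.1 hg1).1
    have hyv : y ≠ v := fun h => (mem_del.1 hg1).2 (h ▸ hyg)
    have hye : y ∉ e := by
      intro hye
      have h1 := hone e he hve y hye hyv (Or.inl rfl)
      have h2 := eq_of_deg_one h1 hgK he hyg hye
      exact (mem_del.1 hg1).2 (h2 ▸ hve)
    have hyf : y ∉ f := by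
      intro hyf
      have h1 := hone f hf hvf y hyf hyv (Or.inr rfl)
      have h2 := eq_of_deg_one h1 hgK hf hyg hyf
      exact (mem_del.1 hg1).2 (h2 ▸ hvf)
    have hdy : deg K y = deg (del K v) y := by
      unfold deg
      congr 1
      ext h
      simp only [Finset.mem_filter]
      constructor
      · rintro ⟨h1, h2⟩
        refine ⟨?_, h2⟩
        rcases hcase h h1 with h3 | h3 | h3
        · exact absurd (h3 ▸ h2) hye
        · exact absurd (h3 ▸ h2) hyf
        · exact h3
      · rintro ⟨h1, h2⟩
        exact ⟨(mem_del.1 h1).1, h2⟩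
    exact ⟨by rw [hdy, hy1], g, hgK, hg2, hyg⟩
  have hlv := Finset.card_le_card hlsub
  have hKc' : (K.card : ℝ) = (del K v).card + 2 := by exact_mod_cast hKc.symm
  have hVc' : (V.card : ℝ) = ((V.erase u).erase c).card + 2 := by exact_mod_cast hVc.symm
  have hlv' : ((leaves (del K v)).card : ℝ) ≤ (leaves K).card := by exact_mod_cast hlv
  refine ⟨(V.erase u).erase c, del K v, b', 3, ?_, ?_, ?_⟩
  · refine next_of hc.p0 hc.p1 {u, c} ∅ ∅ ?_ ?_ (by simp) (by simp) ?_
      (by simp) ?_ ?_ ?_ (by simp) (by simp) ?_ (by norm_num) ?_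
      (by simp only [Finset.card_empty]; omega) ?_
    · ext y
      simp only [Finset.mem_erase, Finset.mem_sdiff, Finset.mem_insert, Finset.mem_singleton,
        Finset.notMem_empty, not_false_eq_true, and_true]
      tauto
    · intro y hy
      simp only [Finset.mem_insert, Finset.mem_singleton] at hy
      rcases hy with rfl | rfl
      · exact huV
      · exact hcV
    · rw [Finset.card_pair huc]
    · rw [Finset.card_pair huc, Finset.card_empty]; norm_num
    · rw [Finset.card_pair huc]
    · intro D _ hD g hgK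
      rcases hcase g hgK with h | h | h
      · exact ⟨u, by rw [h]; simp [hue]⟩
      · exact ⟨c, by rw [h]; simp [hcf]⟩
      · exact (hD g h).mono (Finset.inter_subset_inter_left Finset.subset_union_left)
    · intro D hD hK g hg'
      obtain ⟨y, hy⟩ := hK g (mem_del.1 hg').1
      rw [Finset.mem_inter] at hy
      have hyu : y ≠ u := fun h => (hfree g hg').1 (h ▸ hy.1)
      have hyc : y ≠ c := fun h => (hfree g hg').2.1 (h ▸ hy.1)
      exact ⟨y, by
        simp only [Finset.union_empty, Finset.mem_inter, Finset.mem_erase]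
        exact ⟨hy.1, hy.2, hyc, hyu, hD hy.2⟩⟩
    · refine hG.mono (fun g hg' => (mem_del.1 hg').1) fun g hg' y hy => ?_
      have hyu : y ≠ u := fun h => (hfree g hg').1 (h ▸ hy)
      have hyc : y ≠ c := fun h => (hfree g hg').2.1 (h ▸ hy)
      exact Finset.mem_erase.2 ⟨hyc, Finset.mem_erase.2 ⟨hyu,
        hG.sub g (mem_del.1 hg').1 hy⟩⟩
    · rcases hel with h | ⟨s, hs, h⟩
      · exact Or.inl h
      · exact Or.inr ⟨s, by omega, h⟩
  · unfold L2
    rw [hKc', hVc']
    push_cast
    nlinarith [hc.a0]
  · unfold Phi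
    rw [hKc', hVc']
    push_cast
    have := hc.β1
    nlinarith

end Pool.MP_38cb75_co.GT
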