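import Pool.Agent.Lib.MP_38cb75_co.Rule2Hit
import Pool.Agent.Lib.MP_38cb75_co.Rule2Link
import Pool.Agent.Lib.MP_38cb75_co.Rule2Tri
import Pool.Agent.Lib.MP_38cb75_co.Rule2Leaf
import Pool.Agent.Lib.MP_38cb75_co.Rule2TA
import Pool.Agent.Lib.MP_38cb75_co.Rule2TB
import Pool.Agent.Lib.MP_38cb75_co.Rule2Free

/-! The regime `L₂, Φ`: assembly (proved). -/

set_option autoImplicit false

namespace Pool.MP_38cb75_co.GT

variable {α : Type*} [DecidableEq α]

theorem rule2 {p a β : ℝ} (hc : Consts p a β) {t : ℕ} {V : Finset α}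
    {K : Finset (Finset α)} {b : ℕ} (hG : Good V K) (hN : NoPair K) (hb : 2 ≤ b)
    (hg : b + 3 ≤ V.card) (h : Solves (t + 1) (fam V K b)) : Ok2 p a β (t + 1) V K b := by
  obtain ⟨S, hS, hpos, hneg⟩ := solves_succ_fam h
  by_cases h2 : ∃ v ∈ S, deg K v = 2
  · obtain ⟨v, hv, hdv⟩ := h2
    exact rule2_hit hc hG (by omega) (by omega) hS hv hdv hpos
  push Not at h2
  have hdeg : ∀ v ∈ S, deg K v = 0 ∨ deg K v = 1 := by
    intro v hv
    have h3 := h2 v hv
    have h4 := hG.deg_le v
    omega
  by_cases hfree : ∀ x ∈ S, deg K x = 0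
  · -- only free items
    rcases Nat.lt_or_ge S.card 3 with h3 | h3
    · exact rule2_free_neg hc hG hg hS hfree (by omega) hneg
    · obtain ⟨x, hx, y, hy, z, hz, hxy, hxz, hyz⟩ :=
        Finset.two_lt_card.1 (show 2 < S.card by omega)
      exact rule2_free_new hc hG (by omega) hS hxy hxz hyz hx hy hz (hfree x hx) (hfree y hy)
        (hfree z hz) hpos
  push Not at hfree
  obtain ⟨u, huS, hdu0⟩ := hfree
  have hdu : deg K u = 1 := by have := hdeg u huS; omega
  obtain ⟨e, he, hue⟩ := exists_of_deg_pos (by omega : 1 ≤ deg K u)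
  by_cases hother : ∃ c ∈ S, deg K c = 1 ∧ c ∉ e
  · -- two vertices of degree one in different edges
    obtain ⟨c, hcS, hdc, hce⟩ := hother
    obtain ⟨f, hf, hcf⟩ := exists_of_deg_pos (by omega : 1 ≤ deg K c)
    have huc : u ≠ c := fun h => hce (h ▸ hue)
    by_cases hd : Disjoint e f
    · exact rule2_link hc hG (by omega) hS huS hcS huc he hf hue hcf hdu hdc hd hpos
    · have hef : e ≠ f := fun h => hce (h ▸ hcf)
      exact rule2_tri hc hG hb (by omega) hS huS hcS huc he hf hef hue hcf hdu hdc hd hpos
  push Not at hother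
  -- all vertices of degree one of `S` lie in `e`
  by_cases hx2 : ∃ x ∈ S, ∃ z ∈ S, x ≠ z ∧ deg K x = 0 ∧ deg K z = 0
  · obtain ⟨x, hx, z, hz, hxz, hdx, hdz⟩ := hx2
    exact rule2_T_new hc hG (by omega) hS huS hx hz hxz he hue hdu hdx hdz hpos
  push Not at hx2
  rcases hG.card e he with he2 | he3
  · -- `e` has two elements
    obtain ⟨c, hce, hdc⟩ : ∃ c ∈ e, deg K c = 2 := hN e he he2
    have huc : u ≠ c := fun h => by rw [h, hdc] at hdu; omega
    have hee : e = {u, c} := by
      symm
      apply Finset.eq_of_subset_of_card_le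
      · intro x hx
        simp only [Finset.mem_insert, Finset.mem_singleton] at hx
        rcases hx with rfl | rfl
        · exact hue
        · exact hce
      · rw [he2, Finset.card_pair huc]
    by_cases hx : ∃ x ∈ S, deg K x = 0
    · obtain ⟨x, hxS, hdx⟩ := hx
      exact rule2_leaf_link hc hG (by omega) hS huS hxS he he2 hue hdu hdx hpos
    · push Not at hx
      have hSu : S = {u} := by
        apply Finset.eq_singleton_iff_unique_mem.2 ⟨huS, ?_⟩
        intro x hxS
        have hdx : deg K x = 1 := by
          have h5 := hx x hxS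
          have h6 := hdeg x hxS
          omega
        have hxe := hother x hxS hdx
        rw [hee] at hxe
        simp only [Finset.mem_insert, Finset.mem_singleton] at hxe
        rcases hxe with h | h
        · exact h
        · rw [h, hdc] at hdx; omega
      subst hSu
      exact rule2_leaf_neg hc hG (by omega) hg huc (hee ▸ he) hdu hdc hneg
  · -- `e` has three elements
    by_cases hw : ∃ w ∈ S, w ≠ u ∧ deg K w = 1
    · obtain ⟨w, hwS, hwu, hdw⟩ := hw
      exact rule2_T_two hc hG (by omega) (by omega) hS he he3 (Ne.symm hwu) huS hwS hue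
        (hother w hwS hdw) hdu hdw hpos
    · push Not at hw
      -- `S = insert u X` with `X = S.erase u` consisting of at most one free item
      have hXf : ∀ x ∈ S.erase u, deg K x = 0 := by
        intro x hx
        rw [Finset.mem_erase] at hx
        have h5 := hw x hx.2 hx.1
        have h6 := hdeg x hx.2
        omega
      have hXc : (S.erase u).card ≤ 1 := by
        rw [Finset.card_le_one]
        intro x hx z hz
        by_contra hne
        exact hx2 x (Finset.mem_of_mem_erase hx) z (Finset.mem_of_mem_erase hz) hne (hXf x hx)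
          (hXf z hz)
      have hSX : insert u (S.erase u) = S := Finset.insert_erase huS
      have hX : S.erase u ⊆ V := (Finset.erase_subset _ _).trans hS
      by_cases hiso : ∀ v ∈ e, deg K v = 1
      · exact rule2_T_iso hc hG (by omega) hg hX hXc hXf he he3 hiso hue (by rw [hSX]; exact hneg)
      · push Not at hiso
        obtain ⟨v, hve, hdv⟩ := hiso
        have hdv2 : deg K v = 2 := by
          have h5 := hG.deg_le v
          have h6 := deg_pos he hve
          omega
        exact rule2_T_att hc hG hg hX hXc hXf he he3 hue hve hdu hdv2 (by rw [hSX]; exact hneg)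

end Pool.MP_38cb75_co.GT
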