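import Pool.Agent.Lib.MP_38cb75_co.Variance

/-! JOB TAIL: Chebyshev. -/

set_option autoImplicit false

namespace Pool.MP_38cb75_co.GT

variable {α : Type*} [DecidableEq α]

/-- Write `P` for the probability conditioned on hitting `K`.  `P(|D| ≤ b) ≥ 1/3` and
`P(b - J ≤ |D| ≤ b) < 1/12` (at most `n₀ + 1` values), so `P(|D| < b - J) ≥ 1/4`.  By `variance`
there is `μ` with `E (|D| - μ)² ≤ n₀/4`, so `μ ≤ b - J + √n₀`, `b - μ ≥ J - √n₀ ≥ 29 √n₀` and
`P(|D| > b) ≤ (n₀/4) / (841 n₀) = 1/3364 ≤ (2/3) (1/625) (9/16)`. -/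
theorem tail {p : ℝ} (hp0 : 1 / 5 ≤ p) (hp1 : p ≤ 1 / 4) {n₀ J : ℕ} (hn : 0 < n₀)
    (hJ : 900 * n₀ ≤ J ^ 2) {V : Finset α} {K : Finset (Finset α)} {b : ℕ} (hG : Good V K)
    (hV : V.card ≤ n₀) (hinv : up p V K b ≤ (2 / 3) * Z p V K)
    (hun : ∀ j : ℕ, j ≤ b → b ≤ j + J → 12 * ((n₀ : ℝ) + 1) * lev p V K j < Z p V K) :
    up p V K b ≤ (2 / 3) * (p ^ 4 * (1 - p) ^ 2) * Z p V K ∧
      ∃ D ⊆ V, Hits K D ∧ D.card + J < b := by
  have hp0' : 0 < p := by linarith
  have hp1' : p < 1 := by linarith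
  have hZ : 0 < Z p V K := by
    refine Z_pos hp0' hp1' fun e he => ⟨hG.sub e he, ?_⟩
    rw [← Finset.card_pos]
    rcases hG.card e he with h | h <;> omega
  obtain ⟨μ, hμ⟩ := variance hp0' hp1' hG
  set low : ℝ := wsum p V K (fun j => if j + J < b then 1 else 0) with hlow
  set mid : ℝ := wsum p V K (fun j => if j ≤ b ∧ b ≤ j + J then 1 else 0) with hmid
  have hsum : up p V K b + (low + mid) = Z p V K := by
    rw [hlow, hmid, up, Z, ← wsum_add, ← wsum_add]
    congr 1
    funext j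
    by_cases h1 : b < j
    · rw [if_pos h1, if_neg (by omega), if_neg (by omega)]
      norm_num
    · by_cases h2 : j + J < b
      · rw [if_neg h1, if_pos h2, if_neg (by omega)]
        norm_num
      · rw [if_neg h1, if_neg h2, if_pos ⟨by omega, by omega⟩]
        norm_num
  have hmidle : mid ≤ Z p V K / 12 := by
    have h1 : mid ≤ ∑ j ∈ Finset.range (V.card + 1), Z p V K / (12 * ((n₀ : ℝ) + 1)) := by
      rw [hmid, sum_lev]
      refine Finset.sum_le_sum fun j _ => ?_
      by_cases h : j ≤ b ∧ b ≤ j + J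
      · rw [if_pos h, one_mul, le_div_iff₀ (by positivity)]
        have := hun j h.1 h.2
        linarith
      · rw [if_neg h, zero_mul]
        positivity
    rw [Finset.sum_const, Finset.card_range, nsmul_eq_mul] at h1
    refine h1.trans ?_
    have h2 : ((V.card + 1 : ℕ) : ℝ) ≤ (n₀ : ℝ) + 1 := by
      push_cast
      have : (V.card : ℝ) ≤ n₀ := by exact_mod_cast hV
      linarith
    have h3 : (0 : ℝ) < (n₀ : ℝ) + 1 := by positivity
    calc ((V.card + 1 : ℕ) : ℝ) * (Z p V K / (12 * ((n₀ : ℝ) + 1)))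
        ≤ ((n₀ : ℝ) + 1) * (Z p V K / (12 * ((n₀ : ℝ) + 1))) :=
          mul_le_mul_of_nonneg_right h2 (by positivity)
      _ = Z p V K / 12 := by field_simp
  have hlowge : Z p V K / 4 ≤ low := by linarith
  have hn' : (0 : ℝ) < n₀ := by exact_mod_cast hn
  have hsq : Real.sqrt n₀ * Real.sqrt n₀ = n₀ := Real.mul_self_sqrt hn'.le
  have hs0 : 0 < Real.sqrt n₀ := Real.sqrt_pos.mpr hn'
  have hJ' : 30 * Real.sqrt n₀ ≤ J := by
    have h1 : (900 : ℝ) * n₀ ≤ (J : ℝ) ^ 2 := by exact_mod_cast hJ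
    have h2 : (30 * Real.sqrt n₀) ^ 2 ≤ (J : ℝ) ^ 2 := by
      calc (30 * Real.sqrt n₀) ^ 2 = 900 * (Real.sqrt n₀ * Real.sqrt n₀) := by ring
        _ = 900 * n₀ := by rw [hsq]
        _ ≤ _ := h1
    exact (pow_le_pow_iff_left₀ (by positivity) (by positivity) (by norm_num)).mp h2
  have hVn : ((V.card : ℝ) / 4) * Z p V K ≤ (n₀ / 4) * Z p V K := by
    have : (V.card : ℝ) ≤ n₀ := by exact_mod_cast hV
    apply mul_le_mul_of_nonneg_right _ hZ.le
    linarith
  have hμ' := hμ.trans hVn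
  -- the mean is small
  have hmu : μ < (b : ℝ) - J + Real.sqrt n₀ := by
    by_contra hc
    push Not at hc
    have h1 : wsum p V K (fun j => ((n₀ : ℝ) + 1) * (if j + J < b then 1 else 0)) ≤
        wsum p V K (fun j => ((j : ℝ) - μ) ^ 2) := by
      refine wsum_mono hp0'.le hp1'.le (fun D _ h => h) ?_ ?_
      · intro j
        split_ifs <;> positivity
      · intro j
        by_cases h : j + J < b
        · rw [if_pos h, mul_one]
          have h2 : (j : ℝ) + J + 1 ≤ b := by exact_mod_cast h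
          have h3 : Real.sqrt n₀ + 1 ≤ μ - j := by linarith
          nlinarith
        · rw [if_neg h, mul_zero]
          positivity
    rw [wsum_smul] at h1
    have h2 : ((n₀ : ℝ) + 1) * (Z p V K / 4) ≤ (n₀ / 4) * Z p V K :=
      (mul_le_mul_of_nonneg_left hlowge (by positivity)).trans (h1.trans hμ')
    nlinarith
  have hup : 841 * (n₀ : ℝ) * up p V K b ≤ (n₀ / 4) * Z p V K := by
    have h1 : wsum p V K (fun j => (841 * (n₀ : ℝ)) * (if b < j then 1 else 0)) ≤
        wsum p V K (fun j => ((j : ℝ) - μ) ^ 2) := by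
      refine wsum_mono hp0'.le hp1'.le (fun D _ h => h) ?_ ?_
      · intro j
        split_ifs <;> positivity
      · intro j
        by_cases h : b < j
        · rw [if_pos h, mul_one]
          have h2 : (b : ℝ) + 1 ≤ j := by exact_mod_cast h
          have h3 : 29 * Real.sqrt n₀ ≤ j - μ := by linarith
          have h4 : (29 * Real.sqrt n₀) ^ 2 ≤ (j - μ) ^ 2 :=
            pow_le_pow_left₀ (by positivity) h3 2
          calc 841 * (n₀ : ℝ) = 841 * (Real.sqrt n₀ * Real.sqrt n₀) := by rw [hsq]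
            _ = (29 * Real.sqrt n₀) ^ 2 := by ring
            _ ≤ _ := h4
        · rw [if_neg h, mul_zero]
          positivity
    rw [wsum_smul] at h1
    exact h1.trans hμ'
  have hup' : 3364 * up p V K b ≤ Z p V K := by
    have : (n₀ : ℝ) * (3364 * up p V K b) ≤ n₀ * Z p V K := by nlinarith
    exact le_of_mul_le_mul_left this hn'
  refine ⟨?_, ?_⟩
  · have h1 : ((1 : ℝ) / 5) ^ 4 ≤ p ^ 4 := pow_le_pow_left₀ (by norm_num) hp0 4
    have h2 : ((3 : ℝ) / 4) ^ 2 ≤ (1 - p) ^ 2 := pow_le_pow_left₀ (by norm_num) (by linarith) 2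
    have h3 : ((1 : ℝ) / 5) ^ 4 * ((3 : ℝ) / 4) ^ 2 ≤ p ^ 4 * (1 - p) ^ 2 :=
      mul_le_mul h1 h2 (by positivity) (by positivity)
    have h4 : (1 : ℝ) / 3364 ≤ (2 / 3) * (p ^ 4 * (1 - p) ^ 2) := by
      norm_num at h3
      linarith
    calc up p V K b ≤ (1 / 3364) * Z p V K := by linarith
      _ ≤ _ := mul_le_mul_of_nonneg_right h4 hZ.le
  · by_contra hc
    push Not at hc
    have : low = 0 := by
      rw [hlow, wsum]
      refine Finset.sum_eq_zero fun D hD => ?_
      rw [Finset.mem_filter, Finset.mem_powerset] at hD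
      have := hc D hD.1 hD.2
      rw [if_neg (by omega), mul_zero]
    linarith

end Pool.MP_38cb75_co.GT
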