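import Pool.Agent.Lib.MP_38cb75_co.Rule1All
import Pool.Agent.Lib.MP_38cb75_co.Rule2All
import Pool.Agent.Lib.MP_38cb75_co.Tail
import Pool.Agent.Lib.MP_38cb75_co.Count
import Pool.Agent.Lib.MP_38cb75_co.OneGood

/-! The main induction (proved from the other files). -/

set_option autoImplicit false

namespace Pool.MP_38cb75_co.GT

variable {α : Type*} [DecidableEq α]

theorem Err_nonneg {n₀ J : ℕ} (hn : 0 < n₀) : 0 ≤ Err n₀ J := by
  unfold Err
  have h1 : (1 : ℝ) ≤ n₀ := by exact_mod_cast hn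
  have h2 : 0 ≤ Real.logb 2 (12 * ((n₀ : ℝ) + 1)) :=
    Real.logb_nonneg (by norm_num) (by nlinarith)
  have h3 : 0 ≤ Real.logb 2 (n₀ : ℝ) := Real.logb_nonneg (by norm_num) h1
  positivity

theorem exists_small {p : ℝ} {V : Finset α} {K : Finset (Finset α)} {b : ℕ}
    (hZ : 0 < Z p V K) (h : up p V K b ≤ (2 / 3) * Z p V K) :
    ∃ D ⊆ V, Hits K D ∧ D.card ≤ b := by
  by_contra hcon
  push Not at hcon
  have : up p V K b = Z p V K := by
    unfold up Z wsum
    apply Finset.sum_congr rfl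
    intro D hD
    rw [Finset.mem_filter, Finset.mem_powerset] at hD
    have := hcon D hD.1 hD.2
    simp [this]
  rw [this] at h
  linarith

theorem consts_ok {c : ℝ} (hc : 17 / 6 ≤ c) (hc3 : c ≤ 3) :
    Consts p₀ ((c - 2) / (c - 1)) β₀ where
  p0 := by have := p₀_lower; linarith
  p1 := by have := p₀_upper; linarith
  a0 := div_nonneg (by linarith) (by linarith)
  a1 := by
    rw [div_le_div_iff₀ (by linarith) (by norm_num)]
    linarith
  β0 := by have := β₀_lower; linarith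
  β1 := β₀_upper

theorem r₀_le : r₀ ≤ 3 := by
  unfold r₀
  have := β₀_upper
  linarith

theorem exclusive {c : ℝ} (hc : 17 / 6 ≤ c) {V : Finset α} {K : Finset (Finset α)} {b : ℕ}
    (hl : (leaves K).card ≤ K.card) :
    L2 ((c - 2) / (c - 1)) V K b + (3 / (2 * (c - 1)) * (β₀ - 1) - 1) * b - 1 ≤
      (1 - 3 / (2 * (c - 1))) * ((V.card : ℝ) - 1) + 3 / (2 * (c - 1)) * Phi β₀ V K b := by
  have hc1 : 0 < c - 1 := by linarith
  set θ : ℝ := 3 / (2 * (c - 1)) with hθ
  have hθ0 : 0 < θ := by positivity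
  have ha : (c - 2) / (c - 1) = 1 - (2 / 3) * θ := by
    rw [hθ]; field_simp; ring
  have hθ1 : θ ≤ 9 / 11 := by
    rw [hθ, div_le_div_iff₀ (by positivity) (by norm_num)]
    linarith
  have hl' : ((leaves K).card : ℝ) ≤ K.card := by exact_mod_cast hl
  have hk : (0 : ℝ) ≤ K.card := by positivity
  rw [ha]
  unfold L2 Phi
  have h1 : θ * ((leaves K).card : ℝ) ≤ θ * K.card := mul_le_mul_of_nonneg_left hl' hθ0.le
  have h2 : θ * (K.card : ℝ) ≤ 9 / 11 * K.card := mul_le_mul_of_nonneg_right hθ1 hk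
  nlinarith

theorem main_game {c : ℝ} (hc : 17 / 6 ≤ c) (hc' : c < r₀) {n₀ J : ℕ} (hn : 0 < n₀)
    (hJ : 900 * n₀ ≤ J ^ 2) (hJ40 : 40 ≤ J)
    (hJδ : 10 ≤ (3 / (2 * (c - 1)) * (β₀ - 1) - 1) * J) :
    ∀ (t : ℕ) (V : Finset α) (K : Finset (Finset α)) (b : ℕ), Good V K → V.card ≤ n₀ →
      b + 1 ≤ V.card → up p₀ V K b ≤ (2 / 3) * Z p₀ V K → Solves t (fam V K b) →
      min ((V.card : ℝ) - 1) (min (L2 ((c - 2) / (c - 1)) V K b) (Phi β₀ V K b)) ≤
        t + Err n₀ J := by
  have hcons : Consts p₀ ((c - 2) / (c - 1)) β₀ := consts_ok hc (by have := r₀_le; linarith)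
  have hErr := Err_nonneg (J := J) hn
  intro t
  induction t using Nat.strong_induction_on with
  | _ t ih =>
  intro V K b hG hV hg hinv hS
  have hZ : 0 < Z p₀ V K := Good.Z_pos hcons.p0 hcons.p1 hG
  by_cases h1 : b + 1 = V.card
  · have h2 := one_good (fun e he => ⟨hG.sub e he, by rcases hG.card e he with h | h <;> omega⟩)
      h1 hS
    have h3 : (V.card : ℝ) ≤ t + 1 := by exact_mod_cast h2
    refine (min_le_left _ _).trans ?_
    linarith
  by_cases hcount : ∃ j : ℕ, j ≤ b ∧ b ≤ j + J ∧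
      Z p₀ V K ≤ 12 * ((n₀ : ℝ) + 1) * lev p₀ V K j
  · obtain ⟨j, hj, hjJ, hlev⟩ := hcount
    exact (min_le_right _ _).trans ((min_le_right _ _).trans
      (count hn hG hV (by omega) hj hjJ hlev hS))
  push Not at hcount
  obtain ⟨hup, D, hDV, hDK, hDb⟩ := tail p₀_lower p₀_upper hn hJ hG hV hinv hcount
  -- there is at least one test left
  obtain ⟨t', rfl⟩ : ∃ t', t = t' + 1 := by
    rcases t with _ | t'
    · exact absurd hS (fam_not_subsingleton hDV hDK (by omega) (by omega))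
    · exact ⟨t', rfl⟩
  -- the result of a move
  have key : ∀ (V' : Finset α) (K' : Finset (Finset α)) (b' k : ℕ),
      Next p₀ (t' + 1) V K b V' K' b' k →
      min ((V'.card : ℝ) - 1) (min (L2 ((c - 2) / (c - 1)) V' K' b') (Phi β₀ V' K' b')) + k ≤
        (t' + 1 : ℕ) + Err n₀ J := by
    intro V' K' b' k hN
    obtain ⟨hk, hG', hV', -, hg', ⟨hm1, hm2⟩, hor⟩ := hN
    have hZ' : 0 < Z p₀ V' K' := Good.Z_pos hcons.p0 hcons.p1 hG'
    have hp := hcons.p0
    have hq : 0 < 1 - p₀ := by have := hcons.p1; linarith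
    have hinv' : up p₀ V' K' b' ≤ (2 / 3) * Z p₀ V' K' := by
      have h2 : p₀ ^ 2 * (1 - p₀) ^ 2 * up p₀ V' K' b' ≤
          p₀ ^ 2 * (1 - p₀) ^ 2 * ((2 / 3) * Z p₀ V' K') := by
        calc p₀ ^ 2 * (1 - p₀) ^ 2 * up p₀ V' K' b' ≤ up p₀ V K b := hm1
          _ ≤ (2 / 3) * (p₀ ^ 4 * (1 - p₀) ^ 2) * Z p₀ V K := hup
          _ = p₀ ^ 2 * (1 - p₀) ^ 2 * ((2 / 3) * (p₀ ^ 2 * Z p₀ V K)) := by ring
          _ ≤ p₀ ^ 2 * (1 - p₀) ^ 2 * ((2 / 3) * Z p₀ V' K') := by
            apply mul_le_mul_of_nonneg_left _ (by positivity)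
            linarith
      exact le_of_mul_le_mul_left h2 (by positivity)
    rcases hor with hemp | ⟨s, hs, hsolve⟩
    · exfalso
      obtain ⟨D', hD', hDK', hDb'⟩ := exists_small hZ' hinv'
      have := fam_nonempty hD' hDK' hDb' (show b' ≤ V'.card by omega)
      rw [hemp] at this
      exact Set.not_nonempty_empty this
    · have h2 := ih s (by omega) V' K' b' hG' ((Finset.card_le_card hV').trans hV) hg' hinv' hsolve
      have h3 : ((t' + 1 : ℕ) : ℝ) = (s : ℝ) + k := by
        rw [← hs]; push_cast; ring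
      rw [h3]
      linarith
  set a : ℝ := (c - 2) / (c - 1) with ha
  set m : ℝ := min ((V.card : ℝ) - 1) (min (L2 a V K b) (Phi β₀ V K b)) with hm
  have hmL1 : m ≤ (V.card : ℝ) - 1 := min_le_left _ _
  have hmL2 : m ≤ L2 a V K b := (min_le_right _ _).trans (min_le_left _ _)
  have hmP : m ≤ Phi β₀ V K b := (min_le_right _ _).trans (min_le_right _ _)
  by_cases hpair : ∃ e ∈ K, e.card = 2 ∧ ∀ v ∈ e, deg K v ≠ 2
  · obtain ⟨e, he, he2, hd⟩ := hpair
    obtain ⟨V', K', b', k, hN, hV1, hL2, hPhi⟩ :=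
      pair_step hcons hG (show 1 ≤ b by omega) hg he he2 hd hS
    refine le_trans ?_ (key V' K' b' k hN)
    have h2 : (V.card : ℝ) ≤ V'.card + k := by exact_mod_cast hV1
    rw [← sub_le_iff_le_add]
    refine le_min (by linarith) (le_min (by linarith) (by linarith))
  have hNP : NoPair K := by
    intro e he he2
    by_contra hcon
    push Not at hcon
    exact hpair ⟨e, he, he2, hcon⟩
  have hbJ : J < b := by omega
  by_cases hreg : Phi β₀ V K b ≤ m + 3
  · -- regime `L₂, Φ`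
    have hl := leaves_le hG hNP
    have hex := exclusive hc (V := V) (b := b) hl
    rw [← ha] at hex
    have hc1 : 0 < c - 1 := by linarith
    set θ : ℝ := 3 / (2 * (c - 1)) with hθ
    have hθ0 : 0 < θ := by positivity
    have hθ1 : θ ≤ 9 / 11 := by
      rw [hθ, div_le_div_iff₀ (by positivity) (by norm_num)]
      linarith
    have hbJ' : (J : ℝ) < b := by exact_mod_cast hbJ
    have hJ0 : (0 : ℝ) < J := by
      have : 0 < J := by omega
      exact_mod_cast this
    have hδ0 : 0 < θ * (β₀ - 1) - 1 := by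
      by_contra hcon
      push Not at hcon
      nlinarith
    have hδb : 10 ≤ (θ * (β₀ - 1) - 1) * b := by nlinarith
    have hL1 : m + 3 < (V.card : ℝ) - 1 := by
      by_contra hcon
      push Not at hcon
      have h3 : (1 - θ) * ((V.card : ℝ) - 1) ≤ (1 - θ) * (m + 3) :=
        mul_le_mul_of_nonneg_left hcon (by linarith)
      have h4 : θ * Phi β₀ V K b ≤ θ * (m + 3) := mul_le_mul_of_nonneg_left hreg hθ0.le
      nlinarith
    have hg3 : b + 3 ≤ V.card := by
      by_contra hcon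
      have h5 : V.card ≤ b + 2 := by omega
      have h6 := handshake hG
      have h7 : 2 * (K.card : ℝ) + (leaves K).card ≤ 2 * V.card := by exact_mod_cast h6
      have h8 : (V.card : ℝ) ≤ b + 2 := by exact_mod_cast h5
      have h9 : (b : ℝ) + 1 ≤ V.card := by exact_mod_cast hg
      have h10 : (40 : ℝ) ≤ J := by exact_mod_cast hJ40
      have h11 : (0 : ℝ) ≤ (leaves K).card := by positivity
      have h12 := β₀_lower
      have h13 : Phi β₀ V K b ≤ (V.card : ℝ) - 1 + 3 := by linarith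
      unfold Phi at h13
      nlinarith
    obtain ⟨V', K', b', k, hN, hL2, hPhi⟩ := rule2 hcons hG hNP (by omega) hg3 hS
    refine le_trans ?_ (key V' K' b' k hN)
    obtain ⟨hk, -, -, hV3, -⟩ := hN
    have h2 : (V.card : ℝ) ≤ V'.card + 3 := by exact_mod_cast hV3
    have h3 : (1 : ℝ) ≤ k := by exact_mod_cast hk
    rw [← sub_le_iff_le_add]
    refine le_min (by linarith) (le_min (by linarith) (by linarith))
  · -- regime `L₁, L₂`
    push Not at hreg
    obtain ⟨V', K', b', k, hN, hV1, hL2, hPhi⟩ := rule1 hcons hG (by omega) (by omega) hS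
    refine le_trans ?_ (key V' K' b' k hN)
    have h2 : (V.card : ℝ) ≤ V'.card + k := by exact_mod_cast hV1
    have h3 : (1 : ℝ) ≤ k := by exact_mod_cast hN.1
    rw [← sub_le_iff_le_add]
    refine le_min (by linarith) (le_min (by linarith) (by linarith))

end Pool.MP_38cb75_co.GT
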