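import Pool.Agent.Lib.MP_38cb75_co.SumBasic

/-! JOB MOVEB: second estimate of `MoveOK`. -/

set_option autoImplicit false

namespace Pool.MP_38cb75_co.GT

variable {α : Type*} [DecidableEq α]

private noncomputable def moveb_S (p : ℝ) (V : Finset α) (f : Finset α → ℝ) : ℝ :=
  ∑ D ∈ V.powerset, p ^ D.card * (1 - p) ^ (V.card - D.card) * f D

private lemma moveb_S_insert (p : ℝ) {V : Finset α} {a : α} (ha : a ∉ V) (f : Finset α → ℝ) :
    moveb_S p (insert a V) f =
      (1 - p) * moveb_S p V f + p * moveb_S p V (fun D => f (insert a D)) := by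
  unfold moveb_S
  rw [Finset.sum_powerset_insert ha, Finset.mul_sum, Finset.mul_sum]
  congr 1
  · refine Finset.sum_congr rfl fun D hD => ?_
    have hDV := Finset.card_le_card (Finset.mem_powerset.1 hD)
    rw [Finset.card_insert_of_notMem ha, show V.card + 1 - D.card = (V.card - D.card) + 1 by omega,
      pow_succ]
    ring
  · refine Finset.sum_congr rfl fun D hD => ?_
    have haD : a ∉ D := fun h => ha (Finset.mem_powerset.1 hD h)
    rw [Finset.card_insert_of_notMem ha, Finset.card_insert_of_notMem haD,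
      show V.card + 1 - (D.card + 1) = V.card - D.card by omega, pow_succ]
    ring

omit [DecidableEq α] in
private lemma moveb_S_nonneg {p : ℝ} (hp0 : 0 ≤ p) (hp1 : p ≤ 1) (V : Finset α)
    {f : Finset α → ℝ} (hf : ∀ D, 0 ≤ f D) : 0 ≤ moveb_S p V f :=
  Finset.sum_nonneg fun D _ =>
    mul_nonneg (mul_nonneg (pow_nonneg hp0 _) (pow_nonneg (by linarith) _)) (hf D)

omit [DecidableEq α] in
private lemma moveb_S_mono {p : ℝ} (hp0 : 0 ≤ p) (hp1 : p ≤ 1) (V : Finset α)
    {f g : Finset α → ℝ} (hf : ∀ D ⊆ V, f D ≤ g D) : moveb_S p V f ≤ moveb_S p V g :=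
  Finset.sum_le_sum fun D hD =>
    mul_le_mul_of_nonneg_left (hf D (Finset.mem_powerset.1 hD))
      (mul_nonneg (pow_nonneg hp0 _) (pow_nonneg (by linarith) _))

omit [DecidableEq α] in
private lemma moveb_S_filter (p : ℝ) (V : Finset α) (P : Finset α → Prop) [DecidablePred P] :
    (∑ D ∈ V.powerset with P D, p ^ D.card * (1 - p) ^ (V.card - D.card)) =
      moveb_S p V (fun D => if P D then 1 else 0) := by
  unfold moveb_S
  rw [Finset.sum_filter]
  refine Finset.sum_congr rfl fun D _ => ?_
  dsimp only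
  split_ifs
  · rw [mul_one]
  · rw [mul_zero]

private lemma moveb_marginal (p : ℝ) {V' : Finset α} (f : Finset α → ℝ) (W : Finset α)
    (hW : Disjoint W V') : moveb_S p (W ∪ V') (fun D => f (D ∩ V')) = moveb_S p V' f := by
  induction W using Finset.induction_on with
  | empty =>
      rw [Finset.empty_union]
      unfold moveb_S
      refine Finset.sum_congr rfl fun D hD => ?_
      dsimp only
      rw [Finset.inter_eq_left.2 (Finset.mem_powerset.1 hD)]
  | insert a W ha ih =>
      rw [Finset.disjoint_insert_left] at hW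
      have haW : a ∉ W ∪ V' := by
        rw [Finset.mem_union, not_or]
        exact ⟨ha, hW.1⟩
      rw [Finset.insert_union, moveb_S_insert p haW]
      simp only [Finset.insert_inter_of_notMem hW.1]
      rw [ih hW.2]
      ring

private lemma moveb_force {p : ℝ} (hp0 : 0 ≤ p) (hp1 : p ≤ 1) {V : Finset α} (A : Finset α)
    (hA : A ⊆ V) (f : Finset α → ℝ) (hf : ∀ D, 0 ≤ f D) :
    p ^ A.card * moveb_S p V (fun D => f (D ∪ A)) ≤ moveb_S p V f := by
  induction A using Finset.induction_on generalizing f with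
  | empty =>
      rw [Finset.card_empty, pow_zero, one_mul]
      simp only [Finset.union_empty]
      exact le_refl _
  | insert a A ha ih =>
      have haV : a ∈ V := hA (Finset.mem_insert_self a A)
      have hAV : A ⊆ V := fun x hx => hA (Finset.mem_insert_of_mem hx)
      have h1 := ih hAV (fun D => f (insert a D)) (fun D => hf _)
      have e1 : (fun D => f (D ∪ insert a A)) = fun D => f (insert a (D ∪ A)) := by
        funext D
        rw [Finset.union_insert]
      have h2 : V = insert a (V.erase a) := (Finset.insert_erase haV).symm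
      have h3 : a ∉ V.erase a := Finset.notMem_erase a V
      have h4 : moveb_S p V (fun D => f (insert a D)) =
          moveb_S p (V.erase a) (fun D => f (insert a D)) := by
        conv_lhs => rw [h2]
        rw [moveb_S_insert p h3]
        simp only [Finset.insert_idem]
        ring
      have h5 : moveb_S p V f = (1 - p) * moveb_S p (V.erase a) f +
          p * moveb_S p (V.erase a) (fun D => f (insert a D)) := by
        conv_lhs => rw [h2]
        rw [moveb_S_insert p h3]
      rw [e1, Finset.card_insert_of_notMem ha, pow_succ', mul_assoc]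
      calc p * (p ^ A.card * moveb_S p V (fun D => f (insert a (D ∪ A))))
          ≤ p * moveb_S p V (fun D => f (insert a D)) := mul_le_mul_of_nonneg_left h1 hp0
        _ = p * moveb_S p (V.erase a) (fun D => f (insert a D)) := by rw [h4]
        _ ≤ (1 - p) * moveb_S p (V.erase a) f +
              p * moveb_S p (V.erase a) (fun D => f (insert a D)) :=
            le_add_of_nonneg_left
              (mul_nonneg (by linarith) (moveb_S_nonneg hp0 hp1 (V.erase a) hf))
        _ = moveb_S p V f := h5.symm

/-- Forgetting the items outside `V'`: for every predicate `P` on sets,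
`∑_{D ⊆ V} w_V(D) 1[P (D ∩ V')] = ∑_{D ⊆ V'} w_{V'}(D) 1[P D]`.  Induction on `V \ V'`. -/
theorem marginal {p : ℝ} {V V' : Finset α} (h : V' ⊆ V) (P : Finset α → Prop) [DecidablePred P] :
    (∑ D ∈ V.powerset with P (D ∩ V'), p ^ D.card * (1 - p) ^ (V.card - D.card)) =
      ∑ D ∈ V'.powerset with P D, p ^ D.card * (1 - p) ^ (V'.card - D.card) := by
  rw [moveb_S_filter p V (fun D => P (D ∩ V')), moveb_S_filter p V' P,
    ← moveb_marginal p (fun D => if P D then 1 else 0) (V \ V') Finset.sdiff_disjoint,
    Finset.sdiff_union_of_subset h]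

/-- `P` is independent of the items of `A`:
`p^|A| ∑_{D ⊆ V} w(D) 1[P (D ∪ A)] ≤ ∑_{D ⊆ V} w(D) 1[P D]`.
(It is equal to the sum over `D ⊇ A`.)  Induction on `A`, or group the sets `D` by `D \ A`. -/
theorem force {p : ℝ} (hp0 : 0 ≤ p) (hp1 : p ≤ 1) {V A : Finset α} (hA : A ⊆ V)
    (P : Finset α → Prop) [DecidablePred P] :
    p ^ A.card * (∑ D ∈ V.powerset with P (D ∪ A), p ^ D.card * (1 - p) ^ (V.card - D.card)) ≤
      ∑ D ∈ V.powerset with P D, p ^ D.card * (1 - p) ^ (V.card - D.card) := by
  rw [moveb_S_filter p V (fun D => P (D ∪ A)), moveb_S_filter p V P]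
  exact moveb_force hp0 hp1 A hA (fun D => if P D then 1 else 0)
    (fun D => by split_ifs <;> norm_num)

/-- From `marginal` and `force`. -/
theorem Z_move {p : ℝ} (hp0 : 0 < p) (hp1 : p < 1) {V V' A : Finset α}
    {K K' : Finset (Finset α)} (hV' : V' ⊆ V) (hA : A ⊆ V') (hAc : A.card ≤ 2)
    (h2 : ∀ D ⊆ V, Hits K D → Hits K' ((D ∩ V') ∪ A)) :
    p ^ 2 * Z p V K ≤ Z p V' K' := by
  have e1 : ∀ (U : Finset α) (H : Finset (Finset α)), Z p U H =
      moveb_S p U (fun D => if Hits H D then 1 else 0) := by
    intro U H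
    rw [← moveb_S_filter]
    unfold Z wsum
    exact Finset.sum_congr rfl fun D _ => mul_one _
  have h3 : Z p V K ≤ moveb_S p V (fun D => if Hits K' ((D ∩ V') ∪ A) then 1 else 0) := by
    rw [e1]
    refine moveb_S_mono hp0.le hp1.le V fun D hD => ?_
    by_cases hk : Hits K D
    · rw [if_pos hk, if_pos (h2 D hD hk)]
    · rw [if_neg hk]
      split_ifs <;> norm_num
  have h4 : moveb_S p V (fun D => if Hits K' ((D ∩ V') ∪ A) then 1 else 0) =
      moveb_S p V' (fun D => if Hits K' (D ∪ A) then 1 else 0) := by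
    rw [← moveb_marginal p (fun D => if Hits K' (D ∪ A) then (1 : ℝ) else 0) (V \ V')
      Finset.sdiff_disjoint, Finset.sdiff_union_of_subset hV']
  have h5 := moveb_force hp0.le hp1.le A hA (fun D => if Hits K' D then (1 : ℝ) else 0)
    (fun D => by split_ifs <;> norm_num)
  have h6 : p ^ 2 ≤ p ^ A.card := pow_le_pow_of_le_one hp0.le hp1.le hAc
  have h7 : 0 ≤ moveb_S p V' (fun D => if Hits K' (D ∪ A) then (1 : ℝ) else 0) :=
    moveb_S_nonneg hp0.le hp1.le V' (fun D => by split_ifs <;> norm_num)
  rw [h4] at h3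
  calc p ^ 2 * Z p V K
      ≤ p ^ 2 * moveb_S p V' (fun D => if Hits K' (D ∪ A) then (1 : ℝ) else 0) :=
        mul_le_mul_of_nonneg_left h3 (by positivity)
    _ ≤ p ^ A.card * moveb_S p V' (fun D => if Hits K' (D ∪ A) then (1 : ℝ) else 0) :=
        mul_le_mul_of_nonneg_right h6 h7
    _ ≤ moveb_S p V' (fun D => if Hits K' D then (1 : ℝ) else 0) := h5
    _ = Z p V' K' := (e1 V' K').symm

end Pool.MP_38cb75_co.GT
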