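import Pool.Agent.Lib.MP_38cb75_co.MoveA
import Pool.Agent.Lib.MP_38cb75_co.MoveB

set_option autoImplicit false

namespace Pool.MP_38cb75_co.GT

variable {α : Type*} [DecidableEq α]

theorem moveOK_of {p : ℝ} (hp0 : 0 < p) (hp1 : p < 1) {V V' : Finset α}
    {K K' : Finset (Finset α)} {b b' : ℕ} (R G A : Finset α) (hV' : V' = (V \ R) \ G) (hR : R ⊆ V)
    (hG : G ⊆ V) (hRG : Disjoint R G) (hRc : R.card ≤ 2) (hGc : G.card ≤ 2)
    (hb : b = b' + R.card) (h1 : ∀ D ⊆ V', Hits K' D → Hits K (D ∪ R))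
    (hA : A ⊆ V') (hAc : A.card ≤ 2)
    (h2 : ∀ D ⊆ V, Hits K D → Hits K' ((D ∩ V') ∪ A)) : MoveOK p V K b V' K' b' :=
  ⟨up_move hp0 hp1 R G hV' hR hG hRG hRc hGc hb h1,
    Z_move hp0 hp1 (by rw [hV']; exact (Finset.sdiff_subset).trans Finset.sdiff_subset) hA hAc h2⟩

end Pool.MP_38cb75_co.GT
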