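import Pool.Agent.Lib.MP_38cb75_co.SumBasic

/-! JOB MOVEA: first estimate of `MoveOK`. -/

set_option autoImplicit false

namespace Pool.MP_38cb75_co.GT

variable {α : Type*} [DecidableEq α]

/-- `D' ↦ D' ∪ R` is an injection from the sets hitting `K'` with more than `b'` elements to the sets
hitting `K` with more than `b = b' + |R|` elements; the weight is multiplied by
`p^|R| (1-p)^|G| ≥ p^2 (1-p)^2`. -/
theorem up_move {p : ℝ} (hp0 : 0 < p) (hp1 : p < 1) {V V' : Finset α}
    {K K' : Finset (Finset α)} {b b' : ℕ} (R G : Finset α) (hV' : V' = (V \ R) \ G) (hR : R ⊆ V)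
    (hG : G ⊆ V) (hRG : Disjoint R G) (hRc : R.card ≤ 2) (hGc : G.card ≤ 2)
    (hb : b = b' + R.card) (h1 : ∀ D ⊆ V', Hits K' D → Hits K (D ∪ R)) :
    p ^ 2 * (1 - p) ^ 2 * up p V' K' b' ≤ up p V K b := by
  have hq0 : 0 < 1 - p := by linarith
  have hdis : ∀ D ⊆ V', Disjoint D R := by
    intro D hD
    rw [Finset.disjoint_left]
    intro x hx hxR
    have h2 := hD hx
    rw [hV', Finset.mem_sdiff, Finset.mem_sdiff] at h2
    exact h2.1.2 hxR
  have hcard : V.card = V'.card + R.card + G.card := by
    have h2 : G ⊆ V \ R := by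
      intro x hx
      rw [Finset.mem_sdiff]
      exact ⟨hG hx, fun hxR => Finset.disjoint_left.1 hRG hxR hx⟩
    have h3 := Finset.card_sdiff_add_card_eq_card h2
    have h4 := Finset.card_sdiff_add_card_eq_card hR
    rw [← hV'] at h3
    omega
  have hsub : ∀ D ⊆ V', D ∪ R ⊆ V := by
    intro D hD
    apply Finset.union_subset _ hR
    intro x hx
    have h2 := hD hx
    rw [hV', Finset.mem_sdiff, Finset.mem_sdiff] at h2
    exact h2.1.1
  have hcoef : p ^ 2 * (1 - p) ^ 2 ≤ p ^ R.card * (1 - p) ^ G.card := by
    apply mul_le_mul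
    · exact pow_le_pow_of_le_one hp0.le hp1.le hRc
    · exact pow_le_pow_of_le_one hq0.le (by linarith) hGc
    · positivity
    · positivity
  unfold up wsum
  rw [Finset.mul_sum]
  calc ∑ D ∈ V'.powerset with Hits K' D, p ^ 2 * (1 - p) ^ 2 *
        (p ^ D.card * (1 - p) ^ (V'.card - D.card) * (if b' < D.card then 1 else 0))
      ≤ ∑ D ∈ V'.powerset with Hits K' D, p ^ (D ∪ R).card * (1 - p) ^ (V.card - (D ∪ R).card) *
        (if b < (D ∪ R).card then 1 else 0) := by
        apply Finset.sum_le_sum
        intro D hD
        rw [Finset.mem_filter, Finset.mem_powerset] at hD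
        have hDV := hD.1
        have hDc : D.card ≤ V'.card := Finset.card_le_card hDV
        have hU : (D ∪ R).card = D.card + R.card :=
          Finset.card_union_of_disjoint (hdis D hDV)
        rw [hU, hb, hcard]
        have e1 : V'.card + R.card + G.card - (D.card + R.card) = (V'.card - D.card) + G.card := by
          omega
        rw [e1, pow_add, pow_add]
        by_cases hb' : b' < D.card
        · rw [if_pos hb', if_pos (by omega)]
          have h5 : 0 ≤ p ^ D.card * (1 - p) ^ (V'.card - D.card) := by positivity
          calc p ^ 2 * (1 - p) ^ 2 * (p ^ D.card * (1 - p) ^ (V'.card - D.card) * 1)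
              = (p ^ 2 * (1 - p) ^ 2) * (p ^ D.card * (1 - p) ^ (V'.card - D.card)) := by ring
            _ ≤ (p ^ R.card * (1 - p) ^ G.card) *
                (p ^ D.card * (1 - p) ^ (V'.card - D.card)) :=
              mul_le_mul_of_nonneg_right hcoef h5
            _ = _ := by ring
        · rw [if_neg hb', if_neg (by omega)]
          simp
    _ = ∑ E ∈ (V'.powerset.filter (Hits K')).image (fun D => D ∪ R),
        p ^ E.card * (1 - p) ^ (V.card - E.card) * (if b < E.card then 1 else 0) := by
        rw [Finset.sum_image]
        intro D hD D' hD' hEq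
        rw [Finset.mem_coe, Finset.mem_filter, Finset.mem_powerset] at hD hD'
        have h6 := hdis D hD.1
        have h7 := hdis D' hD'.1
        have h8 : (D ∪ R) \ R = (D' ∪ R) \ R := by
          simp only at hEq
          rw [hEq]
        rwa [Finset.union_sdiff_cancel_right h6, Finset.union_sdiff_cancel_right h7] at h8
    _ ≤ ∑ D ∈ V.powerset with Hits K D, p ^ D.card * (1 - p) ^ (V.card - D.card) *
        (if b < D.card then 1 else 0) := by
        apply Finset.sum_le_sum_of_subset_of_nonneg
        · intro E hE
          rw [Finset.mem_image] at hE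
          obtain ⟨D, hD, rfl⟩ := hE
          rw [Finset.mem_filter, Finset.mem_powerset] at hD
          rw [Finset.mem_filter, Finset.mem_powerset]
          exact ⟨hsub D hD.1, h1 D hD.1 hD.2⟩
        · intro D _ _
          split_ifs
          · positivity
          · simp

end Pool.MP_38cb75_co.GT
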