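import Pool.Agent.Lib.MP_38cb75_co.Defs

/-! JOB NUM: numerical facts on `p₀ = 1 - 2^(-1/3) = 0.20629947...` and
`β₀ = -log₂ p₀ = 2.27718795...`. -/

set_option autoImplicit false

namespace Pool.MP_38cb75_co.GT

theorem one_sub_p₀_cube : (1 - p₀) ^ 3 = 1 / 2 := by
  unfold p₀
  have h : (1 - (1 - (2 : ℝ) ^ (-(1 : ℝ) / 3))) = (2 : ℝ) ^ (-(1 : ℝ) / 3) := by ring
  rw [h, ← Real.rpow_natCast, ← Real.rpow_mul (by norm_num)]
  have h2 : (-(1 : ℝ) / 3 * ((3 : ℕ) : ℝ)) = -1 := by norm_num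
  rw [h2, Real.rpow_neg_one]
  norm_num

private theorem one_sub_pos : 0 < 1 - p₀ := by
  unfold p₀
  have h : (1 - (1 - (2 : ℝ) ^ (-(1 : ℝ) / 3))) = (2 : ℝ) ^ (-(1 : ℝ) / 3) := by ring
  rw [h]
  positivity

private theorem x_upper : 1 - p₀ ≤ (7938 : ℝ) / 10000 := by
  by_contra h
  push Not at h
  have h3 := one_sub_p₀_cube
  have : ((7938 : ℝ) / 10000) ^ 3 < (1 - p₀) ^ 3 := pow_lt_pow_left₀ h (by norm_num) (by norm_num)
  rw [h3] at this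
  norm_num at this

private theorem x_lower : (7937 : ℝ) / 10000 ≤ 1 - p₀ := by
  by_contra h
  push Not at h
  have h3 := one_sub_p₀_cube
  have : (1 - p₀) ^ 3 < ((7937 : ℝ) / 10000) ^ 3 :=
    pow_lt_pow_left₀ h one_sub_pos.le (by norm_num)
  rw [h3] at this
  norm_num at this

theorem p₀_lower : (1 : ℝ) / 5 ≤ p₀ := by
  have := x_upper
  linarith

theorem p₀_upper : p₀ ≤ (1 : ℝ) / 4 := by
  have := x_lower
  linarith

/-- `p₀ < 0.2063`. -/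
theorem p₀_upper' : p₀ ≤ (2063 : ℝ) / 10000 := by
  have := x_lower
  linarith

private theorem p₀_pos : 0 < p₀ := by
  have := p₀_lower
  linarith

/-- `2^(-β₀) = p₀`. -/
theorem two_rpow_neg_β₀ : (2 : ℝ) ^ (-β₀) = p₀ := by
  unfold β₀
  rw [neg_neg, Real.rpow_logb (by norm_num) (by norm_num) p₀_pos]

/-- `2^(-1/3) = 1 - p₀`. -/
theorem two_rpow_third : (2 : ℝ) ^ (-(1 : ℝ) / 3) = 1 - p₀ := by
  unfold p₀
  ring

private theorem β₀_lower_aux (m k : ℕ) (hk : 0 < k)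
    (h : (2 : ℝ) ^ m * ((2063 : ℝ) / 10000) ^ k < 1) : (m : ℝ) / k < β₀ := by
  by_contra hc
  push Not at hc
  have hk' : (0 : ℝ) < k := by exact_mod_cast hk
  have h1 : (k : ℝ) * β₀ ≤ m := by
    rw [le_div_iff₀ hk'] at hc
    linarith
  have h2 : p₀ ^ k = (2 : ℝ) ^ (-((k : ℝ) * β₀)) := by
    rw [← two_rpow_neg_β₀, ← Real.rpow_natCast, ← Real.rpow_mul (by norm_num)]
    congr 1
    ring
  have h3 : (2 : ℝ) ^ (-(m : ℝ)) ≤ p₀ ^ k := by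
    rw [h2]
    exact Real.rpow_le_rpow_of_exponent_le (by norm_num) (by linarith)
  have h4 : p₀ ^ k ≤ ((2063 : ℝ) / 10000) ^ k := pow_le_pow_left₀ p₀_pos.le p₀_upper' k
  have h5 : (2 : ℝ) ^ m * (2 : ℝ) ^ (-(m : ℝ)) = 1 := by
    rw [Real.rpow_neg (by norm_num), Real.rpow_natCast]
    exact mul_inv_cancel₀ (by positivity)
  have h6 : (2 : ℝ) ^ m * (2 : ℝ) ^ (-(m : ℝ)) ≤ (2 : ℝ) ^ m * ((2063 : ℝ) / 10000) ^ k :=
    mul_le_mul_of_nonneg_left (h3.trans h4) (by positivity)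
  linarith

theorem β₀_lower : (9 : ℝ) / 4 ≤ β₀ := by
  have := β₀_lower_aux 9 4 (by norm_num) (by norm_num)
  norm_num at this
  linarith

theorem β₀_upper : β₀ ≤ (23 : ℝ) / 10 := by
  by_contra hc
  push Not at hc
  have h2 : p₀ ^ 10 = (2 : ℝ) ^ (-(10 * β₀)) := by
    rw [← two_rpow_neg_β₀, ← Real.rpow_natCast, ← Real.rpow_mul (by norm_num)]
    congr 1
    push_cast
    ring
  have h3 : p₀ ^ 10 ≤ (2 : ℝ) ^ (-((23 : ℕ) : ℝ)) := by
    rw [h2]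
    exact Real.rpow_le_rpow_of_exponent_le (by norm_num) (by push_cast; linarith)
  have h4 : ((2062 : ℝ) / 10000) ^ 10 ≤ p₀ ^ 10 :=
    pow_le_pow_left₀ (by norm_num) (by have := x_upper; linarith) 10
  rw [Real.rpow_neg (by norm_num), Real.rpow_natCast] at h3
  have h5 := h4.trans h3
  norm_num at h5

/-- The new ratio is larger than `2.915` (known: `2.709`). -/
theorem r₀_lower : (2915 : ℝ) / 1000 < r₀ := by
  have h : ((148 : ℕ) : ℝ) / ((65 : ℕ) : ℝ) < β₀ := by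
    refine β₀_lower_aux 148 65 (by norm_num) ?_
    rw [div_pow, ← mul_div_assoc, div_lt_one (by positivity)]
    norm_num
  unfold r₀
  push_cast at h
  linarith

private theorem omega_nonneg : (0 : ℝ) ≤ (2 : ℝ) ^ ((2 : ℝ) / 9) := by positivity

private theorem omega_pow : ((2 : ℝ) ^ ((2 : ℝ) / 9)) ^ 9 = 4 := by
  rw [← Real.rpow_natCast, ← Real.rpow_mul (by norm_num)]
  have h2 : ((2 : ℝ) / 9 * ((9 : ℕ) : ℝ)) = ((2 : ℕ) : ℝ) := by norm_num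
  rw [h2, Real.rpow_natCast]
  norm_num

private theorem omega_sq_pow : (((2 : ℝ) ^ ((2 : ℝ) / 9)) ^ 2) ^ 9 = 16 := by
  rw [← pow_mul, mul_comm 2 9, pow_mul, omega_pow]
  norm_num

private theorem omega_sq_lower : (136 : ℝ) / 100 ≤ ((2 : ℝ) ^ ((2 : ℝ) / 9)) ^ 2 := by
  by_contra h
  push Not at h
  have := pow_lt_pow_left₀ h (by positivity) (n := 9) (by norm_num)
  rw [omega_sq_pow] at this
  norm_num at this

private theorem omega_sq_upper : ((2 : ℝ) ^ ((2 : ℝ) / 9)) ^ 2 ≤ (1362 : ℝ) / 1000 := by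
  by_contra h
  push Not at h
  have := pow_lt_pow_left₀ h (by positivity) (n := 9) (by norm_num)
  rw [omega_sq_pow] at this
  norm_num at this

private theorem omega_upper : (2 : ℝ) ^ ((2 : ℝ) / 9) ≤ (12 : ℝ) / 10 := by
  by_contra h
  push Not at h
  have := pow_lt_pow_left₀ h (by positivity) (n := 9) (by norm_num)
  rw [omega_pow] at this
  norm_num at this

/-- pair: `2 ω² (1 - (1-p₀)²) ≥ 1`, `ω = 2^(2/9)`. -/
theorem num_pair : 1 ≤ 2 * ((2 : ℝ) ^ ((2 : ℝ) / 9)) ^ 2 * (1 - (1 - p₀) ^ 2) := by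
  have h1 := omega_sq_lower
  have h2 : (1 - p₀) ^ 2 ≤ ((7938 : ℝ) / 10000) ^ 2 := pow_le_pow_left₀ one_sub_pos.le x_upper 2
  have h3 : (369 : ℝ) / 1000 ≤ 1 - (1 - p₀) ^ 2 := by
    norm_num at h2
    linarith
  calc (1 : ℝ) ≤ 2 * ((136 : ℝ) / 100) * (369 / 1000) := by norm_num
    _ ≤ _ := by
      apply mul_le_mul _ h3 (by norm_num) (by positivity)
      linarith

/-- leaf -/
theorem num_leaf : 1 ≤ 2 * p₀ + 4 * (1 - p₀) * p₀ := by
  have h1 := x_lower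
  have h2 := x_upper
  have h3 := p₀_lower
  nlinarith

/-- isolated 3-edge (an equality) -/
theorem num_T : 1 ≤ 2 * (1 - (1 - p₀) ^ 2) + 2 * (1 - p₀) ^ 2 * p₀ := by
  have h := one_sub_p₀_cube
  nlinarith

/-- attached 3-edge: `ω ≤ 2(1 - (1-p₀)²) + 4 (1-p₀)² p₀ = 2 (1-p₀)²` -/
theorem num_T_att : (2 : ℝ) ^ ((2 : ℝ) / 9) ≤
    2 * (1 - (1 - p₀) ^ 2) + 4 * (1 - p₀) ^ 2 * p₀ := by
  have h := one_sub_p₀_cube
  have h1 : 2 * (1 - (1 - p₀) ^ 2) + 4 * (1 - p₀) ^ 2 * p₀ = 2 * (1 - p₀) ^ 2 := by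
    have : 4 * (1 - p₀) ^ 2 * p₀ = 4 * (1 - p₀) ^ 2 - 4 * (1 - p₀) ^ 3 := by ring
    rw [this, h]
    ring
  rw [h1]
  have h2 : ((7937 : ℝ) / 10000) ^ 2 ≤ (1 - p₀) ^ 2 := pow_le_pow_left₀ (by norm_num) x_lower 2
  have h3 := omega_upper
  norm_num at h2
  linarith

/-- cycle: `ω² ≤ 4 p₀ + 16 (1-p₀) p₀²` (1.3608 ≤ 1.3656) -/
theorem num_cycle : ((2 : ℝ) ^ ((2 : ℝ) / 9)) ^ 2 ≤ 4 * p₀ + 16 * (1 - p₀) * p₀ ^ 2 := by
  have h1 := omega_sq_upper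
  have h2 := x_lower
  have h3 := x_upper
  have h4 : ((2062 : ℝ) / 10000) ^ 2 ≤ p₀ ^ 2 := pow_le_pow_left₀ (by norm_num) (by linarith) 2
  have h5 : ((7937 : ℝ) / 10000) * ((2062 : ℝ) / 10000) ^ 2 ≤ (1 - p₀) * p₀ ^ 2 :=
    mul_le_mul h2 h4 (by positivity) one_sub_pos.le
  norm_num at h5
  linarith

end Pool.MP_38cb75_co.GT
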