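import Pool.Agent.Lib.MP_38cb75_co.SumA
import Pool.Agent.Lib.MP_38cb75_co.DegA

/-! JOB PEELA: peeling identities for weighted sums. -/

set_option autoImplicit false

namespace Pool.MP_38cb75_co.GT

variable {α : Type*} [DecidableEq α]

/-- `a` has degree one and lies in the 2-edge `{a, c}`: either `a ∈ D`, or `a ∉ D` and `c ∈ D`. -/
theorem peel_leaf {p : ℝ} {V : Finset α} {K : Finset (Finset α)} {φ : ℕ → ℝ} (hG : Good V K)
    {a c : α} (hac : a ≠ c) (he : {a, c} ∈ K) (hda : deg K a = 1) :
    wsum p V K φ =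
      p * wsum p (V.erase a) (K.erase {a, c}) (fun j => φ (j + 1)) +
      (1 - p) * p * wsum p ((V.erase a).erase c) (del K c) (fun j => φ (j + 1)) := by
  have haV : a ∈ V := hG.sub _ he (by simp)
  have hcV : c ∈ V.erase a := Finset.mem_erase.2 ⟨hac.symm, hG.sub _ he (by simp)⟩
  have h0 : wsum p ((V.erase a).erase c) K φ = 0 := by
    refine wsum_eq_zero he ?_
    rw [Finset.disjoint_left]
    intro x hx hx'
    rw [Finset.mem_erase, Finset.mem_erase] at hx'
    rw [Finset.mem_insert, Finset.mem_singleton] at hx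
    rcases hx with rfl | rfl
    · exact hx'.2.1 rfl
    · exact hx'.1 rfl
  rw [wsum_split haV, wsum_split (V := V.erase a) (K := K) hcV, h0,
    del_of_deg_one hda he (by simp)]
  ring

/-- `a` has degree two and lies in the 2-edges `{a, c}`, `{a, d}`: either `a ∈ D`, or `a ∉ D` and
`c, d ∈ D`. -/
theorem peel_cycle {p : ℝ} {V : Finset α} {K : Finset (Finset α)} {φ : ℕ → ℝ} (hG : Good V K)
    {a c d : α} (hac : a ≠ c) (had : a ≠ d) (hcd : c ≠ d) (he : {a, c} ∈ K) (hf : {a, d} ∈ K) :
    wsum p V K φ =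
      p * wsum p (V.erase a) (del K a) (fun j => φ (j + 1)) +
      (1 - p) * p ^ 2 * wsum p (((V.erase a).erase c).erase d) (del (del K c) d)
        (fun j => φ (j + 2)) := by
  have haV : a ∈ V := hG.sub _ he (by simp)
  have hcV : c ∈ V.erase a := Finset.mem_erase.2 ⟨hac.symm, hG.sub _ he (by simp)⟩
  have hdV : d ∈ (V.erase a).erase c :=
    Finset.mem_erase.2 ⟨hcd.symm, Finset.mem_erase.2 ⟨had.symm, hG.sub _ hf (by simp)⟩⟩
  have h0 : wsum p ((V.erase a).erase c) K φ = 0 := by
    refine wsum_eq_zero he ?_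
    rw [Finset.disjoint_left]
    intro x hx hx'
    rw [Finset.mem_erase, Finset.mem_erase] at hx'
    rw [Finset.mem_insert, Finset.mem_singleton] at hx
    rcases hx with rfl | rfl
    · exact hx'.2.1 rfl
    · exact hx'.1 rfl
  have hf' : {a, d} ∈ del K c := by
    rw [mem_del]
    refine ⟨hf, ?_⟩
    rw [Finset.mem_insert, Finset.mem_singleton]
    rintro (h | h)
    · exact hac h.symm
    · exact hcd h
  have h1 : wsum p (((V.erase a).erase c).erase d) (del K c) (fun j => φ (j + 1)) = 0 := by
    refine wsum_eq_zero hf' ?_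
    rw [Finset.disjoint_left]
    intro x hx hx'
    rw [Finset.mem_erase, Finset.mem_erase, Finset.mem_erase] at hx'
    rw [Finset.mem_insert, Finset.mem_singleton] at hx
    rcases hx with rfl | rfl
    · exact hx'.2.2.1 rfl
    · exact hx'.1 rfl
  rw [wsum_split haV, wsum_split (V := V.erase a) (K := K) hcV, h0,
    wsum_split (V := (V.erase a).erase c) (K := del K c) hdV, h1]
  ring

end Pool.MP_38cb75_co.GT
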