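import Pool.Agent.Lib.MP_38cb75_co.SumA
import Pool.Agent.Lib.MP_38cb75_co.DegA

/-! JOB PEELB: peeling identities for weighted sums, 3-edges. -/

set_option autoImplicit false

namespace Pool.MP_38cb75_co.GT

variable {α : Type*} [DecidableEq α]

/-- `a` has degree one and lies in the 3-edge `{a, c, d}`. -/
theorem peel_T {p : ℝ} {V : Finset α} {K : Finset (Finset α)} {φ : ℕ → ℝ} (hG : Good V K)
    {a c d : α} (hac : a ≠ c) (had : a ≠ d) (hcd : c ≠ d) (he : {a, c, d} ∈ K)
    (hda : deg K a = 1) :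
    wsum p V K φ =
      p * wsum p (V.erase a) (K.erase {a, c, d}) (fun j => φ (j + 1)) +
      (1 - p) * wsum p (V.erase a) (insert {c, d} (K.erase {a, c, d})) φ := by
  have haV : a ∈ V := hG.sub _ he (by simp)
  have h1 : wsum p (V.erase a) K φ =
      wsum p (V.erase a) (insert {c, d} (K.erase {a, c, d})) φ := by
    refine wsum_congr fun D hD => ?_
    have haD : a ∉ D := fun h => Finset.notMem_erase a V (hD h)
    constructor
    · intro h e he'
      rcases Finset.mem_insert.1 he' with rfl | he'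
      · obtain ⟨x, hx⟩ := h _ he
        rw [Finset.mem_inter, Finset.mem_insert] at hx
        rcases hx.1 with rfl | h2
        · exact absurd hx.2 haD
        · exact ⟨x, Finset.mem_inter.2 ⟨h2, hx.2⟩⟩
      · exact h e (Finset.mem_of_mem_erase he')
    · intro h e he'
      by_cases hT : e = {a, c, d}
      · obtain ⟨x, hx⟩ := h _ (Finset.mem_insert_self _ _)
        rw [Finset.mem_inter] at hx
        rw [hT]
        exact ⟨x, Finset.mem_inter.2 ⟨Finset.mem_insert_of_mem hx.1, hx.2⟩⟩
      · exact h e (Finset.mem_insert_of_mem (Finset.mem_erase.2 ⟨hT, he'⟩))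
  rw [wsum_split haV, h1, del_of_deg_one hda he (by simp)]

private theorem peelB_split {p : ℝ} {V : Finset α} {K : Finset (Finset α)} {a : α} (ha : a ∈ V) :
    Z p V K = p * Z p (V.erase a) (del K a) + (1 - p) * Z p (V.erase a) K := wsum_split ha

/-- 3-edge `T = {v, u, w}` with `u`, `w` of degree one: `u ∈ D`, or `u ∉ D, w ∈ D`, or
`u, w ∉ D, v ∈ D`. -/
theorem Z_peel_T {p : ℝ} {V : Finset α} {K : Finset (Finset α)} (hG : Good V K)
    {v u w : α} (hvu : v ≠ u) (hvw : v ≠ w) (huw : u ≠ w) (he : {v, u, w} ∈ K)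
    (hdu : deg K u = 1) (hdw : deg K w = 1) :
    Z p V K = (1 - (1 - p) ^ 2) * Z p V (K.erase {v, u, w}) +
      (1 - p) ^ 2 * p * Z p V (del K v) := by
  have huV : u ∈ V := hG.sub _ he (by simp)
  have hwV : w ∈ V.erase u := Finset.mem_erase.2 ⟨huw.symm, hG.sub _ he (by simp)⟩
  have hvV : v ∈ (V.erase u).erase w :=
    Finset.mem_erase.2 ⟨hvw, Finset.mem_erase.2 ⟨hvu, hG.sub _ he (by simp)⟩⟩
  have uT : ∀ e ∈ K, u ∈ e → e = {v, u, w} := fun e h h' => eq_of_deg_one hdu h he h' (by simp)
  have wT : ∀ e ∈ K, w ∈ e → e = {v, u, w} := fun e h h' => eq_of_deg_one hdw h he h' (by simp)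
  have fu : ∀ e ∈ K.erase {v, u, w}, u ∉ e := fun e h h' =>
    (Finset.mem_erase.1 h).1 (uT e (Finset.mem_erase.1 h).2 h')
  have fw : ∀ e ∈ K.erase {v, u, w}, w ∉ e := fun e h h' =>
    (Finset.mem_erase.1 h).1 (wT e (Finset.mem_erase.1 h).2 h')
  have gu : ∀ e ∈ del K v, u ∉ e := fun e h h' => by
    rw [mem_del] at h
    refine h.2 ?_
    rw [uT e h.1 h']
    simp
  have gw : ∀ e ∈ del K v, w ∉ e := fun e h h' => by
    rw [mem_del] at h
    refine h.2 ?_
    rw [wT e h.1 h']
    simp
  have gv : ∀ e ∈ del K v, v ∉ e := fun e h => (mem_del.1 h).2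
  have e1 : Z p V (K.erase {v, u, w}) = Z p (V.erase u) (K.erase {v, u, w}) := Z_free huV fu
  have e2 : Z p (V.erase u) (K.erase {v, u, w}) =
      Z p ((V.erase u).erase w) (K.erase {v, u, w}) := Z_free hwV fw
  have e3 : Z p V (del K v) = Z p (V.erase u) (del K v) := Z_free huV gu
  have e4 : Z p (V.erase u) (del K v) = Z p ((V.erase u).erase w) (del K v) := Z_free hwV gw
  have e5 : Z p ((V.erase u).erase w) (del K v) =
      Z p (((V.erase u).erase w).erase v) (del K v) := Z_free hvV gv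
  have e6 : Z p (((V.erase u).erase w).erase v) K = 0 := by
    refine wsum_eq_zero he ?_
    rw [Finset.disjoint_left]
    intro x hx hx'
    rw [Finset.mem_erase, Finset.mem_erase, Finset.mem_erase] at hx'
    rw [Finset.mem_insert, Finset.mem_insert, Finset.mem_singleton] at hx
    rcases hx with rfl | rfl | rfl
    · exact hx'.1 rfl
    · exact hx'.2.2.1 rfl
    · exact hx'.2.1 rfl
  rw [peelB_split huV, del_of_deg_one hdu he (by simp), peelB_split (V := V.erase u) (K := K) hwV,
    del_of_deg_one hdw he (by simp), peelB_split (V := (V.erase u).erase w) (K := K) hvV, e6,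
    e1, e3, e4, e5, ← e2]
  ring

end Pool.MP_38cb75_co.GT
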