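import Pool.Agent.Lib.MP_38cb75_co.ElimC
import Pool.Agent.Lib.MP_38cb75_co.OneGood

/-! JOB RECA: the numbers `M b n`. -/

set_option autoImplicit false

namespace Pool.MP_38cb75_co.GT

/-- The least number of tests for `b` defectives among `n` items. -/
noncomputable def M (b n : ℕ) : ℕ :=
  sInf {t | Solves t (fam (Finset.range n) (∅ : Finset (Finset ℕ)) b)}

/-- Individual testing. -/
theorem solves_individual {α : Type*} [DecidableEq α] (V : Finset α) :
    ∀ F : Set (Finset α), (∀ D ∈ F, ∀ D' ∈ F, D ∩ V = D' ∩ V → D = D') → Solves V.card F := by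
  induction V using Finset.induction_on with
  | empty =>
    intro F hF D hD D' hD'
    exact hF D hD D' hD' (by simp)
  | insert a V ha ih =>
    intro F hF
    rw [Finset.card_insert_of_notMem ha]
    have hmem : ∀ D : Finset α, (({a} : Finset α) ∩ D).Nonempty ↔ a ∈ D := by
      intro D
      constructor
      · rintro ⟨x, hx⟩
        rw [Finset.mem_inter, Finset.mem_singleton] at hx
        exact hx.1 ▸ hx.2
      · intro h
        exact ⟨a, by rw [Finset.mem_inter, Finset.mem_singleton]; exact ⟨rfl, h⟩⟩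
    refine ⟨{a}, ih _ ?_, ih _ ?_⟩
    · rintro D ⟨hD, h1⟩ D' ⟨hD', h2⟩ h
      rw [hmem] at h1 h2
      apply hF D hD D' hD'
      rw [Finset.inter_insert_of_mem h1, Finset.inter_insert_of_mem h2, h]
    · rintro D ⟨hD, h1⟩ D' ⟨hD', h2⟩ h
      rw [hmem] at h1 h2
      apply hF D hD D' hD'
      rw [Finset.inter_insert_of_notMem h1, Finset.inter_insert_of_notMem h2, h]

/-- Test all items one by one. -/
theorem solves_M (b n : ℕ) : Solves (M b n) (fam (Finset.range n) (∅ : Finset (Finset ℕ)) b) := by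
  have h : (Finset.range n).card ∈ {t | Solves t (fam (Finset.range n) (∅ : Finset (Finset ℕ)) b)} := by
    apply solves_individual
    intro D hD D' hD' h
    rwa [Finset.inter_eq_left.2 hD.1, Finset.inter_eq_left.2 hD'.1] at h
  exact Nat.sInf_mem ⟨_, h⟩

/-- relabelling for the empty hypergraph -/
theorem Solves.relabel {α γ : Type*} [DecidableEq α] [DecidableEq γ] {t b : ℕ} {V : Finset α}
    {W : Finset γ} (f : α → γ) (hf : Set.InjOn f (V : Set α)) (hVW : V.image f = W)
    (h : Solves t (fam V (∅ : Finset (Finset α)) b)) :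
    Solves t (fam W (∅ : Finset (Finset γ)) b) := by
  refine Solves.mono_set ?_ (Solves.image f V hf (fun D hD => hD.1) h)
  rintro D ⟨hDW, hDb, -⟩
  have himg : (V.filter fun a => f a ∈ D).image f = D := by
    ext x
    rw [Finset.mem_image]
    constructor
    · rintro ⟨a, ha, rfl⟩
      exact (Finset.mem_filter.1 ha).2
    · intro hx
      have hxW := hDW hx
      rw [← hVW, Finset.mem_image] at hxW
      obtain ⟨a, ha, rfl⟩ := hxW
      exact ⟨a, Finset.mem_filter.2 ⟨ha, hx⟩, rfl⟩
  refine ⟨V.filter fun a => f a ∈ D, ⟨Finset.filter_subset _ _, ?_, fun e he => by simp at he⟩, himg⟩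
  rw [← hDb, ← himg, Finset.card_image_of_injOn]
  · rw [himg]
  · intro x hx y hy hxy
    exact hf (Finset.filter_subset _ _ hx) (Finset.filter_subset _ _ hy) hxy

/-- Relabelling (`Solves.image`). -/
theorem M_le {α : Type*} [DecidableEq α] {t b : ℕ} {V : Finset α}
    (h : Solves t (fam V (∅ : Finset (Finset α)) b)) : M b V.card ≤ t := by
  apply Nat.sInf_le
  change Solves t _
  refine Solves.relabel (fun a => if ha : a ∈ V then (V.equivFin ⟨a, ha⟩ : ℕ) else 0) ?_ ?_ h
  · intro x hx y hy hxy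
    have hx' : x ∈ V := hx
    have hy' : y ∈ V := hy
    simp only [hx', hy', dite_true] at hxy
    have := V.equivFin.injective (Fin.ext hxy)
    exact congrArg Subtype.val this
  · ext i
    rw [Finset.mem_image, Finset.mem_range]
    constructor
    · rintro ⟨a, ha, rfl⟩
      rw [dif_pos ha]
      exact (V.equivFin ⟨a, ha⟩).2
    · intro hi
      refine ⟨V.equivFin.symm ⟨i, hi⟩, (V.equivFin.symm ⟨i, hi⟩).2, ?_⟩
      rw [dif_pos (V.equivFin.symm ⟨i, hi⟩).2]
      simp

/-- Relabelling (`Solves.image`). -/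
theorem solves_of_M_le {α : Type*} [DecidableEq α] {t b : ℕ} {V : Finset α}
    (h : M b V.card ≤ t) : Solves t (fam V (∅ : Finset (Finset α)) b) := by
  rcases V.eq_empty_or_nonempty with hV | ⟨a, ha⟩
  · apply Solves.of_subsingleton
    rintro D ⟨hD, -⟩ D' ⟨hD', -⟩
    rw [hV] at hD hD'
    rw [Finset.subset_empty.1 hD, Finset.subset_empty.1 hD']
  · refine Solves.relabel (V := Finset.range V.card)
      (fun i => if hi : i < V.card then ((V.equivFin.symm ⟨i, hi⟩ : V) : α) else a) ?_ ?_
      ((solves_M b V.card).mono h)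
    · intro x hx y hy hxy
      have hx' : x < V.card := Finset.mem_range.1 hx
      have hy' : y < V.card := Finset.mem_range.1 hy
      simp only [hx', hy', dite_true] at hxy
      have := V.equivFin.symm.injective (Subtype.ext hxy)
      exact congrArg Fin.val this
    · ext x
      rw [Finset.mem_image]
      constructor
      · rintro ⟨i, hi, rfl⟩
        rw [dif_pos (Finset.mem_range.1 hi)]
        exact (V.equivFin.symm _).2
      · intro hx
        refine ⟨V.equivFin ⟨x, hx⟩, Finset.mem_range.2 (V.equivFin ⟨x, hx⟩).2, ?_⟩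
        rw [dif_pos (V.equivFin ⟨x, hx⟩).2]
        simp

theorem M_zero (n : ℕ) : M 0 n = 0 := by
  rw [← Nat.le_zero]
  apply Nat.sInf_le
  rintro D ⟨-, hD, -⟩ D' ⟨-, hD', -⟩
  rw [Finset.card_eq_zero.1 hD, Finset.card_eq_zero.1 hD']

/-- adding a known defective item -/
theorem Solves.insert_image {α : Type*} [DecidableEq α] {t : ℕ} (a : α) :
    ∀ {F : Set (Finset α)}, (∀ D ∈ F, a ∉ D) → Solves t F →
      Solves t {D | a ∈ D ∧ D.erase a ∈ F} := by
  induction t with
  | zero =>
    intro F hF h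
    rintro D ⟨h1, h2⟩ D' ⟨h3, h4⟩
    have := h h2 h4
    rw [← Finset.insert_erase h1, ← Finset.insert_erase h3, this]
  | succ t ih =>
    intro F hF h
    obtain ⟨S, hS1, hS2⟩ := h
    have hmeet : ∀ D : Finset α, ((S.erase a) ∩ D).Nonempty ↔ (S ∩ D.erase a).Nonempty := by
      intro D
      rw [Finset.erase_inter, Finset.inter_erase]
    refine ⟨S.erase a, Solves.mono_set ?_ (ih (F := {D | D ∈ F ∧ (S ∩ D).Nonempty})
      (fun D hD => hF D hD.1) hS1), Solves.mono_set ?_
      (ih (F := {D | D ∈ F ∧ ¬ (S ∩ D).Nonempty}) (fun D hD => hF D hD.1) hS2)⟩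
    · rintro D ⟨⟨h1, h2⟩, h3⟩
      exact ⟨h1, h2, (hmeet D).1 h3⟩
    · rintro D ⟨⟨h1, h2⟩, h3⟩
      exact ⟨h1, h2, fun h4 => h3 ((hmeet D).2 h4)⟩

/-- Test one item. -/
theorem M_up {b n : ℕ} : M (b + 1) (n + 1) ≤ 1 + max (M (b + 1) n) (M b n) := by
  apply Nat.sInf_le
  change Solves _ _
  rw [add_comm 1]
  refine ⟨{n}, ?_, ?_⟩
  · have h1 : Solves (max (M (b + 1) n) (M b n))
        (fam (Finset.range n) (∅ : Finset (Finset ℕ)) b) :=
      (solves_M b n).mono (le_max_right _ _)
    refine Solves.mono_set ?_ (h1.insert_image n fun D hD hn => by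
      have := hD.1 hn
      simp at this)
    rintro D ⟨⟨hD1, hD2, -⟩, x, hx⟩
    rw [Finset.mem_inter, Finset.mem_singleton] at hx
    obtain ⟨rfl, hxD⟩ := hx
    refine ⟨hxD, ?_, ?_, fun e he => by simp at he⟩
    · intro y hy
      rw [Finset.mem_erase] at hy
      have := hD1 hy.2
      rw [Finset.mem_range] at this ⊢
      omega
    · rw [Finset.card_erase_of_mem hxD, hD2]
      rfl
  · refine Solves.mono_set ?_ ((solves_M (b + 1) n).mono (le_max_left _ _))
    rintro D ⟨⟨hD1, hD2, -⟩, h⟩
    refine ⟨?_, hD2, fun e he => by simp at he⟩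
    intro y hy
    have h1 := hD1 hy
    rw [Finset.mem_range] at h1 ⊢
    have h2 : y ≠ n := by
      rintro rfl
      exact h ⟨y, by rw [Finset.mem_inter, Finset.mem_singleton]; exact ⟨rfl, hy⟩⟩
    omega

end Pool.MP_38cb75_co.GT
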