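import Pool.Agent.Lib.MP_38cb75_co.RecA

/-! JOB RECB: the Du–Hwang recursion. -/

set_option autoImplicit false

namespace Pool.MP_38cb75_co.GT

/-- The first test (a subset of `range (n+1)`; not empty, by minimality of `M`): one item, or at
least two items (then restrict to the sets hitting a pair and eliminate the pair by
`pair_elim`). -/
theorem M_low {b n : ℕ} (h : b + 1 < n + 1) :
    1 + max (M (b + 1) n) (M b n) ≤ M (b + 1) (n + 1) ∨ 2 + M b n ≤ M (b + 1) (n + 1) := by
  have hs := solves_M (b + 1) (n + 1)
  set V : Finset ℕ := Finset.range (n + 1) with hV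
  have hVcard : V.card = n + 1 := Finset.card_range _
  have hcase : M (b + 1) (n + 1) = 0 ∨ ∃ t, M (b + 1) (n + 1) = t + 1 := by
    rcases Nat.eq_zero_or_pos (M (b + 1) (n + 1)) with h0 | h0
    · exact Or.inl h0
    · exact Or.inr ⟨M (b + 1) (n + 1) - 1, by omega⟩
  rcases hcase with h0 | ⟨t, ht⟩
  · -- no test: two different members
    exfalso
    rw [h0] at hs
    have hs' : (fam V (∅ : Finset (Finset ℕ)) (b + 1)).Subsingleton := hs
    have m1 : Finset.range (b + 1) ∈ fam V (∅ : Finset (Finset ℕ)) (b + 1) := by
      refine ⟨?_, Finset.card_range _, fun e he => by simp at he⟩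
      intro x hx
      rw [hV, Finset.mem_range]
      rw [Finset.mem_range] at hx
      omega
    have m2 : insert n (Finset.range b) ∈ fam V (∅ : Finset (Finset ℕ)) (b + 1) := by
      refine ⟨?_, ?_, fun e he => by simp at he⟩
      · intro x hx
        rw [Finset.mem_insert, Finset.mem_range] at hx
        rw [hV, Finset.mem_range]
        omega
      · rw [Finset.card_insert_of_notMem, Finset.card_range]
        rw [Finset.mem_range]
        omega
    have heq := hs' m1 m2
    have hn : n ∈ Finset.range (b + 1) := by
      rw [heq]; exact Finset.mem_insert_self _ _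
    rw [Finset.mem_range] at hn
    omega
  · rw [ht] at hs ⊢
    obtain ⟨S, hS1, hS2⟩ := hs
    -- removal of one item
    have herase : ∀ x ∈ V, (V.erase x).card = n := by
      intro x hx
      rw [Finset.card_erase_of_mem hx, hVcard]
      rfl
    rcases lt_or_ge (S ∩ V).card 2 with hlt | hge
    · rcases Nat.lt_or_ge (S ∩ V).card 1 with h1 | h1
      · -- the test says nothing
        exfalso
        have hSV : S ∩ V = ∅ := Finset.card_eq_zero.1 (by omega)
        have hsub : fam V (∅ : Finset (Finset ℕ)) (b + 1) ⊆
            {D | D ∈ fam V (∅ : Finset (Finset ℕ)) (b + 1) ∧ ¬ (S ∩ D).Nonempty} := by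
          intro D hD
          refine ⟨hD, ?_⟩
          rintro ⟨x, hx⟩
          rw [Finset.mem_inter] at hx
          have : x ∈ S ∩ V := Finset.mem_inter.2 ⟨hx.1, hD.1 hx.2⟩
          rw [hSV] at this
          simp at this
        have := M_le (Solves.mono_set hsub hS2)
        rw [hVcard, ht] at this
        omega
      · obtain ⟨x, hx⟩ := Finset.card_eq_one.1 (by omega : (S ∩ V).card = 1)
        have hxSV : x ∈ S ∩ V := by rw [hx]; exact Finset.mem_singleton_self x
        obtain ⟨hxS, hxV⟩ := Finset.mem_inter.1 hxSV
        left
        have e1 : M b n ≤ t := by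
          rw [← herase x hxV]
          apply M_le
          refine Solves.mono_set ?_ (Solves.reveal {x} hS1)
          rintro D ⟨hD1, hD2, -⟩
          have hxD : x ∉ D := fun h => by
            have := hD1 h
            simp at this
          refine ⟨Finset.disjoint_singleton_right.2 hxD, ⟨?_, ?_, fun e he => by simp at he⟩,
            ⟨x, Finset.mem_inter.2 ⟨hxS, Finset.mem_union_right _ (Finset.mem_singleton_self x)⟩⟩⟩
          · intro y hy
            rcases Finset.mem_union.1 hy with hy | hy
            · exact Finset.mem_of_mem_erase (hD1 hy)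
            · rw [Finset.mem_singleton] at hy
              rw [hy]; exact hxV
          · rw [Finset.card_union_of_disjoint (Finset.disjoint_singleton_right.2 hxD), hD2,
              Finset.card_singleton]
        have e2 : M (b + 1) n ≤ t := by
          rw [← herase x hxV]
          apply M_le
          refine Solves.mono_set ?_ hS2
          rintro D ⟨hD1, hD2, -⟩
          refine ⟨⟨fun y hy => Finset.mem_of_mem_erase (hD1 hy), hD2, fun e he => by simp at he⟩, ?_⟩
          rintro ⟨y, hy⟩
          rw [Finset.mem_inter] at hy
          have hy2 := hD1 hy.2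
          rw [Finset.mem_erase] at hy2
          have : y ∈ S ∩ V := Finset.mem_inter.2 ⟨hy.1, hy2.2⟩
          rw [hx, Finset.mem_singleton] at this
          exact hy2.1 this
        omega
    · obtain ⟨x, hx, y, hy, hxy⟩ := Finset.one_lt_card.1 (by omega : 1 < (S ∩ V).card)
      obtain ⟨hxS, hxV⟩ := Finset.mem_inter.1 hx
      obtain ⟨hyS, hyV⟩ := Finset.mem_inter.1 hy
      right
      have h2 : Solves t (fam V (insert {x, y} (∅ : Finset (Finset ℕ))) (b + 1)) := by
        refine Solves.mono_set ?_ hS1
        rintro D ⟨hD1, hD2, hD3⟩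
        refine ⟨⟨hD1, hD2, fun e he => by simp at he⟩, ?_⟩
        obtain ⟨z, hz⟩ := hD3 {x, y} (Finset.mem_insert_self _ _)
        rw [Finset.mem_inter, Finset.mem_insert, Finset.mem_singleton] at hz
        refine ⟨z, Finset.mem_inter.2 ⟨?_, hz.2⟩⟩
        rcases hz.1 with rfl | rfl
        · exact hxS
        · exact hyS
      rcases pair_elim hxy hxV hyV (fun e he => by simp at he) (by rw [hVcard]; exact h) h2 with
        h3 | ⟨s, hs, h3⟩
      · exfalso
        have hcard : b ≤ ((V.erase x)).card := by rw [herase x hxV]; omega
        obtain ⟨D, hD1, hD2⟩ := Finset.exists_subset_card_eq hcard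
        have : D ∈ fam (V.erase x) (∅ : Finset (Finset ℕ)) b :=
          ⟨hD1, hD2, fun e he => by simp at he⟩
        rw [h3] at this
        exact this
      · have := M_le h3
        rw [herase x hxV] at this
        omega

/-- `M (n-1) n = n - 1` (lower bound from `one_good`). -/
theorem M_one_good (n : ℕ) : n ≤ M n (n + 1) := by
  have h := one_good (V := Finset.range (n + 1)) (K := ∅) (b := n) (fun e he => by simp at he)
    (by rw [Finset.card_range]) (solves_M n (n + 1))
  rw [Finset.card_range] at h
  omega

/-- Du–Hwang recursion.  Induction on `n` (for all `d`, `i`).  `i = 0`: trivial.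
`d + 1 = n`: `M_one_good`.  Otherwise `d ≥ 1`, `d < n - 1`, write `n = n' + 1`, `d = d' + 1` and use
`M_low`.
Second alternative: `M d n ≥ 2 + M (d-1) (n-1)` and the induction hypothesis for `(d-1,n-1,i-1)`.
First alternative: if `i < d` use the induction hypothesis for `(d,n-1,i)` and `(d-1,n-1,i)` and
`M (d-i) (n-i) ≤ 1 + max (M (d-i) (n-i-1)) (M (d-i-1) (n-i-1))` (`M_up`); if `i = d` use only
`(d,n-1,d)` and `M 0 _ = 0`. -/
theorem M_rec {d n i : ℕ} (hd : d < n) (hi : i ≤ d) :
    min (n - 1) (2 * i + M (d - i) (n - i)) ≤ M d n := by
  induction n generalizing d i with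
  | zero => omega
  | succ n ih =>
    rcases Nat.eq_zero_or_pos i with rfl | hi0
    · simp
    · obtain ⟨d', rfl⟩ : ∃ d', d = d' + 1 := ⟨d - 1, by omega⟩
      obtain ⟨i', rfl⟩ : ∃ i', i = i' + 1 := ⟨i - 1, by omega⟩
      rcases Nat.lt_or_ge (d' + 1) n with hdn | hdn
      · rcases M_low (b := d') (n := n) (by omega) with h1 | h1
        · rcases Nat.lt_or_ge (i' + 1) (d' + 1) with hid | hid
          · have a1 := ih (d := d' + 1) (i := i' + 1) hdn hi
            have a2 := ih (d := d') (i := i' + 1) (by omega) (by omega)
            have a3 := M_up (b := d' - (i' + 1)) (n := n - (i' + 1))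
            have b1 : d' - (i' + 1) + 1 = d' + 1 - (i' + 1) := by omega
            have b2 : n - (i' + 1) + 1 = n + 1 - (i' + 1) := by omega
            rw [b1, b2] at a3
            omega
          · have hid' : i' = d' := by omega
            subst hid'
            have a1 := ih (d := i' + 1) (i := i' + 1) hdn le_rfl
            rw [Nat.sub_self, M_zero] at a1 ⊢
            omega
        · have a1 := ih (d := d') (i := i') (by omega) (by omega)
          have b1 : d' + 1 - (i' + 1) = d' - i' := by omega
          have b2 : n + 1 - (i' + 1) = n - i' := by omega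
          rw [b1, b2]
          omega
      · have hn : n = d' + 1 := by omega
        subst hn
        have := M_one_good (d' + 1)
        omega

end Pool.MP_38cb75_co.GT
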