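import Pool.Agent.Lib.MP_38cb75_co.RuleBase

/-! JOB RULE1: the rules of the adversary in the regime `L₁, L₂`. -/

set_option autoImplicit false

namespace Pool.MP_38cb75_co.GT

variable {α : Type*} [DecidableEq α]

/-- `v ∈ S` lies in an edge: answer yes and reveal that `v` is defective.
`V' = V.erase v`, `K' = del K v`, `b' = b - 1`, `k = 1`, `R = {v}`, `G = A = ∅`
(`solves_bad` for `insert S K`, `del (insert S K) v = del K v`; `card_del`, `leaves_del`). -/
theorem rule1_hit {p a β : ℝ} (hc : Consts p a β) {t : ℕ} {V : Finset α}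
    {K : Finset (Finset α)} {b : ℕ} (hG : Good V K) (hb : 1 ≤ b) (hg : b + 2 ≤ V.card)
    {S : Finset α} (hS : S ⊆ V) {v : α} (hv : v ∈ S) (hdv : 1 ≤ deg K v)
    (hpos : Solves t (fam V (insert S K) b)) : Ok1 p a β (t + 1) V K b := by
  obtain ⟨b, rfl⟩ : ∃ b', b = b' + 1 := ⟨b - 1, by omega⟩
  have hvV := hS hv
  have hcard : (V.erase v).card + 1 = V.card := by
    rw [Finset.card_erase_of_mem hvV]
    have : 1 ≤ V.card := Finset.card_pos.2 ⟨v, hvV⟩
    omega
  have hdel : del (insert S K) v = del K v := by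
    ext e
    simp only [mem_del, Finset.mem_insert]
    constructor
    · rintro ⟨rfl | he, hve⟩
      · exact absurd hv hve
      · exact ⟨he, hve⟩
    · rintro ⟨he, hve⟩
      exact ⟨Or.inr he, hve⟩
  have hsol := solves_bad hvV hpos
  rw [hdel] at hsol
  have hKc := card_del (K := K) v
  have e1 : ((V.erase v).card : ℝ) = V.card - 1 := by
    rw [← hcard]; push_cast; ring
  have e2 : ((del K v).card : ℝ) = K.card - deg K v := by
    rw [← hKc]; push_cast; ring
  have e3 : (1 : ℝ) ≤ deg K v := by exact_mod_cast hdv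
  have e4 : ((leaves (del K v)).card : ℝ) ≤ (leaves K).card + deg K v := by
    exact_mod_cast leaves_del hG v
  refine ⟨V.erase v, del K v, b, 1, ?_, by omega, ?_, ?_⟩
  · refine next_of hc.p0 hc.p1 {v} ∅ ∅ ?_ (by simpa using hvV) (by simp) (by simp)
      (by simp) (by simp) (by simp) (by simp) ?_ (by simp) (by simp) ?_ le_rfl (hG.del v)
      (by simp; omega) (Or.inr ⟨t, rfl, hsol⟩)
    · rw [Finset.sdiff_empty, Finset.sdiff_singleton_eq_erase]
    · intro D hD hh e he
      by_cases hve : v ∈ e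
      · exact ⟨v, by simp [hve]⟩
      · obtain ⟨x, hx⟩ := hh e (mem_del.2 ⟨he, hve⟩)
        rw [Finset.mem_inter] at hx
        exact ⟨x, by simp [hx.1, hx.2]⟩
    · intro D hD hh e he
      rw [mem_del] at he
      obtain ⟨x, hx⟩ := hh e he.1
      rw [Finset.mem_inter] at hx
      have hxv : x ≠ v := by rintro rfl; exact he.2 hx.1
      exact ⟨x, by simp [hx.1, hx.2, hxv, hD hx.2]⟩
  · unfold L2
    rw [e1, e2]
    push_cast
    nlinarith
  · have b1 := hc.β1
    unfold Phi
    rw [e1, e2]
    push_cast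
    nlinarith

/-- `S` consists of at most one free item: answer no. `V' = V \ S`, `K' = K`, `b' = b`, `k = 1`,
`G = S`, `R = A = ∅`. -/
theorem rule1_neg {p a β : ℝ} (hc : Consts p a β) {t : ℕ} {V : Finset α}
    {K : Finset (Finset α)} {b : ℕ} (hG : Good V K) (hg : b + 2 ≤ V.card)
    {S : Finset α} (hS : S ⊆ V) (hfree : ∀ x ∈ S, deg K x = 0) (hcard : S.card ≤ 1)
    (hneg : Solves t (fam (V \ S) K b)) : Ok1 p a β (t + 1) V K b := by
  have hfree' : ∀ x ∈ S, ∀ e ∈ K, x ∉ e := fun x hx => deg_eq_zero.1 (hfree x hx)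
  have hc' : (V \ S).card + S.card = V.card := by
    rw [Finset.card_sdiff_of_subset hS]
    have := Finset.card_le_card hS
    omega
  have hsub : ∀ e ∈ K, e ⊆ V \ S := by
    intro e he x hx
    exact Finset.mem_sdiff.2 ⟨hG.sub e he hx, fun h => hfree' x h e he hx⟩
  have e1 : ((V \ S).card : ℝ) = V.card - S.card := by
    rw [← hc']; push_cast; ring
  have e3 : (S.card : ℝ) ≤ 1 := by exact_mod_cast hcard
  have e4 : (0 : ℝ) ≤ S.card := by positivity
  refine ⟨V \ S, K, b, 1, ?_, by omega, ?_, ?_⟩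
  · refine next_of hc.p0 hc.p1 ∅ S ∅ (by simp) (by simp) hS (by simp)
      (by simp) (by omega) (by simp; omega) (by simp) ?_ (by simp) (by simp) ?_ le_rfl ?_
      (by omega) (Or.inr ⟨t, rfl, hneg⟩)
    · intro D hD hh
      rw [Finset.union_empty]
      exact hh
    · intro D hD hh e he
      obtain ⟨x, hx⟩ := hh e he
      rw [Finset.mem_inter] at hx
      exact ⟨x, by
        rw [Finset.mem_inter, Finset.mem_union, Finset.mem_inter]
        exact ⟨hx.1, Or.inl ⟨hx.2, hsub e he hx.1⟩⟩⟩
    · exact hG.mono (Finset.Subset.refl _) hsub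
  · have a0 := hc.a0
    have a1 := hc.a1
    unfold L2
    rw [e1]
    push_cast
    nlinarith
  · unfold Phi
    rw [e1]
    nlinarith

/-- `S` consists of two free items: answer yes and eliminate the pair (`pair_elim`).
`V' = V.erase x`, `K' = K`, `b' = b - 1`, `k = 2`, `R = {x}`. -/
theorem rule1_pair {p a β : ℝ} (hc : Consts p a β) {t : ℕ} {V : Finset α}
    {K : Finset (Finset α)} {b : ℕ} (hG : Good V K) (hb : 1 ≤ b) (hg : b + 2 ≤ V.card)
    {x z : α} (hxz : x ≠ z) (hx : x ∈ V) (hz : z ∈ V) (hdx : deg K x = 0) (hdz : deg K z = 0)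
    (hpos : Solves t (fam V (insert {x, z} K) b)) : Ok1 p a β (t + 1) V K b := by
  obtain ⟨b, rfl⟩ : ∃ b', b = b' + 1 := ⟨b - 1, by omega⟩
  have fx := deg_eq_zero.1 hdx
  have fz := deg_eq_zero.1 hdz
  have helim := pair_elim hxz hx hz (K := K) (fun e he => ⟨fx e he, fz e he⟩) (by omega) hpos
  have hcard : (V.erase x).card + 1 = V.card := by
    rw [Finset.card_erase_of_mem hx]
    have : 1 ≤ V.card := Finset.card_pos.2 ⟨x, hx⟩
    omega
  have e1 : ((V.erase x).card : ℝ) = V.card - 1 := by
    rw [← hcard]; push_cast; ring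
  have hsub : ∀ e ∈ K, e ⊆ V.erase x := by
    intro e he y hy
    refine Finset.mem_erase.2 ⟨?_, hG.sub e he hy⟩
    rintro rfl
    exact fx e he hy
  refine ⟨V.erase x, K, b, 2, ?_, by omega, ?_, ?_⟩
  · refine next_of hc.p0 hc.p1 {x} ∅ ∅ ?_ (by simpa using hx) (by simp) (by simp)
      (by simp) (by simp) (by simp) (by simp) ?_ (by simp) (by simp) ?_ (by norm_num) ?_
      (by simp; omega) ?_
    · rw [Finset.sdiff_empty, Finset.sdiff_singleton_eq_erase]
    · intro D hD hh e he
      obtain ⟨y, hy⟩ := hh e he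
      rw [Finset.mem_inter] at hy
      exact ⟨y, by simp [hy.1, hy.2]⟩
    · intro D hD hh e he
      obtain ⟨y, hy⟩ := hh e he
      rw [Finset.mem_inter] at hy
      exact ⟨y, by
        rw [Finset.mem_inter, Finset.mem_union, Finset.mem_inter]
        exact ⟨hy.1, Or.inl ⟨hy.2, hsub e he hy.1⟩⟩⟩
    · exact hG.mono (Finset.Subset.refl _) hsub
    · rcases helim with h | ⟨s, hs, h⟩
      · exact Or.inl h
      · exact Or.inr ⟨s, by omega, h⟩
  · unfold L2
    rw [e1]
    push_cast
    nlinarith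
  · have b1 := hc.β1
    unfold Phi
    rw [e1]
    push_cast
    nlinarith

/-- `S` contains three free items: answer yes, `K' = insert {x, y, z} K` (`Good.insert3`,
`leaves_insert3`, `next_same` with `A = {x}`), `k = 1`. -/
theorem rule1_new {p a β : ℝ} (hc : Consts p a β) {t : ℕ} {V : Finset α}
    {K : Finset (Finset α)} {b : ℕ} (hG : Good V K) (hg : b + 2 ≤ V.card)
    {S : Finset α} (hS : S ⊆ V) {x y z : α} (hxy : x ≠ y) (hxz : x ≠ z) (hyz : y ≠ z)
    (hx : x ∈ S) (hy : y ∈ S) (hz : z ∈ S)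
    (hdx : deg K x = 0) (hdy : deg K y = 0) (hdz : deg K z = 0)
    (hpos : Solves t (fam V (insert S K) b)) : Ok1 p a β (t + 1) V K b := by
  have fx := deg_eq_zero.1 hdx
  have hnot : ({x, y, z} : Finset α) ∉ K := fun h => fx _ h (by simp)
  have hKc : (insert {x, y, z} K).card = K.card + 1 := Finset.card_insert_of_notMem hnot
  have hGood : Good V (insert {x, y, z} K) := by
    refine hG.insert3 hxy hxz hyz (hS hx) (hS hy) (hS hz) hdy hdz (by omega) ?_
    intro T hT _ hxT
    exact absurd hxT (fx T hT)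
  refine ⟨V, insert {x, y, z} K, b, 1, ?_, by omega, ?_, ?_⟩
  · refine next_same hc.p0 hc.p1 {x} (by simpa using hS hx) (by simp) ?_ ?_ le_rfl hGood
      (by omega) (Or.inr ⟨t, rfl, hpos.mono_set (fam_mono ?_)⟩)
    · intro D _ hh e he
      exact hh e (Finset.mem_insert_of_mem he)
    · intro D _ hA hh e he
      rcases Finset.mem_insert.1 he with rfl | he
      · exact ⟨x, Finset.mem_inter.2 ⟨by simp, hA (by simp)⟩⟩
      · exact hh e he
    · intro D _ hh e he
      rcases Finset.mem_insert.1 he with rfl | he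
      · obtain ⟨w, hw⟩ := hh {x, y, z} (Finset.mem_insert_self _ _)
        rw [Finset.mem_inter] at hw
        refine ⟨w, Finset.mem_inter.2 ⟨?_, hw.2⟩⟩
        have := hw.1
        simp only [Finset.mem_insert, Finset.mem_singleton] at this
        rcases this with rfl | rfl | rfl
        · exact hx
        · exact hy
        · exact hz
      · exact hh e (Finset.mem_insert_of_mem he)
  · unfold L2
    rw [hKc]
    push_cast
    linarith
  · have e4 : ((leaves (insert {x, y, z} K)).card : ℝ) ≤ (leaves K).card := by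
      have h1 := Finset.card_le_card (leaves_insert3 hG hnot hxy hxz hyz hdy hdz)
      have h2 := Finset.card_erase_le (s := leaves K) (a := x)
      exact_mod_cast h1.trans h2
    unfold Phi
    rw [hKc]
    push_cast
    linarith

end Pool.MP_38cb75_co.GT
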