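import Pool.Agent.Lib.MP_38cb75_co.Rule1

/-! The regime `L₁, L₂`: assembly (proved). -/

set_option autoImplicit false

namespace Pool.MP_38cb75_co.GT

variable {α : Type*} [DecidableEq α]

theorem rule1 {p a β : ℝ} (hc : Consts p a β) {t : ℕ} {V : Finset α}
    {K : Finset (Finset α)} {b : ℕ} (hG : Good V K) (hb : 1 ≤ b) (hg : b + 2 ≤ V.card)
    (h : Solves (t + 1) (fam V K b)) : Ok1 p a β (t + 1) V K b := by
  obtain ⟨S, hS, hpos, hneg⟩ := solves_succ_fam h
  by_cases hhit : ∃ v ∈ S, 1 ≤ deg K v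
  · obtain ⟨v, hv, hdv⟩ := hhit
    exact rule1_hit hc hG hb hg hS hv hdv hpos
  · push Not at hhit
    have hfree : ∀ x ∈ S, deg K x = 0 := fun x hx => by have := hhit x hx; omega
    rcases Nat.lt_or_ge S.card 2 with h1 | h2
    · exact rule1_neg hc hG hg hS hfree (by omega) hneg
    · rcases Nat.lt_or_ge S.card 3 with h3 | h3
      · obtain ⟨x, z, hxz, rfl⟩ := Finset.card_eq_two.1 (show S.card = 2 by omega)
        exact rule1_pair hc hG hb hg hxz (hS (by simp)) (hS (by simp)) (hfree x (by simp))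
          (hfree z (by simp)) hpos
      · obtain ⟨x, hx, y, hy, z, hz, hxy, hxz, hyz⟩ :=
          Finset.two_lt_card.1 (show 2 < S.card by omega)
        exact rule1_new hc hG hg hS hxy hxz hyz hx hy hz (hfree x hx) (hfree y hy) (hfree z hz)
          hpos

end Pool.MP_38cb75_co.GT
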