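import Pool.Agent.Lib.MP_38cb75_co.RuleBase

/-! JOB RULE2HIT: regime `L₂, Φ`; a vertex of degree two is tested; elimination of an isolated
pair. -/

set_option autoImplicit false

namespace Pool.MP_38cb75_co.GT

variable {α : Type*} [DecidableEq α]

private theorem r2h_card (K : Finset (Finset α)) (v : α) :
    (del K v).card + deg K v = K.card := by
  unfold del deg
  rw [add_comm]
  exact Finset.card_filter_add_card_filter_not (s := K) (fun e => v ∈ e)

private theorem r2h_del_insert {K : Finset (Finset α)} {S : Finset α} {v : α} (hv : v ∈ S) :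
    del (insert S K) v = del K v := by
  unfold del
  rw [Finset.filter_insert, if_neg (by simpa using hv)]

/-- `v ∈ S` has degree two: answer yes and reveal that `v` is defective.
`V' = V.erase v`, `K' = del K v`, `b' = b - 1`, `k = 1`, `R = {v}`; `|K'| = |K| - 2`,
`|leaves K'| ≤ |leaves K| + 2`. -/
theorem rule2_hit {p a β : ℝ} (hc : Consts p a β) {t : ℕ} {V : Finset α}
    {K : Finset (Finset α)} {b : ℕ} (hG : Good V K) (hb : 1 ≤ b) (hg : b + 2 ≤ V.card)
    {S : Finset α} (hS : S ⊆ V) {v : α} (hv : v ∈ S) (hdv : deg K v = 2)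
    (hpos : Solves t (fam V (insert S K) b)) : Ok2 p a β (t + 1) V K b := by
  obtain ⟨b', rfl⟩ : ∃ b', b = b' + 1 := ⟨b - 1, by omega⟩
  have hvV : v ∈ V := hS hv
  have hcV : (V.erase v).card + 1 = V.card := Finset.card_erase_add_one hvV
  have hcK := r2h_card K v
  have hl := leaves_del hG v
  rw [hdv] at hcK hl
  have hsol := solves_bad hvV hpos
  rw [r2h_del_insert hv] at hsol
  refine ⟨V.erase v, del K v, b', 1, ?_, ?_, ?_⟩
  · refine next_of hc.p0 hc.p1 {v} ∅ ∅ (by rw [Finset.sdiff_singleton_eq_erase]; simp)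
      (by simpa using hvV) (by simp) (by simp) (by simp) (by simp) (by simp) (by simp) ?_ (by simp)
      (by simp) ?_ le_rfl (hG.del v) (by simp; omega) (Or.inr ⟨t, rfl, hsol⟩)
    · intro D _ hD e he
      by_cases hve : v ∈ e
      · exact ⟨v, by simp [hve]⟩
      · obtain ⟨x, hx⟩ := hD e (Finset.mem_filter.mpr ⟨he, hve⟩)
        rw [Finset.mem_inter] at hx
        exact ⟨x, by simp [hx.1, hx.2]⟩
    · intro D hD hK e he
      obtain ⟨heK, hve⟩ := Finset.mem_filter.mp he
      obtain ⟨x, hx⟩ := hK e heK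
      rw [Finset.mem_inter] at hx
      have hxv : x ≠ v := fun h => hve (h ▸ hx.1)
      exact ⟨x, by simp [hx.1, hx.2, hxv, hD hx.2]⟩
  · unfold L2
    have h1 : ((V.erase v).card : ℝ) + 1 = V.card := by exact_mod_cast hcV
    have h2 : ((del K v).card : ℝ) + 2 = K.card := by exact_mod_cast hcK
    rw [← h1, ← h2]
    push_cast
    have e : ((V.erase v).card : ℝ) + 1 - ((b' : ℝ) + 1) = (V.erase v).card - b' := by ring
    rw [e]
    linarith
  · unfold Phi
    have h1 : ((V.erase v).card : ℝ) + 1 = V.card := by exact_mod_cast hcV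
    have h2 : ((del K v).card : ℝ) + 2 = K.card := by exact_mod_cast hcK
    have h3 : ((leaves (del K v)).card : ℝ) ≤ (leaves K).card + 2 := by exact_mod_cast hl
    rw [← h1, ← h2]
    push_cast
    have := hc.β1
    linarith

/-- An isolated pair `e = {u, w}` is eliminated (`pair_elim` for `K.erase e`).
`V' = V.erase u`, `K' = K.erase e`, `b' = b - 1`, `k = 1`, `R = {u}`;
`|leaves K'| + 2 = |leaves K|` (`leaves_pair`). -/
theorem pair_step {p a β : ℝ} (hc : Consts p a β) {t : ℕ} {V : Finset α}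
    {K : Finset (Finset α)} {b : ℕ} (hG : Good V K) (hb : 1 ≤ b) (hg : b + 1 ≤ V.card)
    {e : Finset α} (he : e ∈ K) (he2 : e.card = 2) (hd : ∀ v ∈ e, deg K v ≠ 2)
    (h : Solves t (fam V K b)) :
    ∃ (V' : Finset α) (K' : Finset (Finset α)) (b' k : ℕ), Next p t V K b V' K' b' k ∧
      V.card ≤ V'.card + k ∧ L2 a V K b ≤ L2 a V' K' b' + k ∧
        Phi β V K b ≤ Phi β V' K' b' + k := by
  obtain ⟨b', rfl⟩ : ∃ b', b = b' + 1 := ⟨b - 1, by omega⟩
  have hdeg1 : ∀ v ∈ e, deg K v = 1 := by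
    intro v hv
    have h1 := hG.deg_le v
    have h2 := hd v hv
    have h3 : 1 ≤ deg K v := Finset.card_pos.mpr ⟨e, Finset.mem_filter.mpr ⟨he, hv⟩⟩
    omega
  have huniq : ∀ v ∈ e, ∀ e' ∈ K, v ∈ e' → e' = e := by
    intro v hv e' he' hv'
    have h1 := hdeg1 v hv
    unfold deg at h1
    rw [Finset.card_eq_one] at h1
    obtain ⟨e0, h0⟩ := h1
    have m1 : e ∈ K.filter (fun e => v ∈ e) := Finset.mem_filter.mpr ⟨he, hv⟩
    have m2 : e' ∈ K.filter (fun e => v ∈ e) := Finset.mem_filter.mpr ⟨he', hv'⟩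
    rw [h0, Finset.mem_singleton] at m1 m2
    rw [m1, m2]
  obtain ⟨u, w, huw, rfl⟩ := Finset.card_eq_two.mp he2
  have hsub := hG.sub _ he
  have huV : u ∈ V := hsub (by simp)
  have hwV : w ∈ V := hsub (by simp)
  have hKins : insert {u, w} (K.erase {u, w}) = K := Finset.insert_erase he
  have hKe : ∀ e' ∈ K.erase {u, w}, u ∉ e' ∧ w ∉ e' := by
    intro e' he'
    obtain ⟨hne, heK⟩ := Finset.mem_erase.mp he'
    exact ⟨fun hu => hne (huniq u (by simp) e' heK hu), fun hw => hne (huniq w (by simp) e' heK hw)⟩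
  have hel := pair_elim (K := K.erase {u, w}) (b := b') huw huV hwV hKe (by omega)
    (by rw [hKins]; exact h)
  have hcV : (V.erase u).card + 1 = V.card := Finset.card_erase_add_one huV
  have hcK : (K.erase {u, w}).card + 1 = K.card := Finset.card_erase_add_one he
  have hl := leaves_pair hG huw he (hdeg1 u (by simp)) (hdeg1 w (by simp))
  refine ⟨V.erase u, K.erase {u, w}, b', 1, ?_, by omega, ?_, ?_⟩
  · refine next_of hc.p0 hc.p1 {u} ∅ ∅ (by rw [Finset.sdiff_singleton_eq_erase]; simp)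
      (by simpa using huV) (by simp) (by simp) (by simp) (by simp) (by simp) (by simp) ?_ (by simp)
      (by simp) ?_ le_rfl ?_ (by simp; omega) hel
    · intro D _ hD e' he'
      by_cases hee : e' = {u, w}
      · exact ⟨u, by simp [hee]⟩
      · obtain ⟨x, hx⟩ := hD e' (Finset.mem_erase.mpr ⟨hee, he'⟩)
        rw [Finset.mem_inter] at hx
        exact ⟨x, by simp [hx.1, hx.2]⟩
    · intro D hD hK e' he'
      obtain ⟨x, hx⟩ := hK e' (Finset.mem_of_mem_erase he')
      rw [Finset.mem_inter] at hx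
      have hxu : x ≠ u := fun h => (hKe e' he').1 (h ▸ hx.1)
      exact ⟨x, by simp [hx.1, hx.2, hxu, hD hx.2]⟩
    · refine hG.mono (Finset.erase_subset _ _) ?_
      intro e' he' x hx
      exact Finset.mem_erase.mpr ⟨fun h => (hKe e' he').1 (h ▸ hx),
        hG.sub e' (Finset.mem_of_mem_erase he') hx⟩
  · unfold L2
    have h1 : ((V.erase u).card : ℝ) + 1 = V.card := by exact_mod_cast hcV
    have h2 : ((K.erase {u, w}).card : ℝ) + 1 = K.card := by exact_mod_cast hcK
    rw [← h1, ← h2]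
    push_cast
    have e : ((V.erase u).card : ℝ) + 1 - ((b' : ℝ) + 1) = (V.erase u).card - b' := by ring
    rw [e]
    linarith
  · unfold Phi
    have h1 : ((V.erase u).card : ℝ) + 1 = V.card := by exact_mod_cast hcV
    have h2 : ((K.erase {u, w}).card : ℝ) + 1 = K.card := by exact_mod_cast hcK
    have h3 : ((leaves (K.erase {u, w})).card : ℝ) + 2 = (leaves K).card := by exact_mod_cast hl
    rw [← h1, ← h2, ← h3]
    push_cast
    have := hc.β1
    linarith

end Pool.MP_38cb75_co.GT
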