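import Pool.Agent.Lib.MP_38cb75_co.ElimC
import Pool.Agent.Lib.MP_38cb75_co.Move
import Pool.Agent.Lib.MP_38cb75_co.GoodA
import Pool.Agent.Lib.MP_38cb75_co.Leaves

/-! Common base of the rules (proved here): constructors for `Ok1` and `Ok2`. -/

set_option autoImplicit false

namespace Pool.MP_38cb75_co.GT

variable {α : Type*} [DecidableEq α]

/-- The standing assumptions on the constants. -/
structure Consts (p a β : ℝ) : Prop where
  p0 : 0 < p
  p1 : p < 1
  a0 : 0 ≤ a
  a1 : a ≤ 1 / 2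
  β0 : 2 ≤ β
  β1 : β ≤ 23 / 10

/-- The state `(V', K', b')` arises from `(V, K, b)` by declaring `R` defective and `G`
non-defective; `A` is used for the probability estimate. -/
theorem next_of {p : ℝ} (hp0 : 0 < p) (hp1 : p < 1) {t : ℕ} {V V' : Finset α}
    {K K' : Finset (Finset α)} {b b' k : ℕ} (R G A : Finset α) (hV' : V' = (V \ R) \ G)
    (hR : R ⊆ V) (hG : G ⊆ V) (hRG : Disjoint R G) (hRc : R.card ≤ 2) (hGc : G.card ≤ 2)
    (hRGc : R.card + G.card ≤ 3) (hb : b = b' + R.card)
    (h1 : ∀ D ⊆ V', Hits K' D → Hits K (D ∪ R)) (hA : A ⊆ V') (hAc : A.card ≤ 2)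
    (h2 : ∀ D ⊆ V, Hits K D → Hits K' ((D ∩ V') ∪ A)) (hk : 1 ≤ k) (hGood : Good V' K')
    (hg : b + G.card + 1 ≤ V.card)
    (hS : fam V' K' b' = ∅ ∨ ∃ s, s + k = t ∧ Solves s (fam V' K' b')) :
    Next p t V K b V' K' b' k := by
  have hcard : V'.card + R.card + G.card = V.card := by
    rw [hV', Finset.card_sdiff_of_subset, Finset.card_sdiff_of_subset hR]
    · have h1 := Finset.card_le_card hR
      have h2 : G.card ≤ (V \ R).card := by
        apply Finset.card_le_card
        intro x hx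
        exact Finset.mem_sdiff.2 ⟨hG hx, fun h => Finset.disjoint_left.1 hRG h hx⟩
      rw [Finset.card_sdiff_of_subset hR] at h2
      omega
    · intro x hx
      exact Finset.mem_sdiff.2 ⟨hG hx, fun h => Finset.disjoint_left.1 hRG h hx⟩
  refine ⟨hk, hGood, ?_, by omega, by omega, ?_, hS⟩
  · rw [hV']; exact Finset.sdiff_subset.trans Finset.sdiff_subset
  · exact moveOK_of hp0 hp1 R G A hV' hR hG hRG hRc hGc hb h1 hA hAc h2

/-- A move in which no item is removed: only the hypergraph changes; `A` hits all new edges. -/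
theorem next_same {p : ℝ} (hp0 : 0 < p) (hp1 : p < 1) {t : ℕ} {V : Finset α}
    {K K' : Finset (Finset α)} {b k : ℕ} (A : Finset α) (hA : A ⊆ V) (hAc : A.card ≤ 2)
    (h1 : ∀ D ⊆ V, Hits K' D → Hits K D) (h2 : ∀ D ⊆ V, A ⊆ D → Hits K D → Hits K' D)
    (hk : 1 ≤ k) (hGood : Good V K') (hg : b + 1 ≤ V.card)
    (hS : fam V K' b = ∅ ∨ ∃ s, s + k = t ∧ Solves s (fam V K' b)) :
    Next p t V K b V K' b k := by
  refine next_of hp0 hp1 ∅ ∅ A (by simp) (by simp) (by simp) (by simp) (by simp) (by simp)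
    (by simp) (by simp) (fun D hD h => by simpa using h1 D hD h) hA hAc ?_ hk hGood
    (by simpa using hg) hS
  intro D hD hK
  have hDV : D ∩ V = D := Finset.inter_eq_left.2 hD
  rw [hDV]
  refine h2 _ (Finset.union_subset hD hA) Finset.subset_union_right ?_
  intro e he
  exact (hK e he).mono (Finset.inter_subset_inter_left Finset.subset_union_left)

end Pool.MP_38cb75_co.GT
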