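import Pool.Agent.Lib.MP_38cb75_co.Basic

/-! JOB STRATB: the trivial strategy with `n - 1` tests. -/

set_option autoImplicit false

namespace Pool.MP_38cb75_co.GT

/-- Testing all items but the last one, one by one. -/
theorem strategy_upper (d n : ℕ) (hn : 0 < n) :
    ∃ f : (Fin (n - 1) → Bool) → Fin (n - 1) → Finset (Fin n),
        (∀ h h' : Fin (n - 1) → Bool, ∀ i : Fin (n - 1),
            (∀ j : Fin (n - 1), j < i → h j = h' j) → f h i = f h' i) ∧
        ∀ D D' : Finset (Fin n), D.card = d → D'.card = d →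
          ∀ t : Fin (n - 1) → Bool,
            (∀ i : Fin (n - 1), t i = decide ((f t i ∩ D).Nonempty)) →
            (∀ i : Fin (n - 1), t i = decide ((f t i ∩ D').Nonempty)) →
            D = D' := by
  obtain ⟨m, rfl⟩ : ∃ m, n = m + 1 := ⟨n - 1, by omega⟩
  refine ⟨fun _ i => {(⟨i.1, by omega⟩ : Fin (m + 1))}, fun _ _ _ _ => rfl, ?_⟩
  intro D D' hD hD' t h1 h2
  have key : ∀ x : Fin (m + 1), x ≠ Fin.last m → (x ∈ D ↔ x ∈ D') := by
    intro x hx
    have hxm : x.1 < m + 1 - 1 := by
      have h3 := x.2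
      have h4 : x.1 ≠ m := fun h => hx (Fin.ext h)
      omega
    have h3 := h1 ⟨x.1, hxm⟩
    have h4 := h2 ⟨x.1, hxm⟩
    rw [h3] at h4
    have h5 := decide_eq_decide.1 h4
    have h6 : ∀ E : Finset (Fin (m + 1)), ((({x} : Finset (Fin (m + 1))) ∩ E).Nonempty ↔ x ∈ E) := by
      intro E
      constructor
      · rintro ⟨y, hy⟩
        rw [Finset.mem_inter, Finset.mem_singleton] at hy
        exact hy.1 ▸ hy.2
      · intro h
        exact ⟨x, Finset.mem_inter.2 ⟨Finset.mem_singleton_self x, h⟩⟩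
    exact (h6 D).symm.trans (h5.trans (h6 D'))
  have herase : D.erase (Fin.last m) = D'.erase (Fin.last m) := by
    ext x
    rw [Finset.mem_erase, Finset.mem_erase]
    constructor
    · rintro ⟨h3, h4⟩; exact ⟨h3, (key x h3).1 h4⟩
    · rintro ⟨h3, h4⟩; exact ⟨h3, (key x h3).2 h4⟩
  have hlast : Fin.last m ∈ D ↔ Fin.last m ∈ D' := by
    constructor
    · intro h3
      by_contra h4
      have h5 := Finset.card_erase_of_mem h3
      rw [herase, Finset.erase_eq_of_notMem h4, hD', hD] at h5
      have h6 : 0 < D.card := Finset.card_pos.2 ⟨_, h3⟩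
      omega
    · intro h3
      by_contra h4
      have h5 := Finset.card_erase_of_mem h3
      rw [← herase, Finset.erase_eq_of_notMem h4, hD', hD] at h5
      have h6 : 0 < D'.card := Finset.card_pos.2 ⟨_, h3⟩
      omega
  ext x
  by_cases hx : x = Fin.last m
  · rw [hx]; exact hlast
  · exact key x hx

end Pool.MP_38cb75_co.GT
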