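import Pool.Agent.Lib.MP_38cb75_co.MainGame
import Pool.Agent.Lib.MP_38cb75_co.Recursion
import Pool.Agent.Lib.MP_38cb75_co.Strategy

/-! From the main induction to the theorem (proved from the other files). -/

set_option autoImplicit false

namespace Pool.MP_38cb75_co.GT

open Filter Asymptotics

theorem start {c : ℝ} (hc : 17 / 6 ≤ c) (hc' : c < r₀) {n b J : ℕ} (hbn : b + 1 ≤ n)
    (hn : (n : ℝ) ≤ c * b) (hJ : 900 * n ≤ J ^ 2) (hJ40 : 40 ≤ J)
    (hJδ : 10 ≤ (3 / (2 * (c - 1)) * (β₀ - 1) - 1) * J) :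
    (n : ℝ) - 1 ≤ M b n + Err n J := by
  have hr := r₀_le
  have hc1 : 0 < c - 1 := by linarith
  have hb0 : (0 : ℝ) ≤ b := by positivity
  have hp0 := p₀_lower
  have hp1 := p₀_upper
  have hinv : up p₀ (Finset.range n) (∅ : Finset (Finset ℕ)) b ≤
      (2 / 3) * Z p₀ (Finset.range n) (∅ : Finset (Finset ℕ)) := by
    rw [Z_empty]
    have h1 := up_empty_le (p := p₀) (by linarith) (by linarith) (V := Finset.range n) (b := b)
    rw [Finset.card_range] at h1
    have h2 := p₀_upper'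
    have h3 : p₀ * n ≤ (2063 / 10000) * (3 * b) := by
      have h4 : (n : ℝ) ≤ 3 * b := hn.trans (by nlinarith)
      have h5 : (0 : ℝ) ≤ n := by positivity
      nlinarith
    by_contra hcon
    push Not at hcon
    nlinarith
  have h := main_game hc hc' (show 0 < n by omega) hJ hJ40 hJδ (M b n) (Finset.range n) ∅ b
    (good_empty _) (by simp) (by simpa using hbn) hinv (solves_M b n)
  have hL2 : (n : ℝ) - 1 ≤ L2 ((c - 2) / (c - 1)) (Finset.range n) (∅ : Finset (Finset ℕ)) b := by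
    unfold L2
    rw [Finset.card_range, Finset.card_empty]
    have ha : (c - 2) / (c - 1) = 1 - 1 / (c - 1) := by
      field_simp; ring
    rw [ha]
    have h1 : 1 / (c - 1) * ((n : ℝ) - b) ≤ b := by
      rw [div_mul_eq_mul_div, div_le_iff₀ hc1]
      nlinarith
    push_cast
    nlinarith
  have hPhi : (n : ℝ) - 1 ≤ Phi β₀ (Finset.range n) (∅ : Finset (Finset ℕ)) b := by
    unfold Phi
    have hl : (leaves (∅ : Finset (Finset ℕ))).card = 0 := by
      simp [leaves]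
    rw [Finset.card_range, Finset.card_empty, hl]
    have h1 : (n : ℝ) ≤ r₀ * b := hn.trans (mul_le_mul_of_nonneg_right hc'.le hb0)
    unfold r₀ at h1
    push_cast
    nlinarith
  rw [Finset.card_range] at h
  rw [le_min_iff.2 ⟨le_refl _, le_min hL2 hPhi⟩ |>.antisymm (min_le_left _ _) |>.symm] at h
  exact h

theorem littleO_aux (B : ℝ) :
    (fun x : ℝ => Real.sqrt x * (B + Real.logb 2 x)) =o[atTop] (fun x : ℝ => x) := by
  have h1 : (fun x : ℝ => B + Real.logb 2 x) =o[atTop] (fun x : ℝ => x ^ ((1 : ℝ) / 2)) := by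
    apply IsLittleO.add
    · have := (tendsto_rpow_atTop (show (0 : ℝ) < 1 / 2 by norm_num))
      exact isLittleO_const_left.2 (Or.inr (tendsto_norm_atTop_atTop.comp this))
    · have h2 := (isLittleO_log_rpow_atTop (show (0 : ℝ) < 1 / 2 by norm_num))
      have h3 : Real.logb 2 = fun x : ℝ => (Real.log 2)⁻¹ * Real.log x := by
        funext x
        unfold Real.logb
        rw [div_eq_inv_mul]
      rw [h3]
      exact h2.const_mul_left _
  have h4 : (fun x : ℝ => Real.sqrt x) =O[atTop] (fun x : ℝ => x ^ ((1 : ℝ) / 2)) := by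
    simp_rw [Real.sqrt_eq_rpow]
    exact isBigO_refl _ _
  have h5 := h4.mul_isLittleO h1
  refine h5.trans_eventuallyEq ?_
  filter_upwards [eventually_gt_atTop (0 : ℝ)] with x hx
  rw [← Real.rpow_add hx]
  norm_num

theorem err_small (J₀ : ℕ) {ε : ℝ} (hε : 0 < ε) :
    ∃ d₀ : ℕ, ∀ d m : ℕ, d₀ ≤ d → 0 < m → m ≤ 3 * d →
      Err m (J₀ * (Nat.sqrt m + 1)) ≤ ε * d := by
  set C : ℝ := 4 * J₀ + 1 with hC
  have hC0 : 0 < C := by positivity
  have h1 := (littleO_aux 8).def (show 0 < ε / C by positivity)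
  rw [eventually_atTop] at h1
  obtain ⟨x₀, hx₀⟩ := h1
  refine ⟨max 1 (Nat.ceil x₀), ?_⟩
  intro d m hd hm hmd
  have hd1 : 1 ≤ d := le_trans (le_max_left _ _) hd
  have hdx : x₀ ≤ (d : ℝ) :=
    (Nat.le_ceil x₀).trans (by exact_mod_cast le_trans (le_max_right _ _) hd)
  have h2 := hx₀ (d : ℝ) hdx
  have hd1' : (1 : ℝ) ≤ d := by exact_mod_cast hd1
  have hd0 : (0 : ℝ) < d := by linarith
  have hlog0 : 0 ≤ Real.logb 2 (d : ℝ) := Real.logb_nonneg (by norm_num) hd1'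
  have hs0 : 0 ≤ Real.sqrt d := Real.sqrt_nonneg _
  have hs1 : 1 ≤ Real.sqrt d := by
    rw [show (1 : ℝ) = Real.sqrt 1 by simp]
    exact Real.sqrt_le_sqrt hd1'
  rw [Real.norm_of_nonneg (by positivity), Real.norm_of_nonneg hd0.le] at h2
  have h3 : C * (Real.sqrt d * (8 + Real.logb 2 d)) ≤ ε * d := by
    calc C * (Real.sqrt d * (8 + Real.logb 2 d)) ≤ C * (ε / C * d) :=
          mul_le_mul_of_nonneg_left h2 hC0.le
      _ = ε * d := by field_simp
  refine le_trans ?_ h3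
  have hm1 : (1 : ℝ) ≤ m := by exact_mod_cast hm
  have hmd' : (m : ℝ) ≤ 3 * d := by exact_mod_cast hmd
  have hsq : (Nat.sqrt m : ℝ) ≤ 2 * Real.sqrt d := by
    have h4 : (Nat.sqrt m : ℝ) ≤ Real.sqrt m := Real.nat_sqrt_le_real_sqrt
    have h5 : Real.sqrt m ≤ Real.sqrt (4 * d) := Real.sqrt_le_sqrt (by linarith)
    have h6 : Real.sqrt (4 * d) = 2 * Real.sqrt d := by
      rw [Real.sqrt_mul (by norm_num), show (4 : ℝ) = 2 ^ 2 by norm_num,
        Real.sqrt_sq (by norm_num)]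
    linarith
  have hJ : ((J₀ * (Nat.sqrt m + 1) : ℕ) : ℝ) ≤ 3 * J₀ * Real.sqrt d := by
    push_cast
    have : (0 : ℝ) ≤ J₀ := by positivity
    nlinarith
  have hlm : Real.logb 2 (m : ℝ) ≤ 2 + Real.logb 2 d := by
    have h4 : Real.logb 2 (m : ℝ) ≤ Real.logb 2 (2 ^ 2 * d) :=
      Real.logb_le_logb_of_le (by norm_num) (by linarith) (by linarith)
    rw [Real.logb_mul (by norm_num) hd0.ne'] at h4
    have h5 : Real.logb 2 ((2 : ℝ) ^ 2) = 2 := by
      rw [Real.logb_pow]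
      simp
    linarith
  have hlm0 : 0 ≤ Real.logb 2 (m : ℝ) := Real.logb_nonneg (by norm_num) hm1
  have hl12 : Real.logb 2 (12 * ((m : ℝ) + 1)) ≤ 6 + Real.logb 2 d := by
    have h4 : Real.logb 2 (12 * ((m : ℝ) + 1)) ≤ Real.logb 2 (2 ^ 6 * d) :=
      Real.logb_le_logb_of_le (by norm_num) (by linarith) (by linarith)
    rw [Real.logb_mul (by norm_num) hd0.ne'] at h4
    have h5 : Real.logb 2 ((2 : ℝ) ^ 6) = 6 := by
      rw [Real.logb_pow]
      simp
    linarith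
  unfold Err
  set Jr : ℝ := ((J₀ * (Nat.sqrt m + 1) : ℕ) : ℝ) with hJr
  have hJr0 : 0 ≤ Jr := by positivity
  have h7 : Jr * Real.logb 2 (m : ℝ) ≤ 3 * J₀ * Real.sqrt d * (2 + Real.logb 2 d) := by
    calc Jr * Real.logb 2 (m : ℝ) ≤ (3 * J₀ * Real.sqrt d) * Real.logb 2 (m : ℝ) :=
          mul_le_mul_of_nonneg_right hJ hlm0
      _ ≤ 3 * J₀ * Real.sqrt d * (2 + Real.logb 2 d) :=
          mul_le_mul_of_nonneg_left hlm (by positivity)
  have hJ0 : (0 : ℝ) ≤ J₀ := by positivity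
  have h8 : 0 ≤ J₀ * Real.sqrt d := by positivity
  have h9 : 0 ≤ J₀ * Real.sqrt d * Real.logb 2 d := by positivity
  have h10 : Real.logb 2 d ≤ Real.sqrt d * Real.logb 2 d := by nlinarith
  have hexp : C * (Real.sqrt d * (8 + Real.logb 2 d)) =
      32 * (J₀ * Real.sqrt d) + 4 * (J₀ * Real.sqrt d * Real.logb 2 d) + 8 * Real.sqrt d +
        Real.sqrt d * Real.logb 2 d := by
    rw [hC]; ring
  rw [hexp]
  nlinarith

theorem M_lower {c : ℝ} (hc : 17 / 6 ≤ c) (hcr : c < r₀) :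
    ∃ d₀ : ℕ, ∀ d n : ℕ, d₀ ≤ d → d < n → (n : ℝ) ≤ c * d → n - 1 ≤ M d n := by
  have hr := r₀_le
  set c₁ : ℝ := (c + r₀) / 2 with hc₁
  have hcc₁ : c < c₁ := by rw [hc₁]; linarith
  have hc₁r : c₁ < r₀ := by rw [hc₁]; linarith
  have hc₁1 : 0 < c₁ - 1 := by linarith
  -- δ > 0
  set δ : ℝ := 3 / (2 * (c₁ - 1)) * (β₀ - 1) - 1 with hδ
  have hδ0 : 0 < δ := by
    rw [hδ]
    have h1 : c₁ < (3 * β₀ - 1) / 2 := hc₁r
    have h2 : 1 < 3 / (2 * (c₁ - 1)) * (β₀ - 1) := by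
      rw [div_mul_eq_mul_div, lt_div_iff₀ (by linarith)]
      linarith
    linarith
  -- J₀
  obtain ⟨J₁, hJ₁⟩ := exists_nat_gt (10 / δ)
  set J₀ : ℕ := 40 + J₁ with hJ₀
  set κ : ℝ := (c₁ - c) / (c₁ - 1) with hκ
  have hκ0 : 0 < κ := div_pos (by linarith) hc₁1
  have hκ1 : κ < 1 := by
    rw [hκ, div_lt_one hc₁1]; linarith
  obtain ⟨d₁, hd₁⟩ := err_small J₀ (show 0 < κ / 2 by linarith)
  obtain ⟨d₂, hd₂⟩ := exists_nat_gt (2 / κ)
  refine ⟨max d₁ d₂, ?_⟩
  intro d n hd hdn hn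
  have hdd₁ : d₁ ≤ d := le_trans (le_max_left _ _) hd
  have hdd₂ : d₂ ≤ d := le_trans (le_max_right _ _) hd
  have hd0 : (0 : ℝ) ≤ d := by positivity
  set i : ℕ := Nat.floor (κ * d) with hi
  have hi1 : (i : ℝ) ≤ κ * d := Nat.floor_le (by positivity)
  have hi2 : κ * d < i + 1 := Nat.lt_floor_add_one _
  have hid : i ≤ d := by
    have : (i : ℝ) ≤ d := hi1.trans (by nlinarith)
    exact_mod_cast this
  have hκd : 2 ≤ κ * d := by
    have h1 : 2 / κ < d := hd₂.trans_le (by exact_mod_cast hdd₂)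
    rw [div_lt_iff₀ hκ0] at h1
    linarith
  have hrec := M_rec hdn hid
  have hni : ((n - i : ℕ) : ℝ) = n - i := by
    rw [Nat.cast_sub (by omega)]
  have hdi : ((d - i : ℕ) : ℝ) = d - i := by
    rw [Nat.cast_sub hid]
  have hlow : (n : ℝ) - i - 1 ≤ M (d - i) (n - i) + Err (n - i) (J₀ * (Nat.sqrt (n - i) + 1)) := by
    have h := start (c := c₁) (by linarith) hc₁r (n := n - i) (b := d - i)
      (J := J₀ * (Nat.sqrt (n - i) + 1)) (by omega) ?_ ?_ ?_ ?_
    · rw [hni] at h; exact h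
    · rw [hni, hdi]
      have h1 : (c₁ - 1) * i ≤ (c₁ - c) * d := by
        have h2 : (c₁ - 1) * (κ * d) = (c₁ - c) * d := by
          rw [hκ]; field_simp
        rw [← h2]
        exact mul_le_mul_of_nonneg_left hi1 hc₁1.le
      nlinarith
    · have h1 : n - i < (Nat.sqrt (n - i) + 1) * (Nat.sqrt (n - i) + 1) := Nat.lt_succ_sqrt (n - i)
      have h2 : 30 ≤ J₀ := by omega
      have h3 : 30 * (Nat.sqrt (n - i) + 1) ≤ J₀ * (Nat.sqrt (n - i) + 1) :=
        Nat.mul_le_mul_right _ h2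
      calc 900 * (n - i) ≤ 900 * ((Nat.sqrt (n - i) + 1) * (Nat.sqrt (n - i) + 1)) := by omega
        _ = (30 * (Nat.sqrt (n - i) + 1)) ^ 2 := by ring
        _ ≤ (J₀ * (Nat.sqrt (n - i) + 1)) ^ 2 := Nat.pow_le_pow_left h3 2
    · have h1 : 1 ≤ Nat.sqrt (n - i) + 1 := by omega
      calc 40 ≤ J₀ * 1 := by omega
        _ ≤ J₀ * (Nat.sqrt (n - i) + 1) := Nat.mul_le_mul_left _ h1
    · have h1 : (J₁ : ℝ) ≤ ((J₀ * (Nat.sqrt (n - i) + 1) : ℕ) : ℝ) := by
        have : J₁ ≤ J₀ * (Nat.sqrt (n - i) + 1) := by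
          calc J₁ ≤ J₀ * 1 := by omega
            _ ≤ _ := Nat.mul_le_mul_left _ (by omega)
        exact_mod_cast this
      have h2 : 10 < δ * J₁ := by
        rw [div_lt_iff₀ hδ0] at hJ₁
        linarith
      nlinarith
  have herr : Err (n - i) (J₀ * (Nat.sqrt (n - i) + 1)) ≤ κ / 2 * d := by
    apply hd₁ d (n - i) hdd₁ (by omega)
    have h1 : (n : ℝ) ≤ 3 * d := hn.trans (by nlinarith)
    have h2 : n ≤ 3 * d := by exact_mod_cast h1
    omega
  have hfin : (n : ℝ) - 1 ≤ 2 * i + M (d - i) (n - i) := by linarith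
  have hfin' : n - 1 ≤ 2 * i + M (d - i) (n - i) := by
    have h1 : (n : ℝ) ≤ ((2 * i + M (d - i) (n - i) + 1 : ℕ) : ℝ) := by
      push_cast; linarith
    have h2 : n ≤ 2 * i + M (d - i) (n - i) + 1 := by exact_mod_cast h1
    omega
  rw [min_eq_left hfin'] at hrec
  exact hrec

/-- The final statement in the form of the frozen problem. -/
theorem final {c : ℝ} (hcr : c < r₀) :
    ∃ d₀ : ℕ, ∀ d n : ℕ, d₀ ≤ d → d < n → (n : ℝ) ≤ c * d →
      sInf {k : ℕ | ∃ f : (Fin k → Bool) → Fin k → Finset (Fin n),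
        (∀ h h' : Fin k → Bool, ∀ i : Fin k,
            (∀ j : Fin k, j < i → h j = h' j) → f h i = f h' i) ∧
        ∀ D D' : Finset (Fin n), D.card = d → D'.card = d →
          ∀ t : Fin k → Bool,
            (∀ i : Fin k, t i = decide ((f t i ∩ D).Nonempty)) →
            (∀ i : Fin k, t i = decide ((f t i ∩ D').Nonempty)) →
            D = D'} = n - 1 := by
  have hr := r₀_lower
  obtain ⟨d₀, hd₀⟩ := M_lower (c := max c (17 / 6)) (le_max_right _ _)
    (max_lt hcr (by norm_num at hr ⊢; linarith))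
  refine ⟨d₀, ?_⟩
  intro d n hd hdn hn
  have hd0 : (0 : ℝ) ≤ d := by positivity
  have hM : n - 1 ≤ M d n :=
    hd₀ d n hd hdn (hn.trans (mul_le_mul_of_nonneg_right (le_max_left _ _) hd0))
  apply le_antisymm
  · exact Nat.sInf_le (strategy_upper d n (by omega))
  · apply le_csInf ⟨n - 1, strategy_upper d n (by omega)⟩
    rintro k ⟨f, hf1, hf2⟩
    have hsol : Solves k {D : Finset (Fin n) | D.card = d} :=
      solves_of_strategy k _ f hf1 (fun D hD D' hD' t h1 h2 => hf2 D D' hD hD' t h1 h2)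
    have hsol' : Solves k (fam (Finset.univ : Finset (Fin n)) (∅ : Finset (Finset (Fin n))) d) := by
      apply Solves.mono_set _ hsol
      intro D hD
      exact hD.2.1
    have h3 := M_le hsol'
    rw [Finset.card_univ, Fintype.card_fin] at h3
    omega

end Pool.MP_38cb75_co.GT
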