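import Pool.Agent.Lib.MP_38cb75_co.Basic

/-! JOB STRATA: link with the strategies of the frozen statement. -/

set_option autoImplicit false

namespace Pool.MP_38cb75_co.GT

/-- An adaptive strategy with `k` tests in the sense of the frozen statement which identifies every
member of `F` gives `Solves k F`.  Induction on `k`: the first test `f h 0` does not depend on `h`;
after the answer `b` use the strategy `fun h i => f (Fin.cons b h) i.succ`. -/
theorem solves_of_strategy {α : Type*} [DecidableEq α] (k : ℕ) (F : Set (Finset α))
    (f : (Fin k → Bool) → Fin k → Finset α)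
    (hf : ∀ h h' : Fin k → Bool, ∀ i : Fin k, (∀ j : Fin k, j < i → h j = h' j) → f h i = f h' i)
    (hD : ∀ D ∈ F, ∀ D' ∈ F, ∀ t : Fin k → Bool,
      (∀ i : Fin k, t i = decide ((f t i ∩ D).Nonempty)) →
      (∀ i : Fin k, t i = decide ((f t i ∩ D').Nonempty)) → D = D') :
    Solves k F := by
  induction k generalizing F with
  | zero =>
    intro D hDF D' hDF'
    exact hD D hDF D' hDF' (fun i => i.elim0) (fun i => i.elim0) (fun i => i.elim0)
  | succ k ih =>
    -- the subtree of one answer
    have key : ∀ (c : Bool) (G : Set (Finset α)), (∀ D ∈ G, D ∈ F ∧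
        c = decide ((f (fun _ => true) 0 ∩ D).Nonempty)) → Solves k G := by
      intro c G hG
      have h0 : ∀ h : Fin (k + 1) → Bool, f h 0 = f (fun _ => true) 0 := by
        intro h
        apply hf
        intro j hj
        exact absurd hj (Fin.not_lt_zero j)
      have hcons : ∀ (t : Fin k → Bool) (D : Finset α),
          c = decide ((f (fun _ => true) 0 ∩ D).Nonempty) →
          (∀ i : Fin k, t i = decide ((f (Fin.cons c t) i.succ ∩ D).Nonempty)) →
          ∀ i : Fin (k + 1), (Fin.cons c t : Fin (k + 1) → Bool) i =
            decide ((f (Fin.cons c t) i ∩ D).Nonempty) := by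
        intro t D hc ht i
        refine Fin.cases ?_ (fun j => ?_) i
        · rw [Fin.cons_zero, h0]
          exact hc
        · rw [Fin.cons_succ]
          exact ht j
      apply ih G (fun h i => f (Fin.cons c h) i.succ)
      · intro h h' i hj
        apply hf
        intro j
        refine Fin.cases ?_ (fun j' => ?_) j
        · intro _
          rw [Fin.cons_zero, Fin.cons_zero]
        · intro hlt
          rw [Fin.cons_succ, Fin.cons_succ]
          exact hj j' (Fin.succ_lt_succ_iff.1 hlt)
      · intro D hDG D' hDG' t ht ht'
        obtain ⟨h1, h2⟩ := hG D hDG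
        obtain ⟨h3, h4⟩ := hG D' hDG'
        exact hD D h1 D' h3 (Fin.cons c t) (hcons t D h2 ht) (hcons t D' h4 ht')
    refine ⟨f (fun _ => true) 0, key true _ ?_, key false _ ?_⟩
    · rintro D ⟨h1, h2⟩
      exact ⟨h1, by simp [h2]⟩
    · rintro D ⟨h1, h2⟩
      exact ⟨h1, by simp [h2]⟩

end Pool.MP_38cb75_co.GT
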