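import Pool.Agent.Lib.MP_38cb75_co.Defs

/-! JOB SUMA: elementary facts on the weighted sums `wsum p V K φ`. -/

set_option autoImplicit false

namespace Pool.MP_38cb75_co.GT

variable {α : Type*} [DecidableEq α]

private theorem sumA_eq {p : ℝ} {V : Finset α} {K : Finset (Finset α)} {φ : ℕ → ℝ} :
    wsum p V K φ = ∑ D ∈ V.powerset,
      if Hits K D then p ^ D.card * (1 - p) ^ (V.card - D.card) * φ D.card else 0 := by
  unfold wsum
  rw [Finset.sum_filter]

private theorem sumA_hits {K : Finset (Finset α)} {D : Finset α} {a : α} (ha : a ∉ D) :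
    Hits K (insert a D) ↔ Hits (del K a) D := by
  constructor
  · intro h e he
    unfold del at he
    rw [Finset.mem_filter] at he
    obtain ⟨x, hx⟩ := h e he.1
    rw [Finset.mem_inter, Finset.mem_insert] at hx
    rcases hx.2 with rfl | h2
    · exact absurd hx.1 he.2
    · exact ⟨x, Finset.mem_inter.2 ⟨hx.1, h2⟩⟩
  · intro h e he
    by_cases hae : a ∈ e
    · exact ⟨a, Finset.mem_inter.2 ⟨hae, Finset.mem_insert_self _ _⟩⟩
    · obtain ⟨x, hx⟩ := h e (Finset.mem_filter.2 ⟨he, hae⟩)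
      rw [Finset.mem_inter] at hx
      exact ⟨x, Finset.mem_inter.2 ⟨hx.1, Finset.mem_insert_of_mem hx.2⟩⟩

/-- Split according to `a ∈ D`. -/
theorem wsum_split {p : ℝ} {V : Finset α} {K : Finset (Finset α)} {φ : ℕ → ℝ} {a : α}
    (ha : a ∈ V) :
    wsum p V K φ = p * wsum p (V.erase a) (del K a) (fun j => φ (j + 1)) +
      (1 - p) * wsum p (V.erase a) K φ := by
  have hc : (V.erase a).card + 1 = V.card := Finset.card_erase_add_one ha
  have hna : a ∉ V.erase a := Finset.notMem_erase a V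
  rw [sumA_eq, sumA_eq, sumA_eq]
  conv_lhs => rw [← Finset.insert_erase ha]
  rw [Finset.sum_powerset_insert hna, Finset.mul_sum, Finset.mul_sum, add_comm]
  congr 1
  · refine Finset.sum_congr rfl fun D hD => ?_
    have hDV := Finset.mem_powerset.1 hD
    have hD' : a ∉ D := fun h => hna (hDV h)
    have hcD : (insert a D).card = D.card + 1 := Finset.card_insert_of_notMem hD'
    have hle := Finset.card_le_card hDV
    rw [Finset.insert_erase ha]
    by_cases h : Hits (del K a) D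
    · rw [if_pos ((sumA_hits hD').2 h), if_pos h, hcD, pow_succ,
        show V.card - (D.card + 1) = (V.erase a).card - D.card by omega]
      ring
    · rw [if_neg (fun h' => h ((sumA_hits hD').1 h')), if_neg h, mul_zero]
  · refine Finset.sum_congr rfl fun D hD => ?_
    have hDV := Finset.mem_powerset.1 hD
    have hle := Finset.card_le_card hDV
    rw [Finset.insert_erase ha]
    by_cases h : Hits K D
    · rw [if_pos h, if_pos h, show V.card - D.card = (V.erase a).card - D.card + 1 by omega,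
        pow_succ]
      ring
    · rw [if_neg h, if_neg h, mul_zero]

theorem wsum_congr {p : ℝ} {V : Finset α} {K K' : Finset (Finset α)} {φ : ℕ → ℝ}
    (h : ∀ D ⊆ V, (Hits K D ↔ Hits K' D)) : wsum p V K φ = wsum p V K' φ := by
  rw [sumA_eq, sumA_eq]
  refine Finset.sum_congr rfl fun D hD => ?_
  have h1 := h D (Finset.mem_powerset.1 hD)
  by_cases h2 : Hits K D
  · rw [if_pos h2, if_pos (h1.1 h2)]
  · rw [if_neg h2, if_neg (fun h3 => h2 (h1.2 h3))]

theorem wsum_eq_zero {p : ℝ} {V : Finset α} {K : Finset (Finset α)} {φ : ℕ → ℝ} {e : Finset α}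
    (he : e ∈ K) (hd : Disjoint e V) : wsum p V K φ = 0 := by
  rw [sumA_eq]
  refine Finset.sum_eq_zero fun D hD => ?_
  rw [if_neg]
  intro h
  obtain ⟨x, hx⟩ := h e he
  rw [Finset.mem_inter] at hx
  exact Finset.disjoint_left.1 hd hx.1 (Finset.mem_powerset.1 hD hx.2)

theorem wsum_mono {p : ℝ} (hp0 : 0 ≤ p) (hp1 : p ≤ 1) {V : Finset α} {K K' : Finset (Finset α)}
    {φ ψ : ℕ → ℝ} (h : ∀ D ⊆ V, Hits K D → Hits K' D) (hφ : ∀ j, 0 ≤ φ j) (hφψ : ∀ j, φ j ≤ ψ j) :
    wsum p V K φ ≤ wsum p V K' ψ := by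
  rw [sumA_eq, sumA_eq]
  refine Finset.sum_le_sum fun D hD => ?_
  have hq : 0 ≤ 1 - p := by linarith
  have hw : 0 ≤ p ^ D.card * (1 - p) ^ (V.card - D.card) := by positivity
  by_cases h2 : Hits K D
  · rw [if_pos h2, if_pos (h D (Finset.mem_powerset.1 hD) h2)]
    exact mul_le_mul_of_nonneg_left (hφψ _) hw
  · rw [if_neg h2]
    split_ifs
    · exact mul_nonneg hw ((hφ _).trans (hφψ _))
    · exact le_rfl

theorem wsum_nonneg {p : ℝ} (hp0 : 0 ≤ p) (hp1 : p ≤ 1) {V : Finset α} {K : Finset (Finset α)}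
    {φ : ℕ → ℝ} (hφ : ∀ j, 0 ≤ φ j) : 0 ≤ wsum p V K φ := by
  have hq : 0 ≤ 1 - p := by linarith
  unfold wsum
  exact Finset.sum_nonneg fun D _ => mul_nonneg (by positivity) (hφ _)

theorem wsum_add {p : ℝ} {V : Finset α} {K : Finset (Finset α)} {φ ψ : ℕ → ℝ} :
    wsum p V K (fun j => φ j + ψ j) = wsum p V K φ + wsum p V K ψ := by
  unfold wsum
  rw [← Finset.sum_add_distrib]
  exact Finset.sum_congr rfl fun D _ => by ring

theorem wsum_smul {p c : ℝ} {V : Finset α} {K : Finset (Finset α)} {φ : ℕ → ℝ} :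
    wsum p V K (fun j => c * φ j) = c * wsum p V K φ := by
  unfold wsum
  rw [Finset.mul_sum]
  exact Finset.sum_congr rfl fun D _ => by ring

/-- An item in no edge is free. -/
theorem wsum_free {p : ℝ} {V : Finset α} {K : Finset (Finset α)} {φ : ℕ → ℝ} {a : α}
    (ha : a ∈ V) (hK : ∀ e ∈ K, a ∉ e) :
    wsum p V K φ = p * wsum p (V.erase a) K (fun j => φ (j + 1)) +
      (1 - p) * wsum p (V.erase a) K φ := by
  have h : del K a = K := Finset.filter_true_of_mem hK
  rw [wsum_split ha, h]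

theorem Z_free {p : ℝ} {V : Finset α} {K : Finset (Finset α)} {a : α}
    (ha : a ∈ V) (hK : ∀ e ∈ K, a ∉ e) : Z p V K = Z p (V.erase a) K := by
  unfold Z
  rw [wsum_free ha hK]
  ring

/-- `D = V` hits `K`. -/
theorem Z_pos {p : ℝ} (hp0 : 0 < p) (hp1 : p < 1) {V : Finset α} {K : Finset (Finset α)}
    (hK : ∀ e ∈ K, e ⊆ V ∧ e.Nonempty) : 0 < Z p V K := by
  have hq : 0 < 1 - p := by linarith
  unfold Z wsum
  refine Finset.sum_pos' (fun D _ => by positivity) ⟨V, ?_, by positivity⟩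
  rw [Finset.mem_filter, Finset.mem_powerset]
  refine ⟨Finset.Subset.refl _, fun e he => ?_⟩
  rw [Finset.inter_eq_left.2 (hK e he).1]
  exact (hK e he).2

theorem Z_empty {p : ℝ} (V : Finset α) : Z p V (∅ : Finset (Finset α)) = 1 := by
  unfold Z
  rw [sumA_eq]
  have h : ∀ D : Finset α, Hits (∅ : Finset (Finset α)) D := fun D e he =>
    absurd he (Finset.notMem_empty e)
  simp only [h, if_true, mul_one]
  rw [Finset.sum_pow_mul_eq_add_pow]
  simp

end Pool.MP_38cb75_co.GT
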