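import Pool.Agent.Lib.MP_38cb75_co.Delta

/-! JOB VARIANCE: the variance of the number of defectives is at most `|V|/4`. -/

set_option autoImplicit false

namespace Pool.MP_38cb75_co.GT

variable {α : Type*} [DecidableEq α]

/-- Mixture of two distributions on the integers: `zᵢ` masses, `mᵢ` first, `sᵢ` second
moments. -/
theorem var_mix {z₁ z₂ m₁ m₂ s₁ s₂ B : ℝ} (h₁ : 0 < z₁) (h₂ : 0 < z₂)
    (hv₁ : s₁ / z₁ - (m₁ / z₁) ^ 2 ≤ B) (hv₂ : s₂ / z₂ - (m₂ / z₂) ^ 2 ≤ B)
    (hd : |m₁ / z₁ - m₂ / z₂| ≤ 1) :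
    (s₁ + s₂) / (z₁ + z₂) - ((m₁ + m₂) / (z₁ + z₂)) ^ 2 ≤ B + 1 / 4 := by
  obtain ⟨a₁, ha₁⟩ : ∃ a, a = m₁ / z₁ := ⟨_, rfl⟩
  obtain ⟨a₂, ha₂⟩ : ∃ a, a = m₂ / z₂ := ⟨_, rfl⟩
  obtain ⟨b₁, hb₁⟩ : ∃ a, a = s₁ / z₁ := ⟨_, rfl⟩
  obtain ⟨b₂, hb₂⟩ : ∃ a, a = s₂ / z₂ := ⟨_, rfl⟩
  rw [← ha₁, ← hb₁] at hv₁
  rw [← ha₂, ← hb₂] at hv₂
  rw [← ha₁, ← ha₂] at hd
  have e1 : m₁ = a₁ * z₁ := by rw [ha₁]; field_simp
  have e2 : m₂ = a₂ * z₂ := by rw [ha₂]; field_simp
  have e3 : s₁ = b₁ * z₁ := by rw [hb₁]; field_simp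
  have e4 : s₂ = b₂ * z₂ := by rw [hb₂]; field_simp
  obtain ⟨q, hq⟩ : ∃ q, q = z₁ / (z₁ + z₂) := ⟨_, rfl⟩
  have hz : 0 < z₁ + z₂ := add_pos h₁ h₂
  have hq0 : 0 ≤ q := by rw [hq]; positivity
  have hq1 : 0 ≤ 1 - q := by
    have : 1 - q = z₂ / (z₁ + z₂) := by rw [hq]; field_simp; ring
    rw [this]; positivity
  have hq' : 1 - q = z₂ / (z₁ + z₂) := by rw [hq]; field_simp; ring
  have f1 : (s₁ + s₂) / (z₁ + z₂) = q * b₁ + (1 - q) * b₂ := by
    rw [hq', hq, e3, e4]; field_simp
  have f2 : (m₁ + m₂) / (z₁ + z₂) = q * a₁ + (1 - q) * a₂ := by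
    rw [hq', hq, e1, e2]; field_simp
  rw [f1, f2]
  have hd2 : (a₁ - a₂) ^ 2 ≤ 1 := by
    rw [← sq_abs]
    nlinarith [abs_nonneg (a₁ - a₂)]
  have g1 : q * b₁ ≤ q * (B + a₁ ^ 2) := mul_le_mul_of_nonneg_left (by linarith) hq0
  have g2 : (1 - q) * b₂ ≤ (1 - q) * (B + a₂ ^ 2) := mul_le_mul_of_nonneg_left (by linarith) hq1
  have g3 : q * (1 - q) ≤ 1 / 4 := by nlinarith [sq_nonneg (2 * q - 1)]
  have g4 : q * (1 - q) * (a₁ - a₂) ^ 2 ≤ 1 / 4 := by
    have : q * (1 - q) * (a₁ - a₂) ^ 2 ≤ q * (1 - q) * 1 :=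
      mul_le_mul_of_nonneg_left hd2 (mul_nonneg hq0 hq1)
    linarith
  have g5 : q * (B + a₁ ^ 2) + (1 - q) * (B + a₂ ^ 2) - (q * a₁ + (1 - q) * a₂) ^ 2 =
      B + q * (1 - q) * (a₁ - a₂) ^ 2 := by ring
  linarith

private theorem var_m1 {p : ℝ} {V : Finset α} {K : Finset (Finset α)} (k : ℕ) :
    wsum p V K (fun j => ((j + k : ℕ) : ℝ)) = wsum p V K (fun j => (j : ℝ)) + k * Z p V K := by
  have h : (fun j : ℕ => ((j + k : ℕ) : ℝ)) = fun j : ℕ => (j : ℝ) + (k : ℝ) * 1 := by
    funext j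
    push_cast
    ring
  rw [h, wsum_add, wsum_smul]
  rfl

private theorem var_m2 {p : ℝ} {V : Finset α} {K : Finset (Finset α)} (k : ℕ) :
    wsum p V K (fun j => ((j + k : ℕ) : ℝ) ^ 2) = wsum p V K (fun j => (j : ℝ) ^ 2) +
      2 * k * wsum p V K (fun j => (j : ℝ)) + (k : ℝ) ^ 2 * Z p V K := by
  have h : (fun j : ℕ => ((j + k : ℕ) : ℝ) ^ 2) =
      fun j : ℕ => ((j : ℝ) ^ 2 + (2 * (k : ℝ)) * (j : ℝ)) + (k : ℝ) ^ 2 * 1 := by
    funext j
    push_cast
    ring
  rw [h, wsum_add, wsum_add, wsum_smul, wsum_smul]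
  rfl

private theorem var_step {p : ℝ} (hp0 : 0 < p) (hp1 : p < 1) {V V₁ V₂ : Finset α}
    {K K₁ K₂ : Finset (Finset α)} (hG₁ : Good V₁ K₁) (hG₂ : Good V₂ K₂) {c₁ c₂ B : ℝ} {k₁ k₂ : ℕ}
    (hc₁ : 0 < c₁) (hc₂ : 0 < c₂)
    (h : ∀ φ : ℕ → ℝ, wsum p V K φ = c₁ * wsum p V₁ K₁ (fun j => φ (j + k₁)) +
      c₂ * wsum p V₂ K₂ (fun j => φ (j + k₂)))
    (hv₁ : wsum p V₁ K₁ (fun j => (j : ℝ) ^ 2) / Z p V₁ K₁ - (mean p V₁ K₁) ^ 2 ≤ B)
    (hv₂ : wsum p V₂ K₂ (fun j => (j : ℝ) ^ 2) / Z p V₂ K₂ - (mean p V₂ K₂) ^ 2 ≤ B)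
    (hd : |(k₁ + mean p V₁ K₁) - (k₂ + mean p V₂ K₂)| ≤ 1) :
    wsum p V K (fun j => (j : ℝ) ^ 2) / Z p V K - (mean p V K) ^ 2 ≤ B + 1 / 4 := by
  have hz₁ := hG₁.Z_pos hp0 hp1
  have hz₂ := hG₂.Z_pos hp0 hp1
  have a0 : Z p V K = c₁ * Z p V₁ K₁ + c₂ * Z p V₂ K₂ := h _
  have a1 := h (fun j => (j : ℝ))
  have a2 := h (fun j => (j : ℝ) ^ 2)
  rw [var_m1, var_m1] at a1
  rw [var_m2, var_m2] at a2
  unfold mean at hv₁ hv₂ hd ⊢
  rw [a0, a1, a2]
  generalize wsum p V₁ K₁ (fun j => (j : ℝ) ^ 2) = s₁ at *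
  generalize wsum p V₂ K₂ (fun j => (j : ℝ) ^ 2) = s₂ at *
  generalize wsum p V₁ K₁ (fun j => (j : ℝ)) = m₁ at *
  generalize wsum p V₂ K₂ (fun j => (j : ℝ)) = m₂ at *
  generalize Z p V₁ K₁ = z₁ at *
  generalize Z p V₂ K₂ = z₂ at *
  have b1 : c₁ * (m₁ + k₁ * z₁) / (c₁ * z₁) = k₁ + m₁ / z₁ := by field_simp; ring
  have b2 : c₂ * (m₂ + k₂ * z₂) / (c₂ * z₂) = k₂ + m₂ / z₂ := by field_simp; ring
  have b3 : c₁ * (s₁ + 2 * k₁ * m₁ + (k₁ : ℝ) ^ 2 * z₁) / (c₁ * z₁) =
      s₁ / z₁ + 2 * k₁ * (m₁ / z₁) + (k₁ : ℝ) ^ 2 := by field_simp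
  have b4 : c₂ * (s₂ + 2 * k₂ * m₂ + (k₂ : ℝ) ^ 2 * z₂) / (c₂ * z₂) =
      s₂ / z₂ + 2 * k₂ * (m₂ / z₂) + (k₂ : ℝ) ^ 2 := by field_simp
  refine var_mix (mul_pos hc₁ hz₁) (mul_pos hc₂ hz₂) ?_ ?_ ?_
  · rw [b1, b3]
    linarith
  · rw [b2, b4]
    linarith
  · rw [b1, b2]
    exact hd

private theorem var_good_del {V : Finset α} {K K' : Finset (Finset α)} (hG : Good V K) {a c : α}
    (h : ∀ e ∈ K', e ∈ K ∧ a ∉ e ∧ c ∉ e) : Good ((V.erase a).erase c) K' := by
  refine hG.mono (fun e he => (h e he).1) fun e he x hx => ?_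
  obtain ⟨h1, h2, h3⟩ := h e he
  rw [Finset.mem_erase, Finset.mem_erase]
  exact ⟨fun h4 => h3 (h4 ▸ hx), fun h4 => h2 (h4 ▸ hx), hG.sub e h1 hx⟩

/-- Strong induction on `|V|`.
If some `a ∈ V` has degree `0`: `wsum_free`.  If some `a ∈ V` has degree one: `peel_leaf` or
`peel_T`, and `var_mix`; the difference of the two means is `μ(V₁,K₁) - μ(V₂,K₂) = 1 - δ(V₁,K₁,c)`
for a 2-edge `{a,c}` and `1 + μ(V₁,K₁) - μ(V₁,K₂)` for a 3-edge `{a,c,d}` (`step_T`, whose
hypotheses follow from `delta`).  If all vertices of `V` have degree two there are no 3-edges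
(`Good.three`); take any `a ∈ V` and `peel_cycle`: the difference of the means is
`1 + μ(V-a, del K a) - 2 - μ(V-a-c-d, del (del K c) d)
= 1 - δ(V-a, del K a, c) - δ(V-a-c, del (del K a) c, d) ∈ [-1, 1]`. -/
theorem variance_le {p : ℝ} (hp0 : 0 < p) (hp1 : p < 1) {V : Finset α} {K : Finset (Finset α)}
    (hG : Good V K) :
    wsum p V K (fun j => (j : ℝ) ^ 2) / Z p V K - (mean p V K) ^ 2 ≤ V.card / 4 := by
  obtain ⟨n, hn⟩ : ∃ n, V.card ≤ n := ⟨_, le_rfl⟩
  induction n generalizing V K with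
  | zero =>
    have hV : V = ∅ := Finset.card_eq_zero.1 (Nat.le_zero.1 hn)
    subst hV
    have h0 : wsum p (∅ : Finset α) K (fun j => (j : ℝ) ^ 2) = 0 := by
      unfold wsum
      refine Finset.sum_eq_zero fun D hD => ?_
      have : D = ∅ := by simpa using (Finset.mem_filter.1 hD).1
      subst this
      simp
    rw [h0]
    simp only [zero_div, Finset.card_empty, Nat.cast_zero]
    nlinarith [sq_nonneg (mean p (∅ : Finset α) K)]
  | succ n ih =>
    -- the bounds for smaller sets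
    have hsmall : ∀ {V' : Finset α} {K' : Finset (Finset α)}, Good V' K' → V'.card + 1 ≤ V.card →
        wsum p V' K' (fun j => (j : ℝ) ^ 2) / Z p V' K' - (mean p V' K') ^ 2 ≤
          (V.card / 4 - 1 / 4 : ℝ) := by
      intro V' K' hG' hc
      refine (ih hG' (by omega)).trans ?_
      have : (V'.card : ℝ) + 1 ≤ V.card := by exact_mod_cast hc
      linarith
    have hp : 0 < 1 - p := by linarith
    by_cases hV : V = ∅
    · exact ih hG (by rw [hV]; simp)
    by_cases h0 : ∃ a ∈ V, deg K a = 0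
    · obtain ⟨a, ha, hda⟩ := h0
      have hK := deg_eq_zero.1 hda
      have hG' : Good (V.erase a) K := by
        refine hG.mono (Finset.Subset.refl _) fun e he x hx => ?_
        rw [Finset.mem_erase]
        exact ⟨fun h => hK e he (h ▸ hx), hG.sub e he hx⟩
      have hc : (V.erase a).card + 1 = V.card := Finset.card_erase_add_one ha
      have hs := hsmall hG' (le_of_eq hc)
      have := var_step (V := V) (K := K) hp0 hp1 hG' hG' (k₁ := 1) (k₂ := 0) hp0 hp
        (fun φ => wsum_free ha hK) hs hs (by simp)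
      linarith
    by_cases h1 : ∃ a ∈ V, deg K a = 1
    · obtain ⟨a, ha, hda⟩ := h1
      obtain ⟨e, he, hae⟩ := exists_of_deg_pos hda.ge
      have hu : ∀ f ∈ K, a ∈ f → f = e := fun f hf haf => eq_of_deg_one hda hf he haf hae
      have hcV : (V.erase a).card + 1 = V.card := Finset.card_erase_add_one ha
      rcases hG.card e he with h2 | h3
      · obtain ⟨c, hac, rfl⟩ : ∃ c, a ≠ c ∧ e = {a, c} := by
          obtain ⟨x, y, hxy, rfl⟩ := Finset.card_eq_two.1 h2
          rw [Finset.mem_insert, Finset.mem_singleton] at hae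
          rcases hae with rfl | rfl
          · exact ⟨y, hxy, rfl⟩
          · exact ⟨x, hxy.symm, Finset.pair_comm _ _⟩
        have hcV' : c ∈ V := hG.sub _ he (by simp)
        have hK1 : K.erase {a, c} = del K a := (del_of_deg_one hda he hae).symm
        have hG1 : Good (V.erase a) (K.erase {a, c}) := by rw [hK1]; exact hG.del a
        have hG2 : Good ((V.erase a).erase c) (del K c) := by
          refine var_good_del hG fun f hf => ?_
          rw [mem_del] at hf
          refine ⟨hf.1, fun haf => hf.2 ?_, hf.2⟩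
          rw [hu f hf.1 haf]
          simp
        have hcV1 : c ∈ V.erase a := Finset.mem_erase.2 ⟨hac.symm, hcV'⟩
        have hdc : deg (K.erase {a, c}) c ≤ 1 := by
          have h4 := deg_erase he c
          have h5 := hG.deg_le c
          rw [if_pos (by simp)] at h4
          omega
        have hK2 : del (K.erase {a, c}) c = del K c := by
          ext f
          rw [mem_del, mem_del, Finset.mem_erase]
          constructor
          · rintro ⟨⟨_, h6⟩, h7⟩
            exact ⟨h6, h7⟩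
          · rintro ⟨h6, h7⟩
            refine ⟨⟨?_, h6⟩, h7⟩
            rintro rfl
            exact h7 (by simp)
        have hdelta := delta hp0 hp1 hG1 hcV1 hdc
        rw [hK2] at hdelta
        have hc2 : ((V.erase a).erase c).card + 1 = (V.erase a).card :=
          Finset.card_erase_add_one hcV1
        have := var_step (V := V) (K := K) hp0 hp1 hG1 hG2 (k₁ := 1) (k₂ := 1) hp0
          (mul_pos hp hp0) (fun φ => peel_leaf hG hac he hda) (hsmall hG1 (le_of_eq hcV))
          (hsmall hG2 (by omega)) (by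
            rw [abs_le]
            constructor <;> push_cast <;> linarith [hdelta.1, hdelta.2])
        linarith
      · -- the 3-edge
        obtain ⟨c, d, hac, had, hcd, rfl, hdd⟩ : ∃ c d, a ≠ c ∧ a ≠ d ∧ c ≠ d ∧ e = {a, c, d} ∧
            deg K d = 1 := by
          have h5 : ∃ c d, a ≠ c ∧ a ≠ d ∧ c ≠ d ∧ e = {a, c, d} := by
            have h6 : (e.erase a).card = 2 := by
              rw [Finset.card_erase_of_mem hae, h3]
            obtain ⟨x, y, hxy, hxy'⟩ := Finset.card_eq_two.1 h6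
            have hx : x ∈ e.erase a := by rw [hxy']; simp
            have hy : y ∈ e.erase a := by rw [hxy']; simp
            refine ⟨x, y, (Finset.mem_erase.1 hx).1.symm, (Finset.mem_erase.1 hy).1.symm, hxy, ?_⟩
            rw [← hxy', Finset.insert_erase hae]
          obtain ⟨c, d, hac, had, hcd, rfl⟩ := h5
          rcases hG.three _ he h3 c (by simp) d (by simp) hcd with h6 | h6
          · refine ⟨d, c, had, hac, hcd.symm, ?_, h6⟩
            rw [Finset.pair_comm c d]
          · exact ⟨c, d, hac, had, hcd, rfl, h6⟩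
        have hud : ∀ f ∈ K, d ∈ f → f = {a, c, d} :=
          fun f hf hdf => eq_of_deg_one hdd hf he hdf (by simp)
        have hcV' : c ∈ V := hG.sub _ he (by simp)
        have hdV' : d ∈ V := hG.sub _ he (by simp)
        have hK1 : K.erase {a, c, d} = del K a := (del_of_deg_one hda he hae).symm
        have hG1 : Good (V.erase a) (K.erase {a, c, d}) := by rw [hK1]; exact hG.del a
        have hG1' : Good ((V.erase a).erase d) (K.erase {a, c, d}) := by
          refine var_good_del hG fun f hf => ?_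
          rw [Finset.mem_erase] at hf
          exact ⟨hf.2, fun h => hf.1 (hu f hf.2 h), fun h => hf.1 (hud f hf.2 h)⟩
        have hG2 : Good (V.erase a) (insert {c, d} (K.erase {a, c, d})) := by
          have h7 := (hG.shrink he h3 (a := d) (v := c) hcd.symm (by simp) (by simp) hdd).1
          rw [Finset.pair_comm d c] at h7
          refine h7.mono (Finset.Subset.refl _) fun f hf x hx => ?_
          rw [Finset.mem_erase]
          refine ⟨?_, h7.sub f hf hx⟩
          rintro rfl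
          rcases Finset.mem_insert.1 hf with rfl | hf
          · rw [Finset.mem_insert, Finset.mem_singleton] at hx
            exact hx.elim hac had
          · rw [Finset.mem_erase] at hf
            exact hf.1 (hu f hf.2 hx)
        have hcV1 : c ∈ (V.erase a).erase d :=
          Finset.mem_erase.2 ⟨hcd, Finset.mem_erase.2 ⟨hac.symm, hcV'⟩⟩
        have hdc : deg (K.erase {a, c, d}) c ≤ 1 := by
          have h4 := deg_erase he c
          have h5 := hG.deg_le c
          rw [if_pos (by simp)] at h4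
          omega
        have hK2 : del (K.erase {a, c, d}) c = del K c := by
          ext f
          rw [mem_del, mem_del, Finset.mem_erase]
          constructor
          · rintro ⟨⟨_, h6⟩, h7⟩
            exact ⟨h6, h7⟩
          · rintro ⟨h6, h7⟩
            refine ⟨⟨?_, h6⟩, h7⟩
            rintro rfl
            exact h7 (by simp)
        have hdelta := delta hp0 hp1 hG1' hcV1 hdc
        rw [hK2] at hdelta
        have hst := step_T hp0 hp1 hG hac had hcd he hda hdd (by linarith [hdelta.2])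
          (by linarith [hdelta.1])
        have := var_step (V := V) (K := K) hp0 hp1 hG1 hG2 (k₁ := 1) (k₂ := 0) hp0 hp
          (fun φ => peel_T hG hac had hcd he hda) (hsmall hG1 (le_of_eq hcV))
          (hsmall hG2 (le_of_eq hcV)) (by
            rw [abs_le]
            constructor <;> push_cast <;> linarith [hst.1, hst.2])
        linarith
    -- all degrees are two
    have hdeg : ∀ v ∈ V, deg K v = 2 := by
      intro v hv
      have h2 := hG.deg_le v
      have h3 : deg K v ≠ 0 := fun h => h0 ⟨v, hv, h⟩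
      have h4 : deg K v ≠ 1 := fun h => h1 ⟨v, hv, h⟩
      omega
    have htwo : ∀ e ∈ K, e.card = 2 := by
      intro e he
      rcases hG.card e he with h2 | h3
      · exact h2
      · exfalso
        obtain ⟨x, y, z, hxy, hxz, hyz, rfl⟩ := Finset.card_eq_three.1 h3
        rcases hG.three _ he h3 x (by simp) y (by simp) hxy with h | h
        · have := hdeg x (hG.sub _ he (by simp))
          omega
        · have := hdeg y (hG.sub _ he (by simp))
          omega
    obtain ⟨a, ha⟩ := Finset.nonempty_iff_ne_empty.2 hV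
    have hda := hdeg a ha
    obtain ⟨e, he, hae⟩ := exists_of_deg_pos (K := K) (v := a) (by omega)
    obtain ⟨f, hf, hfe, haf, hall⟩ := exists_other hda he hae
    have hpair : ∀ g ∈ K, a ∈ g → ∃ c, a ≠ c ∧ g = {a, c} := by
      intro g hg hag
      obtain ⟨x, y, hxy, rfl⟩ := Finset.card_eq_two.1 (htwo g hg)
      rw [Finset.mem_insert, Finset.mem_singleton] at hag
      rcases hag with rfl | rfl
      · exact ⟨y, hxy, rfl⟩
      · exact ⟨x, hxy.symm, Finset.pair_comm _ _⟩
    obtain ⟨c, hac, rfl⟩ := hpair e he hae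
    obtain ⟨d, had, rfl⟩ := hpair f hf haf
    have hcd : c ≠ d := by
      rintro rfl
      exact hfe rfl
    have hcV' : c ∈ V := hG.sub _ he (by simp)
    have hdV' : d ∈ V := hG.sub _ hf (by simp)
    have hcV : (V.erase a).card + 1 = V.card := Finset.card_erase_add_one ha
    have hcV1 : c ∈ V.erase a := Finset.mem_erase.2 ⟨hac.symm, hcV'⟩
    have hdV1 : d ∈ (V.erase a).erase c :=
      Finset.mem_erase.2 ⟨hcd.symm, Finset.mem_erase.2 ⟨had.symm, hdV'⟩⟩
    have hG1 : Good (V.erase a) (del K a) := hG.del a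
    have hG1' : Good ((V.erase a).erase c) (del (del K a) c) := hG1.del c
    have hdc : deg (del K a) c ≤ 1 := by
      have h4 := deg_erase he c
      have h5 := hG.deg_le c
      rw [if_pos (by simp)] at h4
      have h6 : deg (del K a) c ≤ deg (K.erase {a, c}) c := by
        refine deg_mono (fun g hg => ?_) c
        rw [mem_del] at hg
        rw [Finset.mem_erase]
        refine ⟨?_, hg.1⟩
        rintro rfl
        exact hg.2 (by simp)
      omega
    have hdd : deg (del (del K a) c) d ≤ 1 := by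
      have h4 := deg_erase hf d
      have h5 := hG.deg_le d
      rw [if_pos (by simp)] at h4
      have h6 : deg (del (del K a) c) d ≤ deg (K.erase {a, d}) d := by
        refine deg_mono (fun g hg => ?_) d
        rw [mem_del, mem_del] at hg
        rw [Finset.mem_erase]
        refine ⟨?_, hg.1.1⟩
        rintro rfl
        exact hg.1.2 (by simp)
      omega
    have hK2 : del (del (del K a) c) d = del (del K c) d := by
      ext g
      rw [mem_del, mem_del, mem_del, mem_del, mem_del]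
      constructor
      · rintro ⟨⟨⟨h1, h2⟩, h3⟩, h4⟩
        exact ⟨⟨h1, h3⟩, h4⟩
      · rintro ⟨⟨h1, h3⟩, h4⟩
        refine ⟨⟨⟨h1, fun h2 => ?_⟩, h3⟩, h4⟩
        rcases hall g h1 h2 with rfl | rfl
        · exact h3 (by simp)
        · exact h4 (by simp)
    have hG2 : Good (((V.erase a).erase c).erase d) (del (del K c) d) := by
      rw [← hK2]
      exact hG1'.del d
    have hδ1 := delta hp0 hp1 hG1 hcV1 hdc
    have hδ2 := delta hp0 hp1 hG1' hdV1 hdd
    rw [hK2] at hδ2
    have hc2 : ((V.erase a).erase c).card + 1 = (V.erase a).card :=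
      Finset.card_erase_add_one hcV1
    have hc3 : (((V.erase a).erase c).erase d).card + 1 = ((V.erase a).erase c).card :=
      Finset.card_erase_add_one hdV1
    have := var_step (V := V) (K := K) hp0 hp1 hG1 hG2 (k₁ := 1) (k₂ := 2) hp0
      (mul_pos hp (pow_pos hp0 2)) (fun φ => peel_cycle hG hac had hcd he hf)
      (hsmall hG1 (le_of_eq hcV)) (hsmall hG2 (by omega)) (by
        rw [abs_le]
        constructor <;> push_cast <;> linarith [hδ1.1, hδ1.2, hδ2.1, hδ2.2])
    linarith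

theorem variance {p : ℝ} (hp0 : 0 < p) (hp1 : p < 1) {V : Finset α} {K : Finset (Finset α)}
    (hG : Good V K) :
    ∃ μ : ℝ, wsum p V K (fun j => ((j : ℝ) - μ) ^ 2) ≤ (V.card / 4) * Z p V K := by
  have hz := hG.Z_pos hp0 hp1
  have h1 := variance_le hp0 hp1 hG
  refine ⟨mean p V K, ?_⟩
  have h : (fun j : ℕ => ((j : ℝ) - mean p V K) ^ 2) =
      fun j : ℕ => ((j : ℝ) ^ 2 + (-(2 * mean p V K)) * (j : ℝ)) + (mean p V K) ^ 2 * 1 := by
    funext j
    ring
  rw [h, wsum_add, wsum_add, wsum_smul, wsum_smul]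
  have h2 : wsum p V K (fun j => (j : ℝ)) = mean p V K * Z p V K := by
    unfold mean
    field_simp
  have h3 : wsum p V K (fun _ => (1 : ℝ)) = Z p V K := rfl
  have h4 : wsum p V K (fun j => (j : ℝ) ^ 2) ≤ (V.card / 4 + (mean p V K) ^ 2) * Z p V K := by
    rw [← div_le_iff₀ hz]
    linarith
  rw [h2, h3]
  nlinarith

end Pool.MP_38cb75_co.GT
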