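import Pool.Agent.Lib.MP_38cb75_co.GoodA
import Pool.Agent.Lib.MP_38cb75_co.Leaves

/-! JOB ZBOUNDA: counts for disjoint cycles. -/

set_option autoImplicit false

namespace Pool.MP_38cb75_co.GT

variable {α : Type*} [DecidableEq α]

private theorem exists_removed {K K' : Finset (Finset α)} {v : α} (h : deg K' v < deg K v) :
    ∃ g ∈ K, g ∉ K' ∧ v ∈ g := by
  by_contra hc
  push Not at hc
  have : deg K v ≤ deg K' v := by
    unfold deg
    apply Finset.card_le_card
    intro e he
    rw [Finset.mem_filter] at he ⊢
    refine ⟨?_, he.2⟩
    by_contra hn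
    exact hc e he.1 hn he.2
  omega

/-- Only 2-edges, all covered vertices of degree two (disjoint cycles of length at least four):
for `{a, c}, {a, d} ∈ K` the hypergraph `del (del K c) d` has four edges less than `K`,
`leaves K = ∅`, `leaves (del K a) ⊆ {c, d}`, `leaves (del (del K c) d)` has at most two elements. -/
theorem cycle_counts {V : Finset α} {K : Finset (Finset α)} (hG : Good V K)
    (h2 : ∀ e ∈ K, e.card = 2) (hd : ∀ e ∈ K, ∀ v ∈ e, deg K v = 2) {a c d : α} (hac : a ≠ c)
    (had : a ≠ d) (hcd : c ≠ d) (he : {a, c} ∈ K) (hf : {a, d} ∈ K) :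
    (del K a).card + 2 = K.card ∧ (leaves (del K a)).card ≤ 2 ∧
      (del (del K c) d).card + 4 = K.card ∧ (leaves (del (del K c) d)).card ≤ 2 := by
  have hda : deg K a = 2 := hd _ he a (by simp)
  have hdc : deg K c = 2 := hd _ he c (by simp)
  have hdd : deg K d = 2 := hd _ hf d (by simp)
  have hef : ({a, c} : Finset α) ≠ {a, d} := by
    intro h
    have : c ∈ ({a, d} : Finset α) := by rw [← h]; simp
    simp only [Finset.mem_insert, Finset.mem_singleton] at this
    rcases this with h | h
    · exact hac h.symm
    · exact hcd h
  -- the edges at `a`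
  have hAt : ∀ g ∈ K, a ∈ g → g = {a, c} ∨ g = {a, d} := fun g hg hag =>
    deg_two_unique hda.le he hf hg (by simp) (by simp) hag hef
  -- no edge contains both `c` and `d`
  have hncd : ∀ g ∈ K, c ∈ g → d ∉ g := by
    intro g hg hcg hdg
    have hg2 := h2 g hg
    have : g = {c, d} := by
      symm
      apply Finset.eq_of_subset_of_card_le
      · intro z hz
        simp only [Finset.mem_insert, Finset.mem_singleton] at hz
        rcases hz with rfl | rfl <;> assumption
      · rw [hg2, Finset.card_pair hcd]
    rw [this] at hg
    exact hG.tri a c d hac hcd had he hg hf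
  have hdeg' : deg (del K c) d = 2 := by
    have : deg (del K c) d = deg K d := by
      unfold deg
      congr 1
      ext e
      rw [Finset.mem_filter, Finset.mem_filter, mem_del]
      constructor
      · rintro ⟨⟨h1, _⟩, h3⟩
        exact ⟨h1, h3⟩
      · rintro ⟨h1, h3⟩
        exact ⟨⟨h1, fun h => hncd e h1 h h3⟩, h3⟩
    rw [this, hdd]
  obtain ⟨f1, hf1K, _, hcf1, hf1u⟩ := exists_other hdc he (by simp)
  obtain ⟨f2, hf2K, _, hdf2, hf2u⟩ := exists_other hdd hf (by simp)
  refine ⟨?_, ?_, ?_, ?_⟩
  · have := card_del (K := K) a
    omega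
  · have hsub : leaves (del K a) ⊆ {c, d} := by
      intro v hv
      rw [mem_leaves] at hv
      obtain ⟨hv1, e, heK, _, hve⟩ := hv
      rw [mem_del] at heK
      have hv2 : deg K v = 2 := hd e heK.1 v hve
      obtain ⟨g, hgK, hgn, hvg⟩ := exists_removed (K := K) (K' := del K a) (v := v) (by omega)
      rw [mem_del] at hgn
      push Not at hgn
      have hag := hgn hgK
      have hva : v ≠ a := by
        rintro rfl
        exact heK.2 hve
      rcases hAt g hgK hag with h | h
      · rw [h] at hvg
        simp only [Finset.mem_insert, Finset.mem_singleton] at hvg ⊢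
        tauto
      · rw [h] at hvg
        simp only [Finset.mem_insert, Finset.mem_singleton] at hvg ⊢
        tauto
    exact (Finset.card_le_card hsub).trans (Finset.card_le_two)
  · have h1 := card_del (K := K) c
    have h3 := card_del (K := del K c) d
    omega
  · have hsub : leaves (del (del K c) d) ⊆ (f1.erase c) ∪ (f2.erase d) := by
      intro v hv
      rw [mem_leaves] at hv
      obtain ⟨hv1, e, heK, _, hve⟩ := hv
      rw [mem_del, mem_del] at heK
      obtain ⟨⟨heK, hce⟩, hde⟩ := heK
      have hv2 : deg K v = 2 := hd e heK v hve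
      have hvc : v ≠ c := by
        rintro rfl
        exact hce hve
      have hvd : v ≠ d := by
        rintro rfl
        exact hde hve
      have hva : v ≠ a := by
        rintro rfl
        rcases hAt e heK hve with h | h
        · rw [h] at hce
          simp at hce
        · rw [h] at hde
          simp at hde
      obtain ⟨g, hgK, hgn, hvg⟩ :=
        exists_removed (K := K) (K' := del (del K c) d) (v := v) (by omega)
      rw [mem_del, mem_del] at hgn
      have hcg : c ∈ g ∨ d ∈ g := by
        by_contra hn
        push Not at hn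
        exact hgn ⟨⟨hgK, hn.1⟩, hn.2⟩
      rw [Finset.mem_union, Finset.mem_erase, Finset.mem_erase]
      rcases hcg with hcg | hdg
      · rcases hf1u g hgK hcg with h | h
        · rw [h] at hvg
          simp only [Finset.mem_insert, Finset.mem_singleton] at hvg
          tauto
        · left
          exact ⟨hvc, h ▸ hvg⟩
      · rcases hf2u g hgK hdg with h | h
        · rw [h] at hvg
          simp only [Finset.mem_insert, Finset.mem_singleton] at hvg
          tauto
        · right
          exact ⟨hvd, h ▸ hvg⟩
    refine (Finset.card_le_card hsub).trans ((Finset.card_union_le _ _).trans ?_)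
    rw [Finset.card_erase_of_mem hcf1, Finset.card_erase_of_mem hdf2, h2 f1 hf1K, h2 f2 hf2K]

end Pool.MP_38cb75_co.GT
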