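import Pool.Agent.Lib.MP_38cb75_co.Peel
import Pool.Agent.Lib.MP_38cb75_co.GoodA
import Pool.Agent.Lib.MP_38cb75_co.Leaves
import Pool.Agent.Lib.MP_38cb75_co.Num
import Pool.Agent.Lib.MP_38cb75_co.ZBoundA

/-! JOB ZBOUNDB: the counting bound `Z ≥ 2^(-U)`. -/

set_option autoImplicit false

namespace Pool.MP_38cb75_co.GT

variable {α : Type*} [DecidableEq α]

private theorem ih_step {w z : ℝ} (hw : 1 ≤ w) {k k' l l' i j : ℕ} (hk : k = k' + i)
    (hl : l' ≤ l + j) (h : 1 ≤ (2 : ℝ) ^ k' * w ^ l' * z) :
    (2 : ℝ) ^ i ≤ (2 : ℝ) ^ k * w ^ l * z * w ^ j := by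
  have hw0 : 0 < w := by linarith
  have hz : 0 < z := by
    have h1 : 0 < (2 : ℝ) ^ k' * w ^ l' := by positivity
    by_contra hc
    push Not at hc
    have := mul_nonpos_of_nonneg_of_nonpos h1.le hc
    linarith
  have h2 : (2 : ℝ) ^ k * w ^ l * z * w ^ j = (2 : ℝ) ^ i * ((2 : ℝ) ^ k' * w ^ (l + j) * z) := by
    rw [hk]
    ring
  have h3 : (2 : ℝ) ^ k' * w ^ l' * z ≤ (2 : ℝ) ^ k' * w ^ (l + j) * z := by
    apply mul_le_mul_of_nonneg_right _ hz.le
    apply mul_le_mul_of_nonneg_left _ (by positivity)
    exact pow_le_pow_right₀ hw hl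
  rw [h2]
  have h4 : (0 : ℝ) < (2 : ℝ) ^ i := by positivity
  nlinarith

private theorem omega_one_le : (1 : ℝ) ≤ (2 : ℝ) ^ ((2 : ℝ) / 9) :=
  Real.one_le_rpow (by norm_num) (by norm_num)

private theorem three_form {V : Finset α} {K : Finset (Finset α)} (hG : Good V K) {T : Finset α}
    (hT : T ∈ K) (h3 : T.card = 3) :
    ∃ v u w : α, v ≠ u ∧ v ≠ w ∧ u ≠ w ∧ T = {v, u, w} ∧ deg K u = 1 ∧ deg K w = 1 := by
  obtain ⟨x, y, z, hxy, hxz, hyz, rfl⟩ := Finset.card_eq_three.mp h3
  have h1 := hG.three _ hT h3 x (by simp) y (by simp) hxy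
  have h2 := hG.three _ hT h3 x (by simp) z (by simp) hxz
  have h4 := hG.three _ hT h3 y (by simp) z (by simp) hyz
  by_cases hx : deg K x = 1
  · by_cases hy : deg K y = 1
    · refine ⟨z, x, y, hxz.symm, hyz.symm, hxy, ?_, hx, hy⟩
      ext t
      simp only [Finset.mem_insert, Finset.mem_singleton]
      tauto
    · refine ⟨y, x, z, hxy.symm, hyz, hxz, ?_, hx, ?_⟩
      · ext t
        simp only [Finset.mem_insert, Finset.mem_singleton]
        tauto
      · tauto
  · exact ⟨x, y, z, hxy, hxz, hyz, rfl, by tauto, by tauto⟩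

private theorem pair_form {e : Finset α} (h2 : e.card = 2) {a : α} (ha : a ∈ e) :
    ∃ c, a ≠ c ∧ e = {a, c} := by
  obtain ⟨x, y, hxy, rfl⟩ := Finset.card_eq_two.mp h2
  simp only [Finset.mem_insert, Finset.mem_singleton] at ha
  rcases ha with rfl | rfl
  · exact ⟨y, hxy, rfl⟩
  · exact ⟨x, hxy.symm, Finset.pair_comm _ _⟩

/-- `f K = 2^|K| ω^|leaves K|` with `ω = 2^(2/9)`; claim `1 ≤ f K * Z p₀ V K`.
Strong induction on `|K|`.
(1) `K = ∅`: `Z = 1`.
(2) `K` has a 3-edge `T = {v, u, w}` with `u`, `w` of degree one (`Good.three`), `v` of degree one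
or two: `Z_peel_T`, `leaves_T`, `leaves_T_iso`, `leaves_T_del`, `num_T`, `num_T_att`.
(3) only 2-edges, some vertex `a` of degree one in the 2-edge `{a, c}`: `peel_leaf` with `φ = 1`
(and `Z_free`), if `deg K c = 1` `leaves_pair`, `num_pair`, otherwise `leaves_leaf`,
`leaves_leaf_del`, `num_leaf`.
(4) otherwise `peel_cycle`, `cycle_counts`, `num_cycle`. -/
theorem Z_lower_aux {V : Finset α} {K : Finset (Finset α)} (hG : Good V K) :
    1 ≤ (2 : ℝ) ^ K.card * ((2 : ℝ) ^ ((2 : ℝ) / 9)) ^ (leaves K).card * Z p₀ V K := by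
  have hmain : ∀ n : ℕ, ∀ (V : Finset α) (K : Finset (Finset α)), Good V K → K.card = n →
      1 ≤ (2 : ℝ) ^ K.card * ((2 : ℝ) ^ ((2 : ℝ) / 9)) ^ (leaves K).card * Z p₀ V K := by
    intro n
    induction n using Nat.strong_induction_on with
    | _ n ih =>
    intro V K hG hn
    have hp0 := p₀_lower
    have hp1 := p₀_upper
    set w : ℝ := (2 : ℝ) ^ ((2 : ℝ) / 9) with hw
    have hw1 : 1 ≤ w := omega_one_le
    have hw0 : 0 < w := by linarith
    set A : ℝ := (2 : ℝ) ^ K.card * w ^ (leaves K).card with hA
    have hA0 : 0 < A := by positivity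
    rcases K.eq_empty_or_nonempty with hK | hK
    · have hl : leaves K = ∅ := by
        rw [hK]
        rfl
      rw [hA, hl, hK, Z_empty]
      simp
    by_cases hT : ∃ T ∈ K, T.card = 3
    · obtain ⟨T, hTK, hT3⟩ := hT
      obtain ⟨v, u, x, hvu, hvx, hux, hTe, hdu, hdx⟩ := three_form hG hTK hT3
      have hvT : v ∈ T := by rw [hTe]; simp
      have hpeel := Z_peel_T (p := p₀) hG hvu hvx hux (hTe ▸ hTK) hdu hdx
      rw [← hTe] at hpeel
      have hG1 : Good V (K.erase T) := hG.mono (Finset.erase_subset _ _)
        (fun e he => hG.sub e (Finset.mem_of_mem_erase he))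
      have hG2 : Good V (del K v) := hG.mono (Finset.filter_subset _ _)
        (fun e he => hG.sub e (mem_del.mp he).1)
      have hc1 : (K.erase T).card + 1 = K.card := Finset.card_erase_add_one hTK
      have hc2 := card_del (K := K) v
      have hdv := deg_pos hTK hvT
      have hdv2 := hG.deg_le v
      have hx2 : 0 ≤ 1 - (1 - p₀) ^ 2 := by nlinarith
      have hx3 : 0 ≤ (1 - p₀) ^ 2 * p₀ := by positivity
      by_cases hv1 : deg K v = 1
      · -- isolated 3-edge
        have hdel : del K v = K.erase T := del_of_deg_one hv1 hTK hvT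
        rw [hdel] at hpeel
        have hiso : ∀ y ∈ T, deg K y = 1 := by
          intro y hy
          rw [hTe] at hy
          simp only [Finset.mem_insert, Finset.mem_singleton] at hy
          rcases hy with rfl | rfl | rfl <;> assumption
        have hl := leaves_T_iso hG hTK hT3 hiso
        have h1 := ih_step hw1 (i := 1) (j := 0) (l := (leaves K).card) hc1.symm hl
          (ih (K.erase T).card (by omega) V _ hG1 rfl)
        rw [← hA, pow_one, pow_zero, mul_one] at h1
        have h2 := num_T
        rw [hpeel]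
        nlinarith [mul_le_mul_of_nonneg_left h1 hx2, mul_le_mul_of_nonneg_left h1 hx3]
      · have hv2 : deg K v = 2 := by omega
        have hl1 := leaves_T hG hTK hT3
        have hl2 := leaves_T_del hG hTK hT3 hvT hv2
        have h1 := ih_step hw1 (i := 1) (j := 1) (l := (leaves K).card) hc1.symm hl1
          (ih (K.erase T).card (by omega) V _ hG1 rfl)
        have h2 := ih_step hw1 (i := 2) (j := 1) (k := K.card) (l := (leaves K).card) (by omega) hl2
          (ih (del K v).card (by omega) V _ hG2 rfl)
        rw [← hA, pow_one, pow_one] at h1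
        rw [← hA, pow_one] at h2
        have h3 := num_T_att
        rw [← hw] at h3
        have h4 : w ≤ (A * Z p₀ V K) * w := by
          rw [hpeel]
          nlinarith [mul_le_mul_of_nonneg_left h1 hx2, mul_le_mul_of_nonneg_left h2 hx3]
        by_contra hc
        push Not at hc
        nlinarith
    push Not at hT
    have h2e : ∀ e ∈ K, e.card = 2 := fun e he => (hG.card e he).resolve_right (hT e he)
    by_cases hL : ∃ e ∈ K, ∃ a ∈ e, deg K a = 1
    · obtain ⟨e, heK, a, hae, hda⟩ := hL
      obtain ⟨c, hac, rfl⟩ := pair_form (h2e e heK) hae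
      have hca : c ∈ ({a, c} : Finset α) := by simp
      have haV : a ∈ V := hG.sub _ heK hae
      have hcV : c ∈ V := hG.sub _ heK hca
      have hpeel := peel_leaf (p := p₀) (φ := fun _ => 1) hG hac heK hda
      change Z p₀ V K = p₀ * Z p₀ (V.erase a) (K.erase {a, c}) +
        (1 - p₀) * p₀ * Z p₀ ((V.erase a).erase c) (del K c) at hpeel
      have hG1 : Good (V.erase a) (K.erase {a, c}) := by
        rw [← del_of_deg_one hda heK hae]
        exact hG.del a
      have hG2 : Good ((V.erase a).erase c) (del K c) := by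
        refine hG.mono (Finset.filter_subset _ _) fun g hg y hy => ?_
        rw [mem_del] at hg
        rw [Finset.mem_erase, Finset.mem_erase]
        refine ⟨?_, ?_, hG.sub g hg.1 hy⟩
        · rintro rfl
          exact hg.2 hy
        · rintro rfl
          have := eq_of_deg_one hda heK hg.1 hae hy
          rw [← this] at hg
          exact hg.2 hca
      have hc1 : (K.erase {a, c}).card + 1 = K.card := Finset.card_erase_add_one heK
      have hc2 := card_del (K := K) c
      have hdc := deg_pos heK hca
      have hdc2 := hG.deg_le c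
      have hx1 : 0 ≤ p₀ := by linarith
      have hx2 : 0 ≤ (1 - p₀) * p₀ := by nlinarith
      by_cases hc : deg K c = 1
      · have hdel : del K c = K.erase {a, c} := del_of_deg_one hc heK hca
        have hfree : Z p₀ (V.erase a) (K.erase {a, c}) =
            Z p₀ ((V.erase a).erase c) (K.erase {a, c}) := by
          apply Z_free (Finset.mem_erase.mpr ⟨hac.symm, hcV⟩)
          intro g hg hcg
          rw [Finset.mem_erase] at hg
          exact hg.1 (eq_of_deg_one hc hg.2 heK hcg hca)
        rw [hdel, ← hfree] at hpeel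
        have hl := leaves_pair hG hac heK hda hc
        have h0 := ih (K.erase {a, c}).card (by omega) (V.erase a) _ hG1 rfl
        have hz : A * Z p₀ (V.erase a) (K.erase {a, c}) = 2 * w ^ 2 *
            ((2 : ℝ) ^ (K.erase {a, c}).card * w ^ (leaves (K.erase {a, c})).card *
              Z p₀ (V.erase a) (K.erase {a, c})) := by
          rw [hA, ← hc1, ← hl]
          ring
        have h2 := num_pair
        rw [← hw] at h2
        have hpos : 0 ≤ 2 * w ^ 2 * (1 - (1 - p₀) ^ 2) := by linarith
        have h3 : A * Z p₀ V K = (1 - (1 - p₀) ^ 2) * (A * Z p₀ (V.erase a) (K.erase {a, c})) := by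
          rw [hpeel]
          ring
        rw [h3, hz]
        nlinarith [mul_le_mul_of_nonneg_left h0 hpos]
      · have hc2' : deg K c = 2 := by omega
        have hl1 := leaves_leaf hG hac heK hda
        have hl2 := leaves_leaf_del hG hac heK hda hc2'
        have h1 := ih_step hw1 (i := 1) (j := 0) (l := (leaves K).card) hc1.symm hl1
          (ih (K.erase {a, c}).card (by omega) (V.erase a) _ hG1 rfl)
        have h2 := ih_step hw1 (i := 2) (j := 0) (k := K.card) (l := (leaves K).card) (by omega) hl2
          (ih (del K c).card (by omega) _ _ hG2 rfl)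
        rw [← hA, pow_one, pow_zero, mul_one] at h1
        rw [← hA, pow_zero, mul_one] at h2
        have h3 := num_leaf
        rw [hpeel]
        nlinarith [mul_le_mul_of_nonneg_left h1 hx1, mul_le_mul_of_nonneg_left h2 hx2]
    · push Not at hL
      have hd : ∀ e ∈ K, ∀ v ∈ e, deg K v = 2 := by
        intro e he v hv
        have h1 := hL e he v hv
        have h2 := deg_pos he hv
        have h3 := hG.deg_le v
        omega
      obtain ⟨e, heK⟩ := hK
      obtain ⟨a, hae⟩ : e.Nonempty := by
        rw [← Finset.card_pos, h2e e heK]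
        norm_num
      obtain ⟨c, hac, rfl⟩ := pair_form (h2e e heK) hae
      obtain ⟨f, hfK, hfe, haf, hfu⟩ := exists_other (hd _ heK a hae) heK hae
      obtain ⟨d, had, rfl⟩ := pair_form (h2e f hfK) haf
      have hcd : c ≠ d := by
        rintro rfl
        exact hfe rfl
      obtain ⟨hc1, hl1, hc2, hl2⟩ := cycle_counts hG h2e hd hac had hcd heK hfK
      have hpeel := peel_cycle (p := p₀) (φ := fun _ => 1) hG hac had hcd heK hfK
      change Z p₀ V K = p₀ * Z p₀ (V.erase a) (del K a) +
        (1 - p₀) * p₀ ^ 2 * Z p₀ (((V.erase a).erase c).erase d) (del (del K c) d) at hpeel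
      have hG2 : Good (((V.erase a).erase c).erase d) (del (del K c) d) := by
        refine hG.mono ?_ fun g hg y hy => ?_
        · intro g hg
          rw [mem_del, mem_del] at hg
          exact hg.1.1
        · rw [mem_del, mem_del] at hg
          rw [Finset.mem_erase, Finset.mem_erase, Finset.mem_erase]
          refine ⟨?_, ?_, ?_, hG.sub g hg.1.1 hy⟩
          · rintro rfl
            exact hg.2 hy
          · rintro rfl
            exact hg.1.2 hy
          · rintro rfl
            rcases hfu g hg.1.1 hy with h | h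
            · apply hg.1.2
              rw [h]
              simp
            · apply hg.2
              rw [h]
              simp
      have hx1 : 0 ≤ p₀ := by linarith
      have hx2 : 0 ≤ (1 - p₀) * p₀ ^ 2 := by
        have : 0 ≤ 1 - p₀ := by linarith
        positivity
      have h1 := ih_step hw1 (i := 2) (j := 2) (l := (leaves K).card) hc1.symm (by omega)
        (ih (del K a).card (by omega) (V.erase a) _ (hG.del a) rfl)
      have h2 := ih_step hw1 (i := 4) (j := 2) (l := (leaves K).card) hc2.symm (by omega)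
        (ih (del (del K c) d).card (by omega) _ _ hG2 rfl)
      rw [← hA] at h1 h2
      have h3 := num_cycle
      rw [← hw] at h3
      have hw2 : 0 < w ^ 2 := by positivity
      have h4 : w ^ 2 ≤ (A * Z p₀ V K) * w ^ 2 := by
        rw [hpeel]
        nlinarith [mul_le_mul_of_nonneg_left h1 hx1, mul_le_mul_of_nonneg_left h2 hx2]
      by_contra hc
      push Not at hc
      nlinarith
  exact hmain K.card V K hG rfl

theorem Z_lower {V : Finset α} {K : Finset (Finset α)} (hG : Good V K) :
    (2 : ℝ) ^ (-((K.card : ℝ) + (2 / 9) * (leaves K).card)) ≤ Z p₀ V K := by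
  have h := Z_lower_aux hG
  have h1 : (2 : ℝ) ^ ((K.card : ℝ) + (2 / 9) * (leaves K).card) =
      (2 : ℝ) ^ K.card * ((2 : ℝ) ^ ((2 : ℝ) / 9)) ^ (leaves K).card := by
    rw [Real.rpow_add (by norm_num), Real.rpow_natCast, Real.rpow_mul (by norm_num),
      Real.rpow_natCast]
  rw [← h1] at h
  have h2 : 0 < (2 : ℝ) ^ ((K.card : ℝ) + (2 / 9) * (leaves K).card) := by positivity
  rw [Real.rpow_neg (by norm_num)]
  rw [inv_le_iff_one_le_mul₀ h2]
  linarith

end Pool.MP_38cb75_co.GT
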